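import Pool.Agent.MP_6c3157_co.LG.Spec

/-! Project LG: the mean of a product of periodic functions over an interval. -/

set_option autoImplicit false

noncomputable section

namespace Pool.Agent.MP_6c3157_co.LG

open Finset

namespace Box

theorem av_mem {d : ℕ} {h : ℕ → ℝ} (hd : 0 < d) (h01 : ∀ u, 0 ≤ h u ∧ h u ≤ 1) :
    0 ≤ av d h ∧ av d h ≤ 1 := by
  have hd' : (0 : ℝ) < d := by exact_mod_cast hd
  refine ⟨div_nonneg (sum_nonneg fun u _ => (h01 u).1) hd'.le, (div_le_one hd').2 ?_⟩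
  refine (sum_le_sum fun u _ => (h01 u).2).trans (le_of_eq ?_)
  simp

theorem sum_per {d : ℕ} {h : ℕ → ℝ} (hp : Function.Periodic h d) (q r : ℕ) :
    ∑ u ∈ range (d * q + r), h u = q * ∑ u ∈ range d, h u + ∑ u ∈ range r, h u := by
  induction q with
  | zero => simp
  | succ q ih =>
    have e : ∀ x, h (d + x) = h x := fun x => by rw [add_comm]; exact hp x
    rw [show d * (q + 1) + r = d + (d * q + r) by ring, sum_range_add]
    simp only [e]
    rw [ih]
    push_cast
    ring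

theorem base {d : ℕ} {h : ℕ → ℝ} (hp : Function.Periodic h d) (hd : 0 < d)
    (h01 : ∀ u, 0 ≤ h u ∧ h u ≤ 1) (N : ℕ) : |∑ u ∈ range N, h u - N * av d h| ≤ d := by
  have hd' : (0 : ℝ) < d := by exact_mod_cast hd
  obtain ⟨q, r, hr, rfl⟩ : ∃ q r, r < d ∧ N = d * q + r :=
    ⟨N / d, N % d, Nat.mod_lt _ hd, (Nat.div_add_mod N d).symm⟩
  have hr' : (r : ℝ) ≤ d := by exact_mod_cast hr.le
  have e : ((d * q + r : ℕ) : ℝ) * av d h = q * ∑ u ∈ range d, h u + r * av d h := by
    unfold av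
    push_cast
    field_simp
  have a0 : 0 ≤ ∑ u ∈ range r, h u := sum_nonneg fun u _ => (h01 u).1
  have a1 : ∑ u ∈ range r, h u ≤ r :=
    (sum_le_sum fun u _ => (h01 u).2).trans (le_of_eq (by simp))
  obtain ⟨b0, b1⟩ := av_mem hd h01
  have c0 : 0 ≤ r * av d h := by positivity
  have c1 : r * av d h ≤ r := mul_le_of_le_one_right (Nat.cast_nonneg r) b1
  rw [sum_per hp, e, abs_le]
  constructor <;> linarith

theorem crt {d p : ℕ} {f g : ℕ → ℝ} (hf : Function.Periodic f d) (hg : Function.Periodic g p)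
    (hd : 0 < d) (hp : 0 < p) (co : Nat.Coprime d p) :
    av (d * p) (fun u => f u * g u) = av d f * av p g := by
  have e : ∑ u ∈ range (d * p), f u * g u = ∑ x ∈ range d ×ˢ range p, f x.1 * g x.2 := by
    refine sum_nbij (fun u => (u % d, u % p)) (fun u _ => ?_) (fun u hu v hv e => ?_)
      (fun x hx => ?_) (fun u _ => ?_)
    · exact mem_product.2 ⟨mem_range.2 (Nat.mod_lt _ hd), mem_range.2 (Nat.mod_lt _ hp)⟩
    · have e' : u ≡ v [MOD d * p] := (Nat.modEq_and_modEq_iff_modEq_mul co).1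
        ⟨(Prod.ext_iff.1 e).1, (Prod.ext_iff.1 e).2⟩
      exact Nat.ModEq.eq_of_lt_of_lt e' (mem_range.1 (mem_coe.1 hu)) (mem_range.1 (mem_coe.1 hv))
    · obtain ⟨x1, x2⟩ := mem_product.1 (mem_coe.1 hx)
      refine ⟨Nat.chineseRemainder co x.1 x.2, mem_coe.2 (mem_range.2
        (Nat.chineseRemainder_lt_mul co _ _ hd.ne' hp.ne')), Prod.ext ?_ ?_⟩
      · exact Eq.trans (Nat.chineseRemainder co x.1 x.2).2.1 (Nat.mod_eq_of_lt (mem_range.1 x1))
      · exact Eq.trans (Nat.chineseRemainder co x.1 x.2).2.2 (Nat.mod_eq_of_lt (mem_range.1 x2))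
    · rw [hf.map_mod_nat, hg.map_mod_nat]
  unfold av
  rw [e, sum_product, ← sum_mul_sum, div_mul_div_comm, Nat.cast_mul]

theorem gen (z N : ℕ) (t : ℕ → ℕ → ℝ) (hz : 1 ≤ z) (P : Finset ℕ) :
    (∀ p ∈ P, p.Prime ∧ p ≤ z) →
    (∀ p ∈ P, Function.Periodic (t p) p ∧ (∀ u, 0 ≤ t p u ∧ t p u ≤ 1) ∧ av p (t p) ≤ 2 / p) →
    ∀ (k d : ℕ) (h : ℕ → ℝ), Function.Periodic h d → (∀ u, 0 ≤ h u ∧ h u ≤ 1) → 0 < d →
      (∀ p ∈ P, Nat.Coprime d p) →
      |∑ u ∈ range N, h u * ∏ p ∈ P, (1 - t p u) - N * av d h * ∏ p ∈ P, (1 - av p (t p))| ≤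
        (2 * (N * av d h) / 2 ^ k + d * (z : ℝ) ^ (2 * k)) * ∏ p ∈ P, (1 + 4 / (p : ℝ)) := by
  have hz' : (1 : ℝ) ≤ z := by exact_mod_cast hz
  induction P using Finset.induction_on with
  | empty =>
    intro _ _ k d h hp h01 hd _
    simp only [prod_empty, mul_one]
    have a := (av_mem hd h01).1
    have b : (d : ℝ) ≤ d * (z : ℝ) ^ (2 * k) :=
      le_mul_of_one_le_right (Nat.cast_nonneg d) (one_le_pow₀ hz')
    have c : 0 ≤ 2 * (N * av d h) / 2 ^ k := by positivity
    linarith [base hp hd h01 N]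
  | insert p P hpP ih =>
    intro h1 h2 k d h hp h01 hd hc
    have a := (av_mem hd h01).1
    rcases k with _ | k
    · have b1 : 0 ≤ ∑ u ∈ range N, h u * ∏ q ∈ insert p P, (1 - t q u) :=
        sum_nonneg fun u _ => mul_nonneg (h01 u).1
          (prod_nonneg fun q hq => sub_nonneg.2 ((h2 q hq).2.1 u).2)
      have b2 : ∑ u ∈ range N, h u * ∏ q ∈ insert p P, (1 - t q u) ≤ ∑ u ∈ range N, h u :=
        sum_le_sum fun u _ => mul_le_of_le_one_right (h01 u).1
          (prod_le_one (fun q hq => sub_nonneg.2 ((h2 q hq).2.1 u).2)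
            fun q hq => sub_le_self _ ((h2 q hq).2.1 u).1)
      have b3 := (abs_le.1 (base hp hd h01 N)).2
      have m : ∀ q ∈ insert p P, 0 ≤ av q (t q) ∧ av q (t q) ≤ 1 :=
        fun q hq => av_mem (h1 q hq).1.pos (h2 q hq).2.1
      have b0 : 0 ≤ N * av d h := by positivity
      have b4 : 0 ≤ N * av d h * ∏ q ∈ insert p P, (1 - av q (t q)) :=
        mul_nonneg b0 (prod_nonneg fun q hq => sub_nonneg.2 (m q hq).2)
      have b5 : N * av d h * ∏ q ∈ insert p P, (1 - av q (t q)) ≤ N * av d h :=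
        mul_le_of_le_one_right b0 (prod_le_one (fun q hq => sub_nonneg.2 (m q hq).2)
          fun q hq => sub_le_self _ (m q hq).1)
      have b6 : (1 : ℝ) ≤ ∏ q ∈ insert p P, (1 + 4 / (q : ℝ)) :=
        one_le_prod fun q _ => le_add_of_nonneg_right (by positivity)
      have b7 : (0 : ℝ) ≤ d := Nat.cast_nonneg d
      refine le_trans ?_ (le_mul_of_one_le_right (by positivity) b6)
      rw [abs_le]
      simp only [pow_zero, mul_zero, div_one, mul_one]
      constructor <;> linarith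
    · obtain ⟨pp, pz⟩ := h1 p (mem_insert_self _ _)
      obtain ⟨tp, t01, ta⟩ := h2 p (mem_insert_self _ _)
      have ih' := ih (fun q hq => h1 q (mem_insert_of_mem hq))
        (fun q hq => h2 q (mem_insert_of_mem hq))
      have i1 := ih' (k + 1) d h hp h01 hd (fun q hq => hc q (mem_insert_of_mem hq))
      have i2 := ih' k (d * p) (fun u => h u * t p u)
        (fun u => by
          have e1 : h (u + d * p) = h u := by
            have := hp.nat_mul p u
            rwa [Nat.cast_id, mul_comm] at this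
          have e2 : t p (u + d * p) = t p u := by
            have := tp.nat_mul d u
            rwa [Nat.cast_id] at this
          simp only [e1, e2])
        (fun u => ⟨mul_nonneg (h01 u).1 (t01 u).1, mul_le_one₀ (h01 u).2 (t01 u).1 (t01 u).2⟩)
        (Nat.mul_pos hd pp.pos)
        (fun q hq => Nat.Coprime.mul_left (hc q (mem_insert_of_mem hq))
          ((Nat.coprime_primes pp (h1 q (mem_insert_of_mem hq)).1).2 fun e => hpP (e ▸ hq)))
      rw [crt hp tp hd pp.pos (hc p (mem_insert_self _ _))] at i2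
      have p0 : (0 : ℝ) < p := by exact_mod_cast pp.pos
      have pz' : (p : ℝ) ≤ z := by exact_mod_cast pz
      have Pi0 : (0 : ℝ) ≤ ∏ q ∈ P, (1 + 4 / (q : ℝ)) := prod_nonneg fun q _ => by positivity
      have e : ∑ u ∈ range N, h u * ∏ q ∈ insert p P, (1 - t q u) -
          N * av d h * ∏ q ∈ insert p P, (1 - av q (t q)) =
          (∑ u ∈ range N, h u * ∏ q ∈ P, (1 - t q u) - N * av d h * ∏ q ∈ P, (1 - av q (t q))) -
          (∑ u ∈ range N, h u * t p u * ∏ q ∈ P, (1 - t q u) -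
            N * (av d h * av p (t p)) * ∏ q ∈ P, (1 - av q (t q))) := by
        have e1 : ∑ u ∈ range N, h u * ∏ q ∈ insert p P, (1 - t q u) =
            ∑ u ∈ range N, h u * ∏ q ∈ P, (1 - t q u) -
              ∑ u ∈ range N, h u * t p u * ∏ q ∈ P, (1 - t q u) := by
          rw [← sum_sub_distrib]
          exact sum_congr rfl fun u _ => by rw [prod_insert hpP]; ring
        rw [e1, prod_insert hpP]
        ring
      have c1 : 2 * (N * (av d h * av p (t p))) / 2 ^ k ≤
          2 * (N * av d h) / 2 ^ (k + 1) * (4 / p) := by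
        calc 2 * (N * (av d h * av p (t p))) / 2 ^ k ≤ 2 * (N * (av d h * (2 / p))) / 2 ^ k := by
              gcongr
          _ = _ := by field_simp; ring
      have c2 : ((d * p : ℕ) : ℝ) * (z : ℝ) ^ (2 * k) ≤ d * (z : ℝ) ^ (2 * (k + 1)) * (4 / p) := by
        have c3 : (p : ℝ) ≤ (z : ℝ) ^ 2 * (4 / p) := by
          rw [← mul_div_assoc, le_div_iff₀ p0]
          nlinarith
        calc ((d * p : ℕ) : ℝ) * (z : ℝ) ^ (2 * k) = d * (z : ℝ) ^ (2 * k) * p := by
              push_cast; ring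
          _ ≤ d * (z : ℝ) ^ (2 * k) * ((z : ℝ) ^ 2 * (4 / p)) := by gcongr
          _ = _ := by ring
      rw [e, prod_insert hpP]
      refine (abs_sub _ _).trans ((add_le_add i1 i2).trans ?_)
      rw [← add_mul, ← mul_assoc _ (1 + 4 / (p : ℝ))]
      refine mul_le_mul_of_nonneg_right ?_ Pi0
      linarith [c1, c2]

end Box

theorem box_s : BOX := by
  intro P z N k t hz h1 h2
  have := Box.gen z N t hz P h1 h2 k 1 (fun _ => 1) (fun _ => rfl) (fun _ => ⟨zero_le_one, le_rfl⟩)
    one_pos (fun p _ => Nat.coprime_one_left p)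
  have e : av 1 (fun _ => (1 : ℝ)) = 1 := by simp [av]
  simpa only [e, one_mul, mul_one, Nat.cast_one, er] using this

end Pool.Agent.MP_6c3157_co.LG
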