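import Pool.Agent.MP_6c3157_co.LG.Spec

/-! Project LG: covariances along one row. -/

set_option autoImplicit false

noncomputable section

namespace Pool.Agent.MP_6c3157_co.LG

open Finset

namespace Cov

/-- the local weight -/
def tw (c : ℕ) (y : ℕ × ℕ) (p u : ℕ) : ℝ := if p ∣ qq (u, c) y then 1 / 2 else 0

theorem dvd_qq {p u c : ℕ} {y : ℕ × ℕ} :
    p ∣ qq (u, c) y ↔ (p : ℤ) ∣ ((u : ℤ) - y.1) ^ 2 + ((c : ℤ) - y.2) ^ 2 := by
  rw [← Int.natCast_dvd_natCast, qq_cast]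

theorem tw_per (c : ℕ) (y : ℕ × ℕ) (p : ℕ) : Function.Periodic (tw c y p) p := by
  intro u
  have e : (((u + p : ℕ) : ℤ) - y.1) ^ 2 + ((c : ℤ) - y.2) ^ 2 =
      ((u : ℤ) - y.1) ^ 2 + ((c : ℤ) - y.2) ^ 2 + p * (2 * ((u : ℤ) - y.1) + p) := by
    push_cast; ring
  simp only [tw, dvd_qq, e, dvd_add_left (dvd_mul_right (p : ℤ) _)]

theorem tw_bd (c : ℕ) (y : ℕ × ℕ) (p u : ℕ) : 0 ≤ tw c y p u ∧ tw c y p u ≤ 1 / 2 := by
  unfold tw
  split_ifs <;> norm_num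

theorem eq_of_dvd {p a b : ℕ} (ha : a < p) (hb : b < p) (h : (p : ℤ) ∣ (b : ℤ) - a) : a = b :=
  (Nat.modEq_iff_dvd.2 h).eq_of_lt_of_lt ha hb

theorem card_res (c : ℕ) (y : ℕ × ℕ) {p : ℕ} (hp : p.Prime) :
    ((range p).filter fun u => p ∣ qq (u, c) y).card ≤ 2 := by
  by_contra hn
  obtain ⟨a, b, d, ha, hb, hd, h1, h2, h3⟩ := two_lt_card_iff.1 (not_le.1 hn)
  simp only [mem_filter, mem_range, dvd_qq] at ha hb hd
  have key : ∀ v : ℕ, v < p → (p : ℤ) ∣ ((v : ℤ) - y.1) ^ 2 + ((c : ℤ) - y.2) ^ 2 → a ≠ v →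
      (p : ℤ) ∣ (v : ℤ) + a - 2 * y.1 := by
    intro v hv h hne
    have h4 : (p : ℤ) ∣ ((v : ℤ) - a) * ((v : ℤ) + a - 2 * y.1) :=
      (dvd_sub h ha.2).trans (dvd_of_eq (by ring))
    exact ((Nat.prime_iff_prime_int.1 hp).dvd_or_dvd h4).resolve_left
      fun h5 => hne (eq_of_dvd ha.1 hv h5)
  exact h3 (eq_of_dvd hb.1 hd.1
    ((dvd_sub (key d hd.1 hd.2 h2) (key b hb.1 hb.2 h1)).trans (dvd_of_eq (by ring))))

theorem av_tw (c : ℕ) (y : ℕ × ℕ) {p : ℕ} (hp : p.Prime) :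
    0 ≤ av p (tw c y p) ∧ av p (tw c y p) ≤ 1 / p := by
  have h1 : (((range p).filter fun u => p ∣ qq (u, c) y).card : ℝ) ≤ 2 := by
    exact_mod_cast card_res c y hp
  refine ⟨div_nonneg (sum_nonneg fun u _ => (tw_bd c y p u).1) (Nat.cast_nonneg _),
    div_le_div_of_nonneg_right ?_ (Nat.cast_nonneg _)⟩
  simp only [tw]
  rw [← sum_filter, sum_const, nsmul_eq_mul]
  linarith

theorem prod_le (P : Finset ℕ) (a a' b : ℕ → ℝ)
    (h : ∀ p ∈ P, (0 ≤ a p ∧ a p ≤ 1) ∧ (0 ≤ a' p ∧ a' p ≤ 1) ∧ 0 ≤ b p ∧ a' p ≤ a p + b p) :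
    ∏ p ∈ P, a' p ≤ ∏ p ∈ P, a p + ∑ p ∈ P, b p := by
  induction P using Finset.induction_on with
  | empty => simp
  | insert q P hq ih =>
    have h1 := fun p hp => h p (mem_insert_of_mem hp)
    obtain ⟨⟨h2, h3⟩, -, h4, h5⟩ := h q (mem_insert_self _ _)
    have h6 := ih h1
    have h7 : 0 ≤ ∏ p ∈ P, a' p := prod_nonneg fun p hp => (h1 p hp).2.1.1
    have h8 : ∏ p ∈ P, a' p ≤ 1 := prod_le_one (fun p hp => (h1 p hp).2.1.1)
      fun p hp => (h1 p hp).2.1.2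
    have h9 : 0 ≤ ∑ p ∈ P, b p := sum_nonneg fun p hp => (h1 p hp).2.2.1
    rw [prod_insert hq, prod_insert hq, sum_insert hq]
    have e1 := mul_le_mul_of_nonneg_right h5 h7
    have e2 := mul_le_mul_of_nonneg_left h6 h2
    have e3 := mul_le_mul_of_nonneg_left h8 h4
    have e4 := mul_le_mul_of_nonneg_right h3 h9
    linarith

theorem card_primes (P : Finset ℕ) (hP : ∀ p ∈ P, p.Prime) {N m : ℕ} (hN : 3 ≤ N) (hm : m ≠ 0)
    (h : m ≤ 8 * N ^ 4) : ((P.filter fun p => p ∣ m).card : ℝ) ≤ 9 * Real.log N := by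
  have h1 : ∏ p ∈ P.filter (fun p => p ∣ m), p ∣ m :=
    prod_primes_dvd m (fun p hp => (hP p (mem_filter.1 hp).1).prime) fun p hp => (mem_filter.1 hp).2
  have h2 : 2 ^ (P.filter fun p => p ∣ m).card ≤ ∏ p ∈ P.filter (fun p => p ∣ m), p :=
    pow_card_le_prod _ _ _ fun p hp => (hP p (mem_filter.1 hp).1).two_le
  have h3 : 8 * N ^ 4 ≤ N ^ 6 := by
    calc 8 * N ^ 4 ≤ N ^ 2 * N ^ 4 := Nat.mul_le_mul_right _ (by nlinarith)
      _ = N ^ 6 := by ring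
  have h4 : (2 : ℝ) ^ (P.filter fun p => p ∣ m).card ≤ (N : ℝ) ^ 6 := by
    exact_mod_cast h2.trans ((Nat.le_of_dvd (Nat.pos_of_ne_zero hm) h1).trans (h.trans h3))
  have h5 := Real.log_le_log (by positivity) h4
  rw [Real.log_pow, Real.log_pow] at h5
  have h6 := Real.log_two_gt_d9
  have h7 : (0 : ℝ) ≤ (P.filter fun p => p ∣ m).card := Nat.cast_nonneg _
  have h8 := mul_le_mul_of_nonneg_left (show (2 / 3 : ℝ) ≤ Real.log 2 by linarith) h7
  push_cast at h5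
  linarith

theorem exists_res {N c : ℕ} (hc : c < N) {y y' : ℕ × ℕ} (hy : y ∈ box N) (hy' : y' ∈ box N)
    (h : ¬ (y'.1 = y.1 ∧ (y'.2 = y.2 ∨ y'.2 + y.2 = 2 * c))) :
    ∃ m : ℕ, m ≠ 0 ∧ m ≤ 8 * N ^ 4 ∧
      ∀ p u : ℕ, p ∣ qq (u, c) y → p ∣ qq (u, c) y' → p ∣ m := by
  rw [mem_box] at hy hy'
  obtain ⟨g, hg⟩ : ∃ g : ℤ, g = (y'.1 : ℤ) - y.1 := ⟨_, rfl⟩
  obtain ⟨b, hb⟩ : ∃ b : ℤ, b = (c : ℤ) - y.2 := ⟨_, rfl⟩
  obtain ⟨d, hd⟩ : ∃ d : ℤ, d = (c : ℤ) - y'.2 := ⟨_, rfl⟩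
  refine ⟨((g ^ 2 + d ^ 2 - b ^ 2) ^ 2 + 4 * (g * b) ^ 2).natAbs, ?_, ?_, ?_⟩
  · rw [Int.natAbs_ne_zero]
    intro h0
    have a1 := sq_nonneg (g * b)
    have a2 := sq_nonneg (g ^ 2 + d ^ 2 - b ^ 2)
    have h1 : g ^ 2 + d ^ 2 - b ^ 2 = 0 := (pow_eq_zero_iff two_ne_zero).1 (by linarith)
    have h2 : g * b = 0 := (pow_eq_zero_iff two_ne_zero).1 (by linarith)
    have h3 : g = 0 := by
      rcases mul_eq_zero.1 h2 with h3 | h3
      · exact h3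
      · rw [h3] at h1
        exact (pow_eq_zero_iff two_ne_zero).1 (by linarith [sq_nonneg g, sq_nonneg d])
    have h4 : d = b ∨ d = -b := sq_eq_sq_iff_eq_or_eq_neg.1 (by rw [h3] at h1; linarith)
    exact h (by omega)
  · have h1 : g ^ 2 ≤ (N : ℤ) ^ 2 := sq_le_sq' (by omega) (by omega)
    have h2 : b ^ 2 ≤ (N : ℤ) ^ 2 := sq_le_sq' (by omega) (by omega)
    have h3 : d ^ 2 ≤ (N : ℤ) ^ 2 := sq_le_sq' (by omega) (by omega)
    have h4 : (g ^ 2 + d ^ 2 - b ^ 2) ^ 2 ≤ (2 * (N : ℤ) ^ 2) ^ 2 :=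
      sq_le_sq' (by linarith [sq_nonneg g, sq_nonneg d, sq_nonneg (N : ℤ)])
        (by linarith [sq_nonneg b])
    have h5 := mul_le_mul h1 h2 (sq_nonneg _) (sq_nonneg _)
    rw [← Int.ofNat_le, Int.natAbs_of_nonneg (by positivity)]
    push_cast
    linarith
  · intro p u h1 h2
    rw [dvd_qq, ← hb] at h1
    rw [dvd_qq, ← hd] at h2
    rw [← Int.natCast_dvd]
    obtain ⟨w, hw⟩ : ∃ w : ℤ, w = (u : ℤ) - y.1 := ⟨_, rfl⟩
    rw [← hw] at h1
    rw [show (u : ℤ) - y'.1 = w - g by omega] at h2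
    exact (dvd_add ((dvd_sub h2 h1).mul_right (g ^ 2 + d ^ 2 - b ^ 2 + 2 * w * g))
      (h1.mul_left (4 * g ^ 2))).trans (dvd_of_eq (by ring))

end Cov

open Cov

theorem cov (h : BOX) : COV := by
  intro P z₀ z N k c hz₀ hz hN hc hP
  have hp1 : ∀ p ∈ P, (1 / p : ℝ) ≤ 1 / z₀ ∧ (2 / p : ℝ) ≤ 1 ∧ (0 : ℝ) ≤ 1 / p := fun p hp => by
    have h1 : (2 : ℝ) ≤ p := by exact_mod_cast (hP p hp).1.two_le
    exact ⟨one_div_le_one_div_of_le (by exact_mod_cast hz₀) (by exact_mod_cast (hP p hp).2.1.le),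
      (div_le_one (by linarith)).2 h1, by positivity⟩
  have e2 : ∀ p : ℕ, (2 / p : ℝ) = 2 * (1 / p) := fun p => by ring
  have hav := fun y p (hp : p ∈ P) => av_tw c y (hP p hp).1
  have hφ : ∀ y, ∀ p ∈ P, 0 ≤ 1 - av p (tw c y p) ∧ 1 - av p (tw c y p) ≤ 1 := fun y p hp => by
    have := hav y p hp
    have := hp1 p hp
    have := e2 p
    constructor <;> linarith
  have hφ0 : ∀ y, 0 ≤ ∏ p ∈ P, (1 - av p (tw c y p)) := fun y =>
    prod_nonneg fun p hp => (hφ y p hp).1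
  have hφ1 : ∀ y, ∏ p ∈ P, (1 - av p (tw c y p)) ≤ 1 := fun y =>
    prod_le_one (fun p hp => (hφ y p hp).1) fun p hp => (hφ y p hp).2
  have hPz : ∀ p ∈ P, p.Prime ∧ p ≤ z := fun p hp => ⟨(hP p hp).1, (hP p hp).2.2⟩
  have hb : ∀ y, |∑ u ∈ range N, ff P (qq (u, c) y) - N * ∏ p ∈ P, (1 - av p (tw c y p))| ≤
      er P z N k := fun y => h P z N k (tw c y) hz hPz fun p hp =>
    ⟨tw_per c y p, fun u => ⟨(tw_bd c y p u).1, by linarith [(tw_bd c y p u).2]⟩, by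
      linarith [(hav y p hp).2, e2 p, (hp1 p hp).2.2]⟩
  refine ⟨fun y => ∏ p ∈ P, (1 - av p (tw c y p)), fun y => ⟨prod_le_prod (fun p hp => by
    linarith [(hp1 p hp).2.1, (hp1 p hp).2.2, e2 p]) fun p hp => by linarith [(hav y p hp).2],
    hφ1 y⟩, fun y hy y' hy' hne => ?_⟩
  obtain ⟨m, hm0, hm1, hm⟩ := exists_res hc hy hy' hne
  let s : ℕ → ℕ → ℝ := fun p u => tw c y p u + tw c y' p u - tw c y p u * tw c y' p u
  have hs : ∀ p, av p (s p) = av p (tw c y p) + av p (tw c y' p) -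
      av p (fun u => tw c y p u * tw c y' p u) := fun p => by
    simp only [av, s, sum_sub_distrib, sum_add_distrib]
    ring
  have ht : ∀ p ∈ P, 0 ≤ av p (fun u => tw c y p u * tw c y' p u) ∧
      av p (fun u => tw c y p u * tw c y' p u) ≤ av p (tw c y p) ∧
      av p (fun u => tw c y p u * tw c y' p u) ≤ if p ∣ m then (1 / z₀ : ℝ) else 0 := by
    intro p hp
    have h1 : av p (fun u => tw c y p u * tw c y' p u) ≤ av p (tw c y p) :=
      div_le_div_of_nonneg_right (sum_le_sum fun u _ => mul_le_of_le_one_right (tw_bd c y p u).1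
        (by linarith [(tw_bd c y' p u).2])) (Nat.cast_nonneg _)
    refine ⟨div_nonneg (sum_nonneg fun u _ => mul_nonneg (tw_bd c y p u).1 (tw_bd c y' p u).1)
      (Nat.cast_nonneg _), h1, ?_⟩
    split_ifs with hd
    · exact h1.trans ((hav y p hp).2.trans (hp1 p hp).1)
    · rw [av, sum_eq_zero, zero_div]
      intro u _
      simp only [tw]
      split_ifs with h2 h3
      · exact absurd (hm p u h2 h3) hd
      all_goals simp
  have h3 := h P z N k s hz hPz fun p hp => ⟨fun u => by simp only [s, tw_per c _ p u], fun u => by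
    obtain ⟨a1, a2⟩ := tw_bd c y p u
    obtain ⟨a3, a4⟩ := tw_bd c y' p u
    have := mul_nonneg a1 a3
    have := mul_le_of_le_one_right a1 (show tw c y' p u ≤ 1 by linarith)
    simp only [s]
    constructor <;> linarith, by
    linarith [hs p, (ht p hp).1, (hav y p hp).2, (hav y' p hp).2, e2 p]⟩
  have e3 : ∀ u, ∏ p ∈ P, (1 - s p u) = ff P (qq (u, c) y) * ff P (qq (u, c) y') := fun u => by
    rw [ff, ff, ← prod_mul_distrib]
    refine prod_congr rfl fun p _ => ?_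
    simp only [s, tw]
    ring
  have h4 := prod_le P (fun p => (1 - av p (tw c y p)) * (1 - av p (tw c y' p)))
    (fun p => 1 - av p (s p)) (fun p => if p ∣ m then (1 / z₀ : ℝ) else 0) fun p hp => by
      obtain ⟨a1, a2, a3⟩ := ht p hp
      have a4 := mul_nonneg (hav y p hp).1 (hav y' p hp).1
      refine ⟨⟨mul_nonneg (hφ y p hp).1 (hφ y' p hp).1,
        mul_le_one₀ (hφ y p hp).2 (hφ y' p hp).1 (hφ y' p hp).2⟩, ⟨?_, ?_⟩, a1.trans a3, ?_⟩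
      · linarith [hs p, (hav y p hp).2, (hav y' p hp).2, e2 p, (hp1 p hp).2.1]
      · linarith [hs p, (hav y' p hp).1]
      · linarith [hs p]
  rw [prod_mul_distrib, ← sum_filter, sum_const, nsmul_eq_mul] at h4
  have h5 := mul_le_mul_of_nonneg_right (card_primes P (fun p hp => (hP p hp).1) hN hm0 hm1)
    (show (0 : ℝ) ≤ 1 / z₀ by positivity)
  simp only [e3] at h3
  have h6 := mul_le_mul_of_nonneg_left (h4.trans (add_le_add le_rfl h5)) (Nat.cast_nonneg (α := ℝ) N)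
  have h7 := mul_le_mul_of_nonneg_left (abs_le.1 (hb y)).1 (hφ0 y')
  have h8 := mul_le_mul_of_nonneg_left (abs_le.1 (hb y')).1 (hφ0 y)
  have h9 := (abs_nonneg _).trans h3
  have h10 := mul_le_mul_of_nonneg_right (hφ1 y) h9
  have h11 := mul_le_mul_of_nonneg_right (hφ1 y') h9
  simp only [sub_mul, mul_sub, sum_sub_distrib, ← sum_mul, ← mul_sum, sum_const, card_range,
    nsmul_eq_mul]
  rw [div_eq_mul_one_div]
  linarith [(abs_le.1 h3).2]

end Pool.Agent.MP_6c3157_co.LG
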