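import Mathlib
import Pool.Agent.MP_a43263_nt.R2.Mer
import Pool.Agent.MP_ddf486_co.Grid.TwoSq

/-! Project LG: pinned distances from almost all points of a grid. Definitions and rows. -/

set_option autoImplicit false

noncomputable section

namespace Pool.Agent.MP_6c3157_co.LG

open Finset Filter

/-- the squared distance -/
def qq (x y : ℕ × ℕ) : ℕ := (((x.1 : ℤ) - y.1) ^ 2 + ((x.2 : ℤ) - y.2) ^ 2).toNat

/-- the grid -/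
def box (N : ℕ) : Finset (ℕ × ℕ) := range N ×ˢ range N

/-- the number of nonzero distances from `x` to `Y` -/
def dd (Y : Finset (ℕ × ℕ)) (x : ℕ × ℕ) : ℕ := ((Y.image (qq x)).erase 0).card

/-- the primes in `(a, b]` -/
def pr (a b : ℕ) : Finset ℕ := (Ioc a b).filter Nat.Prime

/-- the primes in `(a, b]` that are one modulo four -/
def pr1 (a b : ℕ) : Finset ℕ := (pr a b).filter fun p => p % 4 = 1

/-- the weight: one half for each prime of `P` that divides `m` -/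
def ff (P : Finset ℕ) (m : ℕ) : ℝ := ∏ p ∈ P, (1 - if p ∣ m then 1 / 2 else 0)

/-- the mean over a period -/
def av (d : ℕ) (h : ℕ → ℝ) : ℝ := (∑ u ∈ range d, h u) / d

/-- the error of the sieve, `P` the primes, `z` their bound, `k` the depth -/
def er (P : Finset ℕ) (z N k : ℕ) : ℝ := (2 * N / 2 ^ k + (z : ℝ) ^ (2 * k)) * ∏ p ∈ P, (1 + 4 / (p : ℝ))

/-- a large square factor or many prime factors in `T` -/
def Bad (T : Finset ℕ) (K t m : ℕ) : Prop :=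
  (∃ j, K < j ∧ j ^ 2 ∣ m) ∨ t ≤ (T.filter fun p => p ∣ m).card

theorem qq_comm (x y : ℕ × ℕ) : qq x y = qq y x := by
  unfold qq; congr 1; ring

theorem qq_cast (x y : ℕ × ℕ) :
    (qq x y : ℤ) = ((x.1 : ℤ) - y.1) ^ 2 + ((x.2 : ℤ) - y.2) ^ 2 :=
  Int.toNat_of_nonneg (by positivity)

theorem mem_box {N : ℕ} {x : ℕ × ℕ} : x ∈ box N ↔ x.1 < N ∧ x.2 < N := by
  simp [box]

theorem mem_pr {a b p : ℕ} : p ∈ pr a b ↔ (a < p ∧ p ≤ b) ∧ p.Prime := by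
  rw [pr, mem_filter, mem_Ioc]

theorem tau_pow {k : ℕ} (hk : k ≠ 0) (n : ℕ) : n.divisors.card ^ k ≤ (k ^ k) ^ 2 ^ k * n := by
  rcases eq_or_ne n 0 with rfl | hn
  · simp [hk]
  have h0 : ∀ e : ℕ, (e + 1) ^ k ≤ k ^ k * 2 ^ e := fun e => by
    have h1 : e + 1 ≤ k * (e / k + 1) := Nat.lt_mul_div_succ e (by omega)
    have h2 : e / k + 1 ≤ 2 ^ (e / k) := Nat.lt_two_pow_self
    refine (Nat.pow_le_pow_left (h1.trans (Nat.mul_le_mul_left _ h2)) k).trans ?_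
    rw [mul_pow, ← pow_mul]
    exact Nat.mul_le_mul_left _ (Nat.pow_le_pow_right two_pos (Nat.div_mul_le_self _ _))
  rw [Nat.card_divisors hn, ← prod_pow]
  have h1 : ∀ p ∈ n.primeFactors, (n.factorization p + 1) ^ k
      ≤ (if p < 2 ^ k then k ^ k else 1) * p ^ n.factorization p := by
    intro p hp
    have hp2 : 2 ≤ p := (Nat.prime_of_mem_primeFactors hp).two_le
    split_ifs with h
    · exact (h0 _).trans (Nat.mul_le_mul_left _ (Nat.pow_le_pow_left hp2 _))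
    · have h2 : n.factorization p + 1 ≤ 2 ^ n.factorization p := Nat.lt_two_pow_self
      refine (Nat.pow_le_pow_left h2 k).trans ?_
      rw [← pow_mul, mul_comm, pow_mul, one_mul]
      exact Nat.pow_le_pow_left (by omega) _
  refine (prod_le_prod' h1).trans ?_
  rw [prod_mul_distrib, show ∏ p ∈ n.primeFactors, p ^ n.factorization p = n from
    Nat.prod_factorization_pow_eq_self hn, prod_ite, prod_const_one, mul_one, prod_const]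
  refine Nat.mul_le_mul_right _ (Nat.pow_le_pow_right (by positivity) ?_)
  exact (card_le_card fun p hp => mem_range.2 (mem_filter.1 hp).2).trans (card_range _).le

/-- the two theorems of Mertens in the form used here -/
theorem mer1 : ∃ C : ℝ, ∀ y : ℕ, 2 ≤ y →
    Real.exp (∑ p ∈ pr 0 y, (1 : ℝ) / p) ≤ C * Real.log y :=
  Pool.Agent.MP_a43263_nt.R2.Mer.exp_sum_le

theorem mer2 : ∃ C : ℝ, 0 ≤ C ∧ ∀ a b : ℕ, 2 ≤ a → a ≤ b →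
    |∑ p ∈ pr a b, (1 : ℝ) / p - Real.log (Real.log b / Real.log a)| ≤ C / Real.log a :=
  Pool.Agent.MP_a43263_nt.R2.Mer.second

/-- a circle of squared radius `m` holds at most four times the number of divisors -/
def RTWO : Prop :=
  ∀ (x : ℕ × ℕ) (Y : Finset (ℕ × ℕ)) (m : ℕ), m ≠ 0 →
    (Y.filter fun y => qq x y = m).card ≤ 4 * m.divisors.card

/-- the mean of a product of periodic functions over an interval -/
def BOX : Prop :=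
  ∀ (P : Finset ℕ) (z N k : ℕ) (t : ℕ → ℕ → ℝ), 1 ≤ z → (∀ p ∈ P, p.Prime ∧ p ≤ z) →
    (∀ p ∈ P, Function.Periodic (t p) p ∧ (∀ u, 0 ≤ t p u ∧ t p u ≤ 1) ∧ av p (t p) ≤ 2 / p) →
    |∑ u ∈ range N, ∏ p ∈ P, (1 - t p u) - N * ∏ p ∈ P, (1 - av p (t p))| ≤ er P z N k

/-- covariances along one row -/
def COV : Prop :=
  ∀ (P : Finset ℕ) (z₀ z N k c : ℕ), 1 ≤ z₀ → 1 ≤ z → 3 ≤ N → c < N →
    (∀ p ∈ P, p.Prime ∧ z₀ < p ∧ p ≤ z) →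
    ∃ φ : ℕ × ℕ → ℝ, (∀ y, ∏ p ∈ P, (1 - 1 / (p : ℝ)) ≤ φ y ∧ φ y ≤ 1) ∧
      ∀ y ∈ box N, ∀ y' ∈ box N, ¬ (y'.1 = y.1 ∧ (y'.2 = y.2 ∨ y'.2 + y.2 = 2 * c)) →
        ∑ u ∈ range N, (ff P (qq (u, c) y) - φ y) * (ff P (qq (u, c) y') - φ y') ≤
          N * (9 * Real.log N / z₀) + 3 * er P z N k

/-- the weight is not small for most pins -/
def VAR : Prop :=
  ∀ (P : Finset ℕ) (z₀ z N k : ℕ) (Y : Finset (ℕ × ℕ)), 1 ≤ z₀ → 1 ≤ z → 3 ≤ N → Y ⊆ box N →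
    (∀ p ∈ P, p.Prime ∧ z₀ < p ∧ p ≤ z) →
    (((box N).filter fun x => ∑ y ∈ Y, ff P (qq x y) <
        Y.card * (∏ p ∈ P, (1 - 1 / (p : ℝ))) / 2).card : ℝ) *
      (Y.card * (∏ p ∈ P, (1 - 1 / (p : ℝ))) / 2) ^ 2 ≤
      N * ((Y.card : ℝ) ^ 2 * (N * (9 * Real.log N / z₀) + 3 * er P z N k) + 2 * Y.card * N)

/-- the divisor function of a sum of two squares that is not bad -/
def GOOD : Prop :=
  ∀ (z₀ z₁ X K t m : ℕ) (u v : ℤ) (Δ : ℝ), 2 ≤ z₀ → m ≠ 0 → m ≤ X → (m : ℤ) = u ^ 2 + v ^ 2 →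
    (∀ j : ℕ, 1 ≤ j → j ≤ K → ((j ^ 2).divisors.card : ℝ) ≤ Δ) →
    ¬ Bad (pr 0 z₀ ∪ pr z₁ X) K t m → (m.divisors.card : ℝ) * ff (pr1 z₀ z₁) m ≤ Δ * 2 ^ t

open Classical in
/-- bad numbers are rare -/
def DSUM : Prop :=
  ∀ (T : Finset ℕ) (X K t : ℕ) (lam : ℝ), 1 ≤ X → 1 ≤ K → 1 ≤ lam → (∀ p ∈ T, p.Prime) →
    ∑ m ∈ (Icc 1 X).filter (Bad T K t), (m.divisors.card : ℝ) ≤
      X * (1 + Real.log X) * (2 ^ 32 * (1 + Real.log X) / √K +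
        Real.exp (2 * lam * ∑ p ∈ T, (1 : ℝ) / p) / lam ^ t)

/-- the mean weight -/
def PHI : Prop :=
  ∀ z₀ z k : ℕ, 2 ≤ z₀ → 1 ≤ z →
    1 ≤ 2 * (√(1 + 2 * Real.log ((z : ℝ) ^ k)) + (∏ p ∈ pr1 z₀ z, (1 + 4 / (p : ℝ))) / 2 ^ k) *
      ∏ p ∈ pr1 z₀ z, (1 - 1 / (p : ℝ))

/-- small sets: all distances are different for most pins -/
def SMALL : Prop :=
  ∀ (N : ℕ) (Y : Finset (ℕ × ℕ)), ∃ E : Finset (ℕ × ℕ), E.card ≤ Y.card ^ 2 * N + Y.card ∧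
    ∀ x ∈ box N, x ∉ E → Y.card ≤ dd Y x

/-- iterated logarithms -/
def l1 (N : ℕ) : ℝ := Real.log N
/-- iterated logarithms -/
def l2 (N : ℕ) : ℝ := Real.log (Real.log N)
/-- iterated logarithms -/
def l3 (N : ℕ) : ℝ := Real.log (Real.log (Real.log N))
/-- lower end of the primes -/
def z0 (a N : ℕ) : ℕ := ⌈l1 N ^ (a + 4)⌉₊
/-- depth of the sieve -/
def kk (a N : ℕ) : ℕ := ⌈2 * (a + 7) * l2 N⌉₊
/-- upper end of the primes -/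
def z1 (a N : ℕ) : ℕ := ⌊Real.exp (l1 N / (4 * kk a N))⌋₊
/-- number of other prime factors -/
def tt (a N : ℕ) : ℕ := ⌈2 * (a + 5) * l2 N / l3 N⌉₊
/-- bound for square factors -/
def KK (a N : ℕ) : ℕ := ⌈l1 N ^ (2 * a + 10)⌉₊

/-- numerical facts, sieve -/
def NUMA : Prop :=
  ∀ a : ℕ, ∀ᶠ N : ℕ in atTop, 3 ≤ N ∧ 2000 ≤ l1 N ∧ 2 ≤ z0 a N ∧ 1 ≤ z1 a N ∧
    (z1 a N : ℝ) ^ kk a N ≤ N ∧ 9 * l1 N / z0 a N ≤ 1 / l1 N ^ (a + 2) ∧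
    er (pr 0 (z1 a N)) (z1 a N) N (kk a N) ≤ N / l1 N ^ (a + 2) ∧
    (l1 N ^ (a + 2)) ^ 2 * N + l1 N ^ (a + 2) ≤ (N : ℝ) ^ 2 / l1 N ^ a

/-- numerical facts, bad numbers -/
def NUMB : Prop :=
  ∀ a : ℕ, ∀ᶠ N : ℕ in atTop, 1 ≤ KK a N ∧ 1 ≤ √(l2 N) ∧
    1 + 4 * (((2 * N ^ 2 : ℕ) : ℝ) * (1 + Real.log (2 * N ^ 2 : ℕ)) *
      (2 ^ 32 * (1 + Real.log (2 * N ^ 2 : ℕ)) / √(KK a N) +
        Real.exp (2 * √(l2 N) * ∑ p ∈ pr 0 (z0 a N) ∪ pr (z1 a N) (2 * N ^ 2), (1 : ℝ) / p) /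
          √(l2 N) ^ tt a N)) ≤ (N : ℝ) ^ 2 / l1 N ^ (a + 2)

/-- numerical facts, the loss -/
def NUMC : Prop :=
  ∀ a : ℕ, ∃ C : ℝ, 0 ≤ C ∧ ∀ᶠ N : ℕ in atTop, 0 ≤ l2 N / l3 N ∧ ∀ j : ℕ, 1 ≤ j → j ≤ KK a N →
    96 * ((j ^ 2).divisors.card : ℝ) * 2 ^ tt a N ≤ Real.exp (C * (l2 N / l3 N))

/-- the theorem in integer coordinates -/
def GRID : Prop :=
  ∀ a : ℕ, ∃ C : ℝ, ∀ᶠ N : ℕ in atTop, 1 ≤ l1 N ∧ ∀ Y ⊆ box N, ∃ E : Finset (ℕ × ℕ),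
    (E.card : ℝ) ≤ (N : ℝ) ^ 2 / l1 N ^ a ∧ ∀ x ∈ box N, x ∉ E →
      (Y.card : ℝ) / (√(l1 N) * Real.exp (C * (l2 N / l3 N))) ≤ dd Y x

/-- the theorem -/
def MAIN : Prop :=
  ∀ A : ℝ, ∃ (C : ℝ) (N₀ : ℕ), ∀ N : ℕ, N₀ ≤ N → ∀ Y : Finset (EuclideanSpace ℝ (Fin 2)),
    (∀ y ∈ Y, ∀ i, ∃ k : ℕ, k < N ∧ y i = k) →
    ∃ E : Finset (EuclideanSpace ℝ (Fin 2)), (E.card : ℝ) ≤ (N : ℝ) ^ 2 / Real.log N ^ A ∧
      ∀ x : EuclideanSpace ℝ (Fin 2), (∀ i, ∃ k : ℕ, k < N ∧ x i = k) → x ∉ E →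
        (Y.card : ℝ) / (√(Real.log N) * Real.exp (C * (Real.log (Real.log N) /
          Real.log (Real.log (Real.log N))))) ≤ ((Y.image fun y => dist x y).erase 0).card

end Pool.Agent.MP_6c3157_co.LG
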