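import Mathlib
import Pool.Agent.MP_6c3157_co.LG.Spec

/-! Project LG: bad numbers are rare. -/

set_option autoImplicit false

noncomputable section

namespace Pool.Agent.MP_6c3157_co.LG

open Finset

namespace Dsum

theorem harm (Y : ℕ) : ∑ i ∈ Icc 1 Y, (1 : ℝ) / i ≤ 1 + Real.log Y := by
  have h := harmonic_le_one_add_log Y
  rw [harmonic_eq_sum_Icc] at h
  push_cast at h
  simpa [one_div] using h

theorem tau_sum (Y : ℕ) : ∑ i ∈ Icc 1 Y, (i.divisors.card : ℝ) ≤ Y * (1 + Real.log Y) := by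
  have h1 : ∀ i ∈ Icc 1 Y, (i.divisors.card : ℝ) = ∑ e ∈ Icc 1 Y, if e ∣ i then (1 : ℝ) else 0 := by
    intro i hi
    rw [sum_boole]
    have hi' := mem_Icc.1 hi
    have : i.divisors = (Icc 1 Y).filter fun e => e ∣ i := by
      ext e
      simp only [Nat.mem_divisors, mem_filter, mem_Icc]
      constructor
      · rintro ⟨h, h0⟩
        exact ⟨⟨Nat.pos_of_dvd_of_pos h (by omega), (Nat.le_of_dvd (by omega) h).trans hi'.2⟩, h⟩
      · rintro ⟨_, h⟩
        exact ⟨h, by omega⟩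
    rw [this]
  rw [sum_congr rfl h1, sum_comm]
  refine le_trans (sum_le_sum (g := fun e : ℕ => (Y : ℝ) * (1 / e)) fun e _ => ?_) ?_
  · rw [sum_boole]
    have h2 : Icc 1 Y = Ioc 0 Y := by ext n; simp only [mem_Icc, mem_Ioc]; omega
    rw [h2, Nat.Ioc_filter_dvd_card_eq_div, mul_one_div]
    exact Nat.cast_div_le
  · rw [← mul_sum]
    exact mul_le_mul_of_nonneg_left (harm Y) (by positivity)

theorem tau_mul (a b : ℕ) : (a * b).divisors.card ≤ a.divisors.card * b.divisors.card := by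
  rw [Nat.divisors_mul]
  exact card_mul_le

theorem mult (X q : ℕ) (hX : 1 ≤ X) (hq : 1 ≤ q) :
    ∑ m ∈ Icc 1 X, (if q ∣ m then (m.divisors.card : ℝ) else 0) ≤
      X * (1 + Real.log X) * (q.divisors.card / q) := by
  rw [← sum_filter]
  have h1 : (Icc 1 X).filter (fun m => q ∣ m) = (Icc 1 (X / q)).image fun i => q * i := by
    ext m
    simp only [mem_filter, mem_Icc, mem_image]
    constructor
    · rintro ⟨⟨h1, h2⟩, i, rfl⟩
      refine ⟨i, ⟨Nat.pos_of_mul_pos_left h1, ?_⟩, rfl⟩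
      exact (Nat.le_div_iff_mul_le hq).2 (by rwa [mul_comm])
    · rintro ⟨i, ⟨h1, h2⟩, rfl⟩
      refine ⟨⟨Nat.mul_pos hq h1, ?_⟩, dvd_mul_right _ _⟩
      rw [mul_comm]
      exact (Nat.le_div_iff_mul_le hq).1 h2
  rw [h1, sum_image fun a _ b _ h => Nat.eq_of_mul_eq_mul_left hq h]
  have hl : 0 ≤ Real.log X := Real.log_natCast_nonneg X
  have h2 : ∑ i ∈ Icc 1 (X / q), ((q * i).divisors.card : ℝ) ≤
      q.divisors.card * ∑ i ∈ Icc 1 (X / q), (i.divisors.card : ℝ) := by
    rw [mul_sum]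
    exact sum_le_sum fun i _ => by exact_mod_cast tau_mul q i
  have h3 : Real.log ((X / q : ℕ) : ℝ) ≤ Real.log X := by
    rcases Nat.eq_zero_or_pos (X / q) with h | h
    · rw [h]; simpa using hl
    · exact Real.log_le_log (by exact_mod_cast h) (by exact_mod_cast Nat.div_le_self _ _)
  have h4 : ((X / q : ℕ) : ℝ) * (1 + Real.log ((X / q : ℕ) : ℝ)) ≤ X / q * (1 + Real.log X) :=
    mul_le_mul Nat.cast_div_le (by linarith)
      (by have := Real.log_natCast_nonneg (X / q); linarith) (by positivity)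
  refine h2.trans ((mul_le_mul_of_nonneg_left ((tau_sum _).trans h4) (by positivity)).trans_eq ?_)
  ring

theorem tau_sq (j : ℕ) : ((j ^ 2).divisors.card : ℝ) ≤ 2 ^ 32 * √j := by
  have h : (((j ^ 2).divisors.card : ℝ)) ^ 4 ≤ ((4 ^ 4) ^ 2 ^ 4 * j ^ 2 : ℝ) := by
    exact_mod_cast tau_pow (k := 4) (by norm_num) (j ^ 2)
  refine le_of_pow_le_pow_left₀ (n := 4) (by norm_num) (by positivity) (h.trans_eq ?_)
  have h2 : √(j : ℝ) ^ 4 = (j : ℝ) ^ 2 := by
    rw [show 4 = 2 * 2 from rfl, pow_mul, Real.sq_sqrt (by positivity)]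
  rw [mul_pow, h2]
  norm_num

theorem sq_part (X K : ℕ) (hK : 1 ≤ K) :
    ∑ j ∈ Ioc K X, (((j ^ 2).divisors.card : ℝ) / ((j ^ 2 : ℕ) : ℝ)) ≤
      2 ^ 32 * (1 + Real.log X) / √K := by
  have hK0 : 0 < √(K : ℝ) := Real.sqrt_pos.2 (by exact_mod_cast hK)
  have h1 : ∀ j ∈ Ioc K X, (((j ^ 2).divisors.card : ℝ) / ((j ^ 2 : ℕ) : ℝ)) ≤
      2 ^ 32 / √K * (1 / j) := by
    intro j hj
    have hj' := mem_Ioc.1 hj
    have hj0 : (0 : ℝ) < j := by exact_mod_cast (by omega : 0 < j)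
    have hs : √(K : ℝ) ≤ √j := Real.sqrt_le_sqrt (by exact_mod_cast hj'.1.le)
    have hs2 : √(j : ℝ) * √K ≤ j :=
      (mul_le_mul_of_nonneg_left hs (Real.sqrt_nonneg _)).trans_eq (Real.mul_self_sqrt hj0.le)
    push_cast
    rw [div_mul_div_comm, div_le_div_iff₀ (by positivity) (by positivity)]
    have h3 := mul_le_mul_of_nonneg_right (tau_sq j) (by positivity : 0 ≤ √(K : ℝ) * j)
    have h4 := mul_le_mul_of_nonneg_right hs2 hj0.le
    nlinarith
  refine (sum_le_sum h1).trans ?_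
  rw [← mul_sum]
  have h2 : ∑ j ∈ Ioc K X, (1 : ℝ) / j ≤ ∑ j ∈ Icc 1 X, (1 : ℝ) / j :=
    sum_le_sum_of_subset_of_nonneg (fun j hj => by
      have := mem_Ioc.1 hj
      exact mem_Icc.2 ⟨by omega, this.2⟩) fun _ _ _ => by positivity
  refine (mul_le_mul_of_nonneg_left (h2.trans (harm X)) (by positivity)).trans_eq ?_
  ring

theorem tau_prod (S : Finset ℕ) (hS : ∀ p ∈ S, p.Prime) :
    (∏ p ∈ S, p).divisors.card ≤ 2 ^ S.card := by
  induction S using Finset.induction_on with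
  | empty => simp
  | insert p S hp ih =>
    rw [prod_insert hp, card_insert_of_notMem hp, pow_succ']
    refine (tau_mul _ _).trans (Nat.mul_le_mul ?_ (ih fun q hq => hS q (mem_insert_of_mem hq)))
    rw [(hS p (mem_insert_self _ _)).divisors]
    exact card_le_two

theorem pr_part (T : Finset ℕ) (t : ℕ) (lam : ℝ) (hl : 1 ≤ lam) (hT : ∀ p ∈ T, p.Prime) :
    ∑ S ∈ powersetCard t T, (((∏ p ∈ S, p).divisors.card : ℝ) / ((∏ p ∈ S, p : ℕ) : ℝ)) ≤
      Real.exp (2 * lam * ∑ p ∈ T, (1 : ℝ) / p) / lam ^ t := by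
  have hl0 : 0 < lam := by linarith
  rw [le_div_iff₀ (by positivity), sum_mul]
  have h1 : ∀ S ∈ powersetCard t T,
      (((∏ p ∈ S, p).divisors.card : ℝ) / ((∏ p ∈ S, p : ℕ) : ℝ)) * lam ^ t ≤
        ∏ p ∈ S, (2 * lam * (1 / (p : ℝ))) := by
    intro S hS
    obtain ⟨h2, h3⟩ := mem_powersetCard.1 hS
    have h4 : ((∏ p ∈ S, p).divisors.card : ℝ) ≤ 2 ^ S.card := by
      exact_mod_cast tau_prod S fun p hp => hT p (h2 hp)
    rw [prod_mul_distrib, prod_const, prod_div_distrib, prod_const_one, mul_pow, h3, Nat.cast_prod]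
    rw [h3] at h4
    have h5 := div_le_div_of_nonneg_right h4 (by positivity : 0 ≤ ∏ p ∈ S, (p : ℝ))
    refine (mul_le_mul_of_nonneg_right h5 (by positivity)).trans_eq ?_
    ring
  refine (sum_le_sum h1).trans ?_
  refine (sum_le_sum_of_subset_of_nonneg (t := T.powerset)
    (fun S hS => mem_powerset.2 (mem_powersetCard.1 hS).1)
    fun _ _ _ => prod_nonneg fun _ _ => by positivity).trans ?_
  rw [← prod_one_add, mul_sum, Real.exp_sum]
  refine prod_le_prod (fun _ _ => by positivity) fun p _ => ?_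
  rw [add_comm]
  exact Real.add_one_le_exp _

end Dsum

open Dsum

theorem dsum : DSUM := by
  classical
  intro T X K t lam hX hK hl hT
  have h1 : ∀ m ∈ Icc 1 X, (if Bad T K t m then (m.divisors.card : ℝ) else 0) ≤
      ∑ j ∈ Ioc K X, (if j ^ 2 ∣ m then (m.divisors.card : ℝ) else 0) +
        ∑ S ∈ powersetCard t T, (if (∏ p ∈ S, p) ∣ m then (m.divisors.card : ℝ) else 0) := by
    intro m hm
    have hm' := mem_Icc.1 hm
    have n1 : ∀ j ∈ Ioc K X, 0 ≤ (if j ^ 2 ∣ m then (m.divisors.card : ℝ) else 0) :=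
      fun _ _ => by split_ifs <;> positivity
    have n2 : ∀ S ∈ powersetCard t T,
        0 ≤ (if (∏ p ∈ S, p) ∣ m then (m.divisors.card : ℝ) else 0) :=
      fun _ _ => by split_ifs <;> positivity
    split_ifs with hb
    · rcases hb with ⟨j, hj, hd⟩ | hb
      · have hj2 : j ∈ Ioc K X := mem_Ioc.2 ⟨hj, (Nat.le_of_dvd (by omega)
          ((dvd_pow_self j two_ne_zero).trans hd)).trans hm'.2⟩
        have := single_le_sum n1 hj2
        rw [if_pos hd] at this
        have := sum_nonneg n2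
        linarith
      · obtain ⟨S, hS, hc⟩ := exists_subset_card_eq hb
        have hS2 : S ∈ powersetCard t T :=
          mem_powersetCard.2 ⟨hS.trans (filter_subset _ _), hc⟩
        have hd : (∏ p ∈ S, p) ∣ m :=
          Finset.prod_primes_dvd m (fun p hp => (hT p (mem_filter.1 (hS hp)).1).prime)
            fun p hp => (mem_filter.1 (hS hp)).2
        have := single_le_sum n2 hS2
        rw [if_pos hd] at this
        have := sum_nonneg n1
        linarith
    · exact add_nonneg (sum_nonneg n1) (sum_nonneg n2)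
  rw [sum_filter]
  refine (sum_le_sum h1).trans ?_
  rw [sum_add_distrib, sum_comm, sum_comm (s := Icc 1 X), mul_add]
  have hl0 : 0 ≤ (X : ℝ) * (1 + Real.log X) := by
    have := Real.log_natCast_nonneg X
    positivity
  refine add_le_add ?_ ?_
  · refine (sum_le_sum fun j hj => mult X (j ^ 2) hX
      (pow_pos (lt_of_le_of_lt (Nat.zero_le K) (mem_Ioc.1 hj).1) 2)).trans ?_
    rw [← mul_sum]
    exact mul_le_mul_of_nonneg_left (sq_part X K hK) hl0
  · refine (sum_le_sum fun S hS => mult X _ hX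
      (prod_pos fun p hp => (hT p ((mem_powersetCard.1 hS).1 hp)).pos)).trans ?_
    rw [← mul_sum]
    exact mul_le_mul_of_nonneg_left (pr_part T t lam hl hT) hl0

end Pool.Agent.MP_6c3157_co.LG
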