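import Mathlib
import Pool.Agent.MP_6c3157_co.LG.Spec

/-! Project LG, row GOOD: the divisor function of a sum of two squares that is not bad. -/

set_option autoImplicit false

namespace Pool.Agent.MP_6c3157_co.LG

open Finset

namespace GoodAux

theorem tau_sqf {a : ℕ} (ha : Squarefree a) : a.divisors.card = 2 ^ a.primeFactors.card := by
  rw [Nat.card_divisors ha.ne_zero, ← prod_const]
  refine prod_congr rfl fun p hp => ?_
  rw [Nat.factorization_eq_one_of_squarefree ha (Nat.prime_of_mem_primeFactors hp)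
    (Nat.dvd_of_mem_primeFactors hp)]

theorem ff_eq (P : Finset ℕ) (m : ℕ) :
    ff P m = (1 / 2) ^ (P.filter fun p => p ∣ m).card := by
  rw [ff, ← prod_const, prod_filter]
  refine prod_congr rfl fun p _ => ?_
  split_ifs <;> norm_num

theorem mod_ne {a j p : ℕ} {u v : ℤ} (hj : 0 < j) (ha : Squarefree a)
    (h : ((j ^ 2 * a : ℕ) : ℤ) = u ^ 2 + v ^ 2) (hp : p ∈ a.primeFactors) : p % 4 ≠ 3 := by
  intro h3
  have hpp := Nat.prime_of_mem_primeFactors hp
  have hpa := Nat.dvd_of_mem_primeFactors hp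
  have hj2 : j ^ 2 ≠ 0 := by positivity
  have h1 : j ^ 2 * a = u.natAbs ^ 2 + v.natAbs ^ 2 := by
    zify
    rw [sq_abs, sq_abs]
    exact_mod_cast h
  have h2 := Nat.eq_sq_add_sq_iff.1 ⟨_, _, h1⟩ p
    (Nat.mem_primeFactors.2 ⟨hpp, hpa.mul_left _, mul_ne_zero hj2 ha.ne_zero⟩) h3
  rw [← Nat.factorization_def _ hpp, Nat.factorization_mul hj2 ha.ne_zero, Finsupp.add_apply,
    Nat.factorization_pow, Finsupp.smul_apply,
    Nat.factorization_eq_one_of_squarefree ha hpp hpa, smul_eq_mul, Nat.even_iff] at h2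
  omega

end GoodAux

open GoodAux in
theorem good : GOOD := by
  intro z₀ z₁ X K t m u v Δ hz hm hX huv hΔ hb
  obtain ⟨a, j, -, hj, rfl, ha⟩ := Nat.sq_mul_squarefree_of_pos (Nat.pos_of_ne_zero hm)
  rw [Bad, not_or] at hb
  obtain ⟨hb1, hb2⟩ := hb
  have hjK : j ≤ K := not_lt.1 fun h => hb1 ⟨j, h, dvd_mul_right _ _⟩
  set A := (pr1 z₀ z₁).filter fun p => p ∣ j ^ 2 * a with hA
  set B := (pr 0 z₀ ∪ pr z₁ X).filter fun p => p ∣ j ^ 2 * a with hB
  have hsub : a.primeFactors ⊆ A ∪ B := fun p hp => by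
    have hpp := Nat.prime_of_mem_primeFactors hp
    have hd : p ∣ j ^ 2 * a := (Nat.dvd_of_mem_primeFactors hp).mul_left _
    have hle : p ≤ X := (Nat.le_of_dvd (Nat.pos_of_ne_zero hm) hd).trans hX
    have h3 := mod_ne hj ha huv hp
    have h0 := hpp.pos
    simp only [hA, hB, pr1, mem_union, mem_filter, mem_pr, hpp, hd, and_true]
    rcases hpp.eq_two_or_odd with h2 | h2 <;> omega
  have hc : a.primeFactors.card ≤ A.card + t :=
    ((card_le_card hsub).trans (card_union_le _ _)).trans (by omega)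
  have h1 : (j ^ 2 * a).divisors.card ≤ (j ^ 2).divisors.card * 2 ^ (A.card + t) := by
    rw [Nat.divisors_mul]
    refine card_mul_le.trans (Nat.mul_le_mul_left _ ?_)
    rw [tau_sqf ha]
    exact Nat.pow_le_pow_right two_pos hc
  have h2 : ((j ^ 2 * a).divisors.card : ℝ) ≤ Δ * 2 ^ (A.card + t) :=
    le_trans (by exact_mod_cast h1) (mul_le_mul_of_nonneg_right (hΔ j hj hjK) (by positivity))
  rw [ff_eq, ← hA]
  calc _ ≤ Δ * 2 ^ (A.card + t) * (1 / 2) ^ A.card :=
        mul_le_mul_of_nonneg_right h2 (by positivity)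
    _ = Δ * 2 ^ t := by rw [pow_add, one_div, inv_pow]; field_simp

end Pool.Agent.MP_6c3157_co.LG
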