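import Mathlib
import Pool.Agent.MP_6c3157_co.LG.Spec

/-! Project LG: numerical facts for the sieve. -/

set_option autoImplicit false

noncomputable section

namespace Pool.Agent.MP_6c3157_co.LG

open Finset Filter

namespace Numa

theorem pow_le_exp (m : ℕ) (c : ℝ) : ∀ᶠ L : ℝ in atTop, c * L ^ m ≤ Real.exp (L / 2) := by
  have h1 : Tendsto (fun x : ℝ => Real.exp x / x ^ m) atTop atTop :=
    Real.tendsto_exp_div_pow_atTop m
  have h2 : Tendsto (fun L : ℝ => L / 2) atTop atTop := tendsto_id.atTop_div_const two_pos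
  filter_upwards [(h1.comp h2).eventually_ge_atTop (c * 2 ^ m), eventually_gt_atTop 0] with L hL h0
  have h3 : (0 : ℝ) < (L / 2) ^ m := by positivity
  have h4 : c * 2 ^ m * (L / 2) ^ m ≤ Real.exp (L / 2) := (le_div_iff₀ h3).1 hL
  have h5 : c * 2 ^ m * (L / 2) ^ m = c * L ^ m := by
    rw [div_pow]; field_simp
  linarith

theorem prod_le {C : ℝ} (hC : ∀ y : ℕ, 2 ≤ y →
    Real.exp (∑ p ∈ pr 0 y, (1 : ℝ) / p) ≤ C * Real.log y) (z : ℕ) (L : ℝ) (hL : 1 ≤ L)
    (hz : Real.log z ≤ L) : ∏ p ∈ pr 0 z, (1 + 4 / (p : ℝ)) ≤ (max C 1 * L) ^ 4 := by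
  have hm : 1 ≤ max C 1 := le_max_right _ _
  have h1 : 1 ≤ max C 1 * L := by nlinarith
  by_cases h2 : 2 ≤ z
  · have h3 : ∏ p ∈ pr 0 z, (1 + 4 / (p : ℝ)) ≤ ∏ p ∈ pr 0 z, Real.exp (4 * (1 / (p : ℝ))) := by
      refine prod_le_prod (fun p _ => by positivity) fun p _ => ?_
      have := Real.add_one_le_exp (4 * (1 / (p : ℝ)))
      rw [mul_one_div] at this ⊢
      linarith
    rw [← Real.exp_sum, ← mul_sum, show (4 : ℝ) = ((4 : ℕ) : ℝ) by norm_num,
      Real.exp_nat_mul] at h3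
    refine le_trans (by exact_mod_cast h3) (pow_le_pow_left₀ (Real.exp_pos _).le ?_ 4)
    have h4 : 0 ≤ Real.log z := Real.log_natCast_nonneg z
    calc _ ≤ C * Real.log z := hC z h2
      _ ≤ max C 1 * Real.log z := mul_le_mul_of_nonneg_right (le_max_left _ _) h4
      _ ≤ max C 1 * L := mul_le_mul_of_nonneg_left hz (by linarith)
  · have : pr 0 z = ∅ := by
      refine eq_empty_of_forall_notMem fun p hp => ?_
      have h5 := mem_pr.1 hp
      have := h5.2.two_le
      omega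
    rw [this, prod_empty]
    exact one_le_pow₀ h1

end Numa

theorem numa : NUMA := by
  intro a
  obtain ⟨C, hC⟩ := mer1
  have hT : Tendsto l1 atTop atTop := Real.tendsto_log_atTop.comp tendsto_natCast_atTop_atTop
  set D := max C 1 with hD
  have hD1 : 1 ≤ D := le_max_right _ _
  filter_upwards [eventually_ge_atTop 3, hT.eventually_ge_atTop 2000,
    hT.eventually_ge_atTop (4 * D ^ 4), hT.eventually (Numa.pow_le_exp (a + 6) (2 * D ^ 4)),
    hT.eventually (Numa.pow_le_exp (3 * a + 4) 2)] with N h3 hL h4 h6 h7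
  have hN0 : (0 : ℝ) < N := by exact_mod_cast (by omega : 0 < N)
  have hN : Real.exp (l1 N) = N := Real.exp_log hN0
  have hl2 : Real.exp (l2 N) = l1 N := Real.exp_log (by unfold l1 at hL; linarith)
  set L := l1 N with hLd
  have hL1 : 1 ≤ L := by linarith
  have hL0 : 0 < L := by linarith
  have h2p : 0 < l2 N := Real.log_pos (by change 1 < L; linarith)
  have hz0 : L ^ (a + 4) ≤ z0 a N := Nat.le_ceil _
  have hk : 2 * (a + 7) * l2 N ≤ kk a N := Nat.le_ceil _
  have hk0 : 0 < kk a N := Nat.ceil_pos.2 (by positivity)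
  have hk1 : (1 : ℝ) ≤ kk a N := by exact_mod_cast hk0
  have hz1 : (z1 a N : ℝ) ≤ Real.exp (L / (4 * kk a N)) := Nat.floor_le (Real.exp_pos _).le
  have hz1' : 1 ≤ z1 a N := Nat.le_floor (by
    rw [Nat.cast_one]; exact Real.one_le_exp (by positivity))
  have hzk : (z1 a N : ℝ) ^ kk a N ≤ Real.exp (L / 4) := by
    refine (pow_le_pow_left₀ (Nat.cast_nonneg _) hz1 _).trans (le_of_eq ?_)
    rw [← Real.exp_nat_mul]; congr 1; field_simp
  have hsq : Real.exp (L / 2) * Real.exp (L / 2) = N := by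
    rw [← Real.exp_add, add_halves, hN]
  have he1 : 1 ≤ Real.exp (L / 2) := Real.one_le_exp (by positivity)
  have hLa : L ≤ L ^ (a + 4) := le_self_pow₀ hL1 (by omega)
  refine ⟨h3, hL, ?_, hz1', ?_, ?_, ?_, ?_⟩
  · have : (2 : ℝ) ≤ z0 a N := by linarith
    exact_mod_cast this
  · exact hzk.trans (hN ▸ Real.exp_le_exp.2 (by linarith))
  · have hp : 0 < L ^ (a + 2) := by positivity
    rw [div_le_div_iff₀ (by linarith) hp, one_mul]
    refine le_trans ?_ hz0
    rw [show L ^ (a + 4) = L * L * L ^ (a + 2) by ring]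
    exact mul_le_mul_of_nonneg_right (by nlinarith) hp.le
  · have hlog : Real.log (z1 a N) ≤ L := by
      have h8 : (0 : ℝ) < z1 a N := by exact_mod_cast hz1'
      refine (Real.log_le_iff_le_exp h8).2 (hz1.trans (Real.exp_le_exp.2 ?_))
      exact div_le_self hL0.le (by linarith)
    have hP := Numa.prod_le hC (z1 a N) L hL1 hlog
    have h2k : L ^ (a + 7) ≤ 2 ^ kk a N := by
      have e1 : (2 : ℝ) ^ kk a N = Real.exp (kk a N * Real.log 2) := by
        rw [Real.exp_nat_mul, Real.exp_log two_pos]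
      have e2 : L ^ (a + 7) = Real.exp (((a + 7 : ℕ) : ℝ) * l2 N) := by
        rw [Real.exp_nat_mul, hl2]
      rw [e1, e2]
      refine Real.exp_le_exp.2 ?_
      have := Real.log_two_gt_d9
      push_cast
      nlinarith
    have hz2 : (z1 a N : ℝ) ^ (2 * kk a N) ≤ Real.exp (L / 2) := by
      rw [mul_comm, pow_mul]
      refine (pow_le_pow_left₀ (by positivity) hzk 2).trans (le_of_eq ?_)
      rw [sq, ← Real.exp_add]; congr 1; ring
    have hA : 2 * (N : ℝ) / 2 ^ kk a N ≤ 2 * N / L ^ (a + 7) :=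
      div_le_div_of_nonneg_left (by positivity) (by positivity) h2k
    have hB : 2 * N / L ^ (a + 7) * (D * L) ^ 4 ≤ N / L ^ (a + 2) / 2 := by
      rw [div_mul_eq_mul_div, div_div, div_le_div_iff₀ (by positivity) (by positivity)]
      have e : 2 * (N : ℝ) * (D * L) ^ 4 * (L ^ (a + 2) * 2) = N * L ^ (a + 6) * (4 * D ^ 4) := by ring
      rw [e, show (N : ℝ) * L ^ (a + 7) = N * L ^ (a + 6) * L by ring]
      exact mul_le_mul_of_nonneg_left h4 (by positivity)
    have hE : Real.exp (L / 2) * (D * L) ^ 4 ≤ N / L ^ (a + 2) / 2 := by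
      rw [div_div, le_div_iff₀ (by positivity), ← hsq]
      have e : Real.exp (L / 2) * (D * L) ^ 4 * (L ^ (a + 2) * 2)
          = Real.exp (L / 2) * (2 * D ^ 4 * L ^ (a + 6)) := by ring
      rw [e]
      exact mul_le_mul_of_nonneg_left h6 (by positivity)
    unfold er
    calc _ ≤ (2 * N / L ^ (a + 7) + Real.exp (L / 2)) * (D * L) ^ 4 :=
          mul_le_mul (add_le_add hA hz2) hP (prod_nonneg fun p _ => by positivity) (by positivity)
      _ ≤ _ := by rw [add_mul]; linarith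
  · rw [le_div_iff₀ (by positivity)]
    have hN1 : (1 : ℝ) ≤ N := by exact_mod_cast (by omega : 1 ≤ N)
    have h8 : 2 * L ^ (3 * a + 4) ≤ N := h7.trans (by nlinarith)
    have h9 : L ^ (a + 2) * L ^ a ≤ L ^ (3 * a + 4) := by
      rw [← pow_add]; exact pow_le_pow_right₀ hL1 (by omega)
    have e : ((L ^ (a + 2)) ^ 2 * N + L ^ (a + 2)) * L ^ a
        = L ^ (3 * a + 4) * N + L ^ (a + 2) * L ^ a := by ring
    have h10 : 0 ≤ L ^ (3 * a + 4) := by positivity
    rw [e]
    nlinarith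

end Pool.Agent.MP_6c3157_co.LG
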