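import Pool.Agent.MP_6c3157_co.LG.Spec2
import Pool.Agent.MP_6c3157_co.LG.Numa

/-! Project LG: numerical facts for the sieve, uniform in the size of the exceptional set. -/

set_option autoImplicit false

noncomputable section

namespace Pool.Agent.MP_6c3157_co.LG

open Finset Filter

namespace Numa2

theorem pow_le_exp (m : ℕ) (c : ℝ) : ∀ᶠ L : ℝ in atTop, c * L ^ m ≤ Real.exp (L / 4) := by
  have h2 : Tendsto (fun L : ℝ => L / 2) atTop atTop := tendsto_id.atTop_div_const two_pos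
  filter_upwards [h2.eventually (Numa.pow_le_exp m (c * 2 ^ m))] with L hL
  rwa [mul_assoc, ← mul_pow, mul_div_cancel₀ L two_ne_zero, div_div,
    show (2 : ℝ) * 2 = 4 by norm_num] at hL

end Numa2

theorem numa2 : NUMA2 := by
  obtain ⟨C, hC⟩ := mer1
  have hT : Tendsto l1 atTop atTop := Real.tendsto_log_atTop.comp tendsto_natCast_atTop_atTop
  set D := max C 1 with hD
  have hD1 : 1 ≤ D := le_max_right _ _
  filter_upwards [eventually_ge_atTop 3, hT.eventually_ge_atTop 2000,
    hT.eventually_ge_atTop (4 * D ^ 4), hT.eventually (Numa2.pow_le_exp 6 (2 * D ^ 4)),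
    hT.eventually (Numa2.pow_le_exp 4 2)] with N h3 hL h4 h6 h7
  refine ⟨h3, hL, fun s s1 s2 => ?_⟩
  have hN0 : (0 : ℝ) < N := by exact_mod_cast (by omega : 0 < N)
  have hN : Real.exp (l1 N) = N := Real.exp_log hN0
  have hl2 : Real.exp (l2 N) = l1 N := Real.exp_log (by unfold l1 at hL; linarith)
  have hz0 : l1 N ^ 4 * Real.exp s ≤ y0 N s := Nat.le_ceil _
  have hk : 2 * (s + 7 * l2 N) ≤ ky N s := Nat.le_ceil _
  have hz1 : (y1 N s : ℝ) ≤ Real.exp (l1 N / (4 * ky N s)) := Nat.floor_le (Real.exp_pos _).le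
  set L := l1 N with hLd
  have hL1 : 1 ≤ L := by linarith
  have hL0 : 0 < L := by linarith
  have h2p : 0 < l2 N := Real.log_pos (by change 1 < L; linarith)
  have hk0 : 0 < ky N s := Nat.ceil_pos.2 (by linarith)
  have hk1 : (1 : ℝ) ≤ ky N s := by exact_mod_cast hk0
  have hz1' : 1 ≤ y1 N s := Nat.le_floor (by
    rw [Nat.cast_one]; exact Real.one_le_exp (by positivity))
  have hzk : (y1 N s : ℝ) ^ ky N s ≤ Real.exp (L / 4) := by
    refine (pow_le_pow_left₀ (Nat.cast_nonneg _) hz1 _).trans (le_of_eq ?_)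
    rw [← Real.exp_nat_mul]; congr 1; field_simp
  have hsq : Real.exp (L / 2) * Real.exp (L / 2) = N := by
    rw [← Real.exp_add, add_halves, hN]
  have hq : Real.exp (L / 4) * Real.exp (L / 4) = Real.exp (L / 2) := by
    rw [← Real.exp_add]; congr 1; ring
  have he1 : 1 ≤ Real.exp (L / 2) := Real.one_le_exp (by positivity)
  have hS3 : Real.exp s ^ 3 ≤ Real.exp (L / 4) := by
    rw [← Real.exp_nat_mul]
    refine Real.exp_le_exp.2 ?_
    push_cast
    linarith
  have h2k : Real.exp s * L ^ 7 ≤ 2 ^ ky N s := by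
    have e1 : (2 : ℝ) ^ ky N s = Real.exp (ky N s * Real.log 2) := by
      rw [Real.exp_nat_mul, Real.exp_log two_pos]
    have e2 : L ^ 7 = Real.exp (((7 : ℕ) : ℝ) * l2 N) := by rw [Real.exp_nat_mul, hl2]
    rw [e1, e2, ← Real.exp_add]
    refine Real.exp_le_exp.2 ?_
    have := Real.log_two_gt_d9
    push_cast
    nlinarith
  have hS1 : 1 ≤ Real.exp s := Real.one_le_exp (by linarith)
  rw [Real.exp_neg]
  generalize Real.exp s = S at hz0 hS3 h2k hS1 ⊢
  have hS0 : 0 < S := by linarith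
  have hS : S ≤ Real.exp (L / 4) := (le_self_pow₀ hS1 (by norm_num)).trans hS3
  have hLa : L ≤ L ^ 4 * S :=
    (le_self_pow₀ hL1 (by norm_num)).trans (le_mul_of_one_le_right (by positivity) hS1)
  have ei : S⁻¹ / L ^ 2 = 1 / (S * L ^ 2) := by field_simp
  refine ⟨?_, hz1', ?_, ?_, ?_, ?_⟩
  · have : (2 : ℝ) ≤ y0 N s := by linarith
    exact_mod_cast this
  · exact hzk.trans (hN ▸ Real.exp_le_exp.2 (by linarith))
  · rw [ei, div_le_div_iff₀ (by linarith) (by positivity), one_mul]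
    refine le_trans ?_ hz0
    rw [show L ^ 4 * S = L * L * (S * L ^ 2) by ring]
    exact mul_le_mul_of_nonneg_right (by nlinarith) (by positivity)
  · have hlog : Real.log (y1 N s) ≤ L := by
      have h8 : (0 : ℝ) < y1 N s := by exact_mod_cast hz1'
      refine (Real.log_le_iff_le_exp h8).2 (hz1.trans (Real.exp_le_exp.2 ?_))
      exact div_le_self hL0.le (by linarith)
    have hP := Numa.prod_le hC (y1 N s) L hL1 hlog
    have hz2 : (y1 N s : ℝ) ^ (2 * ky N s) ≤ Real.exp (L / 2) := by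
      rw [mul_comm, pow_mul]
      refine (pow_le_pow_left₀ (by positivity) hzk 2).trans (le_of_eq ?_)
      rw [sq, hq]
    have hA : 2 * (N : ℝ) / 2 ^ ky N s ≤ 2 * N / (S * L ^ 7) :=
      div_le_div_of_nonneg_left (by positivity) (by positivity) h2k
    have hB : 2 * N / (S * L ^ 7) * (D * L) ^ 4 ≤ N / (S * L ^ 2) / 2 := by
      rw [div_mul_eq_mul_div, div_div, div_le_div_iff₀ (by positivity) (by positivity)]
      have e : 2 * (N : ℝ) * (D * L) ^ 4 * (S * L ^ 2 * 2) = N * S * L ^ 6 * (4 * D ^ 4) := by ring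
      rw [e, show (N : ℝ) * (S * L ^ 7) = N * S * L ^ 6 * L by ring]
      exact mul_le_mul_of_nonneg_left h4 (by positivity)
    have hE : Real.exp (L / 2) * (D * L) ^ 4 ≤ N / (S * L ^ 2) / 2 := by
      rw [div_div, le_div_iff₀ (by positivity), ← hsq]
      have e : Real.exp (L / 2) * (D * L) ^ 4 * (S * L ^ 2 * 2)
          = Real.exp (L / 2) * (2 * D ^ 4 * L ^ 6 * S) := by ring
      rw [e]
      refine mul_le_mul_of_nonneg_left ?_ (by positivity)
      rw [← hq]
      exact mul_le_mul h6 hS hS0.le (by positivity)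
    rw [ei, mul_one_div]
    unfold er
    calc _ ≤ (2 * N / (S * L ^ 7) + Real.exp (L / 2)) * (D * L) ^ 4 :=
          mul_le_mul (add_le_add hA hz2) hP (prod_nonneg fun p _ => by positivity) (by positivity)
      _ ≤ _ := by rw [add_mul]; linarith
  · rw [← div_eq_inv_mul, le_div_iff₀ hS0]
    have hN1 : (1 : ℝ) ≤ N := by exact_mod_cast (by omega : 1 ≤ N)
    have h8 : 2 * L ^ 4 * S ^ 3 ≤ N :=
      (mul_le_mul h7 hS3 (by positivity) (by positivity)).trans (by rw [hq]; nlinarith)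
    have h9 : L ^ 2 * S ^ 2 ≤ L ^ 4 * S ^ 3 :=
      mul_le_mul (pow_le_pow_right₀ hL1 (by norm_num)) (pow_le_pow_right₀ hS1 (by norm_num))
        (by positivity) (by positivity)
    have e : ((S * L ^ 2) ^ 2 * N + S * L ^ 2) * S = L ^ 4 * S ^ 3 * N + L ^ 2 * S ^ 2 := by ring
    have h10 : 0 ≤ L ^ 4 * S ^ 3 := by positivity
    rw [e]
    rw [mul_assoc] at h8
    generalize L ^ 4 * S ^ 3 = W at h8 h9 h10 ⊢
    nlinarith

end Pool.Agent.MP_6c3157_co.LG
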