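import Pool.Agent.MP_6c3157_co.LG.Spec2

/-! Project LG: the numerical facts for bad numbers, uniform in `s`. -/

set_option autoImplicit false

noncomputable section

namespace Pool.Agent.MP_6c3157_co.LG

open Finset Filter

namespace Numb2

theorem t1 : Tendsto l1 atTop atTop :=
  Real.tendsto_log_atTop.comp tendsto_natCast_atTop_atTop

theorem t2 : Tendsto l2 atTop atTop := Real.tendsto_log_atTop.comp t1

theorem t3 : Tendsto l3 atTop atTop := Real.tendsto_log_atTop.comp t2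

theorem sum_le (N : ℕ) (s C₁ C₂ : ℝ)
    (h1 : ∀ y : ℕ, 2 ≤ y → Real.exp (∑ p ∈ pr 0 y, (1 : ℝ) / p) ≤ C₁ * Real.log y)
    (h0 : 0 ≤ C₂) (h2 : ∀ a b : ℕ, 2 ≤ a → a ≤ b →
      |∑ p ∈ pr a b, (1 : ℝ) / p - Real.log (Real.log b / Real.log a)| ≤ C₂ / Real.log a)
    (hL : 2 ≤ l1 N) (hu0 : 0 ≤ l2 N) (hs : l2 N ≤ s) (hs' : s ≤ l1 N / 100)
    (hu : |C₁| * 6 ≤ s) (hu' : 408 ≤ s) (hv : 2 * C₂ ≤ Real.log s) :
    ∑ p ∈ pr 0 (y0 N s) ∪ pr (y1 N s) (2 * N ^ 2), (1 : ℝ) / p ≤ 5 * Real.log s := by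
  have hL0 : 0 < l1 N := by linarith
  have hs0 : 0 < s := by linarith
  have hN : (0 : ℝ) < N := by
    rcases Nat.eq_zero_or_pos N with rfl | h
    · simp [l1] at hL; linarith
    · exact_mod_cast h
  have eL : Real.exp (l1 N) = N := Real.exp_log hN
  have ev : Real.exp (Real.log s) = s := Real.exp_log hs0
  have e2 : Real.exp (2 * Real.log s) = s * s := by rw [two_mul, Real.exp_add, ev]
  have hN1 : (1 : ℝ) ≤ N := by rw [← eL]; exact Real.one_le_exp hL0.le
  have hun : ∑ p ∈ pr 0 (y0 N s) ∪ pr (y1 N s) (2 * N ^ 2), (1 : ℝ) / p ≤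
      ∑ p ∈ pr 0 (y0 N s), (1 : ℝ) / p + ∑ p ∈ pr (y1 N s) (2 * N ^ 2), (1 : ℝ) / p := by
    rw [← sum_union_inter]
    exact le_add_of_nonneg_right (sum_nonneg fun p _ => by positivity)
  have he1 : 1 ≤ Real.exp s := Real.one_le_exp hs0.le
  have hp4 : 2 ≤ l1 N ^ 4 := hL.trans (le_self_pow₀ (by linarith) (by omega))
  have hp : 2 ≤ l1 N ^ 4 * Real.exp s := by nlinarith
  have hz0 : (2 : ℝ) ≤ y0 N s := hp.trans (Nat.le_ceil _)
  have hz0' : (y0 N s : ℝ) ≤ l1 N ^ 5 * Real.exp s := by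
    have := (Nat.ceil_lt_add_one (by linarith : 0 ≤ l1 N ^ 4 * Real.exp s)).le
    rw [show l1 N ^ 5 * Real.exp s = l1 N * (l1 N ^ 4 * Real.exp s) by ring]
    unfold y0
    nlinarith
  have hl0 : Real.log (y0 N s) ≤ 6 * s := by
    refine (Real.log_le_log (by linarith) hz0').trans ?_
    rw [Real.log_mul (by positivity) (by positivity), Real.log_pow, Real.log_exp]
    have : Real.log (l1 N) = l2 N := rfl
    rw [this]
    push_cast
    linarith
  have hl0' : 0 ≤ Real.log (y0 N s) := Real.log_nonneg (by linarith)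
  have s0 : ∑ p ∈ pr 0 (y0 N s), (1 : ℝ) / p ≤ 2 * Real.log s := by
    rw [← Real.exp_le_exp]
    refine (h1 _ (by exact_mod_cast hz0)).trans ?_
    rw [e2]
    calc C₁ * Real.log (y0 N s) ≤ |C₁| * (6 * s) :=
          mul_le_mul (le_abs_self _) hl0 hl0' (abs_nonneg _)
      _ = |C₁| * 6 * s := by ring
      _ ≤ _ := mul_le_mul_of_nonneg_right hu hs0.le
  have hk : (ky N s : ℝ) ≤ 17 * s := by
    have := (Nat.ceil_lt_add_one (by positivity : 0 ≤ 2 * (s + 7 * l2 N))).le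
    unfold ky
    linarith
  have hk1 : (1 : ℝ) ≤ ky N s := by
    refine le_trans ?_ (Nat.le_ceil _)
    linarith
  set x := l1 N / (4 * ky N s) with hx
  have hxe : x * (4 * ky N s) = l1 N := div_mul_cancel₀ _ (by linarith)
  have hx4 : 7 / 5 ≤ x := by
    rw [hx, le_div_iff₀ (by linarith)]
    linarith
  have hex : 12 / 5 ≤ Real.exp x := by linarith [Real.add_one_le_exp x]
  have hz1 : Real.exp x / 2 ≤ y1 N s := by
    have := Nat.lt_floor_add_one (Real.exp x)
    unfold y1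
    linarith
  have hz1' : (y1 N s : ℝ) ≤ N := by
    refine (Nat.floor_le (Real.exp_pos _).le).trans ?_
    refine le_trans (Real.exp_le_exp.2 ?_) eL.le
    exact div_le_self hL0.le (by linarith)
  have hl1 : x / 2 ≤ Real.log (y1 N s) := by
    refine le_trans ?_ (Real.log_le_log (by positivity) hz1)
    rw [Real.log_div (by positivity) (by norm_num), Real.log_exp]
    linarith [Real.log_two_lt_d9]
  have hW : Real.log ((2 * N ^ 2 : ℕ) : ℝ) ≤ 3 * l1 N := by
    push_cast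
    rw [Real.log_mul (by norm_num) (by positivity), Real.log_pow]
    push_cast
    unfold l1 at hL ⊢
    linarith [Real.log_two_lt_d9]
  have hle : y1 N s ≤ 2 * N ^ 2 := by
    have : (y1 N s : ℝ) ≤ 2 * (N : ℝ) ^ 2 := by nlinarith
    exact_mod_cast this
  have h2z : 2 ≤ y1 N s := Nat.le_floor (by push_cast; linarith)
  have s1 := (abs_le.1 (h2 _ _ h2z hle)).2
  have hc : C₂ / Real.log (y1 N s) ≤ 2 * C₂ := by
    rw [div_le_iff₀ (by linarith)]
    nlinarith
  have hW0 : 0 < Real.log ((2 * N ^ 2 : ℕ) : ℝ) :=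
    Real.log_pos (by exact_mod_cast (by omega : 1 < 2 * N ^ 2))
  have hq : Real.log (Real.log ((2 * N ^ 2 : ℕ) : ℝ) / Real.log (y1 N s)) ≤ 2 * Real.log s := by
    rw [Real.log_le_iff_le_exp (div_pos hW0 (by linarith)), div_le_iff₀ (by linarith), e2]
    have h3 : l1 N ≤ x * (68 * s) := by
      rw [← hxe]
      exact mul_le_mul_of_nonneg_left (by linarith) (by linarith)
    have h4 : s * s * (x / 2) ≤ s * s * Real.log (y1 N s) :=
      mul_le_mul_of_nonneg_left hl1 (by positivity)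
    have h5 : 408 * (s * x) ≤ s * (s * x) :=
      mul_le_mul_of_nonneg_right hu' (by positivity)
    nlinarith
  linarith

end Numb2

open Numb2 in
theorem numb2 : NUMB2 := by
  obtain ⟨C₁, h1⟩ := mer1
  obtain ⟨C₂, h0, h2⟩ := mer2
  have hE := (Real.tendsto_exp_div_pow_atTop 2).comp t1
  filter_upwards [t1.eventually_ge_atTop (3 * 2 ^ 39), t2.eventually_ge_atTop (|C₁| * 6),
    t2.eventually_ge_atTop 408, t3.eventually_ge_atTop (2 * C₂),
    t3.eventually_ge_atTop 96, hE.eventually_ge_atTop 3, eventually_gt_atTop 0]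
    with N hL hu hu' hv hv' hN3 hN0
  intro s hs hs'
  have hL0 : 0 < l1 N := by linarith
  have hu0 : 0 < l2 N := by linarith
  have hs0 : 0 < s := by linarith
  have hvs : l3 N ≤ Real.log s := Real.log_le_log hu0 hs
  have hS := sum_le N s C₁ C₂ h1 h0 h2 (by linarith) hu0.le hs hs' (by linarith) (by linarith)
    (by linarith)
  have hN : (1 : ℝ) ≤ N := by exact_mod_cast hN0
  have eL : Real.exp (l1 N) = N := Real.exp_log (by linarith)
  have eu : Real.exp (l2 N) = l1 N := Real.exp_log hL0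
  have ev : Real.exp (Real.log s) = s := Real.exp_log hs0
  have es : √s = Real.exp (Real.log s / 2) := by rw [Real.exp_half, ev]
  have he1 : 1 ≤ Real.exp s := Real.one_le_exp hs0.le
  have hK : l1 N ^ 10 * Real.exp (2 * s) ≤ Ky N s := Nat.le_ceil _
  have hK1 : (1 : ℝ) ≤ Ky N s :=
    (one_le_mul_of_one_le_of_one_le (one_le_pow₀ (by linarith))
      (Real.one_le_exp (by linarith))).trans hK
  refine ⟨by exact_mod_cast hK1, Real.one_le_sqrt.2 (by linarith), ?_⟩
  set S := ∑ p ∈ pr 0 (y0 N s) ∪ pr (y1 N s) (2 * N ^ 2), (1 : ℝ) / p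
  set Q := Real.exp s * l1 N ^ 2 with hQ
  have hQ0 : 0 < Q := by positivity
  have hsK : Q * l1 N ^ 3 ≤ √(Ky N s) := by
    refine Real.le_sqrt_of_sq_le (le_trans (le_of_eq ?_) hK)
    rw [hQ, two_mul, Real.exp_add]; ring
  have hst : Real.exp (6 * s) ≤ √s ^ ty s := by
    rw [es, ← Real.exp_nat_mul, Real.exp_le_exp]
    have : 12 * s / Real.log s ≤ ty s := Nat.le_ceil _
    rw [div_le_iff₀ (by linarith)] at this
    linarith
  have hsq : 10 * Real.log s ≤ √s := by
    have := Real.pow_div_factorial_le_exp (Real.log s / 2) (by linarith) 2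
    rw [← es] at this
    norm_num [Nat.factorial] at this
    nlinarith
  have hEx : Real.exp (2 * √s * S) ≤ Real.exp s := by
    rw [Real.exp_le_exp]
    have := Real.mul_self_sqrt hs0.le
    nlinarith [Real.sqrt_nonneg s]
  have hW : 1 + Real.log ((2 * N ^ 2 : ℕ) : ℝ) ≤ 4 * l1 N := by
    push_cast
    rw [Real.log_mul (by norm_num) (by positivity), Real.log_pow]
    push_cast
    unfold l1 at hL ⊢
    linarith [Real.log_two_lt_d9]
  have hW0 : 0 ≤ 1 + Real.log ((2 * N ^ 2 : ℕ) : ℝ) := by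
    linarith [Real.log_natCast_nonneg (2 * N ^ 2)]
  set W := 1 + Real.log ((2 * N ^ 2 : ℕ) : ℝ)
  have b1 : 2 ^ 32 * W / √(Ky N s) ≤ 2 ^ 32 * (4 * l1 N) / (Q * l1 N ^ 3) := by gcongr
  have b2 : Real.exp (2 * √s * S) / √s ^ ty s ≤ l1 N / (Q * l1 N ^ 3) := by
    refine le_trans (b := Real.exp s / Real.exp (6 * s)) (by gcongr) ?_
    have hLs : l1 N ≤ Real.exp s := by rw [← eu]; exact Real.exp_le_exp.2 hs
    have e6 : Real.exp (6 * s) = Real.exp s ^ 6 := by
      have := Real.exp_nat_mul s 6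
      exact_mod_cast this
    rw [div_le_div_iff₀ (by positivity) (by positivity), e6, hQ]
    calc Real.exp s * (Real.exp s * l1 N ^ 2 * l1 N ^ 3)
        = l1 N * (Real.exp s ^ 2 * l1 N ^ 4) := by ring
      _ ≤ l1 N * (Real.exp s ^ 2 * Real.exp s ^ 4) := by gcongr
      _ = _ := by ring
  have b3 : 3 * Q ≤ (N : ℝ) ^ 2 := by
    simp only [Function.comp, eL] at hN3
    rw [le_div_iff₀ (by positivity)] at hN3
    have : Real.exp s ≤ N := by rw [← eL]; exact Real.exp_le_exp.2 (by linarith)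
    calc 3 * Q = Real.exp s * (3 * l1 N ^ 2) := by rw [hQ]; ring
      _ ≤ N * N := by gcongr
      _ = _ := by ring
  have b4 : (1 : ℝ) ≤ (N : ℝ) ^ 2 / Q / 3 := by
    rw [le_div_iff₀ (by norm_num), le_div_iff₀ hQ0]; linarith
  calc _ ≤ (N : ℝ) ^ 2 / Q / 3 + 4 * (((2 * N ^ 2 : ℕ) : ℝ) * (4 * l1 N) *
        (2 ^ 32 * (4 * l1 N) / (Q * l1 N ^ 3) + l1 N / (Q * l1 N ^ 3))) := by gcongr
    _ = (N : ℝ) ^ 2 / Q * (1 / 3 + (2 ^ 39 + 32) / l1 N) := by push_cast; field_simp; ring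
    _ ≤ (N : ℝ) ^ 2 / Q * 1 := by
        refine mul_le_mul_of_nonneg_left ?_ (by positivity)
        have : (2 ^ 39 + 32) / l1 N ≤ 2 / 3 := by rw [div_le_iff₀ hL0]; linarith
        linarith
    _ = _ := by rw [hQ, Real.exp_neg]; field_simp

end Pool.Agent.MP_6c3157_co.LG
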