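import Pool.Agent.MP_6c3157_co.LG.Spec

/-! Project LG: the numerical facts on the loss. -/

set_option autoImplicit false

noncomputable section

namespace Pool.Agent.MP_6c3157_co.LG

open Finset Filter Real

namespace Numc

theorem root {v : ℝ} (hv : 64 ≤ v) : exp (v / 2) * v ≤ exp v / v := by
  have h1 : (v / 8) ^ 4 ≤ exp (v / 2) := by
    rw [show v / 2 = (4 : ℕ) * (v / 8) by push_cast; ring, exp_nat_mul]
    exact pow_le_pow_left₀ (by positivity) (by linarith [add_one_le_exp (v / 8)]) _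
  have h2 : v * v ≤ (v / 8) ^ 4 := by
    have : 64 * 64 ≤ v * v := by nlinarith
    nlinarith
  rw [le_div_iff₀ (by linarith), show exp v = exp (v / 2) * exp (v / 2) by
    rw [← exp_add, add_halves], mul_assoc]
  exact mul_le_mul_of_nonneg_left (h2.trans h1) (exp_pos _).le

/-- the divisor bound for numbers below `exp (B * exp v)` -/
theorem tau {v B : ℝ} {n : ℕ} (hv : 64 ≤ v) (hB : 0 ≤ B) (hn : n ≠ 0) (h : log n ≤ B * exp v) :
    (n.divisors.card : ℝ) ≤ exp ((1 + 4 * B) * (exp v / v)) := by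
  obtain ⟨k, k1, k2⟩ : ∃ k : ℕ, (k : ℝ) ≤ v / 2 ∧ v / 4 ≤ k :=
    ⟨⌊v / 2⌋₊, Nat.floor_le (by linarith), by linarith [Nat.lt_floor_add_one (v / 2)]⟩
  have k0 : (0 : ℝ) < k := by linarith
  have d0 : (0 : ℝ) < n.divisors.card :=
    Nat.cast_pos.2 (card_pos.2 ⟨1, Nat.one_mem_divisors.2 hn⟩)
  have t : (n.divisors.card : ℝ) ^ k ≤ ((k : ℝ) ^ k) ^ 2 ^ k * n := by
    exact_mod_cast tau_pow (Nat.cast_pos.1 k0).ne' n
  have t2 := log_le_log (by positivity) t
  rw [log_mul (by positivity) (by positivity), log_pow, log_pow, log_pow] at t2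
  have p2 : ((2 ^ k : ℕ) : ℝ) ≤ exp (v / 2) := by
    refine le_trans ?_ (exp_le_exp.2 k1)
    rw [Nat.cast_pow, Nat.cast_ofNat, ← mul_one (k : ℝ), exp_nat_mul]
    exact pow_le_pow_left₀ (by positivity) (by linarith [add_one_le_exp (1 : ℝ)]) _
  have lk : log k ≤ v := by linarith [log_le_sub_one_of_pos k0]
  have p3 : ((2 ^ k : ℕ) : ℝ) * log k ≤ exp v / v :=
    ((mul_le_mul_of_nonneg_left lk (by positivity)).trans
      (mul_le_mul_of_nonneg_right p2 (by linarith))).trans (root hv)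
  have r0 : 0 < exp v / v := div_pos (exp_pos _) (by linarith)
  have p4 : B * exp v ≤ k * (4 * B * (exp v / v)) := by
    have : exp v = v * (exp v / v) := by field_simp
    have := mul_le_mul_of_nonneg_right k2 (by positivity : 0 ≤ 4 * B * (exp v / v))
    nlinarith
  rw [← log_le_iff_le_exp d0]
  refine le_of_mul_le_mul_left ?_ k0
  nlinarith [mul_le_mul_of_nonneg_left p3 k0.le]

end Numc

theorem numc : NUMC := by
  intro a
  refine ⟨18 * a + 105, by positivity, ?_⟩
  have T1 : Tendsto l1 atTop atTop := tendsto_log_atTop.comp tendsto_natCast_atTop_atTop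
  have T2 : Tendsto l2 atTop atTop := tendsto_log_atTop.comp T1
  have T3 : Tendsto l3 atTop atTop := tendsto_log_atTop.comp T2
  filter_upwards [T1.eventually_ge_atTop 2, T2.eventually_gt_atTop 0, T3.eventually_ge_atTop 64]
    with N h1 h2 h3
  have e2 : l2 N = exp (l3 N) := (exp_log h2).symm
  have r1 : 1 ≤ l2 N / l3 N := by
    rw [le_div_iff₀ (by linarith), e2]
    linarith [add_one_le_exp (l3 N)]
  refine ⟨by linarith, fun j j1 j2 => ?_⟩
  have hj : (j : ℝ) ≤ l1 N ^ (2 * a + 11) := by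
    have := Nat.ceil_lt_add_one (by positivity : 0 ≤ l1 N ^ (2 * a + 10))
    have h : (j : ℝ) ≤ (⌈l1 N ^ (2 * a + 10)⌉₊ : ℕ) := Nat.cast_le.2 j2
    have : 1 ≤ l1 N ^ (2 * a + 10) := one_le_pow₀ (by linarith)
    rw [pow_succ]
    nlinarith
  have lj : log ((j ^ 2 : ℕ) : ℝ) ≤ (4 * a + 22) * exp (l3 N) := by
    have := log_le_log (Nat.cast_pos.2 j1) hj
    rw [log_pow, show log (l1 N) = l2 N from rfl, e2] at this
    rw [Nat.cast_pow, log_pow]
    push_cast at this ⊢
    linarith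
  have d := Numc.tau h3 (by positivity) (by positivity) lj
  rw [← e2] at d
  have t : (2 : ℝ) ^ tt a N ≤ exp (2 * (a + 5) * (l2 N / l3 N) + 1) := by
    have := Nat.ceil_lt_add_one (by positivity : 0 ≤ 2 * (a + 5) * (l2 N / l3 N))
    refine le_trans ?_ (exp_le_exp.2 this.le)
    rw [tt, mul_div_assoc, ← mul_one (⌈_⌉₊ : ℝ), exp_nat_mul]
    exact pow_le_pow_left₀ (by positivity) (by linarith [add_one_le_exp (1 : ℝ)]) _
  have c : (96 : ℝ) ≤ exp 5 := by
    rw [show (5 : ℝ) = (5 : ℕ) * 1 by simp, exp_nat_mul]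
    exact le_trans (by norm_num) (pow_le_pow_left₀ (by norm_num) exp_one_gt_d9.le 5)
  refine (mul_le_mul (mul_le_mul c d (by positivity) (by positivity)) t (by positivity)
    (by positivity)).trans ?_
  rw [← exp_add, ← exp_add, exp_le_exp]
  linarith

end Pool.Agent.MP_6c3157_co.LG
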