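import Pool.Agent.MP_6c3157_co.LG.Spec2
import Pool.Agent.MP_6c3157_co.LG.Numc

/-! Project LG: the numerical facts on the loss, uniform form. -/

set_option autoImplicit false

noncomputable section

namespace Pool.Agent.MP_6c3157_co.LG

open Finset Filter Real

theorem numc2 : NUMC2 := by
  have T1 : Tendsto l1 atTop atTop := tendsto_log_atTop.comp tendsto_natCast_atTop_atTop
  have T2 : Tendsto l2 atTop atTop := tendsto_log_atTop.comp T1
  filter_upwards [T1.eventually_ge_atTop 2, T2.eventually_ge_atTop (exp 64)] with N h1 h2 s hs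
  have s1 : exp 64 ≤ s := h2.trans hs
  have s0 : 0 < s := (exp_pos _).trans_le s1
  have s2 : 1 ≤ s := by linarith [add_one_le_exp (64 : ℝ)]
  have h3 : 64 ≤ log s := (le_log_iff_exp_le s0).2 s1
  have e2 : exp (log s) = s := exp_log s0
  have r1 : 2 ≤ s / log s := by
    have a1 := Numc.root h3
    rw [e2] at a1
    have a2 : 1 ≤ exp (log s / 2) := one_le_exp (by linarith)
    nlinarith
  refine ⟨by linarith, fun j j1 j2 => ?_⟩
  have hj : (j : ℝ) ≤ exp (13 * s) := by
    have a1 := Nat.ceil_lt_add_one (by positivity : 0 ≤ l1 N ^ 10 * exp (2 * s))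
    have a2 : (j : ℝ) ≤ (⌈l1 N ^ 10 * exp (2 * s)⌉₊ : ℕ) := Nat.cast_le.2 j2
    have a3 : l1 N ≤ exp s := (log_le_iff_le_exp (by linarith)).1 hs
    have a4 : l1 N ^ 10 ≤ exp (10 * s) := by
      rw [show (10 : ℝ) * s = (10 : ℕ) * s by simp, exp_nat_mul]
      exact pow_le_pow_left₀ (by linarith) a3 _
    have a5 : l1 N ^ 10 * exp (2 * s) ≤ exp (12 * s) := by
      rw [show 12 * s = 10 * s + 2 * s by ring, exp_add]
      exact mul_le_mul_of_nonneg_right a4 (exp_pos _).le
    have a6 : 1 ≤ exp (12 * s) := one_le_exp (by linarith)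
    have a7 : 2 ≤ exp s := by linarith [add_one_le_exp s]
    rw [show 13 * s = 12 * s + s by ring, exp_add]
    nlinarith
  have lj : log ((j ^ 2 : ℕ) : ℝ) ≤ 26 * exp (log s) := by
    have := (log_le_iff_le_exp (Nat.cast_pos.2 j1)).2 hj
    rw [Nat.cast_pow, log_pow, e2]
    push_cast
    linarith
  have d := Numc.tau h3 (by positivity) (by positivity) lj
  rw [e2] at d
  have t : (2 : ℝ) ^ ty s ≤ exp (12 * (s / log s) + 1) := by
    have := Nat.ceil_lt_add_one (by positivity : 0 ≤ 12 * (s / log s))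
    refine le_trans ?_ (exp_le_exp.2 this.le)
    rw [ty, mul_div_assoc, ← mul_one (⌈_⌉₊ : ℝ), exp_nat_mul]
    exact pow_le_pow_left₀ (by positivity) (by linarith [add_one_le_exp (1 : ℝ)]) _
  have c : (96 : ℝ) ≤ exp 5 := by
    rw [show (5 : ℝ) = (5 : ℕ) * 1 by simp, exp_nat_mul]
    exact le_trans (by norm_num) (pow_le_pow_left₀ (by norm_num) exp_one_gt_d9.le 5)
  refine (mul_le_mul (mul_le_mul c d (by positivity) (by positivity)) t (by positivity)
    (by positivity)).trans ?_
  rw [← exp_add, ← exp_add, exp_le_exp]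
  linarith

end Pool.Agent.MP_6c3157_co.LG
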