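import Pool.Agent.MP_6c3157_co.LG.Spec

/-! Project LG, row PHI: a lower bound for the mean weight. -/

set_option autoImplicit false

noncomputable section

namespace Pool.Agent.MP_6c3157_co.LG

open Finset Filter Pool.Agent.MP_ddf486_co

namespace Phi

theorem wei (s : Finset ℕ) (a : ℕ → ℝ) (h : ∀ i ∈ s, 0 ≤ a i ∧ a i ≤ 1) :
    1 - ∑ i ∈ s, a i ≤ ∏ i ∈ s, (1 - a i) := by
  induction s using Finset.induction_on with
  | empty => simp
  | insert i s hi ih =>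
    have h1 := ih fun j hj => h j (mem_insert_of_mem hj)
    have h2 := h i (mem_insert_self _ _)
    have h3 : 0 ≤ ∑ j ∈ s, a j := sum_nonneg fun j hj => (h j (mem_insert_of_mem hj)).1
    rw [sum_insert hi, prod_insert hi]
    nlinarith [mul_le_mul_of_nonneg_left h1 (sub_nonneg.2 h2.2)]

theorem low (P : Finset ℕ) (z k : ℕ) (hz : 1 ≤ z) (h : ∀ p ∈ P, p.Prime ∧ p ≤ z ∧ p % 4 = 1) :
    ∑ S ∈ P.powerset.filter (fun S => S.card ≤ k), ∏ p ∈ S, 1 / (p : ℝ) ≤ Grid.hs (z ^ k) := by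
  have e : ∀ S : Finset ℕ, ∏ p ∈ S, 1 / (p : ℝ) = 1 / ((∏ p ∈ S, p : ℕ) : ℝ) := fun S => by
    simp
  have hs : ∀ S ∈ P.powerset.filter (fun S => S.card ≤ k), ∀ p ∈ S,
      p.Prime ∧ p ≤ z ∧ p % 4 = 1 := fun S hS p hp =>
    h p (mem_powerset.1 (mem_filter.1 hS).1 hp)
  simp only [e]
  rw [← sum_image (g := fun S : Finset ℕ => ∏ p ∈ S, p) (f := fun t : ℕ => 1 / (t : ℝ))
    fun S hS T hT q => by
      rw [← Nat.primeFactors_prod fun p hp => (hs S hS p hp).1,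
        ← Nat.primeFactors_prod fun p hp => (hs T hT p hp).1]
      exact congrArg _ q]
  refine sum_le_sum_of_subset_of_nonneg (fun t ht => ?_) fun _ _ _ => by positivity
  obtain ⟨S, hS, rfl⟩ := mem_image.1 ht
  refine Grid.mem_splSet.2 ⟨⟨prod_pos fun p hp => (hs S hS p hp).1.pos, ?_⟩, fun q hq hd => ?_⟩
  · exact (prod_le_pow_card _ _ _ fun p hp => (hs S hS p hp).2.1).trans
      (Nat.pow_le_pow_right hz (mem_filter.1 hS).2)
  · obtain ⟨p, hp, hd⟩ := (hq.prime.dvd_finsetProd_iff _).1 hd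
    rw [(Nat.prime_dvd_prime_iff_eq hq (hs S hS p hp).1).1 hd]
    exact (hs S hS p hp).2.2

theorem split (P : Finset ℕ) (k : ℕ) : ∏ p ∈ P, (1 + 1 / (p : ℝ)) ≤
    ∑ S ∈ P.powerset.filter (fun S => S.card ≤ k), ∏ p ∈ S, 1 / (p : ℝ) +
      (∏ p ∈ P, (1 + 4 / (p : ℝ))) / 2 ^ k := by
  rw [prod_one_add, prod_one_add, sum_filter, sum_div, ← sum_add_distrib]
  refine sum_le_sum fun S _ => ?_
  have h0 : 0 ≤ ∏ p ∈ S, 1 / (p : ℝ) := prod_nonneg fun _ _ => by positivity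
  have e : ∏ p ∈ S, 4 / (p : ℝ) = 4 ^ S.card * ∏ p ∈ S, 1 / (p : ℝ) := by
    rw [← prod_const, ← prod_mul_distrib]
    exact prod_congr rfl fun _ _ => by ring
  rw [e]
  split_ifs with q
  · exact le_add_of_nonneg_right (by positivity)
  · rw [zero_add, le_div_iff₀ (by positivity), mul_comm]
    refine mul_le_mul_of_nonneg_right ?_ h0
    exact (pow_le_pow_right₀ one_le_two (not_le.1 q).le).trans
      (pow_le_pow_left₀ zero_le_two (by norm_num) _)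

end Phi

theorem phi_s : PHI := by
  intro z₀ z k h0 hz
  have hP : ∀ p ∈ pr1 z₀ z, (z₀ < p ∧ p ≤ z) ∧ p.Prime ∧ p % 4 = 1 := fun p hp =>
    ⟨(mem_pr.1 (mem_filter.1 hp).1).1, (mem_pr.1 (mem_filter.1 hp).1).2, (mem_filter.1 hp).2⟩
  have h1 : ∀ p ∈ pr1 z₀ z, (1 : ℝ) ≤ p := fun p hp => by exact_mod_cast (hP p hp).2.1.one_le
  have a1 := Phi.low (pr1 z₀ z) z k hz fun p hp => ⟨(hP p hp).2.1, (hP p hp).1.2, (hP p hp).2.2⟩
  have a2 : Grid.hs (z ^ k) ≤ √(1 + 2 * Real.log ((z : ℝ) ^ k)) := by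
    have := Grid.hs_sq (z ^ k)
    rw [Nat.cast_pow] at this
    exact Real.le_sqrt_of_sq_le this
  have a3 := Phi.split (pr1 z₀ z) k
  have a4 := Phi.wei (pr1 z₀ z) (fun p => ((p : ℝ) ^ 2)⁻¹) fun p hp =>
    ⟨by positivity, inv_le_one_of_one_le₀ (one_le_pow₀ (h1 p hp))⟩
  have a5 : ∑ p ∈ pr1 z₀ z, ((p : ℝ) ^ 2)⁻¹ ≤ 1 / 2 := by
    refine (sum_le_sum_of_subset_of_nonneg (t := Ioc z₀ (z₀ + z)) (fun p hp => ?_)
      fun _ _ _ => by positivity).trans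
        ((sum_Ioc_inv_sq_le_sub (by omega) (Nat.le_add_right _ _)).trans ?_)
    · have := (hP p hp).1
      exact mem_Ioc.2 ⟨this.1, by omega⟩
    · have e1 : (z₀ : ℝ)⁻¹ ≤ 2⁻¹ := inv_anti₀ two_pos (by exact_mod_cast h0)
      have e2 : (0 : ℝ) ≤ ((z₀ + z : ℕ) : ℝ)⁻¹ := by positivity
      linarith
  have a6 : ∏ p ∈ pr1 z₀ z, (1 - ((p : ℝ) ^ 2)⁻¹) =
      (∏ p ∈ pr1 z₀ z, (1 + 1 / (p : ℝ))) * ∏ p ∈ pr1 z₀ z, (1 - 1 / (p : ℝ)) := by
    rw [← prod_mul_distrib]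
    exact prod_congr rfl fun _ _ => by ring
  have a7 : 0 ≤ ∏ p ∈ pr1 z₀ z, (1 - 1 / (p : ℝ)) := prod_nonneg fun p hp =>
    sub_nonneg.2 ((div_le_one (one_pos.trans_le (h1 p hp))).2 (h1 p hp))
  have a8 := mul_le_mul_of_nonneg_right (a3.trans (add_le_add_left (a1.trans a2) _)) a7
  linarith

end Pool.Agent.MP_6c3157_co.LG
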