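import Pool.Agent.MP_6c3157_co.LG.Spec

/-! Project LG, row RTWO: lattice points on a circle. -/

set_option autoImplicit false

noncomputable section

namespace Pool.Agent.MP_6c3157_co.LG

open Finset

namespace Rtwo

theorem prime_of_norm {p : ℕ} (hp : p.Prime) {π : GaussianInt} (h : π.norm = p) : Prime π := by
  refine Irreducible.prime ⟨fun hu => ?_, fun a b e => ?_⟩
  · rw [← Zsqrtd.norm_eq_one_iff, h, Int.natAbs_natCast] at hu
    exact hp.ne_one hu
  · rw [← Zsqrtd.norm_eq_one_iff, ← Zsqrtd.norm_eq_one_iff]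
    rw [e, Zsqrtd.norm_mul] at h
    have h1 := congrArg Int.natAbs h
    rw [Int.natAbs_mul, Int.natAbs_natCast] at h1
    exact (Nat.prime_mul_iff.1 (h1 ▸ hp)).symm.imp And.right And.right

theorem star_dvd {a z : GaussianInt} (h : a ∣ star z) : star a ∣ z := by
  obtain ⟨c, hc⟩ := h
  exact ⟨star c, by rw [← star_star z, hc, star_mul, mul_comm]⟩

theorem split {p : ℕ} (hp : p.Prime) {π : GaussianInt} (h : π.norm = p) (m : ℤ) (a : ℕ) :
    ∀ z : GaussianInt, z.norm = p ^ a * m →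
      ∃ i ≤ a, ∃ w : GaussianInt, w.norm = m ∧ z = π ^ i * star π ^ (a - i) * w := by
  have hp0 : (p : ℤ) ≠ 0 := by exact_mod_cast hp.ne_zero
  induction a with
  | zero => exact fun z hz => ⟨0, le_rfl, z, by simpa using hz, by simp⟩
  | succ a ih =>
    intro z hz
    have h1 : π ∣ z * star z := by
      rw [← Zsqrtd.norm_eq_mul_conj, hz, pow_succ', mul_assoc, ← h, Int.cast_mul,
        Zsqrtd.norm_eq_mul_conj, mul_assoc]
      exact dvd_mul_right _ _
    rcases (prime_of_norm hp h).dvd_or_dvd h1 with h2 | h2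
    · obtain ⟨y, rfl⟩ := h2
      rw [Zsqrtd.norm_mul, h, pow_succ', mul_assoc] at hz
      obtain ⟨i, hi, w, hw, rfl⟩ := ih y (mul_left_cancel₀ hp0 hz)
      exact ⟨i + 1, by omega, w, hw, by rw [Nat.add_sub_add_right]; ring⟩
    · obtain ⟨y, rfl⟩ := star_dvd h2
      rw [Zsqrtd.norm_mul, Zsqrtd.norm_conj, h, pow_succ', mul_assoc] at hz
      obtain ⟨i, hi, w, hw, rfl⟩ := ih y (mul_left_cancel₀ hp0 hz)
      exact ⟨i, by omega, w, hw, by rw [show a + 1 - i = a - i + 1 by omega]; ring⟩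

theorem inert {p : ℕ} (hp : p.Prime) (h3 : p % 4 = 3) {m : ℕ} (hm : ¬ p ∣ m) (a : ℕ) :
    ∀ z : GaussianInt, z.norm = p ^ a * m →
      ∃ i ≤ a, ∃ w : GaussianInt, w.norm = m ∧ z = (p : GaussianInt) ^ i * w := by
  have hp0 : (p : ℤ) ≠ 0 := by exact_mod_cast hp.ne_zero
  have := Fact.mk hp
  have key : ∀ (z : GaussianInt) (c : ℤ), z.norm = p * c →
      ∃ y : GaussianInt, z = p * y ∧ p * y.norm = c := fun z c hz => by
    have h1 : (p : GaussianInt) ∣ z * star z := by
      rw [← Zsqrtd.norm_eq_mul_conj, hz, Int.cast_mul, Int.cast_natCast]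
      exact dvd_mul_right _ _
    have h2 : (p : GaussianInt) ∣ z := by
      rcases (GaussianInt.prime_of_nat_prime_of_mod_four_eq_three p h3).dvd_or_dvd h1 with h | h
      · exact h
      · simpa using star_dvd h
    obtain ⟨y, rfl⟩ := h2
    rw [Zsqrtd.norm_mul, Zsqrtd.norm_natCast, mul_assoc] at hz
    exact ⟨y, rfl, mul_left_cancel₀ hp0 hz⟩
  induction a using Nat.twoStepInduction with
  | zero => exact fun z hz => ⟨0, le_rfl, z, by simpa using hz, by simp⟩
  | one =>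
    intro z hz
    obtain ⟨y, -, hy⟩ := key z m (by simpa using hz)
    exact absurd (Int.natCast_dvd_natCast.1 ⟨_, hy.symm⟩) hm
  | more a ih _ =>
    intro z hz
    obtain ⟨y, rfl, hy⟩ := key z (p * (p ^ a * m)) (by rw [hz]; ring)
    obtain ⟨i, hi, w, hw, rfl⟩ := ih y (mul_left_cancel₀ hp0 hy)
    exact ⟨i + 1, by omega, w, hw, by ring⟩

theorem cover (m : ℕ) : m ≠ 0 → ∃ T : Finset GaussianInt, T.card ≤ 4 * m.divisors.card ∧
    ∀ z : GaussianInt, z.norm = m → z ∈ T := by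
  classical
  induction m using Nat.recOnPrimePow with
  | zero => exact fun h => absurd rfl h
  | one =>
    refine fun _ => ⟨{⟨1, 0⟩, ⟨-1, 0⟩, ⟨0, 1⟩, ⟨0, -1⟩}, card_le_four, fun ⟨a, b⟩ hz => ?_⟩
    have h : a * a + b * b = 1 := by simpa [Zsqrtd.norm_def] using hz
    have a1 : a ≤ 1 := by nlinarith [mul_self_nonneg b]
    have a2 : -1 ≤ a := by nlinarith [mul_self_nonneg b]
    have b1 : b ≤ 1 := by nlinarith [mul_self_nonneg a]
    have b2 : -1 ≤ b := by nlinarith [mul_self_nonneg a]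
    interval_cases a <;> interval_cases b <;> simp at h ⊢
  | prime_pow_mul m p a hp hm _ ih =>
    intro h0
    obtain ⟨T, h1, h2⟩ := ih (right_ne_zero_of_mul h0)
    obtain ⟨f, hf⟩ : ∃ f : ℕ → GaussianInt, ∀ z : GaussianInt, z.norm = p ^ a * m →
        ∃ i ≤ a, ∃ w : GaussianInt, w.norm = m ∧ z = f i * w := by
      by_cases h3 : p % 4 = 3
      · exact ⟨_, inert hp h3 hm a⟩
      · have := Fact.mk hp
        obtain ⟨u, v, e⟩ := Nat.Prime.sq_add_sq h3
        refine ⟨_, split hp (π := ⟨u, v⟩) ?_ m a⟩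
        rw [← e, Zsqrtd.norm_def]
        push_cast
        ring
    refine ⟨(range (a + 1) ×ˢ T).image fun x => f x.1 * x.2, card_image_le.trans ?_,
      fun z hz => ?_⟩
    · rw [card_product, card_range,
        (Nat.Coprime.pow_left a (hp.coprime_iff_not_dvd.2 hm)).card_divisors_mul,
        Nat.divisors_prime_pow hp, card_map, card_range, mul_left_comm]
      exact Nat.mul_le_mul_left _ h1
    · obtain ⟨i, hi, w, hw, e⟩ := hf z (by rw [hz]; push_cast; rfl)
      exact mem_image.2 ⟨(i, w), mem_product.2 ⟨mem_range.2 (by omega), h2 w hw⟩, e.symm⟩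

end Rtwo

theorem rtwo : RTWO := by
  intro x Y m hm
  obtain ⟨T, h1, h2⟩ := Rtwo.cover m hm
  refine le_trans (card_le_card_of_injOn
    (fun y => (⟨(x.1 : ℤ) - y.1, (x.2 : ℤ) - y.2⟩ : GaussianInt)) (fun y hy => ?_)
    fun y _ y' _ e => ?_) h1
  · refine mem_coe.2 (h2 _ ?_)
    rw [← (mem_filter.1 (mem_coe.1 hy)).2, qq_cast, Zsqrtd.norm_def]
    ring
  · have e1 := congrArg Zsqrtd.re e
    have e2 := congrArg Zsqrtd.im e
    dsimp only at e1 e2
    exact Prod.ext (by omega) (by omega)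

end Pool.Agent.MP_6c3157_co.LG
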