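import Pool.Agent.MP_6c3157_co.LG.Spec

/-! Project LG: small sets have only different distances from most pins. -/

set_option autoImplicit false

namespace Pool.Agent.MP_6c3157_co.LG

open Finset

namespace Small

theorem line (N : ℕ) {y y' : ℕ × ℕ} (h : y ≠ y') :
    ((box N).filter fun x => qq x y = qq x y').card ≤ N := by
  have key : ∀ x ∈ (box N).filter fun x => qq x y = qq x y', (x.1 < N ∧ x.2 < N) ∧
      2 * (x.1 : ℤ) * ((y'.1 : ℤ) - y.1) + 2 * (x.2 : ℤ) * ((y'.2 : ℤ) - y.2) =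
        (y'.1 : ℤ) ^ 2 + (y'.2 : ℤ) ^ 2 - (y.1 : ℤ) ^ 2 - (y.2 : ℤ) ^ 2 := fun x hx => by
    obtain ⟨a, b⟩ := mem_filter.1 hx
    have c : (qq x y : ℤ) = qq x y' := by rw [b]
    rw [qq_cast, qq_cast] at c
    exact ⟨mem_box.1 a, by linear_combination c⟩
  refine le_trans ?_ (card_range N).le
  by_cases h1 : y.1 = y'.1
  · have h2 : (y'.2 : ℤ) - y.2 ≠ 0 := fun e => h (Prod.ext h1 (by omega))
    refine card_le_card_of_injOn Prod.fst
      (fun x hx => mem_coe.2 (mem_range.2 (key x hx).1.1)) fun x hx x' hx' e => Prod.ext e ?_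
    have a := (key x hx).2
    have b := (key x' hx').2
    rw [e] at a
    have : ((x.2 : ℤ) - x'.2) * ((y'.2 : ℤ) - y.2) = 0 := by linarith
    have := (mul_eq_zero.1 this).resolve_right h2
    omega
  · have h2 : (y'.1 : ℤ) - y.1 ≠ 0 := fun e => h1 (by omega)
    refine card_le_card_of_injOn Prod.snd
      (fun x hx => mem_coe.2 (mem_range.2 (key x hx).1.2)) fun x hx x' hx' e => Prod.ext ?_ e
    have a := (key x hx).2
    have b := (key x' hx').2
    rw [e] at a
    have : ((x.1 : ℤ) - x'.1) * ((y'.1 : ℤ) - y.1) = 0 := by linarith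
    have := (mul_eq_zero.1 this).resolve_right h2
    omega

theorem eq_of_zero {x y : ℕ × ℕ} (h : qq x y = 0) : x = y := by
  have c := qq_cast x y
  rw [h, Nat.cast_zero] at c
  have a : (x.1 : ℤ) - y.1 = 0 := by nlinarith [sq_nonneg ((x.1 : ℤ) - y.1), sq_nonneg ((x.2 : ℤ) - y.2)]
  have b : (x.2 : ℤ) - y.2 = 0 := by nlinarith [sq_nonneg ((x.1 : ℤ) - y.1), sq_nonneg ((x.2 : ℤ) - y.2)]
  exact Prod.ext (by omega) (by omega)

end Small

theorem small : SMALL := by
  intro N Y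
  refine ⟨Y.offDiag.biUnion (fun p => (box N).filter fun x => qq x p.1 = qq x p.2) ∪ Y, ?_,
    fun x hx hE => ?_⟩
  · refine (card_union_le _ _).trans (Nat.add_le_add_right ?_ _)
    refine (card_biUnion_le_card_mul _ _ N fun p hp => Small.line N (mem_offDiag.1 hp).2.2).trans
      (Nat.mul_le_mul_right _ ?_)
    rw [offDiag_card, sq]
    exact Nat.sub_le _ _
  · rw [mem_union, not_or] at hE
    rw [dd, erase_eq_of_notMem, card_image_of_injOn]
    · intro y hy y' hy' e
      by_contra n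
      exact hE.1 (mem_biUnion.2 ⟨(y, y'), mem_offDiag.2 ⟨hy, hy', n⟩, mem_filter.2 ⟨hx, e⟩⟩)
    · intro h
      obtain ⟨y, hy, e⟩ := mem_image.1 h
      exact hE.2 (Small.eq_of_zero e ▸ hy)

end Pool.Agent.MP_6c3157_co.LG
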