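import Pool.Agent.MP_6c3157_co.LG.Spec

/-! Project LG, row VAR: the second moment of the weight. -/

set_option autoImplicit false

noncomputable section

namespace Pool.Agent.MP_6c3157_co.LG

open Finset

namespace Var

theorem ff_mem (P : Finset ℕ) (m : ℕ) : 0 ≤ ff P m ∧ ff P m ≤ 1 := by
  have h : ∀ p ∈ P, (0 : ℝ) ≤ 1 - if p ∣ m then 1 / 2 else 0 := fun p _ => by
    split_ifs <;> norm_num
  refine ⟨prod_nonneg h, prod_le_one h fun p _ => ?_⟩
  split_ifs <;> norm_num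

theorem row (N c : ℕ) (Y : Finset (ℕ × ℕ)) (f : ℕ × ℕ → ℕ → ℝ) (φ : ℕ × ℕ → ℝ) (a B : ℝ)
    (ha : 0 ≤ a) (hB : 0 ≤ B) (hf : ∀ y u, 0 ≤ f y u ∧ f y u ≤ 1) (hφ : ∀ y, a ≤ φ y ∧ φ y ≤ 1)
    (h : ∀ y ∈ Y, ∀ y' ∈ Y, ¬ (y'.1 = y.1 ∧ (y'.2 = y.2 ∨ y'.2 + y.2 = 2 * c)) →
      ∑ u ∈ range N, (f y u - φ y) * (f y' u - φ y') ≤ B) :
    (((range N).filter fun u => ∑ y ∈ Y, f y u < Y.card * a / 2).card : ℝ) *
      (Y.card * a / 2) ^ 2 ≤ (Y.card : ℝ) ^ 2 * B + 2 * Y.card * N := by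
  have h1 : (((range N).filter fun u => ∑ y ∈ Y, f y u < Y.card * a / 2).card : ℝ) *
      (Y.card * a / 2) ^ 2 ≤ ∑ u ∈ range N, (∑ y ∈ Y, (f y u - φ y)) ^ 2 := by
    rw [← nsmul_eq_mul]
    refine (card_nsmul_le_sum _ (fun u => (∑ y ∈ Y, (f y u - φ y)) ^ 2) _ fun u hu => ?_).trans
      (sum_le_sum_of_subset_of_nonneg (filter_subset _ _) fun _ _ _ => sq_nonneg _)
    have a1 := (mem_filter.1 hu).2
    have a2 : (Y.card : ℝ) * a ≤ ∑ y ∈ Y, φ y := by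
      rw [← nsmul_eq_mul]
      exact card_nsmul_le_sum _ _ _ fun y _ => (hφ y).1
    rw [← neg_sq (∑ y ∈ Y, (f y u - φ y)), sum_sub_distrib]
    exact pow_le_pow_left₀ (by positivity) (by linarith) 2
  refine h1.trans ?_
  simp only [sq (∑ y ∈ Y, _), sum_mul_sum]
  rw [sum_comm, show (Y.card : ℝ) ^ 2 * B + 2 * Y.card * N = Y.card • (Y.card * B + 2 * N) by
    rw [nsmul_eq_mul]; ring]
  refine sum_le_card_nsmul _ _ _ fun y hy => ?_
  rw [sum_comm]
  have h2 : ∀ y' ∈ Y, ∑ u ∈ range N, (f y u - φ y) * (f y' u - φ y') ≤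
      B + if y' ∈ ({y, (y.1, 2 * c - y.2)} : Finset (ℕ × ℕ)) then (N : ℝ) else 0 := fun y' hy' => by
    split_ifs with e
    · refine le_trans ?_ (le_add_of_nonneg_left hB)
      refine (sum_le_card_nsmul _ _ 1 fun u _ => ?_).trans (by simp)
      obtain ⟨a1, a2⟩ := hf y u
      obtain ⟨a3, a4⟩ := hf y' u
      obtain ⟨a5, a6⟩ := hφ y
      obtain ⟨a7, a8⟩ := hφ y'
      refine (le_abs_self _).trans ?_
      rw [abs_mul]
      exact mul_le_one₀ (abs_le.2 ⟨by linarith, by linarith⟩) (abs_nonneg _)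
        (abs_le.2 ⟨by linarith, by linarith⟩)
    · rw [add_zero]
      refine h y hy y' hy' fun ⟨a1, a2⟩ => e ?_
      simp only [mem_insert, mem_singleton, Prod.ext_iff]
      omega
  refine (sum_le_sum h2).trans ?_
  rw [sum_add_distrib, sum_const, nsmul_eq_mul, sum_ite_mem, sum_const, nsmul_eq_mul]
  have h3 : (Y ∩ {y, (y.1, 2 * c - y.2)}).card ≤ 2 :=
    (card_le_card inter_subset_right).trans card_le_two
  have h4 : ((Y ∩ {y, (y.1, 2 * c - y.2)}).card : ℝ) ≤ 2 := by exact_mod_cast h3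
  gcongr

end Var

theorem var_s (h : COV) : VAR := by
  intro P z₀ z N k Y h0 h1 hN hY hP
  have ha : 0 ≤ ∏ p ∈ P, (1 - 1 / (p : ℝ)) := prod_nonneg fun p hp => by
    have : (1 : ℝ) ≤ p := by exact_mod_cast (hP p hp).1.one_le
    exact sub_nonneg.2 ((div_le_one (by linarith)).2 this)
  have hB : 0 ≤ N * (9 * Real.log N / z₀) + 3 * er P z N k := by
    have := Real.log_natCast_nonneg N
    unfold er
    positivity
  rw [box, card_filter, sum_product_right, Nat.cast_sum, sum_mul]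
  refine (sum_le_card_nsmul _ _ _ fun c hc => ?_).trans (by rw [card_range, nsmul_eq_mul])
  obtain ⟨φ, a1, a2⟩ := h P z₀ z N k c h0 h1 hN (mem_range.1 hc) hP
  rw [← card_filter]
  exact Var.row N c Y (fun y u => ff P (qq (u, c) y)) φ _ _ ha hB (fun _ _ => Var.ff_mem _ _) a1
    fun y hy y' hy' => a2 y (hY hy) y' (hY hy')

end Pool.Agent.MP_6c3157_co.LG
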