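import Pool.Agent.MP_6c3157_co.LG.Grid2
import Pool.Agent.MP_6c3157_co.LG.Rtwo
import Pool.Agent.MP_6c3157_co.LG.Box
import Pool.Agent.MP_6c3157_co.LG.Cov
import Pool.Agent.MP_6c3157_co.LG.Var
import Pool.Agent.MP_6c3157_co.LG.Good
import Pool.Agent.MP_6c3157_co.LG.Dsum
import Pool.Agent.MP_6c3157_co.LG.Phi
import Pool.Agent.MP_6c3157_co.LG.Small
import Pool.Agent.MP_6c3157_co.LG.Numa2
import Pool.Agent.MP_6c3157_co.LG.Numb2
import Pool.Agent.MP_6c3157_co.LG.Numc2
import Pool.Agent.MP_6c3157_co.LG.Euc2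

/-! Project LG: assembly. -/

set_option autoImplicit false

namespace Pool.Agent.MP_6c3157_co.LG

theorem all_grid2 : GRID2 :=
  grid2 rtwo (var_s (cov box_s)) good dsum phi_s small numa2 numb2 numc2

theorem all_main2 : MAIN2 := euc2 all_grid2

end Pool.Agent.MP_6c3157_co.LG
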