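import Pool.Agent.MP_6c3157_co.LG.SpecU

/-! Project LG: forbidden divisors are rare among the sifted pairs. -/

set_option autoImplicit false

noncomputable section

namespace Pool.Agent.MP_6c3157_co.LG

open Finset

namespace Badu

theorem per_mul {α : Type} {d : ℕ} {h : ℕ × ℕ → α} (hd : Per d h) (q : ℕ) : Per (d * q) h := by
  induction q with
  | zero => intro x; simp
  | succ q ih =>
    intro x
    rw [Nat.mul_succ, ← add_assoc, ← add_assoc]
    exact ⟨(hd (x.1 + d * q, x.2)).1.trans (ih x).1, (hd (x.1, x.2 + d * q)).2.trans (ih x).2⟩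

theorem ind_nonneg (φ : Prop) : 0 ≤ ind φ := by
  unfold ind
  split_ifs <;> norm_num

theorem ind_le (φ : Prop) : ind φ ≤ 1 := by
  unfold ind
  split_ifs <;> norm_num

theorem av2_nonneg (d : ℕ) {h : ℕ × ℕ → ℝ} (h0 : ∀ x, 0 ≤ h x) : 0 ≤ av2 d h :=
  div_nonneg (sum_nonneg fun x _ => h0 x) (by positivity)

theorem av2_mul (hC : CRT) {d e : ℕ} {f g : ℕ × ℕ → ℝ} (hd : 0 < d) (he : 0 < e)
    (hde : d.Coprime e) (hf : Per d f) (hg : Per e g) :
    av2 (d * e) (fun x => f x * g x) = av2 d f * av2 e g := by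
  have := hC d e (fun a b => f a * g b) hd he hde
    (fun b x => ⟨by simp only [(hf x).1], by simp only [(hf x).2]⟩)
    (fun a x => ⟨by simp only [(hg x).1], by simp only [(hg x).2]⟩)
  unfold av2
  rw [this, ← sum_mul_sum, div_mul_div_comm, Nat.cast_mul, mul_pow]

theorem ind_ex (EV : Finset ℕ) (m : ℕ) : ind (∃ q ∈ EV, q ∣ m) ≤ ∑ q ∈ EV, ind (q ∣ m) := by
  by_cases h : ∃ q ∈ EV, q ∣ m
  · obtain ⟨q, hq, hm⟩ := h
    refine (ind_le _).trans (le_trans ?_ (single_le_sum (fun q _ => ind_nonneg (q ∣ m)) hq))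
    simp [ind, hm]
  · rw [ind, if_neg h]
    exact sum_nonneg fun q _ => ind_nonneg _

theorem sum_ind {Y Z : Finset (ℕ × ℕ)} (h : Z ⊆ Y) (f : ℕ × ℕ → ℝ) :
    ∑ y ∈ Y, ind (y ∈ Z) * f y = ∑ y ∈ Z, f y := by
  rw [← sum_subset h fun y _ hy => by simp [ind, hy]]
  exact sum_congr rfl fun y hy => by simp [ind, hy]

end Badu

open Badu in
theorem badu (hC : CRT) (hL : LIN) (h1 : BETA1) : BADU := by
  intro P EV N d n₀ θ R β M Y Z θ0 θ1 R0 hP hS hd hdP hEV hβ hM hZ hY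
  have V0 : 0 ≤ ∏ p ∈ P, (1 - 1 / (p : ℝ)) := prod_nonneg fun p hp => by
    have : (1 : ℝ) ≤ p := by exact_mod_cast (hP p hp).1.one_le
    exact sub_nonneg.2 ((div_le_one (by linarith)).2 this)
  have β0 : 0 ≤ β :=
    (sum_nonneg fun q _ => av2_nonneg q fun x => ind_nonneg _).trans (hβ (0, 0))
  have f0 : ∀ x y, 0 ≤ fs P x y := fun x y => prod_nonneg fun p _ => sub_nonneg.2 (ind_le _)
  have pa : ∀ y, Per d fun x => ind (y ∈ Z x) := fun y x =>
    ⟨by simp only [(hZ x).1], by simp only [(hZ x).2]⟩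
  have one : ∀ y, ∀ q ∈ EV, ∑ x ∈ box N, ind (y ∈ Z x) * ind (q ∣ qq x y) * fs P x y ≤
      2 * N ^ 2 * (∏ p ∈ P, (1 - 1 / (p : ℝ))) * av2 d (fun x => ind (y ∈ Z x)) *
        av2 q (fun x => ind (q ∣ qq x y)) + d * R * q := by
    intro y q hq
    obtain ⟨q0, q1, q2⟩ := hEV q hq
    have pb : Per q fun x => ind (q ∣ qq x y) := fun x =>
      ⟨congrArg ind ((h1 q y q0).1 x).1, congrArg ind ((h1 q y q0).1 x).2⟩
    have pc : Per (d * q) fun x => ind (y ∈ Z x) * ind (q ∣ qq x y) := fun x => by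
      have a := per_mul (pa y) q x
      have b := per_mul pb d x
      rw [mul_comm q d] at b
      exact ⟨congrArg₂ (· * ·) a.1 b.1, congrArg₂ (· * ·) a.2 b.2⟩
    have hv : ∀ p ∈ P, av2 p (fun x => ind (Dv p 1 x y)) = 1 / p := fun p hp =>
      (hL p (hP p hp).1 (hP p hp).2).2.1 1 y
    have := hS (fun p x => ind (Dv p 1 x y)) (fun p hp => by
        refine ⟨fun x => ?_, fun x => ⟨ind_nonneg _, ind_le _⟩, ?_⟩
        · have := (hL p (hP p hp).1 (hP p hp).2).1 1 y x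
          exact ⟨congrArg ind this.1, congrArg ind this.2⟩
        · rw [hv p hp]
          exact div_le_div_of_nonneg_right (by norm_num) (Nat.cast_nonneg _))
      (d * q) _ (Nat.mul_pos hd q0) (fun p hp => Nat.Coprime.mul_left (hdP p hp) (q2 p hp)) pc
      (fun x => ⟨mul_nonneg (ind_nonneg _) (ind_nonneg _),
        mul_le_one₀ (ind_le _) (ind_nonneg _) (ind_le _)⟩)
    rw [av2_mul hC hd q0 q1 (pa y) pb, prod_congr rfl fun p hp => by rw [hv p hp]] at this
    have h2 := (abs_le.1 this).2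
    have h3 : 0 ≤ (N : ℝ) ^ 2 * (av2 d (fun x => ind (y ∈ Z x)) *
        av2 q (fun x => ind (q ∣ qq x y))) * ∏ p ∈ P, (1 - 1 / (p : ℝ)) :=
      mul_nonneg (mul_nonneg (by positivity) (mul_nonneg (av2_nonneg _ fun x => ind_nonneg _)
        (av2_nonneg _ fun x => ind_nonneg _))) V0
    have h4 := mul_le_mul_of_nonneg_right θ1 h3
    push_cast at h2
    unfold fs
    linarith
  have two : ∀ y, ∑ q ∈ EV, ∑ x ∈ box N, ind (y ∈ Z x) * ind (q ∣ qq x y) * fs P x y ≤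
      2 * N ^ 2 * (∏ p ∈ P, (1 - 1 / (p : ℝ))) * β * av2 d (fun x => ind (y ∈ Z x)) +
        d * M * R := by
    intro y
    refine (sum_le_sum (one y)).trans ?_
    rw [sum_add_distrib, ← mul_sum, ← mul_sum]
    have h2 : 0 ≤ 2 * (N : ℝ) ^ 2 * (∏ p ∈ P, (1 - 1 / (p : ℝ))) *
        av2 d (fun x => ind (y ∈ Z x)) :=
      mul_nonneg (mul_nonneg (by positivity) V0) (av2_nonneg _ fun x => ind_nonneg _)
    have h3 := mul_le_mul_of_nonneg_left (hβ y) h2
    have h4 := mul_le_mul_of_nonneg_left hM (mul_nonneg (Nat.cast_nonneg d) R0)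
    linarith
  have three : ∑ y ∈ Y, av2 d (fun x => ind (y ∈ Z x)) ≤ n₀ := by
    have d0 : (0 : ℝ) < (d : ℝ) ^ 2 := by positivity
    unfold av2
    rw [← sum_div, div_le_iff₀ d0, sum_comm]
    refine (sum_le_card_nsmul _ _ (n₀ : ℝ) fun x _ => ?_).trans ?_
    · have := sum_ind (hY x).1 fun _ => 1
      simp only [mul_one, sum_const, nsmul_eq_mul] at this
      rw [this]
      exact_mod_cast (hY x).2
    · simp [box, sq, mul_comm]
  calc ∑ x ∈ box N, ∑ y ∈ Z x, fs P x y * ind (∃ q ∈ EV, q ∣ qq x y)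
      ≤ ∑ x ∈ box N, ∑ y ∈ Y, ∑ q ∈ EV, ind (y ∈ Z x) * ind (q ∣ qq x y) * fs P x y := by
        refine sum_le_sum fun x _ => ?_
        rw [← sum_ind (hY x).1]
        refine sum_le_sum fun y _ => ?_
        rw [← sum_mul, ← mul_sum, mul_assoc, mul_comm (fs P x y)]
        exact mul_le_mul_of_nonneg_left (mul_le_mul_of_nonneg_right (ind_ex _ _) (f0 x y))
          (ind_nonneg _)
    _ = ∑ y ∈ Y, ∑ q ∈ EV, ∑ x ∈ box N, ind (y ∈ Z x) * ind (q ∣ qq x y) * fs P x y := by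
        rw [sum_comm]
        exact sum_congr rfl fun y _ => sum_comm
    _ ≤ ∑ y ∈ Y, (2 * N ^ 2 * (∏ p ∈ P, (1 - 1 / (p : ℝ))) * β *
          av2 d (fun x => ind (y ∈ Z x)) + d * M * R) := sum_le_sum fun y _ => two y
    _ ≤ _ := by
        rw [sum_add_distrib, ← mul_sum, sum_const, nsmul_eq_mul]
        have h2 : 0 ≤ 2 * (N : ℝ) ^ 2 * (∏ p ∈ P, (1 - 1 / (p : ℝ))) * β :=
          mul_nonneg (mul_nonneg (by positivity) V0) β0
        have := mul_le_mul_of_nonneg_left three h2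
        linarith

end Pool.Agent.MP_6c3157_co.LG
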