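import Pool.Agent.MP_6c3157_co.LG.Spec

/-! Project LG: assembly in integer coordinates. -/

set_option autoImplicit false

noncomputable section

namespace Pool.Agent.MP_6c3157_co.LG

open Finset Filter

namespace Gr

theorem qq_zero {x y : ℕ × ℕ} (h : qq x y = 0) : x = y := by
  have e := qq_cast x y
  rw [h, Nat.cast_zero] at e
  have a : ((x.1 : ℤ) - y.1) ^ 2 = 0 := by
    nlinarith [sq_nonneg ((x.1 : ℤ) - y.1), sq_nonneg ((x.2 : ℤ) - y.2)]
  have b : ((x.2 : ℤ) - y.2) ^ 2 = 0 := by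
    nlinarith [sq_nonneg ((x.1 : ℤ) - y.1), sq_nonneg ((x.2 : ℤ) - y.2)]
  have a' := pow_eq_zero_iff two_ne_zero |>.1 a
  have b' := pow_eq_zero_iff two_ne_zero |>.1 b
  exact Prod.ext (by omega) (by omega)

theorem qq_le {N : ℕ} {x y : ℕ × ℕ} (hx : x ∈ box N) (hy : y ∈ box N) : qq x y ≤ 2 * N ^ 2 := by
  obtain ⟨a, b⟩ := mem_box.1 hx
  obtain ⟨c, d⟩ := mem_box.1 hy
  have e := qq_cast x y
  have k : ∀ u v : ℕ, u < N → v < N → ((u : ℤ) - v) ^ 2 ≤ (N : ℤ) ^ 2 := fun u v hu hv =>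
    sq_le_sq' (by omega) (by omega)
  have := k _ _ a c
  have := k _ _ b d
  zify
  linarith

theorem fib1 (hR : RTWO) (Y : Finset (ℕ × ℕ)) (x : ℕ × ℕ) {g : ℕ → ℝ} (h0 : g 0 = 0)
    (hg : ∀ y ∈ Y, qq x y ≠ 0 → 0 ≤ g (qq x y) ∧
      4 * ((qq x y).divisors.card : ℝ) * g (qq x y) ≤ 1) :
    ∑ y ∈ Y, g (qq x y) ≤ dd Y x := by
  rw [sum_comp g (qq x), ← sum_erase (a := 0) _ (by simp [h0]), dd, card_eq_sum_ones
    ((Y.image (qq x)).erase 0), Nat.cast_sum]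
  refine sum_le_sum fun m hm => ?_
  obtain ⟨m0, hm⟩ := mem_erase.1 hm
  obtain ⟨y, hy, rfl⟩ := mem_image.1 hm
  obtain ⟨g0, g1⟩ := hg y hy m0
  have k : (((Y.filter fun z => qq x z = qq x y).card : ℕ) : ℝ) ≤
      4 * ((qq x y).divisors.card : ℝ) := by exact_mod_cast hR x Y _ m0
  rw [nsmul_eq_mul, Nat.cast_one]
  exact (mul_le_mul_of_nonneg_right k g0).trans g1

open Classical in
theorem fib2 (hR : RTWO) {N : ℕ} {y : ℕ × ℕ} (hy : y ∈ box N) (B : ℕ → Prop) :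
    (((box N).filter fun x => qq x y = 0 ∨ B (qq x y)).card : ℝ) ≤
      1 + 4 * ∑ m ∈ (Icc 1 (2 * N ^ 2)).filter B, (m.divisors.card : ℝ) := by
  have s : ((box N).filter fun x => qq x y = 0 ∨ B (qq x y)) ⊆
      insert y (((Icc 1 (2 * N ^ 2)).filter B).biUnion fun m =>
        (box N).filter fun x => qq y x = m) := by
    intro x hx
    obtain ⟨hx, h⟩ := mem_filter.1 hx
    by_cases z : qq x y = 0
    · rw [qq_zero z]; exact mem_insert_self _ _
    · refine mem_insert_of_mem (mem_biUnion.2 ⟨qq x y, mem_filter.2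
        ⟨mem_Icc.2 ⟨Nat.pos_of_ne_zero z, qq_le hx hy⟩, h.resolve_left z⟩, ?_⟩)
      exact mem_filter.2 ⟨hx, qq_comm _ _⟩
  have t := (card_le_card s).trans ((card_insert_le _ _).trans
    (Nat.add_le_add_right (card_biUnion_le.trans (sum_le_sum fun m hm =>
      hR y (box N) m (Nat.pos_iff_ne_zero.1 (mem_Icc.1 (mem_filter.1 hm).1).1))) 1))
  rw [mul_sum, add_comm]
  exact_mod_cast t

theorem er_mono {P P' : Finset ℕ} (h : P ⊆ P') (z N k : ℕ) : er P z N k ≤ er P' z N k :=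
  mul_le_mul_of_nonneg_left (prod_le_prod_of_subset_of_one_le h (fun _ _ => by positivity)
    fun _ _ _ => le_add_of_nonneg_right (by positivity)) (by positivity)

theorem ff_bd (P : Finset ℕ) (m : ℕ) : 0 ≤ ff P m ∧ ff P m ≤ 1 :=
  ⟨prod_nonneg fun _ _ => by split_ifs <;> norm_num,
    prod_le_one (fun _ _ => by split_ifs <;> norm_num) fun _ _ => by split_ifs <;> norm_num⟩

theorem n1 {e n φ N L δ g r s : ℝ} (hL : 1 ≤ L) (hs : s ^ 2 = L) (hn : 0 < n) (hφ : 1 ≤ 6 * s * φ)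
    (_s0 : 0 ≤ s) (he : 0 ≤ e) (hN : 0 ≤ N) (hg : g ≤ δ) (hr : r ≤ N * δ) (h1 : 1 ≤ n * δ)
    (h : e * (n * φ / 2) ^ 2 ≤ N * (n ^ 2 * (N * g + 3 * r) + 2 * n * N)) :
    e ≤ 864 * L * δ * N ^ 2 := by
  have a1 : N * g + 3 * r ≤ 4 * (N * δ) := by nlinarith
  have a2 : 2 * n * N ≤ n ^ 2 * (2 * (N * δ)) := by nlinarith [mul_nonneg hn.le hN]
  have a3 : e * (n * φ / 2) ^ 2 ≤ n ^ 2 * (6 * δ * N ^ 2) := by
    refine h.trans ?_
    have : n ^ 2 * (N * g + 3 * r) ≤ n ^ 2 * (4 * (N * δ)) := by gcongr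
    nlinarith
  have a4 : e * φ ^ 2 ≤ 24 * δ * N ^ 2 := by
    refine le_of_mul_le_mul_left ?_ (pow_pos hn 2)
    nlinarith
  have a5 : 1 ≤ 36 * L * φ ^ 2 := by nlinarith
  calc e ≤ e * (36 * L * φ ^ 2) := le_mul_of_one_le_right he a5
    _ = 36 * L * (e * φ ^ 2) := by ring
    _ ≤ 36 * L * (24 * δ * N ^ 2) := by gcongr
    _ = _ := by ring

theorem n2 {e n φ L M s : ℝ} (hL : 1 ≤ L) (hs : s ^ 2 = L) (hn : 0 < n) (hφ : 1 ≤ 6 * s * φ)
    (s0 : 0 ≤ s) (he : 0 ≤ e) (hM : 0 ≤ M) (h : e * (n * φ / 4) ≤ n * M) : e ≤ 24 * L * M := by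
  have a1 : e * φ ≤ 4 * M := by
    refine le_of_mul_le_mul_left ?_ hn
    nlinarith
  have a2 : s ≤ L := by nlinarith
  calc e ≤ e * (6 * s * φ) := le_mul_of_one_le_right he hφ
    _ = 6 * s * (e * φ) := by ring
    _ ≤ 6 * L * (4 * M) := by
      refine (mul_le_mul_of_nonneg_left a1 (by positivity)).trans ?_
      gcongr
    _ = _ := by ring

end Gr

open Gr in
theorem grid (hR : RTWO) (hV : VAR) (hG : GOOD) (hD : DSUM) (hP : PHI) (hS : SMALL) (hA : NUMA)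
    (hB : NUMB) (hC : NUMC) : GRID := by
  classical
  intro a
  obtain ⟨C, C0, hC⟩ := hC a
  refine ⟨C, ?_⟩
  filter_upwards [hA a, hB a, hC] with N ⟨N3, hL, a0, a1, a2, a3, a4, a5⟩ ⟨b0, b1, b2⟩ ⟨c0, c1⟩
  have L1 : 1 ≤ l1 N := by linarith
  have L0 : 0 < l1 N := by linarith
  refine ⟨L1, fun Y hY => ?_⟩
  have s2 : √(l1 N) ^ 2 = l1 N := Real.sq_sqrt L0.le
  have s1 : 1 ≤ √(l1 N) := Real.one_le_sqrt.2 L1
  have x1 : 1 ≤ Real.exp (C * (l2 N / l3 N)) := Real.one_le_exp (mul_nonneg C0 c0)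
  have N0 : (0 : ℝ) < N := by exact_mod_cast (by omega : 0 < N)
  obtain ⟨ex, hex⟩ : ∃ ex, ex = Real.exp (C * (l2 N / l3 N)) := ⟨_, rfl⟩
  rw [← hex] at x1 c1 ⊢
  by_cases hn : (Y.card : ℝ) ≤ l1 N ^ (a + 2)
  · obtain ⟨E, e1, e2⟩ := hS N Y
    refine ⟨E, le_trans ?_ a5, fun x hx k => ?_⟩
    · refine le_trans (b := (Y.card : ℝ) ^ 2 * N + Y.card) (by exact_mod_cast e1) ?_
      gcongr
    · refine (div_le_self (by positivity) (one_le_mul_of_one_le_of_one_le s1 x1)).trans ?_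
      exact_mod_cast e2 x hx k
  rw [not_le] at hn
  have n0 : (0 : ℝ) < Y.card := lt_trans (by positivity) hn
  obtain ⟨P, hP'⟩ : ∃ P, P = pr1 (z0 a N) (z1 a N) := ⟨_, rfl⟩
  have Pm : ∀ p ∈ P, p.Prime ∧ z0 a N < p ∧ p ≤ z1 a N := fun p hp => by
    rw [hP'] at hp
    exact ⟨(mem_pr.1 (mem_filter.1 hp).1).2, (mem_pr.1 (mem_filter.1 hp).1).1⟩
  have er1 : er P (z1 a N) N (kk a N) ≤ N * (1 / l1 N ^ (a + 2)) := by
    rw [mul_one_div]
    exact (er_mono (fun p hp => mem_pr.2 ⟨⟨(Pm p hp).1.pos, (Pm p hp).2.2⟩, (Pm p hp).1⟩)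
      _ _ _).trans a4
  obtain ⟨φ, hφ⟩ : ∃ φ, φ = ∏ p ∈ P, (1 - 1 / (p : ℝ)) := ⟨_, rfl⟩
  have φ0 : 0 ≤ φ := hφ ▸ prod_nonneg fun p hp => by
    have : (1 : ℝ) ≤ p := by exact_mod_cast (Pm p hp).1.one_le
    rw [sub_nonneg, div_le_one (by linarith)]; exact this
  have d1 : 1 / l1 N ^ (a + 2) ≤ 1 := by
    rw [div_le_one (by positivity)]; exact one_le_pow₀ L1
  have φ1 : 1 ≤ 6 * √(l1 N) * φ := by
    have k := hP (z0 a N) (z1 a N) (kk a N) a0 a1
    rw [← hP', ← hφ] at k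
    refine k.trans (mul_le_mul_of_nonneg_right ?_ φ0)
    have z1' : (1 : ℝ) ≤ z1 a N := by exact_mod_cast a1
    have k1 : √(1 + 2 * Real.log ((z1 a N : ℝ) ^ kk a N)) ≤ 2 * √(l1 N) := by
      refine Real.sqrt_le_iff.2 ⟨by positivity, ?_⟩
      have : Real.log ((z1 a N : ℝ) ^ kk a N) ≤ l1 N := Real.log_le_log (by positivity) a2
      nlinarith
    have k2 : (∏ p ∈ P, (1 + 4 / (p : ℝ))) / 2 ^ kk a N ≤ 1 := by
      refine le_of_mul_le_mul_left ?_ N0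
      refine le_trans ?_ (er1.trans (mul_le_mul_of_nonneg_left d1 N0.le))
      have w0 : 0 ≤ ∏ p ∈ P, (1 + 4 / (p : ℝ)) := prod_nonneg fun _ _ => by positivity
      rw [er, mul_div_left_comm, mul_comm]
      refine mul_le_mul_of_nonneg_right ?_ w0
      have : (0 : ℝ) ≤ (z1 a N : ℝ) ^ (2 * kk a N) := by positivity
      have : (0 : ℝ) ≤ N / 2 ^ kk a N := by positivity
      rw [mul_div_assoc]
      linarith
    linarith
  obtain ⟨B, hB'⟩ : ∃ B, B = Bad (pr 0 (z0 a N) ∪ pr (z1 a N) (2 * N ^ 2)) (KK a N) (tt a N) :=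
    ⟨_, rfl⟩
  obtain ⟨E1, hE1⟩ : ∃ E1, E1 = (box N).filter fun x => ∑ y ∈ Y, ff P (qq x y) < Y.card * φ / 2 :=
    ⟨_, rfl⟩
  obtain ⟨E2, hE2⟩ : ∃ E2, E2 = (box N).filter fun x => Y.card * φ / 4 <
      ((Y.filter fun y => qq x y = 0 ∨ B (qq x y)).card : ℝ) := ⟨_, rfl⟩
  have e1 : (E1.card : ℝ) ≤ 864 * l1 N * (1 / l1 N ^ (a + 2)) * N ^ 2 := by
    have k := hV P (z0 a N) (z1 a N) N (kk a N) Y (by omega) a1 N3 hY Pm
    rw [← hφ, ← hE1] at k
    refine n1 L1 s2 n0 φ1 (by positivity) (by positivity) N0.le a3 er1 ?_ k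
    rw [mul_one_div, one_le_div (by positivity)]
    exact hn.le
  have e2 : (E2.card : ℝ) ≤ 24 * l1 N * ((N : ℝ) ^ 2 / l1 N ^ (a + 2)) := by
    refine n2 L1 s2 n0 φ1 (by positivity) (by positivity) (by positivity) ?_
    have k := hD (pr 0 (z0 a N) ∪ pr (z1 a N) (2 * N ^ 2)) (2 * N ^ 2) (KK a N) (tt a N)
      √(l2 N) (by have : 0 < N := by omega
                  exact Nat.succ_le_of_lt (by positivity)) b0 b1
      fun p hp => (mem_union.1 hp).elim (fun h => (mem_pr.1 h).2) fun h => (mem_pr.1 h).2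
    rw [← hB'] at k
    calc (E2.card : ℝ) * (Y.card * φ / 4)
        ≤ ∑ x ∈ E2, ((Y.filter fun y => qq x y = 0 ∨ B (qq x y)).card : ℝ) := by
          rw [← nsmul_eq_mul]
          exact card_nsmul_le_sum _ _ _ fun x hx => (mem_filter.1 (hE2 ▸ hx)).2.le
      _ ≤ ∑ x ∈ box N, ((Y.filter fun y => qq x y = 0 ∨ B (qq x y)).card : ℝ) :=
          sum_le_sum_of_subset_of_nonneg (hE2 ▸ filter_subset _ _) fun _ _ _ => by positivity
      _ = ∑ y ∈ Y, (((box N).filter fun x => qq x y = 0 ∨ B (qq x y)).card : ℝ) := by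
          simp only [card_filter, Nat.cast_sum]
          exact sum_comm
      _ ≤ _ := by
          rw [← nsmul_eq_mul]
          refine sum_le_card_nsmul _ _ _ fun y hy => (fib2 hR (hY hy) B).trans (le_trans ?_ b2)
          have := k
          linarith
  refine ⟨E1 ∪ E2, ?_, fun x hx k => ?_⟩
  · have u : ((E1 ∪ E2).card : ℝ) ≤ E1.card + E2.card := by exact_mod_cast card_union_le _ _
    refine (u.trans (add_le_add e1 e2)).trans ?_
    have : 864 * l1 N * (1 / l1 N ^ (a + 2)) * (N : ℝ) ^ 2 +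
        24 * l1 N * ((N : ℝ) ^ 2 / l1 N ^ (a + 2)) = 888 / l1 N * ((N : ℝ) ^ 2 / l1 N ^ a) := by
      field_simp; ring
    rw [this]
    exact mul_le_of_le_one_left (by positivity) ((div_le_one L0).2 (by linarith))
  rw [mem_union, not_or, hE1, hE2, mem_filter, mem_filter] at k
  have k1 := not_lt.1 fun h => k.1 ⟨hx, h⟩
  have k2 := not_lt.1 fun h => k.2 ⟨hx, h⟩
  have ex0 : 0 < ex := by linarith
  have f := fib1 hR Y x (g := fun m => if m = 0 ∨ B m then 0 else ff P m * (24 / ex)) (by simp)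
    fun y hy h0 => by
      split_ifs with h
      · simp
      · refine ⟨mul_nonneg (ff_bd _ _).1 (by positivity), ?_⟩
        have g := hG (z0 a N) (z1 a N) (2 * N ^ 2) (KK a N) (tt a N) (qq x y) _ _
          (ex / (96 * 2 ^ tt a N)) a0 h0 (qq_le hx (hY hy)) (qq_cast x y)
          (fun j j1 j2 => by
            rw [le_div_iff₀ (by positivity)]
            linarith [c1 j j1 j2]) (hB' ▸ fun b => h (Or.inr b))
        rw [← hP'] at g
        have e : ex / (96 * 2 ^ tt a N) * 2 ^ tt a N = ex / 96 := by field_simp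
        rw [e] at g
        calc _ = 96 / ex * (((qq x y).divisors.card : ℝ) * ff P (qq x y)) := by ring
          _ ≤ 96 / ex * (ex / 96) := by gcongr
          _ = 1 := by field_simp
  refine le_trans ?_ f
  have t : ∑ y ∈ Y, ff P (qq x y) * (24 / ex) ≤
      ∑ y ∈ Y, ((if qq x y = 0 ∨ B (qq x y) then 0 else ff P (qq x y) * (24 / ex)) +
        (if qq x y = 0 ∨ B (qq x y) then 1 else 0) * (24 / ex)) := sum_le_sum fun y _ => by
    split_ifs
    · rw [zero_add]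
      exact mul_le_mul_of_nonneg_right (ff_bd _ _).2 (by positivity)
    · simp
  rw [sum_add_distrib, ← sum_mul, ← sum_mul, sum_boole] at t
  have v : (Y.card : ℝ) / (√(l1 N) * ex) ≤ Y.card * φ / 4 * (24 / ex) := by
    rw [div_le_iff₀ (by positivity)]
    have : (Y.card : ℝ) * φ / 4 * (24 / ex) * (√(l1 N) * ex) = Y.card * (6 * √(l1 N) * φ) := by
      field_simp; ring
    rw [this]
    exact le_mul_of_one_le_right n0.le φ1
  have w : (0 : ℝ) ≤ 24 / ex := by positivity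
  nlinarith [mul_le_mul_of_nonneg_right k1 w, mul_le_mul_of_nonneg_right k2 w]

end Pool.Agent.MP_6c3157_co.LG
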