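import Pool.Agent.MP_6c3157_co.LG.SpecU
import Pool.Agent.MP_6c3157_co.LG.Grid
import Pool.Agent.MP_6c3157_co.LG.Dsum

/-! Project LG: the density of the multiples of a number among squared distances. -/

set_option autoImplicit false

noncomputable section

namespace Pool.Agent.MP_6c3157_co.LG

open Finset

namespace Beta1

theorem dvd_iff (q : ℕ) {x y x' y' : ℕ × ℕ} (a b : ℤ)
    (h1 : (x'.1 : ℤ) - y'.1 = x.1 - y.1 + q * a) (h2 : (x'.2 : ℤ) - y'.2 = x.2 - y.2 + q * b) :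
    q ∣ qq x' y' ↔ q ∣ qq x y := by
  rw [← Int.natCast_dvd_natCast, ← Int.natCast_dvd_natCast, qq_cast, qq_cast, h1, h2]
  have e : ((x.1 : ℤ) - y.1 + q * a) ^ 2 + ((x.2 : ℤ) - y.2 + q * b) ^ 2 =
      (((x.1 : ℤ) - y.1) ^ 2 + ((x.2 : ℤ) - y.2) ^ 2) +
        q * (2 * a * (x.1 - y.1) + q * a ^ 2 + 2 * b * (x.2 - y.2) + q * b ^ 2) := by ring
  rw [e]
  exact dvd_add_left (dvd_mul_right _ _)

theorem mult2 (q : ℕ) (hq : 1 ≤ q) :
    ∑ m ∈ (Icc 1 (2 * q ^ 2)).filter (fun m => q ∣ m), (m.divisors.card : ℝ) ≤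
      q.divisors.card * (2 * q * (1 + Real.log (2 * q))) := by
  have h1 : (Icc 1 (2 * q ^ 2)).filter (fun m => q ∣ m) =
      (Icc 1 (2 * q)).image fun i => q * i := by
    ext m
    simp only [mem_filter, mem_Icc, mem_image]
    constructor
    · rintro ⟨⟨h1, h2⟩, i, rfl⟩
      refine ⟨i, ⟨Nat.pos_of_mul_pos_left h1, ?_⟩, rfl⟩
      refine Nat.le_of_mul_le_mul_left ?_ hq
      calc q * i ≤ 2 * q ^ 2 := h2
        _ = q * (2 * q) := by ring
    · rintro ⟨i, ⟨h1, h2⟩, rfl⟩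
      refine ⟨⟨Nat.mul_pos hq h1, ?_⟩, dvd_mul_right _ _⟩
      calc q * i ≤ q * (2 * q) := Nat.mul_le_mul_left _ h2
        _ = 2 * q ^ 2 := by ring
  rw [h1, sum_image fun a _ b _ h => Nat.eq_of_mul_eq_mul_left hq h]
  have h2 : ∑ i ∈ Icc 1 (2 * q), ((q * i).divisors.card : ℝ) ≤
      q.divisors.card * ∑ i ∈ Icc 1 (2 * q), (i.divisors.card : ℝ) := by
    rw [mul_sum]
    exact sum_le_sum fun i _ => by exact_mod_cast Dsum.tau_mul q i
  have h3 := Dsum.tau_sum (2 * q)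
  push_cast at h3
  exact h2.trans (mul_le_mul_of_nonneg_left h3 (by positivity))

end Beta1

theorem beta1 (h : RTWO) : BETA1 := by
  classical
  intro q y hq
  refine ⟨fun x => ⟨propext ?_, propext ?_⟩, ?_⟩
  · exact Beta1.dvd_iff q 1 0 (by push_cast; ring) (by push_cast; ring)
  · exact Beta1.dvd_iff q 0 1 (by push_cast; ring) (by push_cast; ring)
  have hy : (y.1 % q, y.2 % q) ∈ box q := mem_box.2 ⟨Nat.mod_lt _ hq, Nat.mod_lt _ hq⟩
  have e : ∀ x : ℕ × ℕ, q ∣ qq x (y.1 % q, y.2 % q) ↔ q ∣ qq x y := fun x =>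
    Beta1.dvd_iff q ((y.1 : ℤ) / q) ((y.2 : ℤ) / q)
      (by push_cast; rw [Int.emod_def]; ring) (by push_cast; rw [Int.emod_def]; ring)
  have f := Gr.fib2 h hy fun m => q ∣ m
  have g := Beta1.mult2 q hq
  have s : ∑ x ∈ box q, ind (q ∣ qq x y) ≤
      1 + 4 * (q.divisors.card * (2 * q * (1 + Real.log (2 * q)))) := by
    refine le_trans (le_of_eq ?_) (f.trans ?_)
    · rw [card_filter, Nat.cast_sum]
      refine sum_congr rfl fun x _ => ?_
      have k : (qq x (y.1 % q, y.2 % q) = 0 ∨ q ∣ qq x (y.1 % q, y.2 % q)) ↔ q ∣ qq x y := by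
        rw [← e]
        exact ⟨fun k => k.elim (fun k => k ▸ dvd_zero q) id, Or.inr⟩
      by_cases c : q ∣ qq x y
      · rw [ind, if_pos c, if_pos (k.2 c), Nat.cast_one]
      · rw [ind, if_neg c, if_neg (mt k.1 c), Nat.cast_zero]
    · refine add_le_add le_rfl (mul_le_mul_of_nonneg_left ?_ (by norm_num))
      refine le_trans (le_of_eq ?_) g
      congr
  have q1 : (1 : ℝ) ≤ q := by exact_mod_cast hq
  have d1 : (1 : ℝ) ≤ q.divisors.card := by
    exact_mod_cast card_pos.2 ⟨1, Nat.one_mem_divisors.2 (by omega)⟩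
  have l0 : 0 ≤ Real.log (2 * q) := Real.log_nonneg (by linarith)
  have t : (1 : ℝ) ≤ q.divisors.card * (1 + Real.log (2 * q)) * q :=
    one_le_mul_of_one_le_of_one_le (one_le_mul_of_one_le_of_one_le d1 (by linarith)) q1
  rw [av2, div_le_div_iff₀ (by positivity) (by positivity)]
  have u : ∑ x ∈ box q, ind (q ∣ qq x y) ≤ 9 * q.divisors.card * (1 + Real.log (2 * q)) * q := by
    nlinarith
  calc (∑ x ∈ box q, ind (q ∣ qq x y)) * q
      ≤ 9 * q.divisors.card * (1 + Real.log (2 * q)) * q * q :=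
        mul_le_mul_of_nonneg_right u (by positivity)
    _ = _ := by ring

end Pool.Agent.MP_6c3157_co.LG
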