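import Pool.Agent.MP_6c3157_co.LG.SpecU
import Pool.Agent.MP_6c3157_co.LG.Cov

/-! Project LG: the density of the multiples of a squarefree number among squared distances. -/

set_option autoImplicit false

noncomputable section

namespace Pool.Agent.MP_6c3157_co.LG

open Finset

namespace Beta2

theorem per (q : ℕ) (y : ℕ × ℕ) : Per q fun x => ind (q ∣ qq x y) := by
  rintro ⟨u, c⟩
  have e1 : (((u + q : ℕ) : ℤ) - y.1) ^ 2 + ((c : ℤ) - y.2) ^ 2 =
      ((u : ℤ) - y.1) ^ 2 + ((c : ℤ) - y.2) ^ 2 + q * (2 * ((u : ℤ) - y.1) + q) := by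
    push_cast; ring
  have e2 : ((u : ℤ) - y.1) ^ 2 + (((c + q : ℕ) : ℤ) - y.2) ^ 2 =
      ((u : ℤ) - y.1) ^ 2 + ((c : ℤ) - y.2) ^ 2 + q * (2 * ((c : ℤ) - y.2) + q) := by
    push_cast; ring
  constructor
  · simp only [Cov.dvd_qq, e1, dvd_add_left (dvd_mul_right (q : ℤ) _)]
  · simp only [Cov.dvd_qq, e2, dvd_add_left (dvd_mul_right (q : ℤ) _)]

theorem ind_nonneg (φ : Prop) : 0 ≤ ind φ := by
  unfold ind
  split_ifs <;> norm_num

theorem prime {p : ℕ} (hp : p.Prime) (y : ℕ × ℕ) :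
    ∑ x ∈ box p, ind (p ∣ qq x y) ≤ 2 * p := by
  rw [box, sum_product_right]
  calc ∑ c ∈ range p, ∑ u ∈ range p, ind (p ∣ qq (u, c) y) ≤ ∑ _c ∈ range p, (2 : ℝ) := by
        refine sum_le_sum fun c _ => ?_
        have h1 : (((range p).filter fun u => p ∣ qq (u, c) y).card : ℝ) ≤ 2 := by
          exact_mod_cast Cov.card_res c y hp
        refine le_trans (le_of_eq ?_) h1
        rw [card_filter]
        push_cast
        refine sum_congr rfl fun u _ => ?_
        unfold ind
        congr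
    _ = 2 * p := by rw [sum_const, card_range, nsmul_eq_mul, mul_comm]

theorem ind_mul {p q m : ℕ} (h : p.Coprime q) :
    ind (p * q ∣ m) = ind (p ∣ m) * ind (q ∣ m) := by
  have : p * q ∣ m ↔ p ∣ m ∧ q ∣ m :=
    ⟨fun k => ⟨(dvd_mul_right _ _).trans k, (dvd_mul_left _ _).trans k⟩,
      fun k => h.mul_dvd_of_dvd_of_dvd k.1 k.2⟩
  unfold ind
  by_cases a : p ∣ m <;> by_cases b : q ∣ m <;> simp [this, a, b]

end Beta2

theorem beta2 (hC : CRT) : BETA2 := by
  intro S y
  induction S using Finset.induction_on with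
  | empty => intro _; simp [av2, box, ind]
  | insert p S hp ih =>
    intro h
    have pp := h p (mem_insert_self _ _)
    have hS := fun r hr => h r (mem_insert_of_mem hr)
    have q0 : 0 < ∏ r ∈ S, r := prod_pos fun r hr => (hS r hr).pos
    have co : p.Coprime (∏ r ∈ S, r) := Nat.Coprime.prod_right fun r hr =>
      (Nat.coprime_primes pp (hS r hr)).2 fun e => hp (e ▸ hr)
    have i := ih hS
    rw [prod_insert hp, prod_insert hp]
    generalize ∏ r ∈ S, r = q at q0 co i ⊢
    have e := hC p q (fun a b => ind (p ∣ qq a y) * ind (q ∣ qq b y)) pp.pos q0 co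
      (fun b x => ⟨congrArg (· * ind (q ∣ qq b y)) (Beta2.per p y x).1,
        congrArg (· * ind (q ∣ qq b y)) (Beta2.per p y x).2⟩)
      (fun a x => ⟨congrArg (ind (p ∣ qq a y) * ·) (Beta2.per q y x).1,
        congrArg (ind (p ∣ qq a y) * ·) (Beta2.per q y x).2⟩)
    have p0 : (0 : ℝ) < p := by exact_mod_cast pp.pos
    have a : (∑ x ∈ box p, ind (p ∣ qq x y)) / (p : ℝ) ^ 2 ≤ 2 / p := by
      rw [div_le_div_iff₀ (by positivity) p0]
      nlinarith [Beta2.prime pp y]
    unfold av2 at i ⊢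
    simp only [Beta2.ind_mul co]
    rw [e, ← sum_mul_sum, Nat.cast_mul, mul_pow, mul_div_mul_comm]
    exact mul_le_mul a i (div_nonneg (sum_nonneg fun _ _ => Beta2.ind_nonneg _) (by positivity))
      (by positivity)

end Pool.Agent.MP_6c3157_co.LG
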