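import Pool.Agent.MP_6c3157_co.LG.SpecU

/-! Project LG: covariance of two sifted indicators. -/

set_option autoImplicit false

noncomputable section

namespace Pool.Agent.MP_6c3157_co.LG

open Finset

namespace Covu

theorem ind_bd (φ : Prop) : 0 ≤ ind φ ∧ ind φ ≤ 1 := by
  unfold ind
  split_ifs <;> norm_num

theorem qq_ne {y y' : ℕ × ℕ} (h : y ≠ y') : qq y y' ≠ 0 := fun h0 => by
  have h1 := qq_cast y y'
  rw [h0] at h1
  have a1 := sq_nonneg ((y.1 : ℤ) - y'.1)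
  have a2 := sq_nonneg ((y.2 : ℤ) - y'.2)
  have h2 : (y.1 : ℤ) - y'.1 = 0 := (pow_eq_zero_iff two_ne_zero).1 (by push_cast at h1; linarith)
  have h3 : (y.2 : ℤ) - y'.2 = 0 := (pow_eq_zero_iff two_ne_zero).1 (by push_cast at h1; linarith)
  exact h (Prod.ext (by omega) (by omega))

theorem qq_le {N : ℕ} {y y' : ℕ × ℕ} (hy : y ∈ box N) (hy' : y' ∈ box N) :
    qq y y' ≤ 2 * N ^ 2 := by
  rw [mem_box] at hy hy'
  have h1 : ((y.1 : ℤ) - y'.1) ^ 2 ≤ (N : ℤ) ^ 2 := sq_le_sq' (by omega) (by omega)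
  have h2 : ((y.2 : ℤ) - y'.2) ^ 2 ≤ (N : ℤ) ^ 2 := sq_le_sq' (by omega) (by omega)
  have h3 := qq_cast y y'
  have h4 : (qq y y' : ℤ) ≤ 2 * (N : ℤ) ^ 2 := by linarith
  exact_mod_cast h4

theorem prod_bd (P : Finset ℕ) {z m : ℕ} {X : ℝ} (hz : 4 ≤ z) (hP : ∀ p ∈ P, p.Prime ∧ z < p)
    (hm : m ≠ 0) (hX : (m : ℝ) ≤ X) :
    ∏ p ∈ P, (1 + if p ∣ m then 2 / (p : ℝ) else 0) ≤
      Real.exp (2 * Real.log X / (z * Real.log z)) := by
  have hz0 : (4 : ℝ) ≤ z := by exact_mod_cast hz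
  have hl : 0 < Real.log z := Real.log_pos (by linarith)
  have h1 : ∏ p ∈ P.filter (fun p => p ∣ m), p ∣ m :=
    prod_primes_dvd m (fun p hp => (hP p (mem_filter.1 hp).1).1.prime)
      fun p hp => (mem_filter.1 hp).2
  have h2 : z ^ (P.filter fun p => p ∣ m).card ≤ ∏ p ∈ P.filter (fun p => p ∣ m), p :=
    pow_card_le_prod _ _ _ fun p hp => (hP p (mem_filter.1 hp).1).2.le
  have h3 : (z : ℝ) ^ (P.filter fun p => p ∣ m).card ≤ m := by
    exact_mod_cast h2.trans (Nat.le_of_dvd (Nat.pos_of_ne_zero hm) h1)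
  have h4 := Real.log_le_log (by positivity) (h3.trans hX)
  rw [Real.log_pow] at h4
  refine (Real.prod_one_add_le_exp_sum P fun p => by positivity).trans (Real.exp_le_exp.2 ?_)
  rw [← sum_filter]
  have h5 : ∑ p ∈ P.filter (fun p => p ∣ m), 2 / (p : ℝ) ≤
      (P.filter fun p => p ∣ m).card • (2 / (z : ℝ)) :=
    sum_le_card_nsmul _ _ _ fun p hp => div_le_div_of_nonneg_left (by norm_num) (by linarith)
      (by exact_mod_cast (hP p (mem_filter.1 hp).1).2.le)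
  refine h5.trans ?_
  rw [nsmul_eq_mul, le_div_iff₀ (by positivity)]
  have e : ((P.filter fun p => p ∣ m).card : ℝ) * (2 / (z : ℝ)) * (z * Real.log z) =
      2 * ((P.filter fun p => p ∣ m).card * Real.log z) := by
    field_simp
  rw [e]
  linarith

end Covu

open Covu

theorem covu (hL : LIN) (hM : MEAN) : COVU := by
  intro P z N d θ R γ h hz hθ0 hθ1 hR hP hS hγ hd hdP hper huni y hy y' hy' hne
  have hp2 : ∀ p ∈ P, (2 : ℝ) ≤ p := fun p hp => by exact_mod_cast (hP p hp).1.two_le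
  have hp1 : ∀ p ∈ P, (0 : ℝ) ≤ 1 / p ∧ (1 / p : ℝ) ≤ 1 / 2 := fun p hp =>
    ⟨by positivity, one_div_le_one_div_of_le two_pos (hp2 p hp)⟩
  have e2 : ∀ p : ℕ, (2 / p : ℝ) = 2 * (1 / p) := fun p => by ring
  have hL' := fun p (hp : p ∈ P) => hL p (hP p hp).1 (hP p hp).2.1
  have hav : ∀ w, ∀ p ∈ P, av2 p (fun x => ind (Dv p 1 x w)) = 1 / p := fun w p hp =>
    (hL' p hp).2.1 1 w
  have hpe : ∀ w, ∀ p ∈ P, ∀ x : ℕ × ℕ, Dv p 1 (x.1 + p, x.2) w = Dv p 1 x w ∧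
      Dv p 1 (x.1, x.2 + p) w = Dv p 1 x w := fun w p hp x => (hL' p hp).1 1 w x
  obtain ⟨φ, hφ⟩ : ∃ φ : ℝ, φ = ∏ p ∈ P, (1 - 1 / (p : ℝ)) := ⟨_, rfl⟩
  obtain ⟨A, hA⟩ : ∃ A : ℝ, A = (N : ℝ) ^ 2 * av2 d h := ⟨_, rfl⟩
  have hφ0 : 0 ≤ φ := hφ ▸ prod_nonneg fun p hp => by linarith [hp1 p hp]
  have hφ1 : φ ≤ 1 := hφ ▸ prod_le_one (fun p hp => by linarith [hp1 p hp])
    fun p hp => by linarith [hp1 p hp]
  have hA0 : 0 ≤ A := hA ▸ mul_nonneg (by positivity)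
    (div_nonneg (sum_nonneg fun x _ => (huni x).1) (by positivity))
  have h1 : ∀ w, (1 - θ) * (A * φ) - d * R ≤ ∑ x ∈ box N, h x * fs P x w := fun w => by
    have k := hS (fun p x => ind (Dv p 1 x w)) (fun p hp => ⟨fun x => by
      simp only [(hpe w p hp x).1, (hpe w p hp x).2, and_self], fun x => ind_bd _, by
      rw [hav w p hp]; linarith [hp1 p hp, e2 p]⟩) d h hd hdP hper huni
    rw [prod_congr rfl fun p hp => by rw [hav w p hp], ← hφ, ← hA] at k
    have := (abs_le.1 k).1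
    unfold fs
    linarith
  let u : ℕ → ℕ × ℕ → ℝ := fun p x =>
    ind (Dv p 1 x y) + ind (Dv p 1 x y') - ind (Dv p 1 x y) * ind (Dv p 1 x y')
  have hu : ∀ p ∈ P, av2 p (u p) = 2 / p -
      av2 p (fun x => ind (Dv p 1 x y) * ind (Dv p 1 x y')) := fun p hp => by
    have a1 := hav y p hp
    have a2 := hav y' p hp
    simp only [av2, u, sum_sub_distrib, sum_add_distrib, sub_div, add_div] at a1 a2 ⊢
    rw [a1, a2]
    ring
  have ht : ∀ p ∈ P, 0 ≤ av2 p (fun x => ind (Dv p 1 x y) * ind (Dv p 1 x y')) ∧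
      av2 p (fun x => ind (Dv p 1 x y) * ind (Dv p 1 x y')) ≤
        if p ∣ qq y y' then (1 / p : ℝ) else 0 := by
    intro p hp
    refine ⟨div_nonneg (sum_nonneg fun x _ => mul_nonneg (ind_bd _).1 (ind_bd _).1)
      (by positivity), ?_⟩
    split_ifs with hd
    · rw [← hav y p hp]
      exact div_le_div_of_nonneg_right (sum_le_sum fun x _ =>
        mul_le_of_le_one_right (ind_bd _).1 (ind_bd _).2) (by positivity)
    · rw [av2, sum_eq_zero, zero_div]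
      intro x _
      unfold ind
      split_ifs with h2 h3
      · exact absurd ((hL' p hp).2.2.2 x y y' h2 h3) hd
      all_goals simp
  have h3 := hS u (fun p hp => ⟨fun x => by
    simp only [u, (hpe y p hp x).1, (hpe y p hp x).2, (hpe y' p hp x).1, (hpe y' p hp x).2,
      and_self], fun x => by
    obtain ⟨a1, a2⟩ := ind_bd (Dv p 1 x y)
    obtain ⟨a3, a4⟩ := ind_bd (Dv p 1 x y')
    have := mul_nonneg (sub_nonneg.2 a2) (sub_nonneg.2 a4)
    have := mul_le_of_le_one_right a1 a4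
    simp only [u]
    constructor <;> linarith, by linarith [hu p hp, (ht p hp).1]⟩) d h hd hdP hper huni
  have e3 : ∀ x, ∏ p ∈ P, (1 - u p x) = fs P x y * fs P x y' := fun x => by
    rw [fs, fs, ← prod_mul_distrib]
    refine prod_congr rfl fun p _ => ?_
    simp only [u]
    ring
  simp only [e3] at h3
  rw [← hA] at h3
  have hN : (1 : ℝ) ≤ N := by exact_mod_cast (Nat.zero_le _).trans_lt (mem_box.1 hy).1
  have hb := (prod_bd P hz (fun p hp => ⟨(hP p hp).1, (hP p hp).2.2⟩) (qq_ne hne)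
    (show ((qq y y' : ℕ) : ℝ) ≤ 2 * (N : ℝ) ^ 2 by exact_mod_cast qq_le hy hy')).trans hγ
  have hγ0 : 0 ≤ γ := by
    have := prod_le_prod (s := P) (f := fun _ : ℕ => (1 : ℝ))
      (g := fun p : ℕ => 1 + if p ∣ qq y y' then 2 / (p : ℝ) else 0) (fun _ _ => zero_le_one)
      fun p _ => le_add_of_nonneg_right (by positivity)
    rw [prod_const_one] at this
    linarith
  have h4 : ∏ p ∈ P, (1 - av2 p (u p)) ≤ φ ^ 2 * (1 + γ) := by
    refine le_trans ?_ (mul_le_mul_of_nonneg_left hb (sq_nonneg φ))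
    rw [hφ, ← prod_pow, ← prod_mul_distrib]
    refine prod_le_prod (fun p hp => by linarith [hu p hp, (ht p hp).1, hp1 p hp, e2 p])
      fun p hp => ?_
    obtain ⟨a1, a2⟩ := hp1 p hp
    have a3 := (ht p hp).2
    rw [hu p hp, e2 p]
    split_ifs at a3 ⊢
    · have a4 := mul_nonneg (mul_nonneg a1 (show 0 ≤ 1 - 1 / (p : ℝ) by linarith))
        (show 0 ≤ 1 - 2 * (1 / (p : ℝ)) by linarith)
      nlinarith
    · nlinarith [sq_nonneg (1 / (p : ℝ))]
  have h5 := (abs_le.1 (hM d N h hd hper huni)).2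
  rw [← hA] at h5
  rw [← hφ, ← hA]
  have e4 : ∑ x ∈ box N, h x * ((fs P x y - φ) * (fs P x y' - φ)) =
      ∑ x ∈ box N, h x * (fs P x y * fs P x y') - φ * ∑ x ∈ box N, h x * fs P x y -
        φ * ∑ x ∈ box N, h x * fs P x y' + φ ^ 2 * ∑ x ∈ box N, h x := by
    simp only [mul_sum, ← sum_sub_distrib, ← sum_add_distrib]
    exact sum_congr rfl fun x _ => by ring
  rw [e4]
  have b1 := mul_le_mul_of_nonneg_left (h1 y) hφ0
  have b2 := mul_le_mul_of_nonneg_left (h1 y') hφ0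
  have b3 := mul_le_mul_of_nonneg_left h5 (sq_nonneg φ)
  have b4 := mul_le_mul_of_nonneg_left h4 (mul_nonneg hA0 (show 0 ≤ 1 + θ by linarith))
  have b5 := mul_le_of_le_one_left (show (0 : ℝ) ≤ d * R by positivity) hφ1
  have b6 := mul_le_of_le_one_left (show (0 : ℝ) ≤ 3 * d * N by positivity)
    (pow_le_one₀ (n := 2) hφ0 hφ1)
  have b7 := mul_le_of_le_one_right (mul_nonneg (mul_nonneg hA0 (sq_nonneg φ)) hγ0) hθ1
  have b8 := (abs_le.1 h3).2
  linarith

end Pool.Agent.MP_6c3157_co.LG
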