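import Pool.Agent.MP_6c3157_co.LG.SpecU

/-! Project LG: the Chinese remainder theorem for squares. -/

set_option autoImplicit false

namespace Pool.Agent.MP_6c3157_co.LG

open Finset

namespace Crt

theorem mod1 {α : Type} (d : ℕ) (f : ℕ → α) (h : ∀ n, f (n + d) = f n) (n : ℕ) :
    f (n % d) = f n := by
  have k : ∀ q r, f (r + d * q) = f r := fun q r => by
    induction q with
    | zero => rfl
    | succ q ih => rw [Nat.mul_succ, ← add_assoc, h, ih]
  rw [← k (n / d) (n % d), Nat.mod_add_div]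

theorem mod2 {α : Type} {d : ℕ} {h : ℕ × ℕ → α} (hp : Per d h) (x : ℕ × ℕ) :
    h (x.1 % d, x.2 % d) = h x :=
  (mod1 d (fun n => h (n, x.2 % d)) (fun n => (hp (n, x.2 % d)).1) x.1).trans
    (mod1 d (fun n => h (x.1, n)) (fun n => (hp (x.1, n)).2) x.2)

theorem one {d e : ℕ} (hd : 0 < d) (he : 0 < e) (hc : d.Coprime e) (F : ℕ → ℕ → ℝ) :
    ∑ n ∈ range (d * e), F (n % d) (n % e) = ∑ a ∈ range d, ∑ b ∈ range e, F a b := by
  rw [← sum_product']
  refine sum_nbij (fun n => (n % d, n % e)) (fun n _ => ?_) (fun n hn m hm k => ?_)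
    (fun p hp => ?_) fun _ _ => rfl
  · exact mem_product.2 ⟨mem_range.2 (Nat.mod_lt _ hd), mem_range.2 (Nat.mod_lt _ he)⟩
  · obtain ⟨k1, k2⟩ := Prod.mk.inj k
    exact ((Nat.modEq_and_modEq_iff_modEq_mul hc).1 ⟨k1, k2⟩).eq_of_lt_of_lt
      (mem_range.1 hn) (mem_range.1 hm)
  · obtain ⟨p1, p2⟩ := mem_product.1 (mem_coe.1 hp)
    have k := (Nat.chineseRemainder hc p.1 p.2).2
    exact ⟨_, mem_coe.2 (mem_range.2 (Nat.chineseRemainder_lt_mul hc p.1 p.2 hd.ne' he.ne')),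
      Prod.ext (Eq.trans k.1 (Nat.mod_eq_of_lt (mem_range.1 p1)))
        (Eq.trans k.2 (Nat.mod_eq_of_lt (mem_range.1 p2)))⟩

end Crt

theorem crt : CRT := by
  intro d e H hd he hc h1 h2
  have k : ∀ m n : ℕ, H (m, n) (m, n) = H (m % d, n % d) (m % e, n % e) := fun m n =>
    ((Crt.mod2 (h1 (m % e, n % e)) (m, n)).trans (Crt.mod2 (h2 (m, n)) (m, n))).symm
  simp only [box, sum_product, k]
  rw [sum_congr rfl fun m _ => Crt.one hd he hc fun a b => H (m % d, a) (m % e, b),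
    Crt.one hd he hc fun a' b' => ∑ a ∈ range d, ∑ b ∈ range e, H (a', a) (b', b)]
  exact sum_congr rfl fun a _ => sum_comm

end Pool.Agent.MP_6c3157_co.LG
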