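import Pool.Agent.MP_6c3157_co.LG.Spec

/-! Project LG, row EUC: from integer coordinates to the Euclidean plane. -/

set_option autoImplicit false

noncomputable section

namespace Pool.Agent.MP_6c3157_co.LG

open Finset Filter

namespace EucL

/-- the point of the plane with given natural coordinates -/
def pt (x : ℕ × ℕ) : EuclideanSpace ℝ (Fin 2) := WithLp.toLp 2 ![(x.1 : ℝ), (x.2 : ℝ)]

theorem pt0 (x : ℕ × ℕ) : pt x 0 = x.1 := rfl

theorem pt1 (x : ℕ × ℕ) : pt x 1 = x.2 := rfl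

theorem pt_inj : Function.Injective pt := by
  intro x y h
  have h0 : (x.1 : ℝ) = y.1 := by rw [← pt0, ← pt0, h]
  have h1 : (x.2 : ℝ) = y.2 := by rw [← pt1, ← pt1, h]
  exact Prod.ext (Nat.cast_injective h0) (Nat.cast_injective h1)

theorem pt_dist (x y : ℕ × ℕ) : dist (pt x) (pt y) = √((qq x y : ℕ) : ℝ) := by
  rw [EuclideanSpace.dist_eq, Fin.sum_univ_two, pt0, pt0, pt1, pt1, Real.dist_eq, Real.dist_eq,
    sq_abs, sq_abs]
  have h : ((qq x y : ℕ) : ℝ) = (((qq x y : ℕ) : ℤ) : ℝ) := by norm_cast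
  rw [h, qq_cast]
  push_cast
  rfl

theorem pt_surj {N : ℕ} {y : EuclideanSpace ℝ (Fin 2)} (hy : ∀ i, ∃ k : ℕ, k < N ∧ y i = k) :
    ∃ x ∈ box N, pt x = y := by
  obtain ⟨a, ha, ha'⟩ := hy 0
  obtain ⟨b, hb, hb'⟩ := hy 1
  refine ⟨(a, b), mem_box.2 ⟨ha, hb⟩, ?_⟩
  ext i
  fin_cases i
  · exact ha'.symm
  · exact hb'.symm

theorem sq_inj : Function.Injective fun m : ℕ => √(m : ℝ) := by
  intro a b h
  exact Nat.cast_injective ((Real.sqrt_inj (Nat.cast_nonneg a) (Nat.cast_nonneg b)).1 h)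

theorem card_eq (Y : Finset (ℕ × ℕ)) (x : ℕ × ℕ) :
    (((Y.image pt).image fun y => dist (pt x) y).erase 0).card = dd Y x := by
  have h : ((Y.image pt).image fun y => dist (pt x) y)
      = (Y.image (qq x)).image fun m : ℕ => √(m : ℝ) := by
    rw [image_image, image_image]
    exact image_congr fun y _ => pt_dist x y
  have h0 : (0 : ℝ) = (fun m : ℕ => √(m : ℝ)) 0 := by simp
  rw [h, h0, ← image_erase sq_inj, card_image_of_injective _ sq_inj, dd]

end EucL

open EucL in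
theorem euc (h : GRID) : MAIN := by
  classical
  intro A
  obtain ⟨C, hC⟩ := h ⌈A⌉₊
  obtain ⟨N₀, hN⟩ := eventually_atTop.1 hC
  refine ⟨C, N₀, fun N hle Y hY => ?_⟩
  obtain ⟨h1, h2⟩ := hN N hle
  have hYe : ((box N).filter fun x => pt x ∈ Y).image pt = Y := by
    ext y
    simp only [mem_image, mem_filter]
    constructor
    · rintro ⟨x, ⟨-, hx⟩, rfl⟩
      exact hx
    · intro hy
      obtain ⟨x, hx, rfl⟩ := pt_surj (hY y hy)
      exact ⟨x, ⟨hx, hy⟩, rfl⟩
  obtain ⟨E, hE, hE'⟩ := h2 _ (filter_subset (fun x => pt x ∈ Y) (box N))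
  refine ⟨E.image pt, ?_, fun x hx hxE => ?_⟩
  · rw [card_image_of_injective _ pt_inj]
    refine hE.trans ?_
    have h3 : (1 : ℝ) ≤ Real.log N := h1
    refine div_le_div_of_nonneg_left (by positivity) (Real.rpow_pos_of_pos (by linarith) _) ?_
    rw [l1, ← Real.rpow_natCast]
    exact Real.rpow_le_rpow_of_exponent_le h3 (Nat.le_ceil A)
  · obtain ⟨u, hu, rfl⟩ := pt_surj hx
    have h4 := hE' u hu fun hh => hxE (mem_image_of_mem _ hh)
    rw [← hYe, card_eq, card_image_of_injective _ pt_inj]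
    exact h4

end Pool.Agent.MP_6c3157_co.LG
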