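import Pool.Agent.MP_6c3157_co.LG.SpecU
import Pool.Agent.MP_6c3157_co.LG.Euc

/-! Project LG, row EUCU: from integer coordinates to the Euclidean plane, all exceptional sizes. -/

set_option autoImplicit false

noncomputable section

namespace Pool.Agent.MP_6c3157_co.LG

open Finset Filter

open EucL in
theorem eucu (h2 : GRID2) (hU : GRIDU) : MAINU := by
  classical
  obtain ⟨C, s₀, hU⟩ := hU
  obtain ⟨N₀, hN⟩ := eventually_atTop.1 (h2.and hU)
  refine ⟨max C 120, Real.exp (-max s₀ 3), N₀, Real.exp_pos _, fun N hle δ hd1 hd2 Y hY => ?_⟩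
  obtain ⟨⟨h1, h2⟩, h5⟩ := hN N hle
  have h3 : (2 : ℝ) ≤ Real.log N := h1
  have hN0 : (0 : ℝ) < N := by
    rcases Nat.eq_zero_or_pos N with rfl | hp
    · simp at h3
      linarith
    · exact_mod_cast hp
  have hp : (0 : ℝ) < (N : ℝ) ^ (-1 / 100 : ℝ) := Real.rpow_pos_of_pos hN0 _
  have hδ : 0 < δ := hp.trans_le hd1
  have hs1 : max s₀ 3 ≤ Real.log (1 / δ) := by
    have h4 := Real.log_le_log hδ hd2
    rw [Real.log_exp] at h4
    rw [one_div, Real.log_inv]
    linarith
  have hs2 : Real.log (1 / δ) ≤ l1 N / 100 := by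
    have h4 := Real.log_le_log hp hd1
    rw [Real.log_rpow hN0] at h4
    rw [one_div, Real.log_inv, l1]
    linarith
  have he : Real.exp (-Real.log (1 / δ)) = δ := by
    rw [one_div, Real.log_inv, neg_neg, Real.exp_log hδ]
  have hYe : ((box N).filter fun x => pt x ∈ Y).image pt = Y := by
    ext y
    simp only [mem_image, mem_filter]
    constructor
    · rintro ⟨x, ⟨-, hx⟩, rfl⟩
      exact hx
    · intro hy
      obtain ⟨x, hx, rfl⟩ := pt_surj (hY y hy)
      exact ⟨x, ⟨hx, hy⟩, rfl⟩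
  have hsub := filter_subset (fun x => pt x ∈ Y) (box N)
  generalize Real.log (1 / δ) = s at hs1 hs2 he ⊢
  have s3 : 3 ≤ s := (le_max_right _ _).trans hs1
  have s4 : 0 ≤ s / Real.log s := div_nonneg (by linarith) (Real.log_nonneg (by linarith))
  obtain ⟨C', hC', E, hE, hE'⟩ : ∃ C' ≤ max C 120, ∃ E : Finset (ℕ × ℕ),
      (E.card : ℝ) ≤ Real.exp (-s) * (N : ℝ) ^ 2 ∧ ∀ x ∈ box N, x ∉ E →
        (((box N).filter fun x => pt x ∈ Y).card : ℝ) /
          (√(l1 N) * Real.exp (C' * (s / Real.log s))) ≤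
            dd ((box N).filter fun x => pt x ∈ Y) x := by
    rcases le_total s (l2 N) with k | k
    · exact ⟨C, le_max_left _ _, h5 s ((le_max_left _ _).trans hs1) k _ hsub⟩
    · exact ⟨120, le_max_right _ _, h2 s k hs2 _ hsub⟩
  refine ⟨E.image pt, ?_, fun x hx hxE => ?_⟩
  · rw [card_image_of_injective _ pt_inj, ← he]
    exact hE
  · obtain ⟨u, hu, rfl⟩ := pt_surj hx
    have h4 := hE' u hu fun hh => hxE (mem_image_of_mem _ hh)
    rw [← hYe, card_eq, card_image_of_injective _ pt_inj]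
    refine le_trans ?_ h4
    have q : 0 < √(l1 N) := Real.sqrt_pos.2 (by linarith)
    exact div_le_div_of_nonneg_left (Nat.cast_nonneg _) (mul_pos q (Real.exp_pos _))
      (mul_le_mul_of_nonneg_left (Real.exp_le_exp.2 (mul_le_mul_of_nonneg_right hC' s4)) q.le)

end Pool.Agent.MP_6c3157_co.LG
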