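import Pool.Agent.MP_6c3157_co.LG.SpecU
import Pool.Agent.MP_6c3157_co.LG.Rtwo

/-! Project LG, row FIB: lattice points on a circle that avoid one prime above each `p ∈ U`. -/

set_option autoImplicit false

noncomputable section

namespace Pool.Agent.MP_6c3157_co.LG

open Finset

namespace Fib

theorem norm_pow (z : GaussianInt) (k : ℕ) : (z ^ k).norm = z.norm ^ k :=
  map_pow Zsqrtd.normMonoidHom z k

/-- the possible factors above one prime -/
theorem step (U : Finset ℕ) (π : ℕ → GaussianInt) (hπ : ∀ p ∈ U, (π p).norm = p) {p m : ℕ}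
    (hp : p.Prime) (hm : ¬ p ∣ m) (a : ℕ) : ∃ F : Finset GaussianInt,
      F.card ≤ (if p ∉ U ∧ p % 4 = 1 then a + 1 else 1) ∧ ∀ z : GaussianInt, z.norm = p ^ a * m →
        (∀ q ∈ U, ¬ π q ∣ z) → ∃ f ∈ F, ∃ w : GaussianInt, w.norm = m ∧ z = f * w := by
  classical
  have hF : 1 ≤ (if p ∉ U ∧ p % 4 = 1 then a + 1 else 1) := by split_ifs <;> omega
  by_cases hU : p ∈ U
  · refine ⟨{star (π p) ^ a}, hF, fun z hz hd => ?_⟩
    obtain ⟨i, -, w, hw, e⟩ := Rtwo.split hp (hπ p hU) m a z hz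
    cases i with
    | zero => exact ⟨_, mem_singleton_self _, w, hw, by simpa using e⟩
    | succ i => exact absurd ⟨π p ^ i * star (π p) ^ (a - (i + 1)) * w, by rw [e]; ring⟩ (hd p hU)
  by_cases h3 : p % 4 = 3
  · refine ⟨{(p : GaussianInt) ^ (a / 2)}, hF, fun z hz _ => ?_⟩
    obtain ⟨i, -, w, hw, e⟩ := Rtwo.inert hp h3 hm a z hz
    have m0 : (m : ℤ) ≠ 0 := by
      rintro h
      exact hm (by rw [Int.natCast_eq_zero.1 h]; exact dvd_zero _)
    rw [e, Zsqrtd.norm_mul, hw, norm_pow, Zsqrtd.norm_natCast, ← sq, ← pow_mul] at hz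
    have h2 : 2 * i = a := Nat.pow_right_injective hp.two_le
      (by exact_mod_cast mul_right_cancel₀ m0 hz)
    exact ⟨_, mem_singleton_self _, w, hw, by rw [e, show a / 2 = i by omega]⟩
  by_cases h2 : p = 2
  · subst h2
    refine ⟨{(⟨1, 1⟩ : GaussianInt) ^ a}, hF, fun z hz _ => ?_⟩
    obtain ⟨i, hi, w, hw, e⟩ := Rtwo.split hp (π := ⟨1, 1⟩) (by decide) m a z hz
    refine ⟨_, mem_singleton_self _, (⟨0, -1⟩ : GaussianInt) ^ (a - i) * w, ?_, ?_⟩
    · rw [Zsqrtd.norm_mul, hw, norm_pow, show (⟨0, -1⟩ : GaussianInt).norm = 1 by decide]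
      simp
    · obtain ⟨k, rfl⟩ := Nat.exists_eq_add_of_le hi
      rw [e, show star (⟨1, 1⟩ : GaussianInt) = ⟨1, 1⟩ * ⟨0, -1⟩ by decide, Nat.add_sub_cancel_left]
      ring
  have := Fact.mk hp
  obtain ⟨u, v, e⟩ := Nat.Prime.sq_add_sq h3
  have h1 : p % 4 = 1 := by
    have := hp.eq_two_or_odd.resolve_left h2
    omega
  have hn : (⟨u, v⟩ : GaussianInt).norm = p := by
    rw [← e, Zsqrtd.norm_def]
    push_cast
    ring
  refine ⟨(range (a + 1)).image fun i => (⟨u, v⟩ : GaussianInt) ^ i * star ⟨u, v⟩ ^ (a - i),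
    card_image_le.trans (by rw [card_range, if_pos ⟨hU, h1⟩]), fun z hz _ => ?_⟩
  obtain ⟨i, hi, w, hw, e⟩ := Rtwo.split hp hn m a z hz
  exact ⟨_, mem_image_of_mem _ (mem_range.2 (Nat.lt_succ_of_le hi)), w, hw, e⟩

theorem cover (U : Finset ℕ) (π : ℕ → GaussianInt) (hπ : ∀ p ∈ U, (π p).norm = p) (m : ℕ) :
    m ≠ 0 → ∃ T : Finset GaussianInt, T.card ≤ 4 * ∏ p ∈ m.primeFactors,
        (if p ∉ U ∧ p % 4 = 1 then m.factorization p + 1 else 1) ∧
      ∀ z : GaussianInt, z.norm = m → (∀ q ∈ U, ¬ π q ∣ z) → z ∈ T := by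
  classical
  induction m using Nat.recOnPrimePow with
  | zero => exact fun h => absurd rfl h
  | one =>
    obtain ⟨T, h1, h2⟩ := Rtwo.cover 1 one_ne_zero
    exact fun _ => ⟨T, by simpa using h1, fun z hz _ => h2 z hz⟩
  | prime_pow_mul m p a hp hm ha ih =>
    intro h0
    have m0 := right_ne_zero_of_mul h0
    obtain ⟨T, h1, h2⟩ := ih m0
    obtain ⟨F, f1, f2⟩ := step U π hπ hp hm a
    refine ⟨(F ×ˢ T).image fun x => x.1 * x.2, card_image_le.trans ?_, fun z hz hd => ?_⟩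
    · have hpm : p ∉ m.primeFactors := fun h => hm (Nat.dvd_of_mem_primeFactors h)
      rw [card_product, Nat.primeFactors_mul (left_ne_zero_of_mul h0) m0,
        Nat.primeFactors_prime_pow ha.ne' hp, ← insert_eq, prod_insert hpm,
        Nat.factorization_mul (left_ne_zero_of_mul h0) m0, hp.factorization_pow, mul_left_comm]
      refine Nat.mul_le_mul (f1.trans_eq ?_) (h1.trans_eq ?_)
      · simp [Nat.factorization_eq_zero_of_not_dvd hm]
      · refine congrArg _ (prod_congr rfl fun q hq => ?_)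
        rw [Finsupp.add_apply, Finsupp.single_eq_of_ne (fun e : q = p => hpm (e ▸ hq)), zero_add]
    · obtain ⟨f, hf, w, hw, e⟩ := f2 z (by rw [hz]; push_cast; rfl) hd
      exact mem_image.2 ⟨(f, w), mem_product.2 ⟨hf, h2 w hw fun q hq k =>
        hd q hq (e ▸ k.mul_left f)⟩, e.symm⟩

theorem dv {p : ℕ} {e : ℤ} (he : e ^ 2 = 1) (h : (rp p).1 ^ 2 + (rp p).2 ^ 2 = p) :
    (⟨(rp p).1, e * (rp p).2⟩ : GaussianInt).norm = p ∧ ∀ x y : ℕ × ℕ,
      (⟨(rp p).1, e * (rp p).2⟩ : GaussianInt) ∣ ⟨(x.1 : ℤ) - y.1, (x.2 : ℤ) - y.2⟩ → Dv p e x y := by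
  refine ⟨?_, fun x y ⟨c, hc⟩ => ⟨c.re, ?_⟩⟩
  · rw [Zsqrtd.norm_def]
    dsimp only
    linear_combination h + (rp p).2 ^ 2 * he
  · have e1 := congrArg Zsqrtd.re hc
    have e2 := congrArg Zsqrtd.im hc
    simp only [Zsqrtd.re_mul, Zsqrtd.im_mul] at e1 e2
    rw [e1, e2]
    linear_combination c.re * h + (rp p).2 ^ 2 * c.re * he

end Fib

theorem fib_s : FIB := by
  intro x Y m U hm hU hS
  have hπ : ∀ p, ∃ π : GaussianInt, p ∈ U → π.norm = p ∧
      ∀ y ∈ Y, ¬ π ∣ ⟨(x.1 : ℤ) - y.1, (x.2 : ℤ) - y.2⟩ := by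
    intro p
    by_cases hp : p ∈ U
    · have h := (rp_spec (hU p hp).1 (hU p hp).2).1
      rcases hS p hp with k | k
      · have := Fib.dv (e := 1) (by norm_num) h
        exact ⟨_, fun _ => ⟨this.1, fun y hy d => k y hy (this.2 x y d)⟩⟩
      · have := Fib.dv (e := -1) (by norm_num) h
        exact ⟨_, fun _ => ⟨this.1, fun y hy d => k y hy (this.2 x y d)⟩⟩
    · exact ⟨0, fun h => absurd h hp⟩
  choose π hπ using hπ
  obtain ⟨T, h1, h2⟩ := Fib.cover U π (fun p hp => (hπ p hp).1) m hm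
  rw [← prod_filter, ← filter_filter, ← sdiff_eq_filter] at h1
  refine le_trans (card_le_card_of_injOn
    (fun y => (⟨(x.1 : ℤ) - y.1, (x.2 : ℤ) - y.2⟩ : GaussianInt)) (fun y hy => ?_)
    fun y _ y' _ e => ?_) h1
  · have hy' := mem_filter.1 (mem_coe.1 hy)
    refine mem_coe.2 (h2 _ ?_ fun q hq => (hπ q hq).2 y hy'.1)
    rw [← hy'.2, qq_cast, Zsqrtd.norm_def]
    ring
  · have e1 := congrArg Zsqrtd.re e
    have e2 := congrArg Zsqrtd.im e
    dsimp only at e1 e2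
    exact Prod.ext (by omega) (by omega)

end Pool.Agent.MP_6c3157_co.LG
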