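import Pool.Agent.MP_6c3157_co.LG.SpecU

/-! Project LG, row FL: the fundamental lemma of the sieve from one scale. -/

set_option autoImplicit false

noncomputable section

namespace Pool.Agent.MP_6c3157_co.LG

open Finset Filter

namespace Fl

theorem av2_nonneg (d : ℕ) {h : ℕ × ℕ → ℝ} (hh : Uni h) : 0 ≤ av2 d h :=
  div_nonneg (sum_nonneg fun x _ => (hh x).1) (by positivity)

theorem prod_le_exp {s : Finset ℕ} (hs : ∑ p ∈ s, (1 : ℝ) / p ≤ 1) {c : ℝ} (hc : 0 ≤ c) :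
    ∏ p ∈ s, (1 + c / (p : ℝ)) ≤ Real.exp c := by
  calc ∏ p ∈ s, (1 + c / (p : ℝ)) ≤ ∏ p ∈ s, Real.exp (c * (1 / p)) :=
        prod_le_prod (fun p _ => by positivity) fun p _ => by
          rw [mul_one_div, add_comm]
          exact Real.add_one_le_exp _
    _ = Real.exp (c * ∑ p ∈ s, (1 : ℝ) / p) := by rw [← Real.exp_sum, mul_sum]
    _ ≤ Real.exp c := Real.exp_le_exp.2 (mul_le_of_le_one_right hc hs)

theorem exp_le_one_sub {x : ℝ} (h0 : 0 ≤ x) (h1 : x ≤ 1 / 5) : Real.exp (-3 * x) ≤ 1 - 2 * x := by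
  have h := Real.quadratic_le_exp_of_nonneg (x := 3 * x) (by positivity)
  rw [neg_mul, Real.exp_neg, inv_le_iff_one_le_mul₀ (Real.exp_pos _)]
  have h2 : 0 ≤ 1 - 2 * x := by linarith
  refine le_trans ?_ (mul_le_mul_of_nonneg_left h h2)
  have h3 : 0 ≤ x * (1 - 3 / 2 * x - 9 * x ^ 2) := mul_nonneg h0 (by nlinarith)
  nlinarith

theorem exp_le_prod {s : Finset ℕ} (hs : ∑ p ∈ s, (1 : ℝ) / p ≤ 1) (h5 : ∀ p ∈ s, 5 ≤ p)
    {a : ℕ → ℝ} (ha : ∀ p ∈ s, a p ≤ 2 / p) : Real.exp (-3) ≤ ∏ p ∈ s, (1 - a p) := by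
  calc Real.exp (-3) ≤ Real.exp (-3 * ∑ p ∈ s, (1 : ℝ) / p) := Real.exp_le_exp.2 (by linarith)
    _ = ∏ p ∈ s, Real.exp (-3 * (1 / p)) := by rw [← Real.exp_sum, mul_sum]
    _ ≤ ∏ p ∈ s, (1 - a p) := prod_le_prod (fun p _ => by positivity) fun p hp => by
        have h1 : (5 : ℝ) ≤ p := by exact_mod_cast h5 p hp
        refine (exp_le_one_sub (by positivity)
          (one_div_le_one_div_of_le (by norm_num) h1)).trans ?_
        rw [mul_one_div]
        linarith [ha p hp]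

theorem exp_five : Real.exp 5 ≤ 243 := by
  have h : Real.exp 5 = Real.exp 1 ^ 5 := by rw [← Real.exp_nat_mul]; norm_num
  rw [h, show (243 : ℝ) = 3 ^ 5 by norm_num]
  exact pow_le_pow_left₀ (Real.exp_pos _).le (Real.exp_one_lt_three).le _

theorem main_le {lam : ℝ} (hl : 3 ≤ lam) (b : ℕ) :
    2 * Real.exp (3 + 2 * lam) / lam ^ (b + 6) * Real.exp 2 + Real.exp (2 * lam) / lam ^ b ≤
      2 * Real.exp (3 + 2 * lam) / lam ^ b * Real.exp (-3) := by
  have l0 : 0 < lam := by linarith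
  have e1 : 2 * Real.exp (3 + 2 * lam) / lam ^ b * Real.exp (-3) =
      2 * (Real.exp (2 * lam) / lam ^ b) := by
    rw [div_mul_eq_mul_div, mul_assoc, ← Real.exp_add, mul_div_assoc]
    congr 3
    ring
  have e2 : 2 * Real.exp (3 + 2 * lam) / lam ^ (b + 6) * Real.exp 2 =
      Real.exp (2 * lam) / lam ^ b * (2 * Real.exp 5 / lam ^ 6) := by
    rw [show (5 : ℝ) = 3 + 2 by norm_num, Real.exp_add, Real.exp_add, pow_add]
    field_simp
  have e3 : 2 * Real.exp 5 / lam ^ 6 ≤ 1 := by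
    rw [div_le_one (by positivity)]
    have := pow_le_pow_left₀ (by norm_num) hl 6
    linarith [exp_five]
  have e4 : 0 ≤ Real.exp (2 * lam) / lam ^ b := by positivity
  rw [e1, e2]
  linarith [mul_le_of_le_one_right e4 e3]

end Fl

open Fl in
theorem fl (hM : MEAN) (hI : INNER) : FL := by
  intro z N lam hz hl hσ I
  have l0 : 0 < lam := by linarith
  induction I with
  | zero =>
    intro b P hP t _ d h hd _ hp hu
    have e : P = ∅ := eq_empty_of_forall_notMem fun p k => by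
      have := (mem_pr.1 (hP k)).1
      simp only [pow_zero, pow_one] at this
      omega
    subst e
    simp only [prod_empty, mul_one]
    have z1 : (1 : ℝ) ≤ z := by exact_mod_cast (by omega : 1 ≤ z)
    have a0 := av2_nonneg d hu
    have a1 : (3 : ℝ) * d * N ≤ d * (3 * N * ((z : ℝ) ^ 2 ^ 0) ^ (4 * b + 30)) := by
      rw [show (3 : ℝ) * d * N = d * (3 * N * 1) by ring]
      gcongr
      exact one_le_pow₀ (one_le_pow₀ z1)
    have a2 : 0 ≤ 2 * Real.exp (3 + 2 * lam) / lam ^ b * (N ^ 2 * av2 d h) := by positivity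
    exact (hM d N h hd hp hu).trans (a1.trans (le_add_of_nonneg_left a2))
  | succ I ih =>
    intro b P hP t ht d h hd hc hp hu
    obtain ⟨w, hw⟩ : ∃ w, w = z ^ 2 ^ I := ⟨_, rfl⟩
    have w1 : z ^ 2 ^ (I + 1) = w ^ 2 := by rw [hw, ← pow_mul, pow_succ]
    have w2 : (z : ℝ) ^ 2 ^ I = w := by rw [hw]; push_cast; rfl
    have w3 : (z : ℝ) ^ 2 ^ (I + 1) = (w : ℝ) ^ 2 := by rw [← w2, ← pow_mul, pow_succ]
    have w4 : z ≤ w := by rw [hw]; exact Nat.le_self_pow (by positivity) z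
    rw [w1] at hP
    rw [← hw, w2] at ih
    rw [w3]
    have hQ : P.filter (· ≤ w) ⊆ pr z w := fun p k =>
      mem_pr.2 ⟨⟨(mem_pr.1 (hP (mem_filter.1 k).1)).1.1, (mem_filter.1 k).2⟩,
        (mem_pr.1 (hP (mem_filter.1 k).1)).2⟩
    have hs : P.filter (fun p => ¬ p ≤ w) ⊆ pr w (w ^ 2) := fun p k =>
      mem_pr.2 ⟨⟨not_le.1 (mem_filter.1 k).2, (mem_pr.1 (hP (mem_filter.1 k).1)).1.2⟩,
        (mem_pr.1 (hP (mem_filter.1 k).1)).2⟩
    have hu2 : P.filter (fun p => ¬ p ≤ w) ∪ P.filter (· ≤ w) = P := by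
      rw [union_comm, filter_union_filter_not_eq]
    have hdj : Disjoint (P.filter fun p => ¬ p ≤ w) (P.filter (· ≤ w)) :=
      (disjoint_filter_filter_not P P _).symm
    have hQP : P.filter (· ≤ w) ⊆ P := filter_subset _ _
    have hsP : P.filter (fun p => ¬ p ≤ w) ⊆ P := filter_subset _ _
    generalize P.filter (· ≤ w) = Q at hQ hu2 hdj hQP
    generalize P.filter (fun p => ¬ p ≤ w) = s at hs hu2 hdj hsP
    have hσ' : ∑ p ∈ s, (1 : ℝ) / p ≤ 1 :=
      (sum_le_sum_of_subset_of_nonneg hs fun p _ _ => by positivity).trans (hσ w w4)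
    have v0 : 0 ≤ ∏ p ∈ Q, (1 - av2 p (t p)) := prod_nonneg fun p k => by
      have k1 : (2 : ℝ) ≤ p := by exact_mod_cast (mem_pr.1 (hQ k)).2.two_le
      exact sub_nonneg.2 ((ht p (hQP k)).2.2.trans ((div_le_one (by linarith)).2 k1))
    have key := hI Q s N (w ^ 2) b (fun x => ∏ p ∈ Q, (1 - t p x)) t _ _ _ lam v0
      (by positivity) (by positivity) (by linarith) (Nat.one_le_pow _ _ (by omega))
      (fun x => ⟨prod_nonneg fun p k => sub_nonneg.2 ((ht p (hQP k)).2.1 x).2,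
        prod_le_one (fun p k => sub_nonneg.2 ((ht p (hQP k)).2.1 x).2)
          fun p k => sub_le_self _ ((ht p (hQP k)).2.1 x).1⟩)
      (fun p k => (mem_pr.1 (hQ k)).2) hdj
      (fun p k => ⟨(mem_pr.1 (hs k)).2, (mem_pr.1 (hs k)).1.2, ht p (hsP k)⟩)
      (ih (b + 6) Q hQ t fun p k => ht p (hQP k)) d h hd (by rwa [hu2]) hp hu
    rw [← hu2]
    simp only [prod_union hdj, ← mul_assoc]
    refine key.trans (add_le_add ?_ ?_)
    · have a0 := av2_nonneg d hu
      have a1 := exp_le_prod hσ' (fun p k => by have := (mem_pr.1 (hs k)).1.1; omega)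
        fun p k => (ht p (hsP k)).2.2
      have a2 := prod_le_exp hσ' (c := 2) (by norm_num)
      have a3 := prod_le_exp hσ' (c := 2 * lam) (by positivity)
      calc _ ≤ N ^ 2 * av2 d h * (∏ p ∈ Q, (1 - av2 p (t p))) *
            (2 * Real.exp (3 + 2 * lam) / lam ^ (b + 6) * Real.exp 2 +
              Real.exp (2 * lam) / lam ^ b) := by gcongr
        _ ≤ N ^ 2 * av2 d h * (∏ p ∈ Q, (1 - av2 p (t p))) *
            (2 * Real.exp (3 + 2 * lam) / lam ^ b * ∏ p ∈ s, (1 - av2 p (t p))) := by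
            gcongr
            exact (main_le hl b).trans (by gcongr)
        _ = _ := by ring
    · have a1 := prod_le_exp hσ' (c := 4) (by norm_num)
      have a2 : (4 : ℝ) ≤ w := by exact_mod_cast hz.trans w4
      have a3 : Real.exp 4 ≤ (w : ℝ) ^ 6 := by
        have := pow_le_pow_left₀ (by norm_num) a2 6
        have := Real.exp_le_exp.2 (show (4 : ℝ) ≤ 5 by norm_num)
        linarith [exp_five]
      calc _ ≤ d * (3 * N * (w : ℝ) ^ (4 * (b + 6) + 30)) * (((w ^ 2 : ℕ) : ℝ)) ^ (2 * b) *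
            (w : ℝ) ^ 6 := by
            gcongr
            exact a1.trans a3
        _ = _ := by push_cast; ring

end Pool.Agent.MP_6c3157_co.LG
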