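import Pool.Agent.MP_6c3157_co.LG.Spec2

/-! Project LG: large exceptional sets, sharp order. Definitions and rows. -/

set_option autoImplicit false

noncomputable section

namespace Pool.Agent.MP_6c3157_co.LG

open Finset Filter

/-- periodic in both coordinates -/
def Per {α : Type} (d : ℕ) (h : ℕ × ℕ → α) : Prop :=
  ∀ x : ℕ × ℕ, h (x.1 + d, x.2) = h x ∧ h (x.1, x.2 + d) = h x

/-- values in the unit interval -/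
def Uni (h : ℕ × ℕ → ℝ) : Prop := ∀ x, 0 ≤ h x ∧ h x ≤ 1

/-- the mean over a period square -/
def av2 (d : ℕ) (h : ℕ × ℕ → ℝ) : ℝ := (∑ x ∈ box d, h x) / (d : ℝ) ^ 2

open Classical in
/-- the indicator of a proposition -/
def ind (φ : Prop) : ℝ := if φ then 1 else 0

open Classical in
/-- a representation as a sum of two squares -/
def rp (p : ℕ) : ℤ × ℤ := if h : ∃ r : ℤ × ℤ, r.1 ^ 2 + r.2 ^ 2 = p then h.choose else 0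

/-- the prime above `p` on the side `e = 1` or `e = -1` divides `x - y` -/
def Dv (p : ℕ) (e : ℤ) (x y : ℕ × ℕ) : Prop :=
  (p : ℤ) ∣ (rp p).1 * ((x.1 : ℤ) - y.1) + e * (rp p).2 * ((x.2 : ℤ) - y.2)

/-- the sifted indicator -/
def fs (P : Finset ℕ) (x y : ℕ × ℕ) : ℝ := ∏ p ∈ P, (1 - ind (Dv p 1 x y))

/-- one side of each prime of `S` divides no difference -/
def Side (S : Finset ℕ) (x : ℕ × ℕ) (Z : Finset (ℕ × ℕ)) : Prop :=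
  ∀ p ∈ S, (∀ y ∈ Z, ¬ Dv p 1 x y) ∨ ∀ y ∈ Z, ¬ Dv p (-1) x y

/-- the forbidden divisors -/
def ev (T : Finset ℕ) (K z t : ℕ) : Finset ℕ :=
  ((Ioc K (K * z)).filter fun j => j.primeFactors ⊆ T).image (· ^ 2) ∪
    (T.powersetCard t).image fun S => ∏ p ∈ S, p

/-- the sieve property: relative error `θ`, remainder `R`, for the primes of `P` -/
def Sv (P : Finset ℕ) (N : ℕ) (θ R : ℝ) : Prop :=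
  ∀ t : ℕ → ℕ × ℕ → ℝ, (∀ p ∈ P, Per p (t p) ∧ Uni (t p) ∧ av2 p (t p) ≤ 2 / p) →
    ∀ (d : ℕ) (h : ℕ × ℕ → ℝ), 0 < d → (∀ p ∈ P, d.Coprime p) → Per d h → Uni h →
      |∑ x ∈ box N, h x * ∏ p ∈ P, (1 - t p x) - N ^ 2 * av2 d h * ∏ p ∈ P, (1 - av2 p (t p))| ≤
        θ * (N ^ 2 * av2 d h * ∏ p ∈ P, (1 - av2 p (t p))) + d * R

theorem rp_spec {p : ℕ} (hp : p.Prime) (h4 : p % 4 = 1) :
    (rp p).1 ^ 2 + (rp p).2 ^ 2 = p ∧ ¬ (p : ℤ) ∣ (rp p).1 ∧ ¬ (p : ℤ) ∣ (rp p).2 := by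
  haveI := Fact.mk hp
  obtain ⟨a, b, h⟩ := Nat.Prime.sq_add_sq (p := p) (by omega)
  have e : ∃ r : ℤ × ℤ, r.1 ^ 2 + r.2 ^ 2 = p := ⟨(a, b), show (a : ℤ) ^ 2 + (b : ℤ) ^ 2 = p by exact_mod_cast h⟩
  have k : (rp p).1 ^ 2 + (rp p).2 ^ 2 = p := by rw [rp, dif_pos e]; exact e.choose_spec
  have g : ∀ u v : ℤ, u ^ 2 + v ^ 2 = p → ¬ (p : ℤ) ∣ u := fun u v huv ⟨c, hc⟩ => by
    have p1 : Prime (p : ℤ) := Nat.prime_iff_prime_int.1 hp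
    have p2 : (2 : ℤ) ≤ p := by exact_mod_cast hp.two_le
    obtain ⟨d, hd⟩ : (p : ℤ) ∣ v :=
      p1.dvd_of_dvd_pow (n := 2) ⟨1 - p * c ^ 2, by rw [hc] at huv; linear_combination huv⟩
    have : (p : ℤ) * (p * (c ^ 2 + d ^ 2)) = p * 1 := by
      rw [hc, hd] at huv; linear_combination huv
    have := Int.eq_one_of_mul_eq_one_right (by omega) (mul_left_cancel₀ (by omega) this)
    omega
  exact ⟨k, g _ _ k, g _ _ ((add_comm _ _).trans k)⟩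

/-- a periodic function over a large square -/
def MEAN : Prop :=
  ∀ (d N : ℕ) (h : ℕ × ℕ → ℝ), 0 < d → Per d h → Uni h →
    |∑ x ∈ box N, h x - N ^ 2 * av2 d h| ≤ 3 * d * N

/-- the Chinese remainder theorem for squares -/
def CRT : Prop :=
  ∀ (d e : ℕ) (H : ℕ × ℕ → ℕ × ℕ → ℝ), 0 < d → 0 < e → d.Coprime e → (∀ b, Per d fun a => H a b) →
    (∀ a, Per e (H a)) → ∑ x ∈ box (d * e), H x x = ∑ a ∈ box d, ∑ b ∈ box e, H a b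

/-- the linear forms -/
def LIN : Prop :=
  ∀ p : ℕ, p.Prime → p % 4 = 1 →
    (∀ e y, Per p fun x => Dv p e x y) ∧ (∀ e y, av2 p (fun x => ind (Dv p e x y)) = 1 / p) ∧
    (∀ y y', av2 p (fun x => ind (Dv p 1 x y) * ind (Dv p (-1) x y')) ≤ 1 / (p : ℝ) ^ 2) ∧
    ∀ x y y', Dv p 1 x y → Dv p 1 x y' → p ∣ qq y y'

/-- one scale of the sieve -/
def INNER : Prop :=
  ∀ (Q s : Finset ℕ) (N z k : ℕ) (g : ℕ × ℕ → ℝ) (t : ℕ → ℕ × ℕ → ℝ) (v θ R lam : ℝ),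
    0 ≤ v → 0 ≤ θ → 0 ≤ R → 1 ≤ lam → 1 ≤ z → Uni g → (∀ r ∈ Q, r.Prime) → Disjoint s Q →
    (∀ p ∈ s, p.Prime ∧ p ≤ z ∧ Per p (t p) ∧ Uni (t p) ∧ av2 p (t p) ≤ 2 / p) →
    (∀ (d : ℕ) (h : ℕ × ℕ → ℝ), 0 < d → (∀ r ∈ Q, d.Coprime r) → Per d h → Uni h →
      |∑ x ∈ box N, h x * g x - N ^ 2 * av2 d h * v| ≤ θ * (N ^ 2 * av2 d h * v) + d * R) →
    ∀ (d : ℕ) (h : ℕ × ℕ → ℝ), 0 < d → (∀ r ∈ s ∪ Q, d.Coprime r) → Per d h → Uni h →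
      |∑ x ∈ box N, h x * (∏ p ∈ s, (1 - t p x)) * g x -
          N ^ 2 * av2 d h * (∏ p ∈ s, (1 - av2 p (t p))) * v| ≤
        N ^ 2 * av2 d h * v * (θ * ∏ p ∈ s, (1 + 2 / (p : ℝ)) +
          (∏ p ∈ s, (1 + 2 * lam / (p : ℝ))) / lam ^ k) +
        d * R * (z : ℝ) ^ (2 * k) * ∏ p ∈ s, (1 + 4 / (p : ℝ))

/-- the fundamental lemma -/
def FL : Prop :=
  ∀ (z N : ℕ) (lam : ℝ), 4 ≤ z → 3 ≤ lam → (∀ a, z ≤ a → ∑ p ∈ pr a (a ^ 2), (1 : ℝ) / p ≤ 1) →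
    ∀ (I b : ℕ) (P : Finset ℕ), P ⊆ pr z (z ^ 2 ^ I) →
      Sv P N (2 * Real.exp (3 + 2 * lam) / lam ^ b) (3 * N * ((z : ℝ) ^ 2 ^ I) ^ (4 * b + 30))

/-- the choice of sides for the small primes -/
def MART : Prop :=
  ∀ (κ : ℕ) (S : Finset ℕ), (∀ p ∈ S, p.Prime ∧ p % 4 = 1) →
    ∀ (Y : Finset (ℕ × ℕ)) (η : ℝ), 0 ≤ η → ∃ Z : ℕ × ℕ → Finset (ℕ × ℕ),
      Per (∏ p ∈ S, p) Z ∧ (∀ x, Z x ⊆ Y ∧ Side S x (Z x)) ∧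
      av2 (∏ p ∈ S, p) (fun x => ind (((Z x).card : ℝ) < η * Y.card)) ≤
        η ^ κ * ∏ p ∈ S, (1 + κ / (p : ℝ) + 8 ^ κ / (p : ℝ) ^ 2) + ∑ p ∈ S, 4 / (p : ℝ) ^ 2

/-- covariance of two sifted indicators -/
def COVU : Prop :=
  ∀ (P : Finset ℕ) (z N d : ℕ) (θ R γ : ℝ) (h : ℕ × ℕ → ℝ), 4 ≤ z → 0 ≤ θ → θ ≤ 1 → 0 ≤ R →
    (∀ p ∈ P, p.Prime ∧ p % 4 = 1 ∧ z < p) → Sv P N θ R →
    Real.exp (2 * Real.log (2 * (N : ℝ) ^ 2) / (z * Real.log z)) ≤ 1 + γ →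
    0 < d → (∀ p ∈ P, d.Coprime p) → Per d h → Uni h →
    ∀ y ∈ box N, ∀ y' ∈ box N, y ≠ y' →
      ∑ x ∈ box N, h x * ((fs P x y - ∏ p ∈ P, (1 - 1 / (p : ℝ))) *
          (fs P x y' - ∏ p ∈ P, (1 - 1 / (p : ℝ)))) ≤
        N ^ 2 * av2 d h * (∏ p ∈ P, (1 - 1 / (p : ℝ))) ^ 2 * (2 * γ + 3 * θ) +
          3 * d * R + 3 * d * N

/-- the sifted sets are not small for most pins -/
def VARU : Prop :=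
  ∀ (P : Finset ℕ) (z N d n₀ : ℕ) (θ R γ : ℝ) (Y : Finset (ℕ × ℕ)) (Z : ℕ × ℕ → Finset (ℕ × ℕ)),
    4 ≤ z → 0 ≤ θ → θ ≤ 1 → 0 ≤ R → 0 ≤ γ → (∀ p ∈ P, p.Prime ∧ p % 4 = 1 ∧ z < p) → Sv P N θ R →
    Real.exp (2 * Real.log (2 * (N : ℝ) ^ 2) / (z * Real.log z)) ≤ 1 + γ →
    0 < d → (∀ p ∈ P, d.Coprime p) → Y ⊆ box N → Per d Z → (∀ x, Z x ⊆ Y ∧ (Z x).card ≤ n₀) →
    (((box N).filter fun x => (Z x).card = n₀ ∧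
        ∑ y ∈ Z x, fs P x y < n₀ * (∏ p ∈ P, (1 - 1 / (p : ℝ))) / 2).card : ℝ) *
      (n₀ * (∏ p ∈ P, (1 - 1 / (p : ℝ))) / 2) ^ 2 ≤
      N ^ 2 * (n₀ * ∏ p ∈ P, (1 - 1 / (p : ℝ))) ^ 2 * (2 * γ + 3 * θ) +
        (Y.card : ℝ) ^ 2 * (3 * d * R + 3 * d * N) + Y.card * N ^ 2

/-- the density of the multiples of `q` among squared distances -/
def BETA1 : Prop :=
  ∀ (q : ℕ) (y : ℕ × ℕ), 1 ≤ q → Per q (fun x => q ∣ qq x y) ∧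
    av2 q (fun x => ind (q ∣ qq x y)) ≤ 9 * q.divisors.card * (1 + Real.log (2 * q)) / q

/-- the same for a product of different primes -/
def BETA2 : Prop :=
  ∀ (S : Finset ℕ) (y : ℕ × ℕ), (∀ p ∈ S, p.Prime) →
    av2 (∏ p ∈ S, p) (fun x => ind ((∏ p ∈ S, p) ∣ qq x y)) ≤ ∏ p ∈ S, 2 / (p : ℝ)

/-- the total density and the total size of the forbidden divisors -/
def BETA : Prop :=
  ∀ (T : Finset ℕ) (K z t : ℕ) (lam : ℝ), 1 ≤ K → 1 ≤ z → 1 ≤ lam → (∀ p ∈ T, p.Prime ∧ p ≤ z) →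
    (∀ y : ℕ × ℕ, ∑ q ∈ ev T K z t, av2 q (fun x => ind (q ∣ qq x y)) ≤
      2 ^ 41 / (K : ℝ) ^ (1 / 4 : ℝ) + Real.exp (2 * lam * ∑ p ∈ T, (1 : ℝ) / p) / lam ^ t) ∧
    ∑ q ∈ ev T K z t, (q : ℝ) ≤ ((K : ℝ) * z) ^ 3 + (z : ℝ) ^ (2 * t) ∧
    ∀ q ∈ ev T K z t, 0 < q ∧ q.primeFactors ⊆ T

/-- forbidden divisors are rare among the sifted pairs -/
def BADU : Prop :=
  ∀ (P EV : Finset ℕ) (N d n₀ : ℕ) (θ R β M : ℝ) (Y : Finset (ℕ × ℕ))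
    (Z : ℕ × ℕ → Finset (ℕ × ℕ)), 0 ≤ θ → θ ≤ 1 → 0 ≤ R → (∀ p ∈ P, p.Prime ∧ p % 4 = 1) →
    Sv P N θ R → 0 < d → (∀ p ∈ P, d.Coprime p) →
    (∀ q ∈ EV, 0 < q ∧ d.Coprime q ∧ ∀ p ∈ P, q.Coprime p) →
    (∀ y : ℕ × ℕ, ∑ q ∈ EV, av2 q (fun x => ind (q ∣ qq x y)) ≤ β) → ∑ q ∈ EV, (q : ℝ) ≤ M →
    Per d Z → (∀ x, Z x ⊆ Y ∧ (Z x).card ≤ n₀) →
    ∑ x ∈ box N, ∑ y ∈ Z x, fs P x y * ind (∃ q ∈ EV, q ∣ qq x y) ≤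
      2 * N ^ 2 * n₀ * β * ∏ p ∈ P, (1 - 1 / (p : ℝ)) + Y.card * (d * M * R)

/-- points on a circle that avoid one side of each prime of `U` -/
def FIB : Prop :=
  ∀ (x : ℕ × ℕ) (Y : Finset (ℕ × ℕ)) (m : ℕ) (U : Finset ℕ), m ≠ 0 →
    (∀ p ∈ U, p.Prime ∧ p % 4 = 1) → Side U x Y →
    (Y.filter fun y => qq x y = m).card ≤
      4 * ∏ p ∈ (m.primeFactors \ U).filter (fun p => p % 4 = 1), (m.factorization p + 1)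

/-- the multiplicity of a number without forbidden divisors -/
def MULT : Prop :=
  ∀ (a w z₀ z₁ K t H X m : ℕ) (Δ : ℝ), 2 ≤ a → a ≤ z₀ → 1 ≤ K → 1 ≤ z₁ → m ≤ X → X < z₁ ^ H →
    (∀ j : ℕ, 1 ≤ j → j ≤ K → ((j ^ 2).divisors.card : ℝ) ≤ Δ) →
    (¬ ∃ q ∈ ev (pr 0 a ∪ pr w z₀) K z₀ t, q ∣ m) → m ≠ 0 ∧
      ((∏ p ∈ (m.primeFactors \ (pr1 a w ∪ pr1 z₀ z₁)).filter (fun p => p % 4 = 1),
        (m.factorization p + 1) : ℕ) : ℝ) ≤ Δ * 2 ^ t * 2 ^ H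

/-- the product over the primes that are one modulo four -/
def PHIU : Prop :=
  ∃ C : ℝ, 1 ≤ C ∧ ∀ (z : ℕ) (S P : Finset ℕ), 3 ≤ z → S ⊆ pr1 0 z → P ⊆ pr1 0 z → Disjoint S P →
    ∏ p ∈ S, (1 + 1 / (p : ℝ)) ≤ C * √(Real.log z) * ∏ p ∈ P, (1 - 1 / (p : ℝ))

/-- end of the tiny primes -/
def ua (s : ℝ) : ℕ := ⌈100 * Real.exp s⌉₊
/-- end of the small primes -/
def uw (N : ℕ) : ℕ := ⌊l1 N / 6⌋₊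
/-- end of the middle primes -/
def uz (N : ℕ) (s : ℝ) : ℕ := ⌈l1 N * Real.exp s⌉₊
/-- depth of the sieve -/
def ub (s : ℝ) : ℕ := ⌈6 * s / Real.log s⌉₊
/-- the moment -/
def uk (s : ℝ) : ℕ := ⌈Real.log s⌉₊
/-- bound for square factors -/
def uK (s : ℝ) : ℕ := ⌈Real.exp (8 * s)⌉₊

/-- numerical facts in `s` alone -/
def NUMS : Prop :=
  ∀ C₁ : ℝ, 1 ≤ C₁ → ∃ C : ℝ, ∀ᶠ s : ℝ in atTop, 3 ≤ √s ∧ 0 ≤ s / Real.log s ∧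
    2 * Real.exp (3 + 2 * √s) / √s ^ ub s ≤ Real.exp (-s) / 1000 ∧
    2 ^ 41 / (uK s : ℝ) ^ (1 / 4 : ℝ) ≤ Real.exp (-s) / 2000 ∧
    ∀ j : ℕ, 1 ≤ j → j ≤ uK s → 16 * C₁ * Real.exp (2 * s / uk s) * 2 ^ ty s *
      2 ^ (24 * (4 * ub s + 30)) * ((j ^ 2).divisors.card : ℝ) ≤ Real.exp (C * (s / Real.log s))

/-- the share of the pins that fail -/
def NUMF : Prop :=
  ∀ᶠ s : ℝ in atTop, ∀ S : Finset ℕ, (∀ p ∈ S, ua s < p) →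
    (Real.exp (-(2 * s / uk s)) / ∏ p ∈ S, (1 + 1 / (p : ℝ))) ^ uk s *
      ∏ p ∈ S, (1 + uk s / (p : ℝ) + 8 ^ uk s / (p : ℝ) ^ 2) + ∑ p ∈ S, 4 / (p : ℝ) ^ 2 ≤
      Real.exp (-s) / 10

/-- numerical facts on prime sums -/
def NUMP : Prop :=
  ∃ s₀ : ℝ, ∀ᶠ N : ℕ in atTop, ∀ s : ℝ, s₀ ≤ s → s ≤ l2 N →
    (∀ a, uz N s ≤ a → ∑ p ∈ pr a (a ^ 2), (1 : ℝ) / p ≤ 1) ∧
    Real.exp (2 * √s * ∑ p ∈ pr 0 (ua s) ∪ pr (uw N) (uz N s), (1 : ℝ) / p) / √s ^ ty s ≤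
      Real.exp (-s) / 2000 ∧
    Real.exp (2 * Real.log (2 * (N : ℝ) ^ 2) / (uz N s * Real.log (uz N s))) ≤
      1 + Real.exp (-s) / 1000

/-- numerical facts on sizes -/
def NUMZ : Prop :=
  ∀ C₁ : ℝ, 1 ≤ C₁ → ∃ s₀ : ℝ, ∀ᶠ N : ℕ in atTop, 2000 ≤ l1 N ∧ (4 ^ uw N) ^ 4 ≤ N ∧
    10 ^ 6 * l1 N ^ 13 ≤ (N : ℝ) ^ (1 / 4 : ℝ) ∧ ∀ s : ℝ, s₀ ≤ s → s ≤ l2 N →
      4 ≤ ua s ∧ ua s ≤ uz N s ∧ uw N ≤ uz N s ∧ C₁ * √(l1 N) * Real.exp (2 * s / uk s) ≤ l1 N ^ 2 ∧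
      ((uK s : ℝ) * uz N s) ^ 3 + (uz N s : ℝ) ^ (2 * ty s) ≤ (N : ℝ) ^ (1 / 8 : ℝ) ∧
      ∃ I : ℕ, ((uz N s ^ 2 ^ I) ^ (4 * ub s + 30)) ^ 4 ≤ N ∧
        2 * N ^ 2 < (uz N s ^ 2 ^ I) ^ (24 * (4 * ub s + 30))

/-- the theorem in integer coordinates, large exceptional sets -/
def GRIDU : Prop :=
  ∃ C s₀ : ℝ, ∀ᶠ N : ℕ in atTop, ∀ s : ℝ, s₀ ≤ s → s ≤ l2 N → ∀ Y ⊆ box N,
    ∃ E : Finset (ℕ × ℕ), (E.card : ℝ) ≤ Real.exp (-s) * (N : ℝ) ^ 2 ∧ ∀ x ∈ box N, x ∉ E →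
      (Y.card : ℝ) / (√(l1 N) * Real.exp (C * (s / Real.log s))) ≤ dd Y x

/-- the theorem -/
def MAINU : Prop :=
  ∃ (C δ₀ : ℝ) (N₀ : ℕ), 0 < δ₀ ∧ ∀ N : ℕ, N₀ ≤ N → ∀ δ : ℝ, (N : ℝ) ^ (-1 / 100 : ℝ) ≤ δ → δ ≤ δ₀ →
    ∀ Y : Finset (EuclideanSpace ℝ (Fin 2)), (∀ y ∈ Y, ∀ i, ∃ k : ℕ, k < N ∧ y i = k) →
    ∃ E : Finset (EuclideanSpace ℝ (Fin 2)), (E.card : ℝ) ≤ δ * (N : ℝ) ^ 2 ∧
      ∀ x : EuclideanSpace ℝ (Fin 2), (∀ i, ∃ k : ℕ, k < N ∧ x i = k) → x ∉ E →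
        (Y.card : ℝ) / (√(Real.log N) * Real.exp (C * (Real.log (1 / δ) /
          Real.log (Real.log (1 / δ))))) ≤ ((Y.image fun y => dist x y).erase 0).card

end Pool.Agent.MP_6c3157_co.LG
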