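import Pool.Agent.MP_6c3157_co.LG.Grid
import Pool.Agent.MP_6c3157_co.LG.SpecU

/-! Project LG: assembly in integer coordinates, large exceptional sets. -/

set_option autoImplicit false

noncomputable section

namespace Pool.Agent.MP_6c3157_co.LG

open Finset Filter

namespace Gu

theorem thin (Z₀ : ℕ × ℕ → Finset (ℕ × ℕ)) (n₀ d : ℕ) (h : Per d Z₀) :
    ∃ Z : ℕ × ℕ → Finset (ℕ × ℕ), Per d Z ∧ ∀ x, Z x ⊆ Z₀ x ∧ (Z x).card ≤ n₀ ∧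
      (n₀ ≤ (Z₀ x).card → (Z x).card = n₀) := by
  have e : ∀ A : Finset (ℕ × ℕ), ∃ B, B ⊆ A ∧ B.card ≤ n₀ ∧ (n₀ ≤ A.card → B.card = n₀) := by
    intro A
    by_cases k : n₀ ≤ A.card
    · obtain ⟨B, b1, b2⟩ := exists_subset_card_eq k
      exact ⟨B, b1, b2.le, fun _ => b2⟩
    · exact ⟨∅, empty_subset _, by simp, fun j => absurd j k⟩
  choose f hf using e
  exact ⟨fun x => f (Z₀ x), fun x => ⟨congrArg f (h x).1, congrArg f (h x).2⟩, fun x => hf _⟩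

theorem fibu (hF : FIB) {Y W : Finset (ℕ × ℕ)} {x : ℕ × ℕ} {U : Finset ℕ} {Λ : ℝ} (hW : W ⊆ Y)
    (hU : ∀ p ∈ U, p.Prime ∧ p % 4 = 1) (hs : Side U x W)
    (h : ∀ y ∈ W, qq x y ≠ 0 ∧ ((∏ p ∈ ((qq x y).primeFactors \ U).filter (fun p => p % 4 = 1),
      ((qq x y).factorization p + 1) : ℕ) : ℝ) ≤ Λ) (h0 : 0 ≤ Λ) :
    (W.card : ℝ) ≤ 4 * Λ * dd Y x := by
  rw [card_eq_sum_card_image (qq x) W, Nat.cast_sum]
  refine (sum_le_card_nsmul _ _ (4 * Λ) fun m hm => ?_).trans ?_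
  · obtain ⟨y, hy, rfl⟩ := mem_image.1 hm
    refine le_trans ?_ (mul_le_mul_of_nonneg_left (h y hy).2 (by norm_num))
    exact_mod_cast hF x W _ U (h y hy).1 hU hs
  · rw [nsmul_eq_mul, mul_comm]
    refine mul_le_mul_of_nonneg_left (Nat.cast_le.2 (card_le_card fun m hm => ?_)) (by positivity)
    obtain ⟨y, hy, rfl⟩ := mem_image.1 hm
    exact mem_erase.2 ⟨(h y hy).1, mem_image_of_mem _ (hW hy)⟩

theorem ind_bd (φ : Prop) : 0 ≤ ind φ ∧ ind φ ≤ 1 := by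
  unfold ind; split_ifs <;> norm_num

theorem fs_bd (P : Finset ℕ) (x y : ℕ × ℕ) : 0 ≤ fs P x y ∧ fs P x y ≤ 1 :=
  ⟨prod_nonneg fun _ _ => sub_nonneg.2 (ind_bd _).2,
    prod_le_one (fun _ _ => sub_nonneg.2 (ind_bd _).2) fun _ _ => sub_le_self _ (ind_bd _).1⟩

open Classical in
theorem split (P : Finset ℕ) (x : ℕ × ℕ) (A : Finset (ℕ × ℕ)) (B : ℕ × ℕ → Prop) :
    ∑ y ∈ A, fs P x y ≤ ((A.filter fun y => (∀ p ∈ P, ¬ Dv p 1 x y) ∧ ¬ B y).card : ℝ) +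
      ∑ y ∈ A, fs P x y * ind (B y) := by
  rw [card_filter, Nat.cast_sum, ← sum_add_distrib]
  refine sum_le_sum fun y _ => ?_
  have f := fs_bd P x y
  by_cases b : B y
  · simp [b, ind]
  by_cases c : ∀ p ∈ P, ¬ Dv p 1 x y
  · rw [if_pos ⟨c, b⟩]
    have := mul_nonneg f.1 (ind_bd (B y)).1
    push_cast
    linarith [f.2]
  · push Not at c
    obtain ⟨p, hp, k⟩ := c
    have : fs P x y = 0 := prod_eq_zero hp (by simp [ind, k])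
    rw [this, zero_mul, add_zero]
    positivity

theorem cop {r p : ℕ} (hr : 0 < r) (hp : p.Prime) (h : p ∉ r.primeFactors) : r.Coprime p :=
  ((Nat.Prime.coprime_iff_not_dvd hp).2 fun k =>
    h (Nat.mem_primeFactors.2 ⟨hp, k, hr.ne'⟩)).symm

theorem prod_le (a w : ℕ) : ∏ p ∈ pr1 a w, p ≤ 4 ^ w := by
  refine le_trans (prod_le_prod_of_subset_of_one_le' (fun p hp => ?_) fun p hp _ =>
    (mem_filter.1 hp).2.one_le) (primorial_le_four_pow w)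
  obtain ⟨⟨_, h1⟩, h2⟩ := mem_pr.1 (mem_filter.1 hp).1
  exact mem_filter.2 ⟨mem_range.2 (by omega), h2⟩

theorem m1 {e u n N2 L c r : ℝ} (hu : 0 < u) (hn : L ^ 6 ≤ n) (h1 : n ≤ L ^ 2 * u) (hL : 1 ≤ L)
    (hr : 0 ≤ r) (hN : 0 ≤ N2) (h : e * (u / 2) ^ 2 ≤ N2 * u ^ 2 * c + n ^ 2 * r + n * N2) :
    e ≤ 4 * c * N2 + 4 * L ^ 4 * r + 4 * N2 / L ^ 2 := by
  have L0 : 0 < L := by linarith
  have n0 : 0 < n := lt_of_lt_of_le (by positivity) hn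
  have a1 : n ^ 2 ≤ L ^ 4 * u ^ 2 := by
    calc n ^ 2 ≤ (L ^ 2 * u) ^ 2 := by gcongr
      _ = _ := by ring
  have a2 : n ≤ u ^ 2 / L ^ 2 := by
    rw [le_div_iff₀ (by positivity)]
    refine le_of_mul_le_mul_right ?_ (pow_pos L0 4)
    nlinarith
  have a3 : n ^ 2 * r ≤ L ^ 4 * u ^ 2 * r := by gcongr
  have a4 : n * N2 ≤ u ^ 2 / L ^ 2 * N2 := by gcongr
  refine le_of_mul_le_mul_right ?_ (show 0 < (u / 2) ^ 2 by positivity)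
  refine h.trans ((add_le_add (add_le_add le_rfl a3) a4).trans (le_of_eq ?_))
  field_simp
  ring

theorem m2 {e u n N2 L c r : ℝ} (hu : 0 < u) (h1 : n ≤ L ^ 2 * u)
    (hr : 0 ≤ r) (h : e * (u / 4) ≤ 2 * N2 * c * u + n * r) : e ≤ 8 * c * N2 + 4 * L ^ 2 * r := by
  have a3 : n * r ≤ L ^ 2 * u * r := by gcongr
  refine le_of_mul_le_mul_right ?_ (show 0 < u / 4 by positivity)
  nlinarith

theorem m3 {e1 e2 e3 ρ L δ q Z M : ℝ} (hL : 2000 ≤ L) (hρ : 10 ^ 6 * L ^ 13 ≤ ρ ^ 2) (ρ1 : 1 ≤ ρ)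
    (hδ : 1 ≤ δ * L) (q0 : 0 ≤ q) (hq : q ≤ ρ ^ 2) (Z0 : 0 ≤ Z) (hZ : Z ≤ ρ ^ 2) (hM : M ≤ ρ)
    (h1 : e1 ≤ (ρ ^ 8) ^ 2 * (δ / 10) + 3 * q * ρ ^ 8)
    (h2 : e2 ≤ 4 * (2 * (δ / 1000) + 3 * (δ / 1000)) * (ρ ^ 8) ^ 2 +
      4 * L ^ 4 * (3 * q * (3 * ρ ^ 8 * Z) + 3 * q * ρ ^ 8) + 4 * (ρ ^ 8) ^ 2 / L ^ 2)
    (h3 : e3 ≤ 8 * (δ / 1000) * (ρ ^ 8) ^ 2 + 4 * L ^ 2 * (q * M * (3 * ρ ^ 8 * Z))) :
    e1 + e2 + e3 ≤ δ * (ρ ^ 8) ^ 2 := by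
  have L0 : 0 < L := by linarith
  have L1 : 1 ≤ L := by linarith
  have ρ0 : 0 < ρ := by linarith
  have δ0 : 0 < δ := by
    by_contra k
    nlinarith [mul_nonneg (neg_nonneg.2 (not_lt.1 k)) L0.le]
  have p : ∀ i j : ℕ, i ≤ j → ρ ^ i ≤ ρ ^ j := fun _ _ h => pow_le_pow_right₀ ρ1 h
  have l : ∀ i j : ℕ, i ≤ j → L ^ i ≤ L ^ j := fun _ _ h => pow_le_pow_right₀ L1 h
  have a1 : 3 * q * ρ ^ 8 ≤ 3 * (L ^ 4 * ρ ^ 14) := by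
    calc 3 * q * ρ ^ 8 ≤ 3 * ρ ^ 2 * ρ ^ 8 := by gcongr
      _ = 3 * (1 * ρ ^ 10) := by ring
      _ ≤ _ := by gcongr; exacts [one_le_pow₀ L1, by norm_num]
  have a2 : 4 * L ^ 4 * (3 * q * (3 * ρ ^ 8 * Z) + 3 * q * ρ ^ 8) ≤ 48 * (L ^ 4 * ρ ^ 14) := by
    calc _ ≤ 4 * L ^ 4 * (3 * ρ ^ 2 * (3 * ρ ^ 8 * ρ ^ 2) + 3 * ρ ^ 2 * ρ ^ 8) := by gcongr
      _ = L ^ 4 * (36 * ρ ^ 12 + 12 * ρ ^ 10) := by ring
      _ ≤ L ^ 4 * (36 * ρ ^ 14 + 12 * ρ ^ 14) := by gcongr <;> norm_num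
      _ = _ := by ring
  have a3 : 4 * L ^ 2 * (q * M * (3 * ρ ^ 8 * Z)) ≤ 12 * (L ^ 4 * ρ ^ 14) := by
    calc _ ≤ 4 * L ^ 2 * (ρ ^ 2 * ρ * (3 * ρ ^ 8 * ρ ^ 2)) := by
          have : q * M ≤ ρ ^ 2 * ρ :=
            (mul_le_mul_of_nonneg_left hM q0).trans (mul_le_mul_of_nonneg_right hq ρ0.le)
          gcongr
      _ = 12 * (L ^ 2 * ρ ^ 13) := by ring
      _ ≤ _ := by gcongr <;> norm_num
  have a4 : 4 * (ρ ^ 8) ^ 2 / L ^ 2 ≤ δ * (ρ ^ 8) ^ 2 / 100 := by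
    rw [div_le_div_iff₀ (by positivity) (by norm_num)]
    have : 400 ≤ δ * L ^ 2 := by nlinarith
    nlinarith [pow_pos (pow_pos ρ0 8) 2]
  have a5 : 1000 * (L ^ 4 * ρ ^ 14) ≤ δ * (ρ ^ 8) ^ 2 := by
    have b1 : 1000 * L ^ 5 ≤ ρ ^ 2 := by nlinarith [l 5 13 (by norm_num), pow_pos L0 13]
    have b2 : 1000 * L ^ 4 ≤ δ * ρ ^ 2 := by
      calc 1000 * L ^ 4 ≤ 1000 * L ^ 4 * (δ * L) := le_mul_of_one_le_right (by positivity) hδ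
        _ = δ * (1000 * L ^ 5) := by ring
        _ ≤ _ := by gcongr
    calc _ = 1000 * L ^ 4 * ρ ^ 14 := by ring
      _ ≤ δ * ρ ^ 2 * ρ ^ 14 := by gcongr
      _ = _ := by ring
  have : 0 ≤ δ * (ρ ^ 8) ^ 2 := by positivity
  nlinarith

end Gu

open Gu Gr in
theorem gridu (hM : MEAN) (hFL : FL) (hMa : MART) (hV : VARU) (hB : BETA) (hBa : BADU) (hF : FIB)
    (hMu : MULT) (hP : PHIU) (hS : SMALL) (nS : NUMS) (nF : NUMF) (nP : NUMP) (nZ : NUMZ) :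
    GRIDU := by
  classical
  obtain ⟨C₁, c1, hP⟩ := hP
  obtain ⟨C, nS⟩ := nS C₁ c1
  obtain ⟨s₁, nS⟩ := eventually_atTop.1 (nS.and nF)
  obtain ⟨s₂, nP⟩ := nP
  obtain ⟨s₃, nZ⟩ := nZ C₁ c1
  refine ⟨C, max s₁ (max s₂ (max s₃ 0)), ?_⟩
  filter_upwards [nP, nZ, eventually_ge_atTop 3] with N nP ⟨hL, z1, z2, nZ⟩ N3 s hs hs' Y hY
  simp only [max_le_iff] at hs
  obtain ⟨⟨a1, a2, a3, a4, a5⟩, nF⟩ := nS s hs.1
  obtain ⟨p1, p2, p3⟩ := nP s hs.2.1 hs'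
  obtain ⟨z3, z4, z5, z6, z7, I, z8, z9⟩ := nZ s hs.2.2.1 hs'
  have L1 : 1 ≤ l1 N := by linarith
  have L0 : 0 < l1 N := by linarith
  have N0 : (0 : ℝ) < N := by exact_mod_cast (by omega : 0 < N)
  have N1 : (1 : ℝ) ≤ N := by exact_mod_cast (by omega : 1 ≤ N)
  have r1 : 1 ≤ √(l1 N) := Real.one_le_sqrt.2 L1
  obtain ⟨δ, hδ⟩ : ∃ δ, δ = Real.exp (-s) := ⟨_, rfl⟩
  have δ0 : 0 < δ := hδ ▸ Real.exp_pos _
  have δ1 : δ ≤ 1 := hδ ▸ Real.exp_le_one_iff.2 (by linarith [hs.2.2.2])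
  have δL : 1 ≤ δ * l1 N := by
    have e : Real.exp (l2 N) = l1 N := Real.exp_log L0
    rw [hδ, ← e, ← Real.exp_add]
    exact Real.one_le_exp (by linarith)
  obtain ⟨ex, hex⟩ : ∃ ex, ex = Real.exp (C * (s / Real.log s)) := ⟨_, rfl⟩
  obtain ⟨g, hg⟩ : ∃ g, g = Real.exp (2 * s / uk s) := ⟨_, rfl⟩
  have g1 : 1 ≤ g := hg ▸ Real.one_le_exp (by have := hs.2.2.2; positivity)
  rw [Real.exp_neg (2 * s / uk s), ← hg] at nF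
  rw [← hg] at a5 z6
  rw [← hδ] at a3 a4 nF p2 p3 ⊢
  rw [← hex] at a5 ⊢
  have K1 : 1 ≤ uK s := Nat.ceil_pos.2 (Real.exp_pos _)
  have x1 : 1 ≤ ex := by
    refine le_trans ?_ (a5 1 le_rfl K1)
    simp only [one_pow, Nat.divisors_one, card_singleton, Nat.cast_one, mul_one]
    exact one_le_mul_of_one_le_of_one_le (one_le_mul_of_one_le_of_one_le
      (one_le_mul_of_one_le_of_one_le (by linarith) g1) (one_le_pow₀ one_le_two))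
      (one_le_pow₀ one_le_two)
  obtain ⟨ρ, hρ⟩ : ∃ ρ, ρ = (N : ℝ) ^ (1 / 8 : ℝ) := ⟨_, rfl⟩
  have ρ1 : 1 ≤ ρ := hρ ▸ Real.one_le_rpow N1 (by norm_num)
  have ρ8 : ρ ^ 8 = N := by rw [hρ, ← Real.rpow_natCast, ← Real.rpow_mul N0.le]; norm_num
  have ρ2 : (N : ℝ) ^ (1 / 4 : ℝ) = ρ ^ 2 := by
    rw [hρ, ← Real.rpow_natCast, ← Real.rpow_mul N0.le]; norm_num
  rw [ρ2] at z2
  rw [← hρ] at z7
  have rt : ∀ u : ℕ, u ^ 4 ≤ N → (u : ℝ) ≤ ρ ^ 2 := fun u h =>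
    le_of_pow_le_pow_left₀ (n := 4) (by norm_num) (by positivity)
      (by rw [← pow_mul, ρ8]; exact_mod_cast h)
  by_cases hn : (Y.card : ℝ) ≤ l1 N ^ 6
  · obtain ⟨E, e1, e2⟩ := hS N Y
    refine ⟨E, ?_, fun x hx k => ?_⟩
    · refine le_trans (b := (Y.card : ℝ) ^ 2 * N + Y.card) (by exact_mod_cast e1) ?_
      have b1 : ρ ^ 2 ≤ N := ρ8 ▸ pow_le_pow_right₀ ρ1 (by norm_num)
      have b2 : l1 N ^ 6 ≤ l1 N ^ 12 * N :=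
        (pow_le_pow_right₀ L1 (by norm_num)).trans (le_mul_of_one_le_right (by positivity) N1)
      have b3 : 2 * l1 N ^ 12 ≤ δ * N := by
        calc 2 * l1 N ^ 12 ≤ 2 * l1 N ^ 12 * (δ * l1 N) := le_mul_of_one_le_right (by positivity) δL
          _ = δ * (2 * l1 N ^ 13) := by ring
          _ ≤ δ * N := mul_le_mul_of_nonneg_left (by nlinarith [pow_pos L0 13]) δ0.le
      calc _ ≤ (l1 N ^ 6) ^ 2 * N + l1 N ^ 12 * N := by gcongr; exact hn.trans b2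
        _ = 2 * l1 N ^ 12 * N := by ring
        _ ≤ δ * N * N := by gcongr
        _ = _ := by ring
    · refine (div_le_self (by positivity) (one_le_mul_of_one_le_of_one_le r1 x1)).trans ?_
      exact_mod_cast e2 x hx k
  rw [not_le] at hn
  have n0 : (0 : ℝ) < Y.card := lt_trans (by positivity) hn
  obtain ⟨zz, hzz⟩ : ∃ zz, zz = uz N s ^ 2 ^ I := ⟨_, rfl⟩
  have zz1 : uz N s ≤ zz := hzz ▸ Nat.le_self_pow (by positivity) _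
  rw [← hzz] at z8 z9
  have zz2 : zz ≤ N := le_trans (by
    rw [← pow_mul]; exact Nat.le_self_pow (by positivity) _) z8
  obtain ⟨S, hS'⟩ : ∃ S, S = pr1 (ua s) (uw N) := ⟨_, rfl⟩
  obtain ⟨P, hP'⟩ : ∃ P, P = pr1 (uz N s) zz := ⟨_, rfl⟩
  obtain ⟨T, hT⟩ : ∃ T, T = pr 0 (ua s) ∪ pr (uw N) (uz N s) := ⟨_, rfl⟩
  have Sm : ∀ p ∈ S, p.Prime ∧ p % 4 = 1 ∧ ua s < p ∧ p ≤ uw N := fun p hp => by
    rw [hS'] at hp
    exact ⟨(mem_pr.1 (mem_filter.1 hp).1).2, (mem_filter.1 hp).2, (mem_pr.1 (mem_filter.1 hp).1).1⟩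
  have Pm : ∀ p ∈ P, p.Prime ∧ p % 4 = 1 ∧ uz N s < p ∧ p ≤ zz := fun p hp => by
    rw [hP'] at hp
    exact ⟨(mem_pr.1 (mem_filter.1 hp).1).2, (mem_filter.1 hp).2, (mem_pr.1 (mem_filter.1 hp).1).1⟩
  have Tm : ∀ p ∈ T, p.Prime ∧ p ≤ uz N s ∧ (p ≤ ua s ∨ uw N < p) := fun p hp => by
    rw [hT] at hp
    rcases mem_union.1 hp with h | h
    · exact ⟨(mem_pr.1 h).2, (mem_pr.1 h).1.2.trans z4, Or.inl (mem_pr.1 h).1.2⟩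
    · exact ⟨(mem_pr.1 h).2, (mem_pr.1 h).1.2, Or.inr (mem_pr.1 h).1.1⟩
  obtain ⟨q, hq⟩ : ∃ q, q = ∏ p ∈ S, p := ⟨_, rfl⟩
  have q0 : 0 < q := hq ▸ prod_pos fun p hp => (Sm p hp).1.pos
  have q1 : (q : ℝ) ≤ ρ ^ 2 := le_trans (by
    rw [hq, hS']; exact_mod_cast prod_le _ _) (rt _ z1)
  have qP : ∀ p ∈ P, q.Coprime p := fun p hp => hq ▸ Nat.Coprime.prod_left fun r hr =>
    (Nat.coprime_primes (Sm r hr).1 (Pm p hp).1).2 (by have := Sm r hr; have := Pm p hp; omega)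
  obtain ⟨φ, hφ⟩ : ∃ φ, φ = ∏ p ∈ P, (1 - 1 / (p : ℝ)) := ⟨_, rfl⟩
  obtain ⟨A, hA⟩ : ∃ A, A = ∏ p ∈ S, (1 + 1 / (p : ℝ)) := ⟨_, rfl⟩
  have A1 : 0 < A := hA ▸ prod_pos fun _ _ => by positivity
  have Aφ : A ≤ C₁ * √(l1 N) * φ := by
    have k := hP zz S P (by omega)
      (fun p hp => mem_filter.2 ⟨mem_pr.2 ⟨⟨(Sm p hp).1.pos, by have := Sm p hp; omega⟩,
        (Sm p hp).1⟩, (Sm p hp).2.1⟩)
      (fun p hp => mem_filter.2 ⟨mem_pr.2 ⟨⟨(Pm p hp).1.pos, (Pm p hp).2.2.2⟩,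
        (Pm p hp).1⟩, (Pm p hp).2.1⟩)
      (disjoint_left.2 fun p h1 h2 => by have := Sm p h1; have := Pm p h2; omega)
    rw [← hA, ← hφ] at k
    have φ0 : 0 ≤ φ := hφ ▸ prod_nonneg fun p hp => by
      have : (1 : ℝ) ≤ p := by exact_mod_cast (Pm p hp).1.one_le
      rw [sub_nonneg, div_le_one (by linarith)]; exact this
    refine k.trans (mul_le_mul_of_nonneg_right (mul_le_mul_of_nonneg_left
      (Real.sqrt_le_sqrt (Real.log_le_log ?_ ?_)) (by linarith)) φ0)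
    · exact_mod_cast (by omega : 0 < zz)
    · exact_mod_cast zz2
  have φ0 : 0 < φ := by
    by_contra k
    nlinarith [mul_nonneg (mul_nonneg (by linarith : 0 ≤ C₁) (by linarith : 0 ≤ √(l1 N)))
      (neg_nonneg.2 (not_lt.1 k))]
  obtain ⟨Z₀, y1, y2, y3⟩ := hMa (uk s) S (fun p hp => ⟨(Sm p hp).1, (Sm p hp).2.1⟩) Y
    (g⁻¹ / A) (by positivity)
  have y4 := y3.trans (hA ▸ nF S fun p hp => (Sm p hp).2.2.1)
  rw [← hq] at y1 y4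
  obtain ⟨n₀, hn₀⟩ : ∃ n₀, n₀ = ⌈g⁻¹ / A * Y.card⌉₊ := ⟨_, rfl⟩
  obtain ⟨Z, w1, w2⟩ := thin Z₀ n₀ q y1
  have w3 : ∀ x, Z x ⊆ Y ∧ (Z x).card ≤ n₀ := fun x => ⟨(w2 x).1.trans (y2 x).1, (w2 x).2.1⟩
  have u1 : (Y.card : ℝ) ≤ C₁ * √(l1 N) * g * (n₀ * φ) := by
    have k : g⁻¹ / A * Y.card ≤ n₀ := hn₀ ▸ Nat.le_ceil _
    calc (Y.card : ℝ) = g * A * (g⁻¹ / A * Y.card) := by field_simp
      _ ≤ g * (C₁ * √(l1 N) * φ) * n₀ := by gcongr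
      _ = _ := by ring
  have u0 : 0 < n₀ * φ := by
    by_contra k
    nlinarith [mul_nonneg (show 0 ≤ C₁ * √(l1 N) * g by positivity) (neg_nonneg.2 (not_lt.1 k))]
  have u2 : (Y.card : ℝ) ≤ l1 N ^ 2 * (n₀ * φ) :=
    u1.trans (mul_le_mul_of_nonneg_right z6 u0.le)
  obtain ⟨θ, hθ⟩ : ∃ θ, θ = 2 * Real.exp (3 + 2 * √s) / √s ^ ub s := ⟨_, rfl⟩
  obtain ⟨ZZ, hZZ⟩ : ∃ ZZ : ℝ, ZZ = ((uz N s : ℝ) ^ 2 ^ I) ^ (4 * ub s + 30) := ⟨_, rfl⟩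
  have ZZ0 : 0 ≤ ZZ := by rw [hZZ]; positivity
  have ZZ1 : ZZ ≤ ρ ^ 2 := by
    have := rt _ z8
    rw [hzz] at this
    rw [hZZ]; exact_mod_cast this
  have sv : Sv P N θ (3 * N * ZZ) := by
    rw [hθ, hZZ]
    exact hFL (uz N s) N √s (by omega) a1 p1 I (ub s) P (by
      rw [hP', hzz]; exact filter_subset _ _)
  have θ0 : 0 ≤ θ := by rw [hθ]; positivity
  rw [← hθ] at a3
  have θ1 : θ ≤ 1 := by linarith
  obtain ⟨EV, hEV⟩ : ∃ EV, EV = ev T (uK s) (uz N s) (ty s) := ⟨_, rfl⟩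
  obtain ⟨b1, b2, b3⟩ := hB T (uK s) (uz N s) (ty s) √s K1 (by omega) (by linarith)
    fun p hp => ⟨(Tm p hp).1, (Tm p hp).2.1⟩
  rw [← hEV] at b1 b2 b3
  rw [← hT] at p2
  obtain ⟨E1, hE1⟩ : ∃ E1, E1 = (box N).filter fun x =>
    (((Z₀ x).card : ℕ) : ℝ) < g⁻¹ / A * Y.card := ⟨_, rfl⟩
  obtain ⟨E2, hE2⟩ : ∃ E2, E2 = (box N).filter fun x => (Z x).card = n₀ ∧
    ∑ y ∈ Z x, fs P x y < n₀ * φ / 2 := ⟨_, rfl⟩
  obtain ⟨E3, hE3⟩ : ∃ E3, E3 = (box N).filter fun x => n₀ * φ / 4 <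
    ∑ y ∈ Z x, fs P x y * ind (∃ r ∈ EV, r ∣ qq x y) := ⟨_, rfl⟩
  have e1 : (E1.card : ℝ) ≤ (N : ℝ) ^ 2 * (δ / 10) + 3 * q * N := by
    have k := (abs_le.1 (hM q N (fun x => ind ((((Z₀ x).card : ℕ) : ℝ) < g⁻¹ / A * Y.card)) q0
      (fun x => ⟨by simp only [(y1 x).1], by simp only [(y1 x).2]⟩) fun x => ind_bd _)).2
    have e : (E1.card : ℝ) = ∑ x ∈ box N, ind ((((Z₀ x).card : ℕ) : ℝ) < g⁻¹ / A * Y.card) := by
      rw [hE1, card_filter, Nat.cast_sum]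
      exact sum_congr rfl fun x _ => by unfold ind; split_ifs <;> simp
    have := mul_le_mul_of_nonneg_left y4 (sq_nonneg (N : ℝ))
    linarith
  have e2 := hV P (uz N s) N q n₀ θ (3 * N * ZZ) (δ / 1000) Y Z (by omega) θ0 θ1 (by positivity)
    (by positivity) (fun p hp => ⟨(Pm p hp).1, (Pm p hp).2.1, (Pm p hp).2.2.1⟩) sv p3 q0 qP hY w1 w3
  rw [← hφ, ← hE2] at e2
  have e2 := m1 u0 hn.le u2 L1 (by positivity) (by positivity) e2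
  have e3 := hBa P EV N q n₀ θ (3 * N * ZZ) (δ / 1000) ρ Y Z θ0 θ1 (by positivity)
    (fun p hp => ⟨(Pm p hp).1, (Pm p hp).2.1⟩) sv q0 qP (fun r hr => ⟨(b3 r hr).1,
      hq ▸ Nat.Coprime.prod_left fun p hp => (cop (b3 r hr).1 (Sm p hp).1 fun k => by
        have := Tm p ((b3 r hr).2 k); have := Sm p hp; omega).symm,
      fun p hp => cop (b3 r hr).1 (Pm p hp).1 fun k => by
        have := Tm p ((b3 r hr).2 k); have := Pm p hp; omega⟩)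
    (fun y => (b1 y).trans (by linarith)) (b2.trans z7) w1 w3
  rw [← hφ] at e3
  have e3 : (E3.card : ℝ) ≤ 8 * (δ / 1000) * (N : ℝ) ^ 2 + 4 * l1 N ^ 2 * (q * ρ * (3 * N * ZZ)) := by
    refine m2 u0 u2 (by positivity) (le_trans ?_ (e3.trans (le_of_eq (by ring))))
    rw [← nsmul_eq_mul]
    refine (card_nsmul_le_sum _ _ _ fun x hx => (mem_filter.1 (hE3 ▸ hx)).2.le).trans
      (sum_le_sum_of_subset_of_nonneg (hE3 ▸ filter_subset _ _) fun x _ _ =>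
        sum_nonneg fun y _ => mul_nonneg (fs_bd _ _ _).1 (ind_bd _).1)
  refine ⟨E1 ∪ E2 ∪ E3, ?_, fun x hx k => ?_⟩
  · have u : ((E1 ∪ E2 ∪ E3).card : ℝ) ≤ E1.card + E2.card + E3.card := by
      exact_mod_cast (card_union_le _ _).trans (Nat.add_le_add_right (card_union_le _ _) _)
    refine u.trans ?_
    rw [← ρ8] at e1 e2 e3 ⊢
    refine m3 hL z2 ρ1 δL (by positivity) q1 ZZ0 ZZ1 le_rfl e1 (e2.trans ?_) e3
    gcongr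
  simp only [mem_union, not_or, hE1, hE2, hE3, mem_filter, hx, true_and, not_lt] at k
  obtain ⟨⟨k1, k2⟩, k3⟩ := k
  have k4 := not_lt.1 fun h => k2 ⟨(w2 x).2.2 (hn₀ ▸ Nat.ceil_le.2 k1), h⟩
  have k5 := split P x (Z x) fun y => ∃ r ∈ EV, r ∣ qq x y
  obtain ⟨W, hW⟩ : ∃ W, W = (Z x).filter fun y => (∀ p ∈ P, ¬ Dv p 1 x y) ∧
    ¬ ∃ r ∈ EV, r ∣ qq x y := ⟨_, rfl⟩
  have W1 : W ⊆ Z x := hW ▸ filter_subset _ _
  obtain ⟨H, hH⟩ : ∃ H, H = 24 * (4 * ub s + 30) := ⟨_, rfl⟩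
  rw [← hH] at z9 a5
  have k6 := fibu hF (Y := Y) (W := W) (x := x) (U := S ∪ P)
    (Λ := ex / (16 * C₁ * g * 2 ^ ty s * 2 ^ H) * 2 ^ ty s * 2 ^ H) (W1.trans (w3 x).1)
    (fun p hp => (mem_union.1 hp).elim (fun h => ⟨(Sm p h).1, (Sm p h).2.1⟩)
      fun h => ⟨(Pm p h).1, (Pm p h).2.1⟩)
    (fun p hp => (mem_union.1 hp).elim
      (fun h => ((y2 x).2 p h).imp (fun j y hy => j y ((w2 x).1 (W1 hy)))
        fun j y hy => j y ((w2 x).1 (W1 hy)))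
      fun h => Or.inl fun y hy => (mem_filter.1 (hW ▸ hy)).2.1 p h)
    (fun y hy => by
      rw [hS', hP']
      exact hMu (ua s) (uw N) (uz N s) zz (uK s) (ty s) H (2 * N ^ 2) (qq x y) _ (by omega) z4 K1
        (by omega) (qq_le hx (hY ((w3 x).1 (W1 hy)))) z9 (fun j j1 j2 => by
          rw [le_div_iff₀ (by positivity), mul_comm]
          exact a5 j j1 j2) (by rw [← hT, ← hEV]; exact (mem_filter.1 (hW ▸ hy)).2.2))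
    (by positivity)
  have k7 : n₀ * φ ≤ 4 * W.card := by
    have k8 : n₀ * φ / 2 ≤ W.card + n₀ * φ / 4 :=
      k4.trans (k5.trans (add_le_add (le_of_eq (by rw [hW]; congr)) k3))
    linarith
  have e : 4 * (ex / (16 * C₁ * g * 2 ^ ty s * 2 ^ H) * 2 ^ ty s * 2 ^ H) = ex / (4 * C₁ * g) := by
    field_simp; ring
  rw [e] at k6
  rw [div_le_iff₀ (by positivity)]
  calc (Y.card : ℝ) ≤ C₁ * √(l1 N) * g * (n₀ * φ) := u1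
    _ ≤ C₁ * √(l1 N) * g * (4 * (ex / (4 * C₁ * g) * dd Y x)) :=
        mul_le_mul_of_nonneg_left (k7.trans (mul_le_mul_of_nonneg_left k6 (by norm_num)))
          (by positivity)
    _ = _ := by field_simp

end Pool.Agent.MP_6c3157_co.LG
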