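import Pool.Agent.MP_6c3157_co.LG.SpecU

/-! Project LG: one scale of the two-dimensional sieve. -/

set_option autoImplicit false

noncomputable section

namespace Pool.Agent.MP_6c3157_co.LG

open Finset

namespace Inn

theorem av_mem {d : ℕ} {h : ℕ × ℕ → ℝ} (hd : 0 < d) (hu : Uni h) :
    0 ≤ av2 d h ∧ av2 d h ≤ 1 := by
  have hd' : (0 : ℝ) < (d : ℝ) ^ 2 := by positivity
  refine ⟨div_nonneg (sum_nonneg fun u _ => (hu u).1) hd'.le, (div_le_one hd').2 ?_⟩
  refine (sum_le_sum fun u _ => (hu u).2).trans (le_of_eq ?_)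
  simp [box, sq]

theorem per_mul {d : ℕ} {h : ℕ × ℕ → ℝ} (hp : Per d h) (m : ℕ) : Per (d * m) h := by
  induction m with
  | zero => exact fun x => ⟨rfl, rfl⟩
  | succ m ih =>
    intro x
    rw [Nat.mul_succ, ← add_assoc, ← add_assoc]
    exact ⟨(hp (x.1 + d * m, x.2)).1.trans (ih x).1, (hp (x.1, x.2 + d * m)).2.trans (ih x).2⟩

theorem crt2 (hC : CRT) {d p : ℕ} {f g : ℕ × ℕ → ℝ} (hf : Per d f) (hg : Per p g)
    (hd : 0 < d) (hp : 0 < p) (co : Nat.Coprime d p) :
    av2 (d * p) (fun u => f u * g u) = av2 d f * av2 p g := by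
  have e := hC d p (fun a b => f a * g b) hd hp co
    (fun b x => ⟨by simp only [(hf x).1], by simp only [(hf x).2]⟩)
    (fun a x => ⟨by simp only [(hg x).1], by simp only [(hg x).2]⟩)
  unfold av2
  rw [e, ← sum_mul_sum, div_mul_div_comm, Nat.cast_mul, mul_pow]

theorem gen (hC : CRT) (Q : Finset ℕ) (N z : ℕ) (g : ℕ × ℕ → ℝ) (t : ℕ → ℕ × ℕ → ℝ)
    (v θ R lam : ℝ) (hv : 0 ≤ v) (hθ : 0 ≤ θ) (hR : 0 ≤ R) (hl : 1 ≤ lam) (hz : 1 ≤ z)
    (hg : Uni g) (hQ : ∀ r ∈ Q, r.Prime)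
    (H : ∀ (d : ℕ) (h : ℕ × ℕ → ℝ), 0 < d → (∀ r ∈ Q, d.Coprime r) → Per d h → Uni h →
      |∑ x ∈ box N, h x * g x - N ^ 2 * av2 d h * v| ≤ θ * (N ^ 2 * av2 d h * v) + d * R)
    (s : Finset ℕ) : (∀ p ∈ s, p ∉ Q) →
    (∀ p ∈ s, p.Prime ∧ p ≤ z ∧ Per p (t p) ∧ Uni (t p) ∧ av2 p (t p) ≤ 2 / p) →
    ∀ (k d : ℕ) (h : ℕ × ℕ → ℝ), 0 < d → (∀ r ∈ s, d.Coprime r) → (∀ r ∈ Q, d.Coprime r) →
      Per d h → Uni h →
      |∑ x ∈ box N, h x * (∏ p ∈ s, (1 - t p x)) * g x -
          N ^ 2 * av2 d h * (∏ p ∈ s, (1 - av2 p (t p))) * v| ≤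
        N ^ 2 * av2 d h * v * (θ * ∏ p ∈ s, (1 + 2 / (p : ℝ)) +
          (∏ p ∈ s, (1 + 2 * lam / (p : ℝ))) / lam ^ k) +
        d * R * (z : ℝ) ^ (2 * k) * ∏ p ∈ s, (1 + 4 / (p : ℝ)) := by
  have hz' : (1 : ℝ) ≤ z := by exact_mod_cast hz
  have l0 : 0 < lam := by linarith
  induction s using Finset.induction_on with
  | empty =>
    intro _ _ k d h hd _ hc hp hu
    simp only [prod_empty, mul_one]
    have a := (av_mem hd hu).1
    have b : d * R ≤ d * R * (z : ℝ) ^ (2 * k) :=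
      le_mul_of_one_le_right (by positivity) (one_le_pow₀ hz')
    have c : 0 ≤ N ^ 2 * av2 d h * v * (1 / lam ^ k) := by positivity
    have := H d h hd hc hp hu
    rw [mul_add]
    linarith
  | insert p P hpP ih =>
    intro h0 h1 k d h hd hc hc' hp hu
    have a := (av_mem hd hu).1
    have b0 : 0 ≤ N ^ 2 * av2 d h * v := by positivity
    rcases k with _ | k
    · have n1 : ∀ u, 0 ≤ ∏ q ∈ insert p P, (1 - t q u) := fun u =>
        prod_nonneg fun q hq => sub_nonneg.2 ((h1 q hq).2.2.2.1 u).2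
      have b1 : 0 ≤ ∑ u ∈ box N, h u * (∏ q ∈ insert p P, (1 - t q u)) * g u :=
        sum_nonneg fun u _ => mul_nonneg (mul_nonneg (hu u).1 (n1 u)) (hg u).1
      have b2 : ∑ u ∈ box N, h u * (∏ q ∈ insert p P, (1 - t q u)) * g u ≤
          ∑ u ∈ box N, h u * g u :=
        sum_le_sum fun u _ => mul_le_mul_of_nonneg_right (mul_le_of_le_one_right (hu u).1
          (prod_le_one (fun q hq => sub_nonneg.2 ((h1 q hq).2.2.2.1 u).2)
            fun q hq => sub_le_self _ ((h1 q hq).2.2.2.1 u).1)) (hg u).1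
      have b3 := (abs_le.1 (H d h hd hc' hp hu)).2
      have m : ∀ q ∈ insert p P, 0 ≤ av2 q (t q) ∧ av2 q (t q) ≤ 1 :=
        fun q hq => av_mem (h1 q hq).1.pos (h1 q hq).2.2.2.1
      have e : N ^ 2 * av2 d h * (∏ q ∈ insert p P, (1 - av2 q (t q))) * v =
          N ^ 2 * av2 d h * v * ∏ q ∈ insert p P, (1 - av2 q (t q)) := by ring
      have b4 : 0 ≤ N ^ 2 * av2 d h * v * ∏ q ∈ insert p P, (1 - av2 q (t q)) :=
        mul_nonneg b0 (prod_nonneg fun q hq => sub_nonneg.2 (m q hq).2)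
      have b5 : N ^ 2 * av2 d h * v * ∏ q ∈ insert p P, (1 - av2 q (t q)) ≤
          N ^ 2 * av2 d h * v :=
        mul_le_of_le_one_right b0 (prod_le_one (fun q hq => sub_nonneg.2 (m q hq).2)
          fun q hq => sub_le_self _ (m q hq).1)
      have b6 : (1 : ℝ) ≤ ∏ q ∈ insert p P, (1 + 4 / (q : ℝ)) :=
        one_le_prod fun q _ => le_add_of_nonneg_right (by positivity)
      have b7 : (1 : ℝ) ≤ ∏ q ∈ insert p P, (1 + 2 / (q : ℝ)) :=
        one_le_prod fun q _ => le_add_of_nonneg_right (by positivity)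
      have b8 : (1 : ℝ) ≤ ∏ q ∈ insert p P, (1 + 2 * lam / (q : ℝ)) :=
        one_le_prod fun q _ => le_add_of_nonneg_right (by positivity)
      have b9 : (0 : ℝ) ≤ d * R := by positivity
      have c1 := le_mul_of_one_le_right b9 b6
      have c2 := mul_le_mul_of_nonneg_left
        (add_le_add (le_mul_of_one_le_right hθ b7) b8) b0
      have c3 : 0 ≤ θ * (N ^ 2 * av2 d h * v) := by positivity
      rw [e, abs_le]
      simp only [pow_zero, mul_zero, div_one, mul_one]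
      constructor <;> linarith
    · obtain ⟨pp, pz, tp, t01, ta⟩ := h1 p (mem_insert_self _ _)
      have ih' := ih (fun q hq => h0 q (mem_insert_of_mem hq))
        (fun q hq => h1 q (mem_insert_of_mem hq))
      have i1 := ih' (k + 1) d h hd (fun q hq => hc q (mem_insert_of_mem hq)) hc' hp hu
      have i2 := ih' k (d * p) (fun u => h u * t p u) (Nat.mul_pos hd pp.pos)
        (fun q hq => Nat.Coprime.mul_left (hc q (mem_insert_of_mem hq))
          ((Nat.coprime_primes pp (h1 q (mem_insert_of_mem hq)).1).2 fun e => hpP (e ▸ hq)))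
        (fun q hq => Nat.Coprime.mul_left (hc' q hq)
          ((Nat.coprime_primes pp (hQ q hq)).2 fun e => h0 p (mem_insert_self _ _) (e ▸ hq)))
        (fun u => by
          have e1 := per_mul hp p u
          have e2 := per_mul tp d u
          rw [mul_comm p d] at e2
          exact ⟨by simp only [e1.1, e2.1], by simp only [e1.2, e2.2]⟩)
        (fun u => ⟨mul_nonneg (hu u).1 (t01 u).1, mul_le_one₀ (hu u).2 (t01 u).1 (t01 u).2⟩)
      rw [crt2 hC hp tp hd pp.pos (hc p (mem_insert_self _ _))] at i2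
      have p0 : (0 : ℝ) < p := by exact_mod_cast pp.pos
      have pz' : (p : ℝ) ≤ z := by exact_mod_cast pz
      have e1 : ∑ u ∈ box N, h u * (∏ q ∈ insert p P, (1 - t q u)) * g u =
          ∑ u ∈ box N, h u * (∏ q ∈ P, (1 - t q u)) * g u -
            ∑ u ∈ box N, h u * t p u * (∏ q ∈ P, (1 - t q u)) * g u := by
        rw [← sum_sub_distrib]
        exact sum_congr rfl fun u _ => by rw [prod_insert hpP]; ring
      rw [e1]
      simp only [prod_insert hpP]
      have P2 : (0 : ℝ) ≤ ∏ q ∈ P, (1 + 2 / (q : ℝ)) := prod_nonneg fun q _ => by positivity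
      have P4 : (0 : ℝ) ≤ ∏ q ∈ P, (1 + 4 / (q : ℝ)) := prod_nonneg fun q _ => by positivity
      have Pl : (0 : ℝ) ≤ ∏ q ∈ P, (1 + 2 * lam / (q : ℝ)) := prod_nonneg fun q _ => by positivity
      generalize ∏ q ∈ P, (1 + 2 / (q : ℝ)) = A2 at *
      generalize ∏ q ∈ P, (1 + 4 / (q : ℝ)) = A4 at *
      generalize ∏ q ∈ P, (1 + 2 * lam / (q : ℝ)) = Al at *
      generalize ∏ q ∈ P, (1 - av2 q (t q)) = B at *
      generalize ∑ u ∈ box N, h u * (∏ q ∈ P, (1 - t q u)) * g u = S1 at *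
      generalize ∑ u ∈ box N, h u * t p u * (∏ q ∈ P, (1 - t q u)) * g u = S2 at *
      have c1 : N ^ 2 * (av2 d h * av2 p (t p)) * v * (θ * A2 + Al / lam ^ k) ≤
          N ^ 2 * av2 d h * v * (θ * (2 / p * A2) + 2 * lam / p * Al / lam ^ (k + 1)) := by
        calc _ ≤ N ^ 2 * (av2 d h * (2 / p)) * v * (θ * A2 + Al / lam ^ k) := by gcongr
          _ = _ := by field_simp; ring
      have c2 : ((d * p : ℕ) : ℝ) * R * (z : ℝ) ^ (2 * k) * A4 ≤
          d * R * (z : ℝ) ^ (2 * (k + 1)) * (4 / p * A4) := by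
        have c3 : (p : ℝ) ≤ (z : ℝ) ^ 2 * (4 / p) := by
          rw [← mul_div_assoc, le_div_iff₀ p0]
          nlinarith
        calc ((d * p : ℕ) : ℝ) * R * (z : ℝ) ^ (2 * k) * A4 =
              d * R * (z : ℝ) ^ (2 * k) * A4 * p := by push_cast; ring
          _ ≤ d * R * (z : ℝ) ^ (2 * k) * A4 * ((z : ℝ) ^ 2 * (4 / p)) := by gcongr
          _ = _ := by ring
      have e2 : S1 - S2 - N ^ 2 * av2 d h * ((1 - av2 p (t p)) * B) * v =
          (S1 - N ^ 2 * av2 d h * B * v) - (S2 - N ^ 2 * (av2 d h * av2 p (t p)) * B * v) := by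
        ring
      rw [e2]
      refine (abs_sub _ _).trans ((add_le_add i1 (i2.trans (add_le_add c1 c2))).trans (le_of_eq ?_))
      ring

end Inn

theorem inner (hC : CRT) : INNER := by
  intro Q s N z k g t v θ R lam hv hθ hR hl hz hg hQ hD hs H d h hd hc hp hu
  exact Inn.gen hC Q N z g t v θ R lam hv hθ hR hl hz hg hQ H s
    (fun p hp' => disjoint_left.1 hD hp') hs k d h hd (fun r hr => hc r (mem_union_left _ hr))
    (fun r hr => hc r (mem_union_right _ hr)) hp hu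

end Pool.Agent.MP_6c3157_co.LG
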