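import Pool.Agent.MP_6c3157_co.LG.SpecU

/-! Project LG: the linear forms. -/

set_option autoImplicit false

noncomputable section

namespace Pool.Agent.MP_6c3157_co.LG

open Finset Filter

namespace LinL

theorem sum_ind {α : Type} (s : Finset α) (φ : α → Prop) [DecidablePred φ] :
    ∑ a ∈ s, ind (φ a) = ((s.filter φ).card : ℝ) := by
  rw [card_filter]
  push_cast
  refine sum_congr rfl fun a _ => ?_
  unfold ind
  by_cases h : φ a <;> simp [h]

theorem ind_mul (φ ψ : Prop) : ind φ * ind ψ = ind (φ ∧ ψ) := by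
  unfold ind
  by_cases h : φ <;> by_cases k : ψ <;> simp [h, k]

theorem eq_of_dvd {p a b : ℕ} (ha : a < p) (hb : b < p) (h : (p : ℤ) ∣ (a : ℤ) - b) : a = b := by
  have := Int.eq_zero_of_abs_lt_dvd h (abs_lt.2 ⟨by omega, by omega⟩)
  omega

theorem one {p : ℕ} (hp : p.Prime) (s c : ℤ) (hs : ¬ (p : ℤ) ∣ s) :
    ((range p).filter fun a : ℕ => (p : ℤ) ∣ s * a + c).card = 1 := by
  haveI := Fact.mk hp
  have p1 : Prime (p : ℤ) := Nat.prime_iff_prime_int.1 hp
  have s0 : (s : ZMod p) ≠ 0 := fun h => hs ((ZMod.intCast_zmod_eq_zero_iff_dvd s p).1 h)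
  have h0 : (p : ℤ) ∣ s * ((-(c : ZMod p) * (s : ZMod p)⁻¹).val : ℕ) + c := by
    rw [← ZMod.intCast_zmod_eq_zero_iff_dvd]
    push_cast
    rw [ZMod.natCast_zmod_val]
    field_simp
    ring
  have h1 := ZMod.val_lt (-(c : ZMod p) * (s : ZMod p)⁻¹)
  generalize (-(c : ZMod p) * (s : ZMod p)⁻¹).val = a at h0 h1
  refine card_eq_one.2 ⟨a, eq_singleton_iff_unique_mem.2 ⟨mem_filter.2 ⟨mem_range.2 h1, h0⟩, ?_⟩⟩
  intro b hb
  obtain ⟨hb1, hb2⟩ := mem_filter.1 hb
  have h2 : (p : ℤ) ∣ s * ((b : ℤ) - a) := by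
    have := dvd_sub hb2 h0
    rwa [show s * (b : ℤ) + c - (s * a + c) = s * ((b : ℤ) - a) by ring] at this
  exact eq_of_dvd (mem_range.1 hb1) h1 ((p1.dvd_or_dvd h2).resolve_left hs)

end LinL

theorem lin : LIN := by
  classical
  intro p hp h4
  obtain ⟨hst, hs, ht⟩ := rp_spec hp h4
  have p1 : Prime (p : ℤ) := Nat.prime_iff_prime_int.1 hp
  have p0 : (0 : ℝ) < p := by exact_mod_cast hp.pos
  have h2 : ¬ (p : ℤ) ∣ 2 := fun h => by
    have h' : p ∣ 2 := by exact_mod_cast h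
    have := Nat.le_of_dvd two_pos h'
    have := hp.two_le
    omega
  refine ⟨fun e y x => ⟨propext ?_, propext ?_⟩, fun e y => ?_, fun y y' => ?_, ?_⟩
  · unfold Dv
    refine dvd_iff_dvd_of_dvd_sub ⟨(rp p).1, ?_⟩
    push_cast
    ring
  · unfold Dv
    refine dvd_iff_dvd_of_dvd_sub ⟨e * (rp p).2, ?_⟩
    push_cast
    ring
  · unfold av2 box
    rw [sum_product_right]
    have : ∀ b ∈ range p, ∑ a ∈ range p, ind (Dv p e (a, b) y) = 1 := by
      intro b _
      rw [LinL.sum_ind]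
      have h := LinL.one hp (rp p).1 (-((rp p).1 * y.1) + e * (rp p).2 * ((b : ℤ) - y.2)) hs
      have e1 : ((range p).filter fun a : ℕ => Dv p e (a, b) y) =
          (range p).filter fun a : ℕ => (p : ℤ) ∣ (rp p).1 * a +
            (-((rp p).1 * y.1) + e * (rp p).2 * ((b : ℤ) - y.2)) := by
        refine filter_congr fun a _ => ?_
        unfold Dv
        rw [show (rp p).1 * (a : ℤ) + (-((rp p).1 * y.1) + e * (rp p).2 * ((b : ℤ) - y.2)) =
          (rp p).1 * ((a : ℤ) - y.1) + e * (rp p).2 * ((b : ℤ) - y.2) by ring]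
      rw [e1, h, Nat.cast_one]
    rw [sum_congr rfl this, sum_const, card_range, nsmul_eq_mul]
    field_simp
  · unfold av2
    simp only [LinL.ind_mul]
    rw [LinL.sum_ind]
    refine div_le_div_of_nonneg_right ?_ (by positivity)
    have : ((box p).filter fun x => Dv p 1 x y ∧ Dv p (-1) x y').card ≤ 1 := by
      refine card_le_one.2 fun x hx x' hx' => ?_
      obtain ⟨b1, a1, a2⟩ := mem_filter.1 hx
      obtain ⟨b2, a3, a4⟩ := mem_filter.1 hx'
      obtain ⟨c1, c2⟩ := mem_product.1 b1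
      obtain ⟨c3, c4⟩ := mem_product.1 b2
      unfold Dv at a1 a2 a3 a4
      have u := dvd_sub a1 a3
      have v := dvd_sub a2 a4
      have d1 : (p : ℤ) ∣ 2 * ((rp p).1 * ((x.1 : ℤ) - x'.1)) := by
        have := dvd_add u v
        exact this.trans (dvd_of_eq (by ring))
      have d2 : (p : ℤ) ∣ 2 * ((rp p).2 * ((x.2 : ℤ) - x'.2)) := by
        have := dvd_sub u v
        exact this.trans (dvd_of_eq (by ring))
      exact Prod.ext
        (LinL.eq_of_dvd (mem_range.1 c1) (mem_range.1 c3)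
          ((p1.dvd_or_dvd ((p1.dvd_or_dvd d1).resolve_left h2)).resolve_left hs))
        (LinL.eq_of_dvd (mem_range.1 c2) (mem_range.1 c4)
          ((p1.dvd_or_dvd ((p1.dvd_or_dvd d2).resolve_left h2)).resolve_left ht))
    exact_mod_cast this
  · intro x y y' a1 a2
    unfold Dv at a1 a2
    have u := dvd_sub a2 a1
    have d1 : (p : ℤ) ∣ (rp p).1 * ((rp p).1 * (((y.1 : ℤ) - y'.1) ^ 2 + ((y.2 : ℤ) - y'.2) ^ 2)) := by
      have v : (p : ℤ) ∣ ((rp p).1 ^ 2 + (rp p).2 ^ 2) * ((y.2 : ℤ) - y'.2) ^ 2 := by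
        rw [hst]
        exact dvd_mul_right _ _
      have := dvd_add (u.mul_right
        ((rp p).1 * ((y.1 : ℤ) - y'.1) - (rp p).2 * ((y.2 : ℤ) - y'.2))) v
      exact this.trans (dvd_of_eq (by ring))
    have d2 := (p1.dvd_or_dvd ((p1.dvd_or_dvd d1).resolve_left hs)).resolve_left hs
    unfold qq
    rw [← Int.natCast_dvd_natCast, Int.toNat_of_nonneg (by positivity)]
    exact d2

end Pool.Agent.MP_6c3157_co.LG
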