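import Pool.Agent.MP_6c3157_co.LG.SpecU

/-! The choice of sides for the small primes. -/

set_option autoImplicit false

noncomputable section

namespace Pool.Agent.MP_6c3157_co.LG

open Finset

namespace Mt

theorem ind0 (φ : Prop) : 0 ≤ ind φ := by
  unfold ind
  split_ifs <;> norm_num

theorem ind1 (φ : Prop) : ind φ ≤ 1 := by
  unfold ind
  split_ifs <;> norm_num

theorem av1 {d : ℕ} (hd : 0 < d) (c : ℝ) : av2 d (fun _ => c) = c := by
  have : (d : ℝ) ≠ 0 := by exact_mod_cast hd.ne'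
  simp only [av2, box, sum_const, card_product, card_range, nsmul_eq_mul]
  push_cast
  field_simp

theorem avm (d : ℕ) {f g : ℕ × ℕ → ℝ} (h : ∀ x, f x ≤ g x) : av2 d f ≤ av2 d g :=
  div_le_div_of_nonneg_right (sum_le_sum fun x _ => h x) (sq_nonneg _)

theorem avs {ι : Type} (d : ℕ) (s : Finset ι) (f : ι → ℕ × ℕ → ℝ) (c : ℝ) :
    av2 d (fun x => (∑ i ∈ s, f i x) / c) = (∑ i ∈ s, av2 d (f i)) / c := by
  simp only [av2, ← sum_div]
  rw [sum_comm, div_right_comm]

theorem pmul {α : Type} {d : ℕ} {h : ℕ × ℕ → α} (k : Per d h) (n : ℕ) : Per (n * d) h := by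
  induction n with
  | zero => exact fun x => by simp
  | succ n ih =>
    intro x
    rw [add_one_mul, ← add_assoc, ← add_assoc]
    exact ⟨(k (x.1 + n * d, x.2)).1.trans (ih x).1, (k (x.1, x.2 + n * d)).2.trans (ih x).2⟩

theorem pw (k : ℕ) {m : ℝ} (h0 : 0 ≤ m) (h1 : m ≤ 1 / 2) :
    (1 / (1 - m)) ^ k ≤ 1 + k * m + 8 ^ k * m ^ 2 := by
  have a : 1 / (1 - m) ≤ 1 + m + 2 * m ^ 2 := by
    rw [div_le_iff₀ (by linarith)]
    nlinarith [mul_nonneg (sq_nonneg m) (sub_nonneg.2 h1)]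
  induction k with
  | zero => simp [sq_nonneg]
  | succ k ih =>
    have b : (k : ℝ) ≤ 8 ^ k := by exact_mod_cast (Nat.lt_pow_self (by norm_num : 1 < 8)).le
    have c : (1 : ℝ) ≤ 8 ^ k := one_le_pow₀ (by norm_num)
    have k0 : (0 : ℝ) ≤ k := Nat.cast_nonneg k
    rw [pow_succ, pow_succ (8 : ℝ)]
    refine (mul_le_mul ih a (div_nonneg zero_le_one (by linarith)) (by positivity)).trans ?_
    push_cast
    generalize (8 : ℝ) ^ k = E at *
    have d : 2 + k + E + (2 * k + E) * m + 2 * E * (m * m) ≤ E * 8 := by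
      have := mul_le_mul_of_nonneg_left h1 (show 0 ≤ 2 * k + E by linarith)
      have := mul_le_mul_of_nonneg_left (mul_le_mul h1 h1 h0 (by norm_num))
        (show 0 ≤ 2 * E by linarith)
      linarith
    linarith [mul_le_mul_of_nonneg_right d (sq_nonneg m)]

theorem cut (hL : LIN) {p : ℕ} (hp : p.Prime) (h4 : p % 4 = 1) (Y : Finset (ℕ × ℕ)) :
    ∃ (W : ℕ × ℕ → Finset (ℕ × ℕ)) (m : ℕ × ℕ → ℝ), Per p W ∧ Per p m ∧
      (∀ a, W a ⊆ Y ∧ ((∀ y ∈ W a, ¬ Dv p 1 a y) ∨ ∀ y ∈ W a, ¬ Dv p (-1) a y) ∧ 0 ≤ m a ∧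
        ((W a).card : ℝ) = (1 - m a) * Y.card) ∧
      av2 p m ≤ 1 / p ∧ av2 p (fun a => m a ^ 2) ≤ 1 / (p : ℝ) ^ 2 := by
  classical
  obtain ⟨l1, l2, l3, -⟩ := hL p hp h4
  obtain ⟨r, hr⟩ : ∃ r : ℤ → ℕ × ℕ → ℝ, ∀ e a, r e a = (∑ y ∈ Y, ind (Dv p e a y)) / Y.card :=
    ⟨_, fun _ _ => rfl⟩
  have r0 : ∀ e a, 0 ≤ r e a := fun e a =>
    hr e a ▸ div_nonneg (sum_nonneg fun _ _ => ind0 _) (Nat.cast_nonneg _)
  have d1 : ∀ e y (x : ℕ × ℕ), Dv p e (x.1 + p, x.2) y = Dv p e x y := fun e y x => (l1 e y x).1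
  have d2 : ∀ e y (x : ℕ × ℕ), Dv p e (x.1, x.2 + p) y = Dv p e x y := fun e y x => (l1 e y x).2
  have dv : ∀ c n : ℝ, 0 ≤ c → n * c / n ≤ c := fun c n h => by
    rcases eq_or_ne n 0 with e | e
    · simpa [e] using h
    · rw [mul_div_cancel_left₀ _ e]
  have cd : ∀ e a, ((Y.filter fun y => ¬ Dv p e a y).card : ℝ) = (1 - r e a) * Y.card :=
    fun e a => by
      rcases Y.eq_empty_or_nonempty with k | k
      · simp [k]
      · have : (Y.card : ℝ) ≠ 0 := by exact_mod_cast k.card_pos.ne'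
        rw [hr, sub_mul, div_mul_cancel₀ _ this,
          ← card_filter_add_card_filter_not (s := Y) (Dv p e a)]
        simp [ind]
  refine ⟨fun a => Y.filter fun y => ¬ Dv p (if r 1 a ≤ r (-1) a then 1 else -1) a y,
    fun a => r (if r 1 a ≤ r (-1) a then 1 else -1) a, fun x => by simp only [hr, d1, d2, and_self],
    fun x => by simp only [hr, d1, d2, and_self],
    fun a => ⟨filter_subset _ _, ?_, r0 _ _, cd _ _⟩, ?_, ?_⟩
  · beta_reduce
    split_ifs
    exacts [Or.inl fun y hy => (mem_filter.1 hy).2, Or.inr fun y hy => (mem_filter.1 hy).2]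
  · refine (avm p (g := fun a => (∑ y ∈ Y, ind (Dv p 1 a y)) / Y.card) fun a => ?_).trans ?_
    · rw [← hr]
      split_ifs with k
      exacts [le_rfl, (not_le.1 k).le]
    · rw [avs p Y fun y a => ind (Dv p 1 a y)]
      simp only [l2, sum_const, nsmul_eq_mul]
      exact dv _ _ (by positivity)
  · refine (avm p (g := fun a => (∑ y ∈ Y ×ˢ Y, ind (Dv p 1 a y.1) * ind (Dv p (-1) a y.2)) /
      (Y ×ˢ Y).card) fun a => ?_).trans ?_
    · rw [sum_product' _ _ fun y z => ind (Dv p 1 a y) * ind (Dv p (-1) a z), ← sum_mul_sum,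
        card_product, Nat.cast_mul, ← div_mul_div_comm, ← hr, ← hr, sq]
      beta_reduce
      split_ifs with k
      exacts [mul_le_mul_of_nonneg_left k (r0 _ _),
        mul_le_mul_of_nonneg_right (not_le.1 k).le (r0 _ _)]
    · rw [avs p (Y ×ˢ Y) fun y a => ind (Dv p 1 a y.1) * ind (Dv p (-1) a y.2)]
      refine (div_le_div_of_nonneg_right (sum_le_card_nsmul _ _ _ fun y _ => l3 y.1 y.2)
        (Nat.cast_nonneg _)).trans ?_
      rw [nsmul_eq_mul]
      exact dv _ _ (by positivity)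

end Mt

open Mt in
theorem mart (hC : CRT) (hL : LIN) : MART := by
  intro κ S
  induction S using Finset.induction_on with
  | empty =>
    refine fun _ Y η h0 => ⟨fun _ => Y, fun _ => ⟨rfl, rfl⟩,
      fun x => ⟨Subset.rfl, fun p hp => absurd hp (notMem_empty p)⟩, ?_⟩
    rw [prod_empty, prod_empty, sum_empty, av1 one_pos, mul_one, add_zero, ind]
    split_ifs with k
    · refine one_le_pow₀ (not_lt.1 fun c => k.not_ge ?_)
      exact mul_le_of_le_one_left (Nat.cast_nonneg _) c.le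
    · positivity
  | insert p S hp ih =>
    intro hS Y η h0
    have pp := hS p (mem_insert_self p S)
    have hS' := fun q hq => hS q (mem_insert_of_mem hq)
    choose! F f1 f2 f3 using ih hS'
    obtain ⟨W, m, w1, w2, w3, w4, w5⟩ := cut hL pp.1 pp.2 Y
    have d0 : 0 < ∏ q ∈ S, q := prod_pos fun q hq => (hS' q hq).1.pos
    have co : p.Coprime (∏ q ∈ S, q) := Nat.Coprime.prod_right fun q hq =>
      (Nat.coprime_primes pp.1 (hS' q hq).1).2 fun e => hp (e ▸ hq)
    have B0 : 0 ≤ ∏ q ∈ S, (1 + κ / (q : ℝ) + 8 ^ κ / (q : ℝ) ^ 2) :=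
      prod_nonneg fun _ _ => by positivity
    have T0 : 0 ≤ ∑ q ∈ S, 4 / (q : ℝ) ^ 2 := sum_nonneg fun _ _ => by positivity
    rw [prod_insert hp, prod_insert hp, sum_insert hp]
    generalize ∏ q ∈ S, q = d at *
    generalize ∏ q ∈ S, (1 + κ / (q : ℝ) + 8 ^ κ / (q : ℝ) ^ 2) = B at *
    generalize ∑ q ∈ S, 4 / (q : ℝ) ^ 2 = T at *
    obtain ⟨e, he⟩ : ∃ e : ℕ × ℕ → ℝ, ∀ a, e a = if m a ≤ 1 / 2 then η * (1 / (1 - m a)) else 0 :=
      ⟨_, fun _ => rfl⟩
    have e0 : ∀ a, 0 ≤ e a := fun a => by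
      rw [he]
      split_ifs with k
      exacts [mul_nonneg h0 (div_nonneg zero_le_one (by linarith)), le_rfl]
    have e1 : Per p e := fun x => by simp only [he, (w2 x).1, (w2 x).2, and_self]
    have p0 : (p : ℝ) ≠ 0 := by exact_mod_cast pp.1.pos.ne'
    have η0 : 0 ≤ η ^ κ * B := mul_nonneg (pow_nonneg h0 _) B0
    refine ⟨fun x => F (W x) (e x) x, fun x => ?_, fun x => ⟨(f2 _ _ (e0 x) x).1.trans (w3 x).1,
      fun q hq => ?_⟩, ?_⟩
    · have a := pmul w1 d x
      have b := pmul e1 d x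
      have c := pmul (f1 (W x) _ (e0 x)) p x
      rw [mul_comm] at a b
      simp only [a.1, a.2, b.1, b.2, c.1, c.2, and_self]
    · rcases mem_insert.1 hq with rfl | k
      · exact (w3 x).2.1.imp (fun k y hy => k y ((f2 _ _ (e0 x) x).1 hy))
          fun k y hy => k y ((f2 _ _ (e0 x) x).1 hy)
      · exact (f2 _ _ (e0 x) x).2 q k
    have k : av2 (p * d) (fun x => ind (((F (W x) (e x) x).card : ℝ) < η * Y.card)) =
        av2 p fun a => av2 d fun b => ind (((F (W a) (e a) b).card : ℝ) < η * Y.card) := by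
      rw [av2, hC p d (fun a b => ind (((F (W a) (e a) b).card : ℝ) < η * Y.card)) pp.1.pos d0 co
        (fun b x => by simp only [(w1 x).1, (w1 x).2, (e1 x).1, (e1 x).2, and_self])
        fun a x => by simp only [(f1 _ _ (e0 a) x).1, (f1 _ _ (e0 a) x).2, and_self]]
      simp only [av2, ← sum_div]
      rw [div_div, Nat.cast_mul, mul_pow, mul_comm ((p : ℝ) ^ 2)]
    rw [k]
    refine (avm p (g := fun a => η ^ κ * B + T + η ^ κ * B * κ * m a +
      (η ^ κ * B * 8 ^ κ + 4) * m a ^ 2) fun a => ?_).trans ?_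
    · have m0 := (w3 a).2.2.1
      by_cases c : m a ≤ 1 / 2
      · have b := f3 (W a) _ (e0 a)
        have z : e a * (W a).card = η * Y.card := by
          have : 1 - m a ≠ 0 := by linarith
          rw [(w3 a).2.2.2, he, if_pos c]
          field_simp
        rw [z] at b
        refine b.trans ?_
        rw [he, if_pos c, mul_pow]
        linarith [mul_le_mul_of_nonneg_left (pw κ m0 c) η0, sq_nonneg (m a)]
      · refine ((avm d fun _ => ind1 _).trans (av1 d0 1).le).trans ?_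
        have : 1 ≤ 4 * m a ^ 2 := by nlinarith
        have : 0 ≤ η ^ κ * B * κ * m a := by positivity
        have : 0 ≤ η ^ κ * B * 8 ^ κ * m a ^ 2 := by positivity
        linarith
    · have a := av1 pp.1.pos (η ^ κ * B + T)
      have b := mul_le_mul_of_nonneg_left w4 (show 0 ≤ η ^ κ * B * κ by positivity)
      have c := mul_le_mul_of_nonneg_left w5 (show 0 ≤ η ^ κ * B * 8 ^ κ + 4 by positivity)
      simp only [av2] at a b c ⊢
      rw [sum_add_distrib, sum_add_distrib (f := fun _ => η ^ κ * B + T), ← mul_sum, ← mul_sum,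
        add_div, add_div, a, mul_div_assoc, mul_div_assoc]
      refine (add_le_add (add_le_add le_rfl b) c).trans (le_of_eq (by ring))

end Pool.Agent.MP_6c3157_co.LG

end
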