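import Pool.Agent.MP_6c3157_co.LG.SpecU

/-! Project LG: the sum of a periodic function over a large square. -/

set_option autoImplicit false

noncomputable section

namespace Pool.Agent.MP_6c3157_co.LG

open Finset

namespace MeanL

theorem per1 (f : ℕ → ℝ) (d : ℕ) (h : ∀ u, f (u + d) = f u) (q : ℕ) :
    ∑ u ∈ range (d * q), f u = q * ∑ u ∈ range d, f u := by
  induction q with
  | zero => simp
  | succ q ih =>
    rw [mul_add, mul_one, add_comm, sum_range_add, Nat.cast_succ, add_mul, one_mul, ← ih, add_comm]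
    congr 1
    exact sum_congr rfl fun u _ => by rw [add_comm, h]

theorem per2 (h : ℕ × ℕ → ℝ) (d : ℕ) (hp : Per d h) (q : ℕ) :
    ∑ x ∈ box (d * q), h x = q ^ 2 * ∑ x ∈ box d, h x := by
  unfold box
  rw [sum_product, sum_product,
    sum_congr rfl fun a _ => per1 (fun b => h (a, b)) d (fun u => (hp (a, u)).2) q, ← mul_sum,
    per1 (fun a => ∑ b ∈ range d, h (a, b)) d
      (fun u => sum_congr rfl fun b _ => (hp (u, b)).1) q]
  ring

theorem card_box (N : ℕ) : ((box N).card : ℝ) = N ^ 2 := by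
  unfold box
  rw [card_product, card_range, Nat.cast_mul, sq]

theorem bnd (h : ℕ × ℕ → ℝ) (hu : Uni h) (S : Finset (ℕ × ℕ)) :
    0 ≤ ∑ x ∈ S, h x ∧ ∑ x ∈ S, h x ≤ S.card := by
  refine ⟨sum_nonneg fun x _ => (hu x).1, ?_⟩
  simpa using sum_le_card_nsmul S h 1 fun x _ => (hu x).2

end MeanL

open MeanL

theorem mean : MEAN := by
  intro d N h hd hp hu
  have hM : d * (N / d) ≤ N := Nat.mul_div_le N d
  have hM' : N < d * (N / d) + d := by
    have h1 := Nat.div_add_mod N d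
    have h2 := Nat.mod_lt N hd
    omega
  have h1 := per2 h d hp (N / d)
  generalize N / d = q at hM hM' h1
  have hsub : box (d * q) ⊆ box N := fun x hx => by
    rw [mem_box] at hx ⊢
    omega
  have h2 := sum_sdiff (f := h) hsub
  obtain ⟨h3, h4⟩ := bnd h hu (box N \ box (d * q))
  rw [card_sdiff_of_subset hsub, Nat.cast_sub (card_le_card hsub), card_box, card_box] at h4
  obtain ⟨h5, h6⟩ := bnd h hu (box d)
  rw [card_box] at h6
  have dp : (0 : ℝ) < d := by exact_mod_cast hd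
  have e : ∑ x ∈ box d, h x = d ^ 2 * av2 d h := by
    unfold av2
    field_simp
  have a0 : 0 ≤ av2 d h := div_nonneg h5 (by positivity)
  have a1 : av2 d h ≤ 1 := (div_le_one (by positivity)).2 h6
  have g1 : ((d * q : ℕ) : ℝ) ≤ N := by exact_mod_cast hM
  have g2 : (N : ℝ) ≤ ((d * q : ℕ) : ℝ) + d := by exact_mod_cast hM'.le
  have e2 : ∑ x ∈ box (d * q), h x = ((d * q : ℕ) : ℝ) ^ 2 * av2 d h := by
    rw [h1, e, Nat.cast_mul]
    ring
  have g0 : (0 : ℝ) ≤ ((d * q : ℕ) : ℝ) := Nat.cast_nonneg _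
  generalize ((d * q : ℕ) : ℝ) = M at h4 g1 g2 e2 g0
  have g3 : (N : ℝ) ^ 2 - M ^ 2 ≤ 2 * d * N := by nlinarith
  have g4 : 0 ≤ (N : ℝ) ^ 2 - M ^ 2 := by nlinarith
  have g5 := mul_nonneg g4 a0
  have g6 := mul_le_of_le_one_right g4 a1
  have g7 : (0 : ℝ) ≤ d * N := by positivity
  rw [abs_le]
  constructor <;> nlinarith

end Pool.Agent.MP_6c3157_co.LG
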