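import Pool.Agent.MP_6c3157_co.LG.SpecU
import Pool.Agent.MP_6c3157_co.LG.Good

/-! Project LG, row MULT: the multiplicity of a number without forbidden divisors. -/

set_option autoImplicit false

namespace Pool.Agent.MP_6c3157_co.LG

open Finset

namespace MultAux

theorem least {K z j : ℕ} (hK : 1 ≤ K) (hj : K < j) (hz : ∀ p ∈ j.primeFactors, p ≤ z) :
    ∃ i, i ∣ j ∧ K < i ∧ i ≤ K * z := by
  classical
  have e : ∃ i, i ∣ j ∧ K < i := ⟨j, dvd_rfl, hj⟩
  obtain ⟨h1, h2⟩ := Nat.find_spec e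
  obtain ⟨p, hp, c, hc⟩ := Nat.exists_prime_and_dvd (n := Nat.find e) (by omega)
  refine ⟨_, h1, h2, ?_⟩
  have c0 : 0 < c := Nat.pos_of_ne_zero fun h => by rw [h] at hc; omega
  have c1 : c < Nat.find e := by
    rw [hc]
    exact lt_mul_of_one_lt_left c0 hp.one_lt
  have c2 : c ≤ K := not_lt.1 fun h =>
    Nat.find_min e c1 ⟨(Dvd.intro_left p hc.symm).trans h1, h⟩
  have c3 := hz p (Nat.mem_primeFactors.2 ⟨hp, (Dvd.intro c hc.symm).trans h1, by omega⟩)
  rw [hc, mul_comm]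
  exact Nat.mul_le_mul c2 c3

theorem part {m : ℕ} (hm : m ≠ 0) (T : Finset ℕ) : ∃ g, g ∣ m ∧
    g.primeFactors = m.primeFactors.filter (· ∈ T) ∧
    g.divisors.card = ∏ p ∈ m.primeFactors.filter (· ∈ T), (m.factorization p + 1) := by
  have h1 : ∀ p ∈ (m.factorization.filter (· ∈ T)).support, p.Prime := fun p hp => by
    rw [Finsupp.support_filter, Nat.support_factorization] at hp
    exact Nat.prime_of_mem_primeFactors (mem_filter.1 hp).1
  have h2 := Nat.prod_pow_factorization_eq_self h1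
  have h3 : (m.factorization.filter (· ∈ T)).prod (· ^ ·) ≠ 0 :=
    prod_ne_zero_iff.2 fun p hp => pow_ne_zero _ (h1 p hp).ne_zero
  generalize (m.factorization.filter (· ∈ T)).prod (· ^ ·) = g at h2 h3
  have h4 : g.primeFactors = m.primeFactors.filter (· ∈ T) := by
    rw [← Nat.support_factorization, h2, Finsupp.support_filter, Nat.support_factorization]
  refine ⟨g, (Nat.factorization_le_iff_dvd h3 hm).1 fun p => ?_, h4, ?_⟩
  · rw [h2, Finsupp.filter_apply]
    split_ifs <;> simp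
  · rw [Nat.card_divisors h3, h4]
    refine prod_congr rfl fun p hp => ?_
    rw [h2, Finsupp.filter_apply_pos _ _ (mem_filter.1 hp).2]

theorem big {m z H : ℕ} (hm : m ≠ 0) (hz : 1 ≤ z) (hH : m < z ^ H) :
    ∏ p ∈ m.primeFactors.filter (z < ·), (m.factorization p + 1) ≤ 2 ^ H := by
  have h1 : ∏ p ∈ m.primeFactors.filter (z < ·), p ^ m.factorization p ≤ m := by
    refine Nat.le_of_dvd (Nat.pos_of_ne_zero hm) ?_
    conv_rhs => rw [← Nat.prod_factorization_pow_eq_self hm]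
    exact prod_dvd_prod_of_subset _ _ _ (filter_subset _ _)
  have h2 : z ^ ∑ p ∈ m.primeFactors.filter (z < ·), m.factorization p ≤ m := by
    rw [← prod_pow_eq_pow_sum]
    exact (prod_le_prod' fun p hp => Nat.pow_le_pow_left (mem_filter.1 hp).2.le _).trans h1
  have h3 : ∑ p ∈ m.primeFactors.filter (z < ·), m.factorization p ≤ H :=
    not_lt.1 fun h => absurd ((Nat.pow_le_pow_right hz h.le).trans h2) (not_le.2 hH)
  refine le_trans ?_ (Nat.pow_le_pow_right two_pos h3)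
  rw [← prod_pow_eq_pow_sum]
  exact prod_le_prod' fun p _ => Nat.lt_two_pow_self

end MultAux

open MultAux GoodAux in
theorem mult : MULT := by
  intro a w z₀ z₁ K t H X m Δ ha haz hK hz hX hH hΔ hb
  have hT : ∀ p ∈ pr 0 a ∪ pr w z₀, p ≤ z₀ := fun p hp => by
    simp only [pr, mem_union, mem_filter, mem_Ioc] at hp
    omega
  have h2 : 2 ∈ pr 0 a ∪ pr w z₀ := by
    simp only [pr, mem_union, mem_filter, mem_Ioc]
    exact Or.inl ⟨⟨two_pos, ha⟩, Nat.prime_two⟩
  have hF : (m.primeFactors \ (pr1 a w ∪ pr1 z₀ z₁)).filter (fun p => p % 4 = 1) ⊆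
      m.primeFactors.filter (· ∈ pr 0 a ∪ pr w z₀) ∪ m.primeFactors.filter (z₁ < ·) := by
    intro p hp
    obtain ⟨h3, h4⟩ := mem_filter.1 hp
    obtain ⟨h5, h6⟩ := mem_sdiff.1 h3
    have h7 := Nat.prime_of_mem_primeFactors h5
    have h8 := h7.pos
    simp only [pr1, pr, mem_union, mem_filter, mem_Ioc, h4, h5, h7, and_true, true_and] at h6 ⊢
    omega
  generalize pr 0 a ∪ pr w z₀ = T at hb hT h2 hF
  have hsq : ∀ j, j.primeFactors ⊆ T → j ^ 2 ∣ m → j ≤ K := fun j hj hd => not_lt.1 fun h => by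
    obtain ⟨i, i1, i2, i3⟩ := least hK h fun p hp => hT p (hj hp)
    exact hb ⟨i ^ 2, mem_union_left _ (mem_image_of_mem _ (mem_filter.2 ⟨mem_Ioc.2 ⟨i2, i3⟩,
      (Nat.primeFactors_mono i1 (by omega)).trans hj⟩)), (pow_dvd_pow_of_dvd i1 2).trans hd⟩
  have hm : m ≠ 0 := by
    rintro rfl
    refine absurd (hsq (2 ^ K) ?_ (dvd_zero _)) (not_le.2 Nat.lt_two_pow_self)
    rw [Nat.primeFactors_prime_pow (by omega) Nat.prime_two]
    exact singleton_subset_iff.2 h2
  have hc : (m.primeFactors.filter (· ∈ T)).card ≤ t := not_lt.1 fun h => by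
    obtain ⟨S, s1, s2⟩ := exists_subset_card_eq h.le
    exact hb ⟨∏ p ∈ S, p, mem_union_right _ (mem_image_of_mem _ (mem_powersetCard.2
      ⟨fun p hp => (mem_filter.1 (s1 hp)).2, s2⟩)), (prod_dvd_prod_of_subset _ _ _
        (s1.trans (filter_subset _ _))).trans (Nat.prod_primeFactors_dvd m)⟩
  obtain ⟨g, g1, g2, g3⟩ := part hm T
  have g0 : g ≠ 0 := ne_zero_of_dvd_ne_zero hm g1
  obtain ⟨b, j, -, hj, rfl, hs⟩ := Nat.sq_mul_squarefree_of_pos (Nat.pos_of_ne_zero g0)
  have hjK : j ≤ K := hsq j (fun p hp => (mem_filter.1 (g2 ▸ Nat.primeFactors_mono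
    ((dvd_pow_self j two_ne_zero).mul_right b) g0 hp)).2) ((dvd_mul_right _ _).trans g1)
  have hb2 : b.primeFactors.card ≤ t :=
    (card_le_card (g2 ▸ Nat.primeFactors_mono (dvd_mul_left b _) g0)).trans hc
  have h1 : (j ^ 2 * b).divisors.card ≤ (j ^ 2).divisors.card * 2 ^ t := by
    rw [Nat.divisors_mul]
    refine card_mul_le.trans (Nat.mul_le_mul_left _ ?_)
    rw [tau_sqf hs]
    exact Nat.pow_le_pow_right two_pos hb2
  have h3 := big hm hz (lt_of_le_of_lt hX hH)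
  have h4 : ∏ p ∈ (m.primeFactors \ (pr1 a w ∪ pr1 z₀ z₁)).filter (fun p => p % 4 = 1),
      (m.factorization p + 1) ≤ (j ^ 2).divisors.card * 2 ^ t * 2 ^ H := by
    refine (prod_le_prod_of_subset_of_one_le' hF fun p _ _ => Nat.le_add_left _ _).trans ?_
    refine le_trans ?_ (Nat.mul_le_mul (g3 ▸ h1) h3)
    rw [← prod_union_inter]
    exact Nat.le_mul_of_pos_right _ (prod_pos fun p _ => Nat.succ_pos _)
  refine ⟨hm, le_trans (Nat.cast_le.2 h4) ?_⟩
  push_cast
  have h5 := hΔ j hj hjK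
  gcongr

end Pool.Agent.MP_6c3157_co.LG
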