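import Pool.Agent.MP_6c3157_co.LG.SpecU

/-! Project LG: the share of the pins that fail. -/

set_option autoImplicit false

noncomputable section

namespace Pool.Agent.MP_6c3157_co.LG

open Finset Filter

theorem numf : NUMF := by
  filter_upwards [eventually_ge_atTop (120 : ℝ)] with s hs S hS
  have E := Real.exp_pos s
  have a1 : 100 * Real.exp s ≤ ua s := Nat.le_ceil _
  have a0 : (0 : ℝ) < ua s := by linarith
  have k0 : uk s ≠ 0 := (Nat.ceil_pos.2 (Real.log_pos (by linarith))).ne'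
  have k1 : (uk s : ℝ) ≤ Real.log s + 1 := (Nat.ceil_lt_add_one (Real.log_nonneg (by linarith))).le
  have k2 : (8 : ℝ) ^ uk s ≤ ua s := by
    have e1 : Real.log s ≤ s / 36 + 34 := by
      have := Real.log_le_sub_one_of_pos (show 0 < s / 36 by linarith)
      have := Real.log_le_sub_one_of_pos (show (0 : ℝ) < 36 by norm_num)
      rw [Real.log_div (by linarith) (by norm_num)] at *
      linarith
    have e2 : (8 : ℝ) ≤ Real.exp 3 := by
      have := pow_le_pow_left₀ (by norm_num) (Real.add_one_le_exp 1) 3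
      rw [← Real.exp_nat_mul] at this
      norm_num at this
      exact this
    have e3 := pow_le_pow_left₀ (by norm_num) e2 (uk s)
    rw [← Real.exp_nat_mul] at e3
    have e4 := Real.exp_le_exp.2 (show (uk s : ℝ) * 3 ≤ s by linarith)
    linarith
  have p0 : ∀ p ∈ S, (0 : ℝ) < p := fun p hp => a0.trans (by exact_mod_cast hS p hp)
  have sg : ∑ p ∈ S, ((p : ℝ) ^ 2)⁻¹ ≤ (ua s : ℝ)⁻¹ := by
    refine (sum_le_sum_of_subset_of_nonneg (t := Ioc (ua s) (max (ua s) (S.sup id)))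
      (fun p hp => mem_Ioc.2 ⟨hS p hp, le_max_of_le_right (le_sup (f := id) hp)⟩)
        fun _ _ _ => by positivity).trans ((sum_Ioc_inv_sq_le_sub (by exact_mod_cast a0.ne')
          (le_max_left _ _)).trans (sub_le_self _ (by positivity)))
  have P0 : 0 < ∏ p ∈ S, (1 + 1 / (p : ℝ)) := prod_pos fun p hp => by positivity
  have b1 : ∏ p ∈ S, (1 + uk s / (p : ℝ) + 8 ^ uk s / (p : ℝ) ^ 2) ≤
      (∏ p ∈ S, (1 + 1 / (p : ℝ))) ^ uk s * Real.exp 1 := by
    refine le_trans (b := ∏ p ∈ S, ((1 + 1 / (p : ℝ)) ^ uk s *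
      Real.exp (8 ^ uk s * ((p : ℝ) ^ 2)⁻¹))) (prod_le_prod (fun p _ => by positivity)
        fun p hp => ?_) ?_
    · have c1 := one_add_mul_le_pow (a := 1 / (p : ℝ)) (le_trans (by norm_num) (by positivity : (0 : ℝ) ≤ 1 / p)) (uk s)
      have c2 := Real.add_one_le_exp (8 ^ uk s * ((p : ℝ) ^ 2)⁻¹)
      have c3 : (0 : ℝ) ≤ uk s * (1 / (p : ℝ)) := by positivity
      have c4 : (0 : ℝ) ≤ 8 ^ uk s * ((p : ℝ) ^ 2)⁻¹ := by positivity
      refine le_trans ?_ (mul_le_mul c1 c2 (by positivity) (by positivity))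
      rw [div_eq_mul_one_div (uk s : ℝ), div_eq_mul_inv (8 ^ uk s : ℝ)]
      nlinarith [mul_nonneg c3 c4]
    · rw [prod_mul_distrib, prod_pow, ← Real.exp_sum, ← mul_sum]
      refine mul_le_mul_of_nonneg_left (Real.exp_le_exp.2 ?_) (by positivity)
      refine (mul_le_mul k2 sg (sum_nonneg fun _ _ => by positivity) a0.le).trans ?_
      rw [mul_inv_cancel₀ a0.ne']
  have b2 : (Real.exp (-(2 * s / uk s)) / ∏ p ∈ S, (1 + 1 / (p : ℝ))) ^ uk s *
      ((∏ p ∈ S, (1 + 1 / (p : ℝ))) ^ uk s * Real.exp 1) = Real.exp (-s) * Real.exp (-(s - 1)) := by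
    have : (uk s : ℝ) ≠ 0 := by exact_mod_cast k0
    rw [div_pow, ← mul_assoc, div_mul_cancel₀ _ (pow_pos P0 _).ne', ← Real.exp_nat_mul,
      ← Real.exp_add, ← Real.exp_add]
    congr 1
    field_simp
    ring
  have b3 : Real.exp (-(s - 1)) ≤ 1 / 20 := by
    rw [Real.exp_neg, ← one_div]
    exact one_div_le_one_div_of_le (by norm_num) (by linarith [Real.add_one_le_exp (s - 1)])
  have b4 : ∑ p ∈ S, 4 / (p : ℝ) ^ 2 ≤ Real.exp (-s) / 25 := by
    simp only [div_eq_mul_inv (4 : ℝ), ← mul_sum]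
    have := inv_anti₀ (by positivity) a1
    rw [mul_inv, ← Real.exp_neg] at this
    linarith
  have b5 := mul_le_mul_of_nonneg_left b1 (show 0 ≤ (Real.exp (-(2 * s / uk s)) /
    ∏ p ∈ S, (1 + 1 / (p : ℝ))) ^ uk s by positivity)
  have b6 := mul_le_mul_of_nonneg_left b3 (Real.exp_pos (-s)).le
  have := Real.exp_pos (-s)
  linarith

end Pool.Agent.MP_6c3157_co.LG
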