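import Pool.Agent.MP_6c3157_co.LG.SpecU

/-! Project LG: numerical facts on prime sums. -/

set_option autoImplicit false

noncomputable section

namespace Pool.Agent.MP_6c3157_co.LG

open Finset Filter

namespace Nump

theorem t1 : Tendsto l1 atTop atTop :=
  Real.tendsto_log_atTop.comp tendsto_natCast_atTop_atTop

theorem t2 : Tendsto l2 atTop atTop := Real.tendsto_log_atTop.comp t1

theorem small {s C₁ : ℝ}
    (h1 : ∀ y : ℕ, 2 ≤ y → Real.exp (∑ p ∈ pr 0 y, (1 : ℝ) / p) ≤ C₁ * Real.log y)
    (hs : 500 ≤ s) (hc : 2 * |C₁| ≤ s) : ∑ p ∈ pr 0 (ua s), (1 : ℝ) / p ≤ 2 * Real.log s := by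
  have hs0 : 0 < s := by linarith
  have he : s + 1 ≤ Real.exp s := Real.add_one_le_exp s
  have a1 : 100 * Real.exp s ≤ ua s := Nat.le_ceil _
  have a2 : (ua s : ℝ) ≤ 100 * Real.exp s + 1 := (Nat.ceil_lt_add_one (by positivity)).le
  have a3 : Real.log (ua s) ≤ 2 * s := by
    rw [Real.log_le_iff_le_exp (by linarith), two_mul, Real.exp_add]
    nlinarith
  have a4 : 0 ≤ Real.log (ua s) := Real.log_nonneg (by linarith)
  have a5 := h1 (ua s) (by exact_mod_cast (by linarith : (2 : ℝ) ≤ ua s))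
  rw [← Real.exp_le_exp, two_mul, Real.exp_add, Real.exp_log hs0]
  have a6 : C₁ * Real.log (ua s) ≤ |C₁| * (2 * s) :=
    mul_le_mul (le_abs_self _) a3 a4 (abs_nonneg _)
  nlinarith

end Nump

open Nump in
theorem nump : NUMP := by
  obtain ⟨C₁, h1⟩ := mer1
  obtain ⟨C₂, h0, h2⟩ := mer2
  refine ⟨Real.exp 96 + 2 * |C₁| + 500, ?_⟩
  filter_upwards [t1.eventually_ge_atTop 144, t2.eventually_ge_atTop 12000,
    t2.eventually_ge_atTop (4 * C₂), eventually_gt_atTop 0] with N hL hu hu' hN0
  intro s hs hs'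
  have hL0 : 0 < l1 N := by linarith
  have hu0 : 0 < l2 N := by linarith
  have ep := Real.exp_pos 96
  have ap := abs_nonneg C₁
  have hs0 : 0 < s := by linarith
  have hv : 96 ≤ Real.log s := by rw [Real.le_log_iff_exp_le hs0]; linarith
  have eu : Real.exp (l2 N) = l1 N := Real.exp_log hL0
  have he1 : 1 ≤ Real.exp s := Real.one_le_exp hs0.le
  have he2 : Real.exp s ≤ l1 N := eu ▸ Real.exp_le_exp.2 hs'
  have z1 : l1 N * Real.exp s ≤ uz N s := Nat.le_ceil _
  have z2 : (uz N s : ℝ) ≤ l1 N * Real.exp s + 1 := (Nat.ceil_lt_add_one (by positivity)).le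
  have z3 : l1 N ≤ uz N s := by nlinarith
  have lg : ∀ a : ℝ, l1 N ≤ a → l2 N ≤ Real.log a := fun a h => Real.log_le_log hL0 h
  refine ⟨fun a ha => ?_, ?_, ?_⟩
  · have ha' : l1 N ≤ a := z3.trans (by exact_mod_cast ha)
    have a2 : 2 ≤ a := by exact_mod_cast (by linarith : (2 : ℝ) ≤ a)
    have la := lg a ha'
    have := (abs_le.1 (h2 a (a ^ 2) a2 (Nat.le_self_pow (by omega) a))).2
    rw [Nat.cast_pow, Real.log_pow, mul_div_cancel_right₀ _ (by linarith)] at this
    have c : C₂ / Real.log a ≤ 1 / 4 := by rw [div_le_iff₀ (by linarith)]; linarith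
    push_cast at this
    linarith [Real.log_two_lt_d9]
  · have s0 := small h1 (s := s) (by linarith) (by linarith)
    have w1 : l1 N / 6 - 1 ≤ uw N := (Nat.sub_one_lt_floor _).le
    have w2 : (uw N : ℝ) ≤ l1 N / 6 := Nat.floor_le (by positivity)
    have w3 : l2 N / 2 ≤ Real.log (uw N) := by
      rw [Real.le_log_iff_exp_le (by linarith), Real.exp_half, eu]
      refine Real.sqrt_le_iff.2 ⟨by linarith, ?_⟩
      have : l1 N / 12 ≤ uw N := by linarith
      nlinarith
    have w4 : Real.log (uz N s) ≤ 3 * l2 N := by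
      rw [Real.log_le_iff_le_exp (by linarith), show 3 * l2 N = l2 N + l2 N + l2 N by ring,
        Real.exp_add, Real.exp_add, eu]
      nlinarith [mul_le_mul_of_nonneg_left he2 hL0.le]
    have s1 := (abs_le.1 (h2 (uw N) (uz N s) (by exact_mod_cast (by linarith : (2 : ℝ) ≤ uw N))
      (by exact_mod_cast (by linarith : (uw N : ℝ) ≤ uz N s)))).2
    have c1 : C₂ / Real.log (uw N) ≤ 1 := by rw [div_le_iff₀ (by linarith)]; linarith
    have c2 : Real.log (uz N s) / Real.log (uw N) ≤ 6 := by
      rw [div_le_iff₀ (by linarith)]; linarith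
    have c3 := Real.log_le_sub_one_of_pos (div_pos (a := Real.log (uz N s))
      (b := Real.log (uw N)) (by linarith [lg _ z3]) (by linarith))
    have hun : ∑ p ∈ pr 0 (ua s) ∪ pr (uw N) (uz N s), (1 : ℝ) / p ≤
        ∑ p ∈ pr 0 (ua s), (1 : ℝ) / p + ∑ p ∈ pr (uw N) (uz N s), (1 : ℝ) / p := by
      rw [← sum_union_inter]
      exact le_add_of_nonneg_right (sum_nonneg fun p _ => by positivity)
    have hS : ∑ p ∈ pr 0 (ua s) ∪ pr (uw N) (uz N s), (1 : ℝ) / p ≤ 5 * Real.log s := by linarith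
    generalize ∑ p ∈ pr 0 (ua s) ∪ pr (uw N) (uz N s), (1 : ℝ) / p = S at hS
    have es : √s = Real.exp (Real.log s / 2) := by rw [Real.exp_half, Real.exp_log hs0]
    have hst : Real.exp (6 * s) ≤ √s ^ ty s := by
      rw [es, ← Real.exp_nat_mul, Real.exp_le_exp]
      have : 12 * s / Real.log s ≤ ty s := Nat.le_ceil _
      rw [div_le_iff₀ (by linarith)] at this
      linarith
    have hsq : 10 * Real.log s ≤ √s := by
      have := Real.pow_div_factorial_le_exp (Real.log s / 2) (by linarith) 2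
      rw [← es] at this
      norm_num [Nat.factorial] at this
      nlinarith
    have hEx : Real.exp (2 * √s * S) ≤ Real.exp s := by
      rw [Real.exp_le_exp]
      have := Real.mul_self_sqrt hs0.le
      nlinarith [Real.sqrt_nonneg s]
    refine (div_le_div₀ (Real.exp_pos s).le hEx (Real.exp_pos _) hst).trans ?_
    rw [← Real.exp_sub, le_div_iff₀ (by norm_num), show -s = s - 6 * s + 4 * s by ring,
      Real.exp_add]
    exact mul_le_mul_of_nonneg_left (by linarith [Real.add_one_le_exp (4 * s)]) (Real.exp_pos _).le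
  · have hN : (0 : ℝ) < N := by exact_mod_cast hN0
    have hW : Real.log (2 * (N : ℝ) ^ 2) ≤ 3 * l1 N := by
      rw [Real.log_mul (by norm_num) (by positivity), Real.log_pow]
      push_cast
      unfold l1 at hL ⊢
      linarith [Real.log_two_lt_d9]
    have lz := lg _ z3
    have en : Real.exp (-s) * Real.exp s = 1 := by rw [← Real.exp_add]; simp
    have en0 := Real.exp_pos (-s)
    have en1 : Real.exp (-s) ≤ 1 := by nlinarith
    have hx : 2 * Real.log (2 * (N : ℝ) ^ 2) / (uz N s * Real.log (uz N s)) ≤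
        Real.exp (-s) / 2000 := by
      have d : l1 N * Real.exp s * 12000 ≤ uz N s * Real.log (uz N s) :=
        mul_le_mul z1 (by linarith) (by norm_num) (by linarith)
      rw [div_le_div_iff₀ (lt_of_lt_of_le (by positivity) d) (by norm_num)]
      have := mul_le_mul_of_nonneg_left d en0.le
      nlinarith
    have := Real.abs_exp_sub_one_le (x := Real.exp (-s) / 2000)
      (by rw [abs_of_pos (by positivity)]; linarith)
    rw [abs_of_pos (a := Real.exp (-s) / 2000) (by positivity)] at this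
    linarith [Real.exp_le_exp.2 hx, le_abs_self (Real.exp (Real.exp (-s) / 2000) - 1)]

end Pool.Agent.MP_6c3157_co.LG
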