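import Pool.Agent.MP_6c3157_co.LG.SpecU
import Pool.Agent.MP_6c3157_co.LG.Numc

/-! Project LG: numerical facts in the size parameter alone. -/

set_option autoImplicit false

noncomputable section

namespace Pool.Agent.MP_6c3157_co.LG

open Finset Filter Real

namespace Nums

theorem two_pow_le {n : ℕ} {x : ℝ} (h : (n : ℝ) ≤ x) : (2 : ℝ) ^ n ≤ exp x := by
  refine le_trans ?_ (exp_le_exp.2 h)
  rw [← mul_one (n : ℝ), exp_nat_mul]
  exact pow_le_pow_left₀ (by positivity) (by linarith [add_one_le_exp (1 : ℝ)]) _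

end Nums

theorem nums : NUMS := by
  intro C₁ hC
  refine ⟨16 * C₁ + 1480, ?_⟩
  filter_upwards [eventually_ge_atTop (exp 64), eventually_ge_atTop (2 ^ 41 * 2000 : ℝ)]
    with s s1 sb
  have s0 : 0 < s := (exp_pos _).trans_le s1
  have s2 : 65 ≤ s := by linarith [add_one_le_exp (64 : ℝ)]
  have h3 : 64 ≤ log s := (le_log_iff_exp_le s0).2 s1
  have l0 : 0 < log s := by linarith
  have e2 : exp (log s) = s := exp_log s0
  have r1 : 2 ≤ s / log s := by
    have a1 := Numc.root h3
    rw [e2] at a1
    have a2 : 1 ≤ exp (log s / 2) := one_le_exp (by linarith)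
    nlinarith
  have q3 : 3 ≤ √s := le_sqrt_of_sq_le (by linarith)
  have q4 : √s * √s = s := mul_self_sqrt s0.le
  refine ⟨q3, by linarith, ?_, ?_, fun j j1 j2 => ?_⟩
  · have b1 : 6 * s / log s ≤ (ub s : ℝ) := Nat.le_ceil _
    rw [div_le_iff₀ l0] at b1
    have b2 : exp (3 * s) ≤ √s ^ ub s := by
      have : √s = exp (log s / 2) := by
        rw [exp_half, e2]
      rw [this, ← exp_nat_mul, exp_le_exp]
      linarith
    have c : (2000 : ℝ) ≤ exp 8 := by
      rw [show (8 : ℝ) = (8 : ℕ) * 1 by simp, exp_nat_mul]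
      exact le_trans (by norm_num) (pow_le_pow_left₀ (by norm_num) exp_one_gt_d9.le 8)
    have b3 : exp 8 * exp (3 + 2 * √s) ≤ exp (-s) * exp (3 * s) := by
      rw [← exp_add, ← exp_add, exp_le_exp]
      nlinarith
    rw [div_le_div_iff₀ (by positivity) (by norm_num)]
    have b4 := mul_le_mul_of_nonneg_left b2 (exp_pos (-s)).le
    have b5 := mul_le_mul_of_nonneg_right c (exp_pos (3 + 2 * √s)).le
    linarith
  · have b1 : exp (8 * s) ≤ (uK s : ℝ) := Nat.le_ceil _
    have b2 : exp (2 * s) ≤ (uK s : ℝ) ^ (1 / 4 : ℝ) := by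
      refine le_trans (le_of_eq ?_) (rpow_le_rpow (exp_pos _).le b1 (by norm_num))
      rw [← exp_mul]
      congr 1
      ring
    have b3 : exp (-s) * exp (2 * s) = exp s := by
      rw [← exp_add]
      congr 1
      ring
    rw [div_le_div_iff₀ ((exp_pos _).trans_le b2) (by norm_num)]
    have b4 := mul_le_mul_of_nonneg_left b2 (exp_pos (-s)).le
    linarith [add_one_le_exp s]
  · have hj : (j : ℝ) ≤ exp (9 * s) := by
      have a1 := Nat.ceil_lt_add_one (exp_pos (8 * s)).le
      have a2 : (j : ℝ) ≤ (⌈exp (8 * s)⌉₊ : ℕ) := Nat.cast_le.2 j2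
      have a6 : 1 ≤ exp (8 * s) := one_le_exp (by linarith)
      have a7 : 2 ≤ exp s := by linarith [add_one_le_exp s]
      rw [show 9 * s = 8 * s + s by ring, exp_add]
      nlinarith
    have lj : log ((j ^ 2 : ℕ) : ℝ) ≤ 18 * exp (log s) := by
      have := (log_le_iff_le_exp (Nat.cast_pos.2 j1)).2 hj
      rw [Nat.cast_pow, log_pow, e2]
      push_cast
      linarith
    have d := Numc.tau h3 (by positivity) (by positivity) lj
    rw [e2] at d
    have t : (2 : ℝ) ^ ty s ≤ exp (12 * (s / log s) + 1) := by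
      refine Nums.two_pow_le ?_
      rw [ty, mul_div_assoc]
      exact (Nat.ceil_lt_add_one (by positivity)).le
    have u : (2 : ℝ) ^ (24 * (4 * ub s + 30)) ≤ exp (576 * (s / log s) + 816) := by
      refine Nums.two_pow_le ?_
      have : (ub s : ℝ) ≤ 6 * (s / log s) + 1 := by
        rw [ub, mul_div_assoc]
        exact (Nat.ceil_lt_add_one (by positivity)).le
      push_cast
      linarith
    have k : exp (2 * s / uk s) ≤ exp (2 * (s / log s)) := by
      rw [exp_le_exp, mul_div_assoc]
      have : log s ≤ (uk s : ℝ) := Nat.le_ceil _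
      exact mul_le_mul_of_nonneg_left (div_le_div_of_nonneg_left s0.le l0 this) (by norm_num)
    have c : 16 * C₁ ≤ exp (16 * C₁ * (s / log s)) := by
      have := add_one_le_exp (16 * C₁ * (s / log s))
      nlinarith
    refine (mul_le_mul (mul_le_mul (mul_le_mul (mul_le_mul c k (by positivity) (by positivity)) t
      (by positivity) (by positivity)) u (by positivity) (by positivity)) d (by positivity)
      (by positivity)).trans ?_
    rw [← exp_add, ← exp_add, ← exp_add, ← exp_add, exp_le_exp]
    linarith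

end Pool.Agent.MP_6c3157_co.LG
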