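import Pool.Agent.MP_6c3157_co.LG.SpecU

/-! Project LG: numerical facts on sizes. -/

set_option autoImplicit false

noncomputable section

namespace Pool.Agent.MP_6c3157_co.LG

open Finset Filter

namespace Numz

theorem scale (z e N : ℕ) (hz : 2 ≤ z) (he : 1 ≤ e) (h0 : (z ^ e) ^ 4 ≤ N) :
    ∃ I : ℕ, ((z ^ 2 ^ I) ^ e) ^ 4 ≤ N ∧ 2 * N ^ 2 < (z ^ 2 ^ I) ^ (24 * e) := by
  have ex : ∃ I : ℕ, N < ((z ^ 2 ^ I) ^ e) ^ 4 := by
    refine ⟨N, ?_⟩
    have a1 : N < 2 ^ N := Nat.lt_two_pow_self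
    have a2 : 2 ^ N < z ^ 2 ^ N := Nat.lt_pow_self (by omega)
    have a3 : z ^ 2 ^ N ≤ (z ^ 2 ^ N) ^ e := Nat.le_self_pow (by omega) _
    have a4 : (z ^ 2 ^ N) ^ e ≤ ((z ^ 2 ^ N) ^ e) ^ 4 := Nat.le_self_pow (by omega) _
    omega
  have h1 := Nat.find_spec ex
  have h2 : Nat.find ex ≠ 0 := fun k => by
    rw [k, pow_zero, pow_one] at h1
    omega
  obtain ⟨I, hI⟩ := Nat.exists_eq_succ_of_ne_zero h2
  refine ⟨I, not_lt.1 (Nat.find_min ex (by omega)), ?_⟩
  rw [hI, Nat.succ_eq_add_one, pow_succ 2 I, pow_mul z] at h1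
  generalize z ^ 2 ^ I = w at h1 ⊢
  have e1 : w ^ (24 * e) = (((w ^ 2) ^ e) ^ 4) ^ 3 := by
    rw [← pow_mul, ← pow_mul, ← pow_mul]
    congr 1
    ring
  rw [e1]
  have a := Nat.pow_le_pow_left (Nat.succ_le_of_lt h1) 3
  refine lt_of_lt_of_le ?_ a
  rw [Nat.succ_eq_add_one]
  nlinarith [Nat.zero_le (N ^ 3), Nat.zero_le N, Nat.zero_le (N ^ 2)]

end Numz

theorem numz : NUMZ := by
  intro C₁ hC
  have hT : Tendsto l1 atTop atTop := Real.tendsto_log_atTop.comp tendsto_natCast_atTop_atTop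
  have hT2 : Tendsto l2 atTop atTop := Real.tendsto_log_atTop.comp hT
  refine ⟨Real.exp 2, ?_⟩
  filter_upwards [eventually_ge_atTop 3, hT.eventually_ge_atTop 2000,
    hT.eventually_ge_atTop (C₁ ^ 2), hT2.eventually_ge_atTop 10000] with N h3 hL h4 hM
  have hN0 : (0 : ℝ) < N := by exact_mod_cast (by omega : 0 < N)
  have hN : Real.exp (l1 N) = N := Real.exp_log hN0
  have hl2 : Real.exp (l2 N) = l1 N := Real.exp_log (by unfold l1 at hL; linarith)
  have hr : ∀ c : ℝ, (N : ℝ) ^ c = Real.exp (l1 N * c) := fun c => Real.rpow_def_of_pos hN0 c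
  have hw : (uw N : ℝ) ≤ l1 N / 6 := Nat.floor_le (by linarith)
  have hz0 : ∀ s, l1 N * Real.exp s ≤ uz N s := fun s => Nat.le_ceil _
  have hz1 : ∀ s, (uz N s : ℝ) < l1 N * Real.exp s + 1 := fun s =>
    Nat.ceil_lt_add_one (mul_nonneg (by linarith) (Real.exp_pos _).le)
  have hau : ∀ s, ua s ≤ uz N s := fun s =>
    Nat.ceil_mono (mul_le_mul_of_nonneg_right (by linarith) (Real.exp_pos _).le)
  rw [hr, hr]
  generalize l2 N = M at hM hl2 ⊢
  generalize l1 N = L at *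
  have hc : M ^ 3 / 6 ≤ L := by
    have := Real.pow_div_factorial_le_exp M (by linarith) 3
    rw [hl2] at this
    simpa [Nat.factorial] using this
  have hM2 : 1000 * M ^ 2 ≤ L := by nlinarith [sq_nonneg M]
  have hMM : 100 * M ≤ M ^ 2 := by nlinarith
  have hp : ∀ k : ℕ, L ^ k = Real.exp (k * M) := fun k => by rw [Real.exp_nat_mul, hl2]
  refine ⟨hL, ?_, ?_, fun s s1 s2 => ?_⟩
  · have a : (((4 ^ uw N) ^ 4 : ℕ) : ℝ) = Real.exp ((uw N * 8 : ℕ) * Real.log 2) := by
      rw [Real.exp_nat_mul, Real.exp_log two_pos, mul_comm, show 8 * uw N = 2 * (uw N * 4) by ring,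
        pow_mul, ← pow_mul 4]
      push_cast
      norm_num
    have b : (((4 ^ uw N) ^ 4 : ℕ) : ℝ) ≤ N := by
      rw [a, ← hN]
      refine Real.exp_le_exp.2 ?_
      have := Real.log_two_lt_d9
      have : (0 : ℝ) ≤ uw N := Nat.cast_nonneg _
      push_cast
      nlinarith
    exact_mod_cast b
  · have a : (10 : ℝ) ^ 6 ≤ L ^ 2 := by nlinarith
    calc (10 : ℝ) ^ 6 * L ^ 13 ≤ L ^ 2 * L ^ 13 :=
          mul_le_mul_of_nonneg_right a (by positivity)
      _ = Real.exp ((15 : ℕ) * M) := by rw [← hp]; ring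
      _ ≤ _ := Real.exp_le_exp.2 (by push_cast; linarith)
  have e2 : (3 : ℝ) ≤ Real.exp 2 := by linarith [Real.add_one_le_exp (2 : ℝ)]
  have s0 : 0 < s := by linarith
  have lg : 2 ≤ Real.log s := (Real.le_log_iff_exp_le s0).2 s1
  have hS1 : 1 ≤ Real.exp s := Real.one_le_exp s0.le
  have hSL : Real.exp s ≤ L := hl2 ▸ Real.exp_le_exp.2 s2
  have a4 : 4 ≤ ua s := by
    have : 100 * Real.exp s ≤ ua s := Nat.le_ceil _
    have : (4 : ℝ) ≤ ua s := by linarith
    exact_mod_cast this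
  have z3 : (uz N s : ℝ) ≤ Real.exp (3 * M) := by
    have a := hz1 s
    have b : L * Real.exp s ≤ L * L := mul_le_mul_of_nonneg_left hSL (by linarith)
    have c := hp 3
    push_cast at c
    rw [← c]
    nlinarith [mul_pos (show (0 : ℝ) < L by linarith) (show (0 : ℝ) < L by linarith)]
  have zp : ∀ k : ℕ, (uz N s : ℝ) ^ k ≤ Real.exp (k * (3 * M)) := fun k => by
    rw [Real.exp_nat_mul]
    exact pow_le_pow_left₀ (Nat.cast_nonneg _) z3 k
  have dv : ∀ c : ℝ, 0 ≤ c → (⌈c * s / Real.log s⌉₊ : ℝ) ≤ c * M / 2 + 1 := fun c hc => by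
    have a : c * s / Real.log s ≤ c * M / 2 :=
      div_le_div₀ (by positivity) (mul_le_mul_of_nonneg_left s2 hc) two_pos lg
    have b := Nat.ceil_lt_add_one (show 0 ≤ c * s / Real.log s by positivity)
    linarith
  refine ⟨a4, hau s, ?_, ?_, ?_, ?_⟩
  · have a := hz0 s
    have : (uw N : ℝ) ≤ uz N s := by nlinarith
    exact_mod_cast this
  · have a : Real.log s ≤ uk s := Nat.le_ceil _
    have b : 2 * s / uk s ≤ s := by
      rw [div_le_iff₀ (by linarith)]
      nlinarith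
    have c : Real.exp (2 * s / uk s) ≤ L := (Real.exp_le_exp.2 b).trans hSL
    have d : C₁ ≤ √L := Real.le_sqrt_of_sq_le h4
    have e : √L * √L = L := Real.mul_self_sqrt (by linarith)
    calc C₁ * √L * Real.exp (2 * s / uk s) ≤ √L * √L * L :=
          mul_le_mul (mul_le_mul_of_nonneg_right d (Real.sqrt_nonneg _)) c (Real.exp_pos _).le
            (by positivity)
      _ = L ^ 2 := by rw [e]; ring
  · have a : (uK s : ℝ) < Real.exp (8 * s) + 1 := Nat.ceil_lt_add_one (Real.exp_pos _).le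
    have b : Real.exp (8 * s) ≤ Real.exp (8 * M) := Real.exp_le_exp.2 (by linarith)
    have c : Real.exp (9 * M) = Real.exp (8 * M) * L := by
      rw [← hl2, ← Real.exp_add]
      congr 1
      ring
    have d : 1 ≤ Real.exp (8 * M) := Real.one_le_exp (by linarith)
    have k9 : (uK s : ℝ) ≤ Real.exp (9 * M) := by nlinarith
    have f1 : ((uK s : ℝ) * uz N s) ^ 3 ≤ Real.exp (L / 16) := by
      refine (pow_le_pow_left₀ (by positivity)
        (mul_le_mul k9 z3 (Nat.cast_nonneg _) (Real.exp_pos _).le) 3).trans ?_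
      rw [← Real.exp_add, ← Real.exp_nat_mul]
      exact Real.exp_le_exp.2 (by push_cast; linarith)
    have f2 : (uz N s : ℝ) ^ (2 * ty s) ≤ Real.exp (L / 16) := by
      refine (zp _).trans (Real.exp_le_exp.2 ?_)
      have t : (ty s : ℝ) ≤ 12 * M / 2 + 1 := dv 12 (by norm_num)
      push_cast
      nlinarith
    have f3 : Real.exp (L * (1 / 8)) = Real.exp (L / 16) * Real.exp (L / 16) := by
      rw [← Real.exp_add]
      congr 1
      ring
    have f4 : 2 ≤ Real.exp (L / 16) := by linarith [Real.add_one_le_exp (L / 16)]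
    rw [f3]
    nlinarith
  · refine Numz.scale _ _ _ (by have := hau s; omega) (by omega) ?_
    have a : (((uz N s ^ (4 * ub s + 30)) ^ 4 : ℕ) : ℝ) ≤ N := by
      rw [← pow_mul, Nat.cast_pow, ← hN]
      refine (zp _).trans (Real.exp_le_exp.2 ?_)
      have t : (ub s : ℝ) ≤ 6 * M / 2 + 1 := dv 6 (by norm_num)
      push_cast
      nlinarith
    exact_mod_cast a

end Pool.Agent.MP_6c3157_co.LG
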