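import Pool.Agent.MP_6c3157_co.LG.SpecU
import Pool.Agent.MP_6c3157_co.LG.Phi

/-! Project LG, row PHIU: the product over the primes that are one modulo four. -/

set_option autoImplicit false

noncomputable section

namespace Pool.Agent.MP_6c3157_co.LG

open Finset Filter Pool.Agent.MP_ddf486_co Pool.Agent.MP_a43263_nt.R2

namespace Phiu

theorem low (P : Finset ℕ) (Y : ℕ) (h : ∀ p ∈ P, p.Prime ∧ p % 4 = 1) :
    ∑ S ∈ P.powerset.filter (fun S => ∏ p ∈ S, p ≤ Y), ∏ p ∈ S, 1 / (p : ℝ) ≤ Grid.hs Y := by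
  have e : ∀ S : Finset ℕ, ∏ p ∈ S, 1 / (p : ℝ) = 1 / ((∏ p ∈ S, p : ℕ) : ℝ) := fun S => by
    simp
  have hs : ∀ S ∈ P.powerset.filter (fun S => ∏ p ∈ S, p ≤ Y), ∀ p ∈ S,
      p.Prime ∧ p % 4 = 1 := fun S hS p hp =>
    h p (mem_powerset.1 (mem_filter.1 hS).1 hp)
  simp only [e]
  rw [← sum_image (g := fun S : Finset ℕ => ∏ p ∈ S, p) (f := fun t : ℕ => 1 / (t : ℝ))
    fun S hS T hT q => by
      rw [← Nat.primeFactors_prod fun p hp => (hs S hS p hp).1,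
        ← Nat.primeFactors_prod fun p hp => (hs T hT p hp).1]
      exact congrArg _ q]
  refine sum_le_sum_of_subset_of_nonneg (fun t ht => ?_) fun _ _ _ => by positivity
  obtain ⟨S, hS, rfl⟩ := mem_image.1 ht
  refine Grid.mem_splSet.2 ⟨⟨prod_pos fun p hp => (hs S hS p hp).1.pos, (mem_filter.1 hS).2⟩,
    fun q hq hd => ?_⟩
  obtain ⟨p, hp, hd⟩ := (hq.prime.dvd_finsetProd_iff _).1 hd
  rw [(Nat.prime_dvd_prime_iff_eq hq (hs S hS p hp).1).1 hd]
  exact (hs S hS p hp).2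

theorem up : ∃ c : ℕ, ∀ (z : ℕ) (Q : Finset ℕ), 3 ≤ z → Q ⊆ pr1 0 z →
    ∏ p ∈ Q, (1 + 1 / (p : ℝ)) ≤ 2 * (√(1 + 2 * c) * √(Real.log z)) := by
  obtain ⟨C, h0, hC⟩ := Mer.err_le
  obtain ⟨c, hc⟩ := exists_nat_ge (2 * (1 + C))
  refine ⟨c, fun z Q hz hQ => ?_⟩
  have hP : ∀ p ∈ Q, p.Prime ∧ p % 4 = 1 := fun p hp =>
    ⟨(mem_pr.1 (mem_filter.1 (hQ hp)).1).2, (mem_filter.1 (hQ hp)).2⟩
  have hl : 1 ≤ Real.log z := by
    rw [Real.le_log_iff_exp_le (by positivity)]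
    have : (3 : ℝ) ≤ z := by exact_mod_cast hz
    linarith [Real.exp_one_lt_d9]
  have hc0 : (0 : ℝ) < c := by linarith
  have a1 := low Q (z ^ c) hP
  have a2 : Grid.hs (z ^ c) ≤ √(1 + 2 * c) * √(Real.log z) := by
    have := Grid.hs_sq (z ^ c)
    rw [Nat.cast_pow, Real.log_pow] at this
    rw [← Real.sqrt_mul (by positivity)]
    exact Real.le_sqrt_of_sq_le (by linarith)
  have a3 := Mer.first (fun p => 1 / (p : ℝ)) (fun p => Real.log p) Q fun _ _ => by positivity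
  have a4 : ∑ p ∈ Q, Real.log p * (1 / (p : ℝ) / (1 + 1 / (p : ℝ))) ≤ c / 2 * Real.log z := by
    have b1 := (abs_le.1 (hC z (by omega))).2
    have b2 : ∑ p ∈ Q, Real.log p * (1 / (p : ℝ) / (1 + 1 / (p : ℝ))) ≤
        ∑ p ∈ pr 0 z, Real.log p / p := by
      refine (sum_le_sum fun p _ => ?_).trans (sum_le_sum_of_subset_of_nonneg
        (hQ.trans (filter_subset _ _)) fun p _ _ =>
          div_nonneg (Real.log_natCast_nonneg p) (by positivity))
      rw [← mul_one_div (Real.log p)]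
      exact mul_le_mul_of_nonneg_left (div_le_self (by positivity)
        (le_add_of_nonneg_right (by positivity))) (Real.log_natCast_nonneg p)
    have b3 : ∑ p ∈ pr 0 z, Real.log p / p - Real.log z ≤ C := b1
    nlinarith
  have a5 : c * Real.log z * ∏ p ∈ Q, (1 + 1 / (p : ℝ)) ≤
      c * Real.log z * ∑ S ∈ Q.powerset.filter (fun S => ∏ p ∈ S, p ≤ z ^ c),
        ∏ p ∈ S, 1 / (p : ℝ) + ∑ A ∈ Q.powerset, (∑ q ∈ A, Real.log q) * ∏ q ∈ A, 1 / (q : ℝ) := by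
    rw [prod_one_add, sum_filter, mul_sum, mul_sum, ← sum_add_distrib]
    refine sum_le_sum fun A hA => ?_
    have b0 : 0 ≤ ∏ q ∈ A, 1 / (q : ℝ) := prod_nonneg fun _ _ => by positivity
    split_ifs with q
    · exact le_add_of_nonneg_right
        (mul_nonneg (sum_nonneg fun q _ => Real.log_natCast_nonneg q) b0)
    · rw [mul_zero, zero_add, ← Real.log_prod fun p hp => by
        exact_mod_cast (hP p (mem_powerset.1 hA hp)).1.ne_zero, ← Real.log_pow]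
      refine mul_le_mul_of_nonneg_right (Real.log_le_log (by positivity) ?_) b0
      rw [← Nat.cast_prod, ← Nat.cast_pow]
      exact Nat.cast_le.2 (not_le.1 q).le
  have a6 : 0 ≤ ∏ p ∈ Q, (1 + 1 / (p : ℝ)) := prod_nonneg fun _ _ => by positivity
  have a7 := mul_le_mul_of_nonneg_right a4 a6
  have a8 := mul_le_mul_of_nonneg_left (a1.trans a2) (by positivity : 0 ≤ c * Real.log z)
  refine le_of_mul_le_mul_left ?_ (by positivity : 0 < c * Real.log z)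
  linarith

end Phiu

theorem phiu : PHIU := by
  obtain ⟨c, h⟩ := Phiu.up
  refine ⟨4 * √(1 + 2 * c), ?_, fun z S P hz hS hP hd => ?_⟩
  · have : 1 ≤ √(1 + 2 * (c : ℝ)) := Real.one_le_sqrt.2 (le_add_of_nonneg_right (by positivity))
    linarith
  have a1 := h z (S ∪ P) hz (union_subset hS hP)
  rw [prod_union hd] at a1
  have hm : ∀ p ∈ P, p ∈ Ioc 2 (2 + z) := fun p hp => by
    have b1 := mem_filter.1 (hP hp)
    have b2 := mem_pr.1 b1.1
    have := b2.2.two_le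
    exact mem_Ioc.2 (by omega)
  have h1 : ∀ p ∈ P, (1 : ℝ) ≤ p := fun p hp => by
    exact_mod_cast (by have := (mem_Ioc.1 (hm p hp)).1; omega : 1 ≤ p)
  have a4 := Phi.wei P (fun p => ((p : ℝ) ^ 2)⁻¹) fun p hp =>
    ⟨by positivity, inv_le_one_of_one_le₀ (one_le_pow₀ (h1 p hp))⟩
  have a5 : ∑ p ∈ P, ((p : ℝ) ^ 2)⁻¹ ≤ 1 / 2 := by
    refine (sum_le_sum_of_subset_of_nonneg hm fun _ _ _ => by positivity).trans
      ((sum_Ioc_inv_sq_le_sub (by omega) (Nat.le_add_right _ _)).trans ?_)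
    have e2 : (0 : ℝ) ≤ ((2 + z : ℕ) : ℝ)⁻¹ := by positivity
    norm_num at e2 ⊢
    linarith
  have a6 : ∏ p ∈ P, (1 - ((p : ℝ) ^ 2)⁻¹) =
      (∏ p ∈ P, (1 + 1 / (p : ℝ))) * ∏ p ∈ P, (1 - 1 / (p : ℝ)) := by
    rw [← prod_mul_distrib]
    exact prod_congr rfl fun _ _ => by ring
  have a7 : 0 ≤ ∏ p ∈ P, (1 - 1 / (p : ℝ)) := prod_nonneg fun p hp =>
    sub_nonneg.2 ((div_le_one (one_pos.trans_le (h1 p hp))).2 (h1 p hp))
  have a8 := mul_le_mul_of_nonneg_right a1 a7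
  have a9 : 0 ≤ ∏ p ∈ S, (1 + 1 / (p : ℝ)) := prod_nonneg fun _ _ => by positivity
  have b1 := mul_le_mul_of_nonneg_left (show 1 / 2 ≤ (∏ p ∈ P, (1 + 1 / (p : ℝ))) *
    ∏ p ∈ P, (1 - 1 / (p : ℝ)) by linarith) a9
  linarith

end Pool.Agent.MP_6c3157_co.LG
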