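import Pool.Agent.MP_6c3157_co.LG.SpecU

/-! Project LG, row VARU: the second moment of the sifted sets. -/

set_option autoImplicit false

noncomputable section

namespace Pool.Agent.MP_6c3157_co.LG

open Finset

namespace Varu

theorem ind_mem (φ : Prop) : 0 ≤ ind φ ∧ ind φ ≤ 1 := by
  unfold ind
  split_ifs <;> norm_num

theorem fs_mem (P : Finset ℕ) (x y : ℕ × ℕ) : 0 ≤ fs P x y ∧ fs P x y ≤ 1 := by
  have h : ∀ p ∈ P, 0 ≤ 1 - ind (Dv p 1 x y) := fun p _ => sub_nonneg.2 (ind_mem _).2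
  exact ⟨prod_nonneg h, prod_le_one h fun p _ => sub_le_self _ (ind_mem _).1⟩

theorem card_box (N : ℕ) : ((box N).card : ℝ) = (N : ℝ) ^ 2 := by
  rw [box, card_product, card_range]
  push_cast
  ring

theorem sq_sum {Z Y : Finset (ℕ × ℕ)} (h : Z ⊆ Y) (f : ℕ × ℕ → ℝ) :
    (∑ y ∈ Z, f y) ^ 2 = ∑ y ∈ Y, ∑ y' ∈ Y, ind (y ∈ Z ∧ y' ∈ Z) * (f y * f y') := by
  have e : ∑ y ∈ Z, f y = ∑ y ∈ Y, if y ∈ Z then f y else 0 := by
    rw [sum_ite_mem, inter_eq_right.2 h]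
  rw [e, sq, sum_mul_sum]
  refine sum_congr rfl fun y _ => sum_congr rfl fun y' _ => ?_
  by_cases h1 : y ∈ Z <;> by_cases h2 : y' ∈ Z <;> simp [ind, h1, h2]

end Varu

open Varu in
theorem varu (h : COVU) : VARU := by
  intro P z N d n₀ θ R γ Y Z hz h0 h1 hR hγ hP hS hE hd hc hY hZ hZ'
  have hp : ∀ p ∈ P, 0 ≤ 1 - 1 / (p : ℝ) := fun p hp => by
    have : (1 : ℝ) ≤ p := by exact_mod_cast (hP p hp).1.one_le
    exact sub_nonneg.2 ((div_le_one (by linarith)).2 this)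
  have ha : 0 ≤ ∏ p ∈ P, (1 - 1 / (p : ℝ)) := prod_nonneg hp
  have ha' : ∏ p ∈ P, (1 - 1 / (p : ℝ)) ≤ 1 :=
    prod_le_one hp fun p _ => sub_le_self _ (by positivity)
  have hcov := fun H => h P z N d θ R γ H hz h0 h1 hR hP hS hE hd hc
  generalize ∏ p ∈ P, (1 - 1 / (p : ℝ)) = a at *
  have s1 : (((box N).filter fun x => (Z x).card = n₀ ∧ ∑ y ∈ Z x, fs P x y < n₀ * a / 2).card : ℝ)
      * (n₀ * a / 2) ^ 2 ≤ ∑ x ∈ box N, (∑ y ∈ Z x, (fs P x y - a)) ^ 2 := by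
    rw [← nsmul_eq_mul]
    refine (card_nsmul_le_sum _ (fun x => (∑ y ∈ Z x, (fs P x y - a)) ^ 2) _ fun x hx => ?_).trans
      (sum_le_sum_of_subset_of_nonneg (filter_subset _ _) fun _ _ _ => sq_nonneg _)
    obtain ⟨a1, a2⟩ := (mem_filter.1 hx).2
    rw [← neg_sq (∑ y ∈ Z x, (fs P x y - a)), sum_sub_distrib, sum_const, a1, nsmul_eq_mul]
    exact pow_le_pow_left₀ (by positivity) (by linarith) 2
  refine s1.trans ?_
  rw [sum_congr rfl fun x _ => sq_sum (hZ' x).1 fun y => fs P x y - a, sum_comm]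
  have s2 : ∀ y ∈ Y, ∀ y' ∈ Y,
      ∑ x ∈ box N, ind (y ∈ Z x ∧ y' ∈ Z x) * ((fs P x y - a) * (fs P x y' - a)) ≤
        N ^ 2 * a ^ 2 * (2 * γ + 3 * θ) * av2 d (fun x => ind (y ∈ Z x ∧ y' ∈ Z x)) +
          (3 * d * R + 3 * d * N) + if y = y' then (N : ℝ) ^ 2 else 0 := by
    intro y hy y' hy'
    split_ifs with e
    · have av : 0 ≤ av2 d fun x => ind (y ∈ Z x ∧ y' ∈ Z x) :=
        div_nonneg (sum_nonneg fun x _ => (ind_mem _).1) (by positivity)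
      refine le_trans ?_ (le_add_of_nonneg_left (by positivity))
      refine (sum_le_card_nsmul _ _ 1 fun x _ => ?_).trans (by rw [nsmul_one, card_box])
      obtain ⟨a1, a2⟩ := fs_mem P x y
      obtain ⟨a3, a4⟩ := fs_mem P x y'
      obtain ⟨a5, a6⟩ := ind_mem (y ∈ Z x ∧ y' ∈ Z x)
      refine (le_abs_self _).trans ?_
      rw [abs_mul, abs_mul]
      exact mul_le_one₀ (abs_le.2 ⟨by linarith, a6⟩) (by positivity)
        (mul_le_one₀ (abs_le.2 ⟨by linarith, by linarith⟩) (abs_nonneg _)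
          (abs_le.2 ⟨by linarith, by linarith⟩))
    · have := hcov (fun x => ind (y ∈ Z x ∧ y' ∈ Z x))
        (fun x => ⟨by simp only [(hZ x).1], by simp only [(hZ x).2]⟩) (fun x => ind_mem _)
        y (hY hy) y' (hY hy') e
      linarith
  have s3 : ∑ y ∈ Y, ∑ y' ∈ Y, av2 d (fun x => ind (y ∈ Z x ∧ y' ∈ Z x)) ≤ (n₀ : ℝ) ^ 2 := by
    have hd' : (0 : ℝ) < (d : ℝ) ^ 2 := by positivity
    simp only [av2, ← sum_div]
    rw [div_le_iff₀ hd', sum_congr rfl fun y _ => sum_comm, sum_comm, ← card_box d, mul_comm,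
      ← nsmul_eq_mul]
    refine sum_le_card_nsmul _ _ _ fun x _ => ?_
    have := sq_sum (hZ' x).1 fun _ => 1
    simp only [mul_one, sum_const, nsmul_one] at this
    rw [← this]
    exact pow_le_pow_left₀ (by positivity) (by exact_mod_cast (hZ' x).2) 2
  rw [sum_congr rfl fun y _ => sum_comm]
  refine (sum_le_sum fun y hy => sum_le_sum fun y' hy' => s2 y hy y' hy').trans ?_
  have s4 : ∑ y ∈ Y, ∑ y' ∈ Y, (if y = y' then (N : ℝ) ^ 2 else 0) = Y.card * N ^ 2 := by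
    rw [sum_congr rfl fun y hy => by rw [sum_ite_eq, if_pos hy], sum_const, nsmul_eq_mul]
  simp only [sum_add_distrib, s4]
  simp only [sum_const, nsmul_eq_mul, ← mul_sum]
  have s5 := mul_le_mul_of_nonneg_left s3
    (by positivity : 0 ≤ (N : ℝ) ^ 2 * a ^ 2 * (2 * γ + 3 * θ))
  nlinarith

end Pool.Agent.MP_6c3157_co.LG
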