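import Pool.Agent.MP_6c3157_co.LG.All
import Pool.Agent.MP_6c3157_co.LG.GridU
import Pool.Agent.MP_6c3157_co.LG.Mean
import Pool.Agent.MP_6c3157_co.LG.Crt
import Pool.Agent.MP_6c3157_co.LG.Lin
import Pool.Agent.MP_6c3157_co.LG.Inner
import Pool.Agent.MP_6c3157_co.LG.Fl
import Pool.Agent.MP_6c3157_co.LG.Mart
import Pool.Agent.MP_6c3157_co.LG.Covu
import Pool.Agent.MP_6c3157_co.LG.Varu
import Pool.Agent.MP_6c3157_co.LG.Beta1
import Pool.Agent.MP_6c3157_co.LG.Beta2
import Pool.Agent.MP_6c3157_co.LG.Beta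
import Pool.Agent.MP_6c3157_co.LG.Badu
import Pool.Agent.MP_6c3157_co.LG.Fib
import Pool.Agent.MP_6c3157_co.LG.Mult
import Pool.Agent.MP_6c3157_co.LG.Phiu
import Pool.Agent.MP_6c3157_co.LG.Nums
import Pool.Agent.MP_6c3157_co.LG.Numf
import Pool.Agent.MP_6c3157_co.LG.Nump
import Pool.Agent.MP_6c3157_co.LG.Numz
import Pool.Agent.MP_6c3157_co.LG.Eucu

/-! Project LG: assembly, all sizes of the exceptional set. -/

set_option autoImplicit false

namespace Pool.Agent.MP_6c3157_co.LG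

theorem all_gridu : GRIDU :=
  gridu mean (fl mean (inner crt)) (mart crt lin) (varu (covu lin mean))
    (beta (beta1 rtwo) (beta2 crt)) (badu crt lin (beta1 rtwo)) fib_s mult phiu small nums numf
    nump numz

theorem all_mainu : MAINU := eucu all_grid2 all_gridu

end Pool.Agent.MP_6c3157_co.LG
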