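import Pool.Agent.MP_6c3157_co.LG.SpecU
import Pool.Agent.MP_6c3157_co.LG.Dsum

/-! Project LG: the total density and size of the forbidden divisors. -/

set_option autoImplicit false

noncomputable section

namespace Pool.Agent.MP_6c3157_co.LG

open Finset

namespace Beta

theorem split (T : Finset ℕ) (K z t : ℕ) (f : ℕ → ℝ) (hf : ∀ q, 0 ≤ f q) :
    ∑ q ∈ ev T K z t, f q ≤
      ∑ j ∈ Ioc K (K * z), f (j ^ 2) + ∑ S ∈ T.powersetCard t, f (∏ p ∈ S, p) := by
  unfold ev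
  refine le_trans (le_add_of_nonneg_right (sum_nonneg fun q _ => hf q))
    (sum_union_inter.le.trans (add_le_add ?_ (sum_image_le_of_nonneg fun q _ => hf q)))
  exact (sum_image_le_of_nonneg fun q _ => hf q).trans
    (sum_le_sum_of_subset_of_nonneg (filter_subset _ _) fun q _ _ => hf _)

theorem rt (j : ℕ) : ((j : ℝ) ^ (1 / 4 : ℝ)) ^ 4 = j := by
  rw [← Real.rpow_natCast, ← Real.rpow_mul (Nat.cast_nonneg j)]; norm_num

theorem rt1 {j : ℕ} (hj : 1 ≤ j) : 1 ≤ (j : ℝ) ^ (1 / 4 : ℝ) :=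
  Real.one_le_rpow (by exact_mod_cast hj) (by norm_num)

theorem term {j : ℕ} (hj : 1 ≤ j) :
    9 * ((j ^ 2).divisors.card : ℝ) * (1 + Real.log (2 * ((j ^ 2 : ℕ) : ℝ))) / ((j ^ 2 : ℕ) : ℝ) ≤
      72 * 2 ^ 32 * (1 / ((j : ℝ) ^ (1 / 4 : ℝ)) ^ 5) := by
  have h1 := rt1 hj
  have h2 := rt j
  have h3 := Dsum.tau_sq j
  generalize (j : ℝ) ^ (1 / 4 : ℝ) = u at h1 h2
  have u0 : 0 < u := by linarith
  have e : ((j ^ 2 : ℕ) : ℝ) = u ^ 8 := by push_cast; rw [← h2]; ring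
  have s : √(j : ℝ) = u ^ 2 := by
    rw [← h2, show u ^ 4 = (u ^ 2) ^ 2 by ring, Real.sqrt_sq (by positivity)]
  have l0 : 0 ≤ Real.log (2 * u ^ 8) := Real.log_nonneg (by linarith [one_le_pow₀ (n := 8) h1])
  have l : 1 + Real.log (2 * u ^ 8) ≤ 8 * u := by
    rw [Real.log_mul (by norm_num) (by positivity), Real.log_pow]
    have a := Real.log_le_sub_one_of_pos u0
    have b := Real.log_le_sub_one_of_pos (show (0 : ℝ) < 2 by norm_num)
    push_cast
    linarith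
  rw [s] at h3
  rw [e]
  calc _ ≤ 9 * (2 ^ 32 * u ^ 2) * (8 * u) / u ^ 8 := by gcongr
    _ = _ := by field_simp; norm_num

theorem tele {K : ℕ} (hK : 1 ≤ K) (X : ℕ) (hX : K ≤ X) :
    ∑ j ∈ Ioc K X, 1 / ((j : ℝ) ^ (1 / 4 : ℝ)) ^ 5 ≤
      4 / (K : ℝ) ^ (1 / 4 : ℝ) - 4 / (X : ℝ) ^ (1 / 4 : ℝ) := by
  induction X, hX using Nat.le_induction with
  | base => simp
  | succ X hX ih =>
    rw [sum_Ioc_succ_top hX]
    have a1 := rt1 (hK.trans hX)
    have a2 := rt X
    have b2 := rt (X + 1)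
    have ab : (X : ℝ) ^ (1 / 4 : ℝ) ≤ ((X + 1 : ℕ) : ℝ) ^ (1 / 4 : ℝ) :=
      Real.rpow_le_rpow (Nat.cast_nonneg _) (by exact_mod_cast X.le_succ) (by norm_num)
    generalize (X : ℝ) ^ (1 / 4 : ℝ) = a at *
    generalize ((X + 1 : ℕ) : ℝ) ^ (1 / 4 : ℝ) = b at *
    have a0 : 0 < a := by linarith
    have b0 : 0 < b := by linarith
    have e : (b - a) * (b ^ 3 + b ^ 2 * a + b * a ^ 2 + a ^ 3) = 1 := by
      push_cast at b2; linear_combination b2 - a2
    have f : (b - a) * (b ^ 3 + b ^ 2 * a + b * a ^ 2 + a ^ 3) ≤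
        (b - a) * (b ^ 3 + b ^ 2 * b + b * b ^ 2 + b ^ 3) := by gcongr
    rw [e] at f
    have g : 1 / b ^ 5 ≤ 4 / a - 4 / b := by
      rw [div_sub_div _ _ a0.ne' b0.ne', div_le_div_iff₀ (by positivity) (by positivity)]
      calc 1 * (a * b) ≤ (b - a) * (b ^ 3 + b ^ 2 * b + b * b ^ 2 + b ^ 3) * (b * b) :=
            mul_le_mul f (by gcongr) (by positivity) (zero_le_one.trans f)
        _ = _ := by ring
    linarith

theorem prs (T : Finset ℕ) (t : ℕ) (lam : ℝ) (hl : 1 ≤ lam) :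
    ∑ S ∈ powersetCard t T, ∏ p ∈ S, 2 / (p : ℝ) ≤
      Real.exp (2 * lam * ∑ p ∈ T, (1 : ℝ) / p) / lam ^ t := by
  have hl0 : 0 < lam := by linarith
  rw [le_div_iff₀ (by positivity), sum_mul]
  have h1 : ∀ S ∈ powersetCard t T,
      (∏ p ∈ S, 2 / (p : ℝ)) * lam ^ t = ∏ p ∈ S, (2 * lam * (1 / (p : ℝ))) := by
    intro S hS
    rw [← (mem_powersetCard.1 hS).2, ← prod_const, ← prod_mul_distrib]
    exact prod_congr rfl fun p _ => by ring
  rw [sum_congr rfl h1]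
  refine (sum_le_sum_of_subset_of_nonneg (t := T.powerset)
    (fun S hS => mem_powerset.2 (mem_powersetCard.1 hS).1)
    fun _ _ _ => prod_nonneg fun _ _ => by positivity).trans ?_
  rw [← prod_one_add, mul_sum, Real.exp_sum]
  refine prod_le_prod (fun _ _ => by positivity) fun p _ => ?_
  rw [add_comm]
  exact Real.add_one_le_exp _

end Beta

open Beta

theorem beta (h1 : BETA1) (h2 : BETA2) : BETA := by
  intro T K z t lam hK hz hl hT
  have Kz : K ≤ K * z := Nat.le_mul_of_pos_right _ hz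
  refine ⟨fun y => ?_, ?_, fun q hq => ?_⟩
  · refine (split T K z t (fun q => av2 q fun x => ind (q ∣ qq x y)) fun q => ?_).trans
      (add_le_add ?_ ?_)
    · refine div_nonneg (sum_nonneg fun x _ => ?_) (by positivity)
      unfold ind
      split_ifs <;> norm_num
    · have k0 : 0 < (K : ℝ) ^ (1 / 4 : ℝ) := one_pos.trans_le (rt1 hK)
      have k1 : 0 ≤ 4 / ((K * z : ℕ) : ℝ) ^ (1 / 4 : ℝ) := by positivity
      calc _ ≤ ∑ j ∈ Ioc K (K * z), 72 * 2 ^ 32 * (1 / ((j : ℝ) ^ (1 / 4 : ℝ)) ^ 5) :=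
            sum_le_sum fun j hj => by
              have j1 : 1 ≤ j := hK.trans (mem_Ioc.1 hj).1.le
              exact (h1 (j ^ 2) y (Nat.pow_pos j1)).2.trans (term j1)
        _ ≤ 72 * 2 ^ 32 * (4 / (K : ℝ) ^ (1 / 4 : ℝ)) := by
            rw [← mul_sum]
            exact mul_le_mul_of_nonneg_left ((tele hK _ Kz).trans (by linarith)) (by positivity)
        _ ≤ _ := by
            rw [← mul_div_assoc]
            exact div_le_div_of_nonneg_right (by norm_num) k0.le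
    · exact (sum_le_sum fun S hS => h2 S y fun p hp =>
        (hT p ((mem_powersetCard.1 hS).1 hp)).1).trans (prs T t lam hl)
  · refine (split T K z t (fun q => (q : ℝ)) fun q => Nat.cast_nonneg q).trans ?_
    have a : ∑ j ∈ Ioc K (K * z), j ^ 2 ≤ (K * z) ^ 3 := by
      refine (sum_le_card_nsmul _ _ ((K * z) ^ 2) fun j hj =>
        Nat.pow_le_pow_left (mem_Ioc.1 hj).2 2).trans ?_
      rw [Nat.card_Ioc, smul_eq_mul, pow_succ' _ 2]
      exact Nat.mul_le_mul_right _ (Nat.sub_le _ _)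
    have c : T.card ≤ z := by
      have := card_le_card (show T ⊆ Icc 1 z from fun p hp =>
        mem_Icc.2 ⟨(hT p hp).1.pos, (hT p hp).2⟩)
      simpa using this
    have b : ∑ S ∈ T.powersetCard t, ∏ p ∈ S, p ≤ z ^ (2 * t) := by
      refine (sum_le_card_nsmul _ _ (z ^ t) fun S hS => ?_).trans ?_
      · rw [← (mem_powersetCard.1 hS).2]
        exact prod_le_pow_card _ _ _ fun p hp => (hT p ((mem_powersetCard.1 hS).1 hp)).2
      · rw [card_powersetCard, smul_eq_mul, two_mul, pow_add]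
        exact Nat.mul_le_mul_right _ ((Nat.choose_le_pow _ _).trans (Nat.pow_le_pow_left c t))
    exact_mod_cast Nat.add_le_add a b
  · rcases mem_union.1 hq with k | k
    · obtain ⟨j, hj, rfl⟩ := mem_image.1 k
      obtain ⟨j1, j2⟩ := mem_filter.1 hj
      refine ⟨Nat.pow_pos (hK.trans (mem_Ioc.1 j1).1.le), ?_⟩
      rwa [Nat.primeFactors_pow _ two_ne_zero]
    · obtain ⟨S, hS, rfl⟩ := mem_image.1 k
      have s := (mem_powersetCard.1 hS).1
      refine ⟨prod_pos fun p hp => (hT p (s hp)).1.pos, ?_⟩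
      rwa [Nat.primeFactors_prod fun p hp => (hT p (s hp)).1]

end Pool.Agent.MP_6c3157_co.LG
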