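import Pool.Agent.MP_6c3157_co.LG.Spec

/-! Project LG: dense subsets of the grid. -/

set_option autoImplicit false

noncomputable section

namespace Pool.Agent.MP_6c3157_co.LG

open Finset Filter

theorem dense (h : MAIN) (A ε : ℝ) (hε : 0 < ε) : ∃ N₀ : ℕ, ∀ N : ℕ, N₀ ≤ N →
    ∀ P : Finset (EuclideanSpace ℝ (Fin 2)), (∀ y ∈ P, ∀ i, ∃ k : ℕ, k < N ∧ y i = k) →
    2 * (N : ℝ) ^ 2 / Real.log N ^ A ≤ P.card →
    ∃ B : Finset (EuclideanSpace ℝ (Fin 2)), (B.card : ℝ) ≤ P.card / 2 ∧ ∀ x ∈ P, x ∉ B →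
      (P.card : ℝ) / Real.log P.card ^ (1 / 2 + ε) ≤
        ((P.image fun y => dist x y).erase 0).card := by
  obtain ⟨C, N₀, h⟩ := h A
  have t1 : Tendsto (fun N : ℕ => Real.log N) atTop atTop :=
    Real.tendsto_log_atTop.comp tendsto_natCast_atTop_atTop
  have t2 := Real.tendsto_log_atTop.comp t1
  have t3 := Real.tendsto_log_atTop.comp t2
  have t4 : ∀ᶠ N : ℕ in atTop, Real.log N ^ A ≤ N := by
    have := (isLittleO_log_rpow_rpow_atTop A one_pos).bound one_pos
    filter_upwards [tendsto_natCast_atTop_atTop.eventually this] with N k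
    rw [one_mul, Real.rpow_one, Real.norm_natCast] at k
    exact (le_abs_self _).trans k
  obtain ⟨N₁, k⟩ := eventually_atTop.1 ((t1.eventually_ge_atTop 1).and
    ((t2.eventually_ge_atTop 0).and ((t3.eventually_ge_atTop (|C| / ε + 1)).and
      (t4.and (eventually_ge_atTop 1)))))
  refine ⟨max N₀ N₁, fun N hN P hP hc => ?_⟩
  obtain ⟨k1, k2, k3, k4, k5⟩ := k N (le_of_max_le_right hN)
  simp only [Function.comp] at k2 k3
  obtain ⟨E, e1, e2⟩ := h N (le_of_max_le_left hN) P hP
  have L0 : 0 < Real.log N := by linarith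
  have N0 : (0 : ℝ) < N := by exact_mod_cast k5
  refine ⟨E, by rw [mul_div_assoc] at hc; linarith, fun x hx hE =>
    le_trans ?_ (e2 x (hP x hx) hE)⟩
  have n1 : (N : ℝ) ≤ P.card := by
    refine le_trans ?_ hc
    rw [le_div_iff₀ (by positivity)]
    nlinarith
  have n2 : Real.log N ≤ Real.log P.card := Real.log_le_log N0 n1
  have c0 : 0 ≤ |C| / ε := by positivity
  have c1 : C * (Real.log (Real.log N) / Real.log (Real.log (Real.log N))) ≤
      Real.log (Real.log N) * ε := by
    rw [mul_div_left_comm]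
    refine mul_le_mul_of_nonneg_left ?_ k2
    rw [div_le_iff₀ (by linarith)]
    have : |C| / ε * ε = |C| := by field_simp
    nlinarith [le_abs_self C]
  refine div_le_div_of_nonneg_left (by positivity) (by positivity) ?_
  refine le_trans ?_ (Real.rpow_le_rpow L0.le n2 (by positivity))
  rw [Real.rpow_add L0, Real.sqrt_eq_rpow, Real.rpow_def_of_pos L0 ε]
  gcongr

end Pool.Agent.MP_6c3157_co.LG
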