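import Pool.Agent.MP_6c3157_co.LG.Spec2
import Pool.Agent.MP_6c3157_co.LG.Euc

/-! Project LG, row EUC2: from integer coordinates to the Euclidean plane, uniform version. -/

set_option autoImplicit false

noncomputable section

namespace Pool.Agent.MP_6c3157_co.LG

open Finset Filter

open EucL in
theorem euc2 (h : GRID2) : MAIN2 := by
  classical
  obtain ⟨N₀, hN⟩ := eventually_atTop.1 h
  refine ⟨N₀, fun N hle δ hd1 hd2 Y hY => ?_⟩
  obtain ⟨h1, h2⟩ := hN N hle
  have h3 : (2 : ℝ) ≤ Real.log N := h1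
  have hN0 : (0 : ℝ) < N := by
    rcases Nat.eq_zero_or_pos N with rfl | hp
    · simp at h3
      linarith
    · exact_mod_cast hp
  have hp : (0 : ℝ) < (N : ℝ) ^ (-1 / 100 : ℝ) := Real.rpow_pos_of_pos hN0 _
  have hδ : 0 < δ := hp.trans_le hd1
  have hs1 : l2 N ≤ Real.log (1 / δ) := by
    refine Real.log_le_log (by linarith) ?_
    exact (le_one_div (by linarith) hδ).2 hd2
  have hs2 : Real.log (1 / δ) ≤ l1 N / 100 := by
    have h4 := Real.log_le_log hp hd1
    rw [Real.log_rpow hN0] at h4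
    rw [one_div, Real.log_inv, l1]
    linarith
  have he : Real.exp (-Real.log (1 / δ)) = δ := by
    rw [one_div, Real.log_inv, neg_neg, Real.exp_log hδ]
  have hYe : ((box N).filter fun x => pt x ∈ Y).image pt = Y := by
    ext y
    simp only [mem_image, mem_filter]
    constructor
    · rintro ⟨x, ⟨-, hx⟩, rfl⟩
      exact hx
    · intro hy
      obtain ⟨x, hx, rfl⟩ := pt_surj (hY y hy)
      exact ⟨x, ⟨hx, hy⟩, rfl⟩
  obtain ⟨E, hE, hE'⟩ := h2 _ hs1 hs2 _ (filter_subset (fun x => pt x ∈ Y) (box N))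
  refine ⟨E.image pt, ?_, fun x hx hxE => ?_⟩
  · rw [card_image_of_injective _ pt_inj, ← he]
    exact hE
  · obtain ⟨u, hu, rfl⟩ := pt_surj hx
    have h4 := hE' u hu fun hh => hxE (mem_image_of_mem _ hh)
    rw [← hYe, card_eq, card_image_of_injective _ pt_inj]
    exact h4

end Pool.Agent.MP_6c3157_co.LG
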