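import Pool.Agent.MP_6c3157_co.LG.Spec

/-! Project LG: the statements uniform in the size `exp (-s)` of the exceptional set. -/

set_option autoImplicit false

noncomputable section

namespace Pool.Agent.MP_6c3157_co.LG

open Finset Filter

/-- lower end of the primes -/
def y0 (N : ℕ) (s : ℝ) : ℕ := ⌈l1 N ^ 4 * Real.exp s⌉₊
/-- depth of the sieve -/
def ky (N : ℕ) (s : ℝ) : ℕ := ⌈2 * (s + 7 * l2 N)⌉₊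
/-- upper end of the primes -/
def y1 (N : ℕ) (s : ℝ) : ℕ := ⌊Real.exp (l1 N / (4 * ky N s))⌋₊
/-- number of other prime factors -/
def ty (s : ℝ) : ℕ := ⌈12 * s / Real.log s⌉₊
/-- bound for square factors -/
def Ky (N : ℕ) (s : ℝ) : ℕ := ⌈l1 N ^ 10 * Real.exp (2 * s)⌉₊

/-- numerical facts, sieve -/
def NUMA2 : Prop :=
  ∀ᶠ N : ℕ in atTop, 3 ≤ N ∧ 2000 ≤ l1 N ∧ ∀ s : ℝ, l2 N ≤ s → s ≤ l1 N / 100 →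
    2 ≤ y0 N s ∧ 1 ≤ y1 N s ∧ (y1 N s : ℝ) ^ ky N s ≤ N ∧
    9 * l1 N / y0 N s ≤ Real.exp (-s) / l1 N ^ 2 ∧
    er (pr 0 (y1 N s)) (y1 N s) N (ky N s) ≤ N * (Real.exp (-s) / l1 N ^ 2) ∧
    (Real.exp s * l1 N ^ 2) ^ 2 * N + Real.exp s * l1 N ^ 2 ≤ Real.exp (-s) * (N : ℝ) ^ 2

/-- numerical facts, bad numbers -/
def NUMB2 : Prop :=
  ∀ᶠ N : ℕ in atTop, ∀ s : ℝ, l2 N ≤ s → s ≤ l1 N / 100 → 1 ≤ Ky N s ∧ 1 ≤ √s ∧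
    1 + 4 * (((2 * N ^ 2 : ℕ) : ℝ) * (1 + Real.log (2 * N ^ 2 : ℕ)) *
      (2 ^ 32 * (1 + Real.log (2 * N ^ 2 : ℕ)) / √(Ky N s) +
        Real.exp (2 * √s * ∑ p ∈ pr 0 (y0 N s) ∪ pr (y1 N s) (2 * N ^ 2), (1 : ℝ) / p) /
          √s ^ ty s)) ≤ Real.exp (-s) / l1 N ^ 2 * (N : ℝ) ^ 2

/-- numerical facts, the loss -/
def NUMC2 : Prop :=
  ∀ᶠ N : ℕ in atTop, ∀ s : ℝ, l2 N ≤ s → 0 ≤ s / Real.log s ∧ ∀ j : ℕ, 1 ≤ j → j ≤ Ky N s →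
    96 * ((j ^ 2).divisors.card : ℝ) * 2 ^ ty s ≤ Real.exp (120 * (s / Real.log s))

/-- the theorem in integer coordinates -/
def GRID2 : Prop :=
  ∀ᶠ N : ℕ in atTop, 2 ≤ l1 N ∧ ∀ s : ℝ, l2 N ≤ s → s ≤ l1 N / 100 → ∀ Y ⊆ box N,
    ∃ E : Finset (ℕ × ℕ), (E.card : ℝ) ≤ Real.exp (-s) * (N : ℝ) ^ 2 ∧ ∀ x ∈ box N, x ∉ E →
      (Y.card : ℝ) / (√(l1 N) * Real.exp (120 * (s / Real.log s))) ≤ dd Y x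

/-- the theorem -/
def MAIN2 : Prop :=
  ∃ N₀ : ℕ, ∀ N : ℕ, N₀ ≤ N → ∀ δ : ℝ, (N : ℝ) ^ (-1 / 100 : ℝ) ≤ δ → δ ≤ 1 / Real.log N →
    ∀ Y : Finset (EuclideanSpace ℝ (Fin 2)), (∀ y ∈ Y, ∀ i, ∃ k : ℕ, k < N ∧ y i = k) →
    ∃ E : Finset (EuclideanSpace ℝ (Fin 2)), (E.card : ℝ) ≤ δ * (N : ℝ) ^ 2 ∧
      ∀ x : EuclideanSpace ℝ (Fin 2), (∀ i, ∃ k : ℕ, k < N ∧ x i = k) → x ∉ E →
        (Y.card : ℝ) / (√(Real.log N) * Real.exp (120 * (Real.log (1 / δ) /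
          Real.log (Real.log (1 / δ))))) ≤ ((Y.image fun y => dist x y).erase 0).card

end Pool.Agent.MP_6c3157_co.LG
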