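import Pool.Agent.MP_6c3157_co.LG.Grid
import Pool.Agent.MP_6c3157_co.LG.Spec2

/-! Project LG: assembly in integer coordinates, uniform version. -/

set_option autoImplicit false

noncomputable section

namespace Pool.Agent.MP_6c3157_co.LG

open Finset Filter

open Gr in
theorem grid2 (hR : RTWO) (hV : VAR) (hG : GOOD) (hD : DSUM) (hP : PHI) (hS : SMALL) (hA : NUMA2)
    (hB : NUMB2) (hC : NUMC2) : GRID2 := by
  classical
  filter_upwards [hA, hB, hC] with N ⟨N3, hL, hA⟩ hB hC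
  have L1 : 1 ≤ l1 N := by linarith
  have L0 : 0 < l1 N := by linarith
  refine ⟨by linarith, fun s hs hs' Y hY => ?_⟩
  obtain ⟨a0, a1, a2, a3, a4, a5⟩ := hA s hs hs'
  obtain ⟨b0, b1, b2⟩ := hB s hs hs'
  obtain ⟨c0, c1⟩ := hC s hs
  have s0 : 0 ≤ s := le_trans (Real.log_nonneg L1) hs
  have es : Real.exp s * Real.exp (-s) = 1 := by rw [← Real.exp_add]; simp
  have s2 : √(l1 N) ^ 2 = l1 N := Real.sq_sqrt L0.le
  have s1 : 1 ≤ √(l1 N) := Real.one_le_sqrt.2 L1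
  have x1 : 1 ≤ Real.exp (120 * (s / Real.log s)) := Real.one_le_exp (by positivity)
  have N0 : (0 : ℝ) < N := by exact_mod_cast (by omega : 0 < N)
  obtain ⟨ex, hex⟩ : ∃ ex, ex = Real.exp (120 * (s / Real.log s)) := ⟨_, rfl⟩
  rw [← hex] at x1 c1 ⊢
  by_cases hn : (Y.card : ℝ) ≤ Real.exp s * l1 N ^ 2
  · obtain ⟨E, e1, e2⟩ := hS N Y
    refine ⟨E, le_trans ?_ a5, fun x hx k => ?_⟩
    · refine le_trans (b := (Y.card : ℝ) ^ 2 * N + Y.card) (by exact_mod_cast e1) ?_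
      gcongr
    · refine (div_le_self (by positivity) (one_le_mul_of_one_le_of_one_le s1 x1)).trans ?_
      exact_mod_cast e2 x hx k
  rw [not_le] at hn
  have n0 : (0 : ℝ) < Y.card := lt_trans (by positivity) hn
  obtain ⟨P, hP'⟩ : ∃ P, P = pr1 (y0 N s) (y1 N s) := ⟨_, rfl⟩
  have Pm : ∀ p ∈ P, p.Prime ∧ y0 N s < p ∧ p ≤ y1 N s := fun p hp => by
    rw [hP'] at hp
    exact ⟨(mem_pr.1 (mem_filter.1 hp).1).2, (mem_pr.1 (mem_filter.1 hp).1).1⟩
  have er1 : er P (y1 N s) N (ky N s) ≤ N * (Real.exp (-s) / l1 N ^ 2) := by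
    exact (er_mono (fun p hp => mem_pr.2 ⟨⟨(Pm p hp).1.pos, (Pm p hp).2.2⟩, (Pm p hp).1⟩)
      _ _ _).trans a4
  obtain ⟨φ, hφ⟩ : ∃ φ, φ = ∏ p ∈ P, (1 - 1 / (p : ℝ)) := ⟨_, rfl⟩
  have φ0 : 0 ≤ φ := hφ ▸ prod_nonneg fun p hp => by
    have : (1 : ℝ) ≤ p := by exact_mod_cast (Pm p hp).1.one_le
    rw [sub_nonneg, div_le_one (by linarith)]; exact this
  have d1 : Real.exp (-s) / l1 N ^ 2 ≤ 1 := by
    rw [div_le_one (by positivity)]
    exact (Real.exp_le_one_iff.2 (by linarith)).trans (one_le_pow₀ L1)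
  have φ1 : 1 ≤ 6 * √(l1 N) * φ := by
    have k := hP (y0 N s) (y1 N s) (ky N s) a0 a1
    rw [← hP', ← hφ] at k
    refine k.trans (mul_le_mul_of_nonneg_right ?_ φ0)
    have z1' : (1 : ℝ) ≤ y1 N s := by exact_mod_cast a1
    have k1 : √(1 + 2 * Real.log ((y1 N s : ℝ) ^ ky N s)) ≤ 2 * √(l1 N) := by
      refine Real.sqrt_le_iff.2 ⟨by positivity, ?_⟩
      have : Real.log ((y1 N s : ℝ) ^ ky N s) ≤ l1 N := Real.log_le_log (by positivity) a2
      nlinarith
    have k2 : (∏ p ∈ P, (1 + 4 / (p : ℝ))) / 2 ^ ky N s ≤ 1 := by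
      refine le_of_mul_le_mul_left ?_ N0
      refine le_trans ?_ (er1.trans (mul_le_mul_of_nonneg_left d1 N0.le))
      have w0 : 0 ≤ ∏ p ∈ P, (1 + 4 / (p : ℝ)) := prod_nonneg fun _ _ => by positivity
      rw [er, mul_div_left_comm, mul_comm]
      refine mul_le_mul_of_nonneg_right ?_ w0
      have : (0 : ℝ) ≤ (y1 N s : ℝ) ^ (2 * ky N s) := by positivity
      have : (0 : ℝ) ≤ N / 2 ^ ky N s := by positivity
      rw [mul_div_assoc]
      linarith
    linarith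
  obtain ⟨B, hB'⟩ : ∃ B, B = Bad (pr 0 (y0 N s) ∪ pr (y1 N s) (2 * N ^ 2)) (Ky N s) (ty s) :=
    ⟨_, rfl⟩
  obtain ⟨E1, hE1⟩ : ∃ E1, E1 = (box N).filter fun x => ∑ y ∈ Y, ff P (qq x y) < Y.card * φ / 2 :=
    ⟨_, rfl⟩
  obtain ⟨E2, hE2⟩ : ∃ E2, E2 = (box N).filter fun x => Y.card * φ / 4 <
      ((Y.filter fun y => qq x y = 0 ∨ B (qq x y)).card : ℝ) := ⟨_, rfl⟩
  have e1 : (E1.card : ℝ) ≤ 864 * l1 N * (Real.exp (-s) / l1 N ^ 2) * N ^ 2 := by
    have k := hV P (y0 N s) (y1 N s) N (ky N s) Y (by omega) a1 N3 hY Pm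
    rw [← hφ, ← hE1] at k
    refine n1 L1 s2 n0 φ1 (by positivity) (by positivity) N0.le a3 er1 ?_ k
    rw [← mul_div_assoc, one_le_div (by positivity)]
    nlinarith [mul_le_mul_of_nonneg_right hn.le (Real.exp_pos (-s)).le]
  have e2 : (E2.card : ℝ) ≤ 24 * l1 N * (Real.exp (-s) / l1 N ^ 2 * (N : ℝ) ^ 2) := by
    refine n2 L1 s2 n0 φ1 (by positivity) (by positivity) (by positivity) ?_
    have k := hD (pr 0 (y0 N s) ∪ pr (y1 N s) (2 * N ^ 2)) (2 * N ^ 2) (Ky N s) (ty s)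
      √s (Nat.succ_le_of_lt (mul_pos two_pos (pow_pos (by omega) 2))) b0 b1
      fun p hp => (mem_union.1 hp).elim (fun h => (mem_pr.1 h).2) fun h => (mem_pr.1 h).2
    rw [← hB'] at k
    calc (E2.card : ℝ) * (Y.card * φ / 4)
        ≤ ∑ x ∈ E2, ((Y.filter fun y => qq x y = 0 ∨ B (qq x y)).card : ℝ) := by
          rw [← nsmul_eq_mul]
          exact card_nsmul_le_sum _ _ _ fun x hx => (mem_filter.1 (hE2 ▸ hx)).2.le
      _ ≤ ∑ x ∈ box N, ((Y.filter fun y => qq x y = 0 ∨ B (qq x y)).card : ℝ) :=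
          sum_le_sum_of_subset_of_nonneg (hE2 ▸ filter_subset _ _) fun _ _ _ => by positivity
      _ = ∑ y ∈ Y, (((box N).filter fun x => qq x y = 0 ∨ B (qq x y)).card : ℝ) := by
          simp only [card_filter, Nat.cast_sum]
          exact sum_comm
      _ ≤ _ := by
          rw [← nsmul_eq_mul]
          refine sum_le_card_nsmul _ _ _ fun y hy => (fib2 hR (hY hy) B).trans (le_trans ?_ b2)
          have := k
          linarith
  refine ⟨E1 ∪ E2, ?_, fun x hx k => ?_⟩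
  · have u : ((E1 ∪ E2).card : ℝ) ≤ E1.card + E2.card := by exact_mod_cast card_union_le _ _
    refine (u.trans (add_le_add e1 e2)).trans ?_
    have : 864 * l1 N * (Real.exp (-s) / l1 N ^ 2) * (N : ℝ) ^ 2 +
        24 * l1 N * (Real.exp (-s) / l1 N ^ 2 * (N : ℝ) ^ 2) = 888 / l1 N * (Real.exp (-s) * (N : ℝ) ^ 2) := by
      field_simp; ring
    rw [this]
    exact mul_le_of_le_one_left (by positivity) ((div_le_one L0).2 (by linarith))
  rw [mem_union, not_or, hE1, hE2, mem_filter, mem_filter] at k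
  have k1 := not_lt.1 fun h => k.1 ⟨hx, h⟩
  have k2 := not_lt.1 fun h => k.2 ⟨hx, h⟩
  have ex0 : 0 < ex := by linarith
  have f := fib1 hR Y x (g := fun m => if m = 0 ∨ B m then 0 else ff P m * (24 / ex)) (by simp)
    fun y hy h0 => by
      split_ifs with h
      · simp
      · refine ⟨mul_nonneg (ff_bd _ _).1 (by positivity), ?_⟩
        have g := hG (y0 N s) (y1 N s) (2 * N ^ 2) (Ky N s) (ty s) (qq x y) _ _
          (ex / (96 * 2 ^ ty s)) a0 h0 (qq_le hx (hY hy)) (qq_cast x y)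
          (fun j j1 j2 => by
            rw [le_div_iff₀ (by positivity)]
            linarith [c1 j j1 j2]) (hB' ▸ fun b => h (Or.inr b))
        rw [← hP'] at g
        have e : ex / (96 * 2 ^ ty s) * 2 ^ ty s = ex / 96 := by field_simp
        rw [e] at g
        calc _ = 96 / ex * (((qq x y).divisors.card : ℝ) * ff P (qq x y)) := by ring
          _ ≤ 96 / ex * (ex / 96) := by gcongr
          _ = 1 := by field_simp
  refine le_trans ?_ f
  have t : ∑ y ∈ Y, ff P (qq x y) * (24 / ex) ≤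
      ∑ y ∈ Y, ((if qq x y = 0 ∨ B (qq x y) then 0 else ff P (qq x y) * (24 / ex)) +
        (if qq x y = 0 ∨ B (qq x y) then 1 else 0) * (24 / ex)) := sum_le_sum fun y _ => by
    split_ifs
    · rw [zero_add]
      exact mul_le_mul_of_nonneg_right (ff_bd _ _).2 (by positivity)
    · simp
  rw [sum_add_distrib, ← sum_mul, ← sum_mul, sum_boole] at t
  have v : (Y.card : ℝ) / (√(l1 N) * ex) ≤ Y.card * φ / 4 * (24 / ex) := by
    rw [div_le_iff₀ (by positivity)]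
    have : (Y.card : ℝ) * φ / 4 * (24 / ex) * (√(l1 N) * ex) = Y.card * (6 * √(l1 N) * φ) := by
      field_simp; ring
    rw [this]
    exact le_mul_of_one_le_right n0.le φ1
  have w : (0 : ℝ) ≤ 24 / ex := by positivity
  nlinarith [mul_le_mul_of_nonneg_right k1 w, mul_le_mul_of_nonneg_right k2 w]

end Pool.Agent.MP_6c3157_co.LG
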