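import Pool.Agent.MP_6c3157_co.LG.Spec

/-! Project LG: the numerical facts for bad numbers. -/

set_option autoImplicit false

noncomputable section

namespace Pool.Agent.MP_6c3157_co.LG

open Finset Filter

namespace Numb

theorem t1 : Tendsto l1 atTop atTop :=
  Real.tendsto_log_atTop.comp tendsto_natCast_atTop_atTop

theorem t2 : Tendsto l2 atTop atTop := Real.tendsto_log_atTop.comp t1

theorem t3 : Tendsto l3 atTop atTop := Real.tendsto_log_atTop.comp t2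

theorem sum_le (a N : ℕ) (C₁ C₂ : ℝ)
    (h1 : ∀ y : ℕ, 2 ≤ y → Real.exp (∑ p ∈ pr 0 y, (1 : ℝ) / p) ≤ C₁ * Real.log y)
    (h0 : 0 ≤ C₂) (h2 : ∀ a b : ℕ, 2 ≤ a → a ≤ b →
      |∑ p ∈ pr a b, (1 : ℝ) / p - Real.log (Real.log b / Real.log a)| ≤ C₂ / Real.log a)
    (hL : 2 ≤ l1 N) (hu : |C₁| * (a + 5) ≤ l2 N) (hu' : 4 * (2 * a + 15) ≤ l2 N)
    (hv : C₂ ≤ l3 N) :
    ∑ p ∈ pr 0 (z0 a N) ∪ pr (z1 a N) (2 * N ^ 2), (1 : ℝ) / p ≤ 6 * l3 N := by
  have ha : (0 : ℝ) ≤ a := Nat.cast_nonneg a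
  have hL0 : 0 < l1 N := by linarith
  have hu0 : 0 < l2 N := by linarith
  have hN : (0 : ℝ) < N := by
    rcases Nat.eq_zero_or_pos N with rfl | h
    · simp [l1] at hL; linarith
    · exact_mod_cast h
  have eL : Real.exp (l1 N) = N := Real.exp_log hN
  have eu : Real.exp (l2 N) = l1 N := Real.exp_log hL0
  have ev : Real.exp (l3 N) = l2 N := Real.exp_log hu0
  have hN1 : (1 : ℝ) ≤ N := by rw [← eL]; exact Real.one_le_exp hL0.le
  have hun : ∑ p ∈ pr 0 (z0 a N) ∪ pr (z1 a N) (2 * N ^ 2), (1 : ℝ) / p ≤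
      ∑ p ∈ pr 0 (z0 a N), (1 : ℝ) / p + ∑ p ∈ pr (z1 a N) (2 * N ^ 2), (1 : ℝ) / p := by
    rw [← sum_union_inter]
    exact le_add_of_nonneg_right (sum_nonneg fun p _ => by positivity)
  have hp : 2 ≤ l1 N ^ (a + 4) := hL.trans (le_self_pow₀ (by linarith) (by omega))
  have hz0 : (2 : ℝ) ≤ z0 a N := hp.trans (Nat.le_ceil _)
  have hz0' : (z0 a N : ℝ) ≤ l1 N ^ (a + 5) := by
    have := (Nat.ceil_lt_add_one (by linarith : 0 ≤ l1 N ^ (a + 4))).le
    rw [pow_succ]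
    unfold z0
    nlinarith
  have hl0 : Real.log (z0 a N) ≤ (a + 5) * l2 N := by
    refine (Real.log_le_log (by linarith) hz0').trans ?_
    rw [Real.log_pow]; push_cast; rfl
  have hl0' : 0 ≤ Real.log (z0 a N) := Real.log_nonneg (by linarith)
  have s0 : ∑ p ∈ pr 0 (z0 a N), (1 : ℝ) / p ≤ 2 * l3 N := by
    rw [← Real.exp_le_exp]
    refine (h1 _ (by exact_mod_cast hz0)).trans ?_
    rw [two_mul, Real.exp_add, ev]
    calc C₁ * Real.log (z0 a N) ≤ |C₁| * ((a + 5) * l2 N) :=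
          mul_le_mul (le_abs_self _) hl0 hl0' (abs_nonneg _)
      _ = |C₁| * (a + 5) * l2 N := by ring
      _ ≤ _ := mul_le_mul_of_nonneg_right hu hu0.le
  have hk : (kk a N : ℝ) ≤ (2 * a + 15) * l2 N := by
    have := (Nat.ceil_lt_add_one (by positivity : 0 ≤ 2 * (a + 7) * l2 N)).le
    unfold kk
    nlinarith
  have hk1 : (1 : ℝ) ≤ kk a N := by
    refine le_trans ?_ (Nat.le_ceil _)
    nlinarith
  have hcube : 4 * l2 N ^ 2 ≤ l1 N := by
    have := Real.pow_div_factorial_le_exp (l2 N) hu0.le 3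
    rw [eu] at this
    norm_num [Nat.factorial] at this
    nlinarith [sq_nonneg (l2 N)]
  set x := l1 N / (4 * kk a N) with hx
  have hxl : l1 N / l2 N ^ 2 ≤ x := by
    refine div_le_div_of_nonneg_left hL0.le (by linarith) ?_
    nlinarith
  have hx4 : 4 ≤ l1 N / l2 N ^ 2 := by rw [le_div_iff₀ (by positivity)]; exact hcube
  have hex : 5 ≤ Real.exp x := by linarith [Real.add_one_le_exp x]
  have hz1 : Real.exp x / 2 ≤ z1 a N := by
    have := Nat.lt_floor_add_one (Real.exp x)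
    unfold z1
    linarith
  have hz1' : (z1 a N : ℝ) ≤ N := by
    refine (Nat.floor_le (Real.exp_pos _).le).trans ?_
    refine le_trans (Real.exp_le_exp.2 ?_) eL.le
    exact div_le_self hL0.le (by linarith)
  have hl1 : x / 2 ≤ Real.log (z1 a N) := by
    refine le_trans ?_ (Real.log_le_log (by positivity) hz1)
    rw [Real.log_div (by positivity) (by norm_num), Real.log_exp]
    linarith [Real.log_two_lt_d9]
  have hW : Real.log ((2 * N ^ 2 : ℕ) : ℝ) ≤ 3 * l1 N := by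
    push_cast
    rw [Real.log_mul (by norm_num) (by positivity), Real.log_pow]
    push_cast
    unfold l1 at hL ⊢
    linarith [Real.log_two_lt_d9]
  have hle : z1 a N ≤ 2 * N ^ 2 := by
    have : (z1 a N : ℝ) ≤ 2 * (N : ℝ) ^ 2 := by nlinarith
    exact_mod_cast this
  have h2z : 2 ≤ z1 a N := by
    have : (2 : ℝ) ≤ z1 a N := by linarith
    exact_mod_cast this
  have s1 := (abs_le.1 (h2 _ _ h2z hle)).2
  have hc : C₂ / Real.log (z1 a N) ≤ C₂ := div_le_self h0 (by linarith)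
  have hW0 : 0 < Real.log ((2 * N ^ 2 : ℕ) : ℝ) :=
    Real.log_pos (by exact_mod_cast (by omega : 1 < 2 * N ^ 2))
  have hq : Real.log (Real.log ((2 * N ^ 2 : ℕ) : ℝ) / Real.log (z1 a N)) ≤ 3 * l3 N := by
    rw [Real.log_le_iff_le_exp (div_pos hW0 (by linarith)), div_le_iff₀ (by linarith)]
    have e3 : Real.exp (3 * l3 N) = l2 N ^ 3 := by
      have := Real.exp_nat_mul (l3 N) 3
      rw [ev] at this
      exact_mod_cast this
    rw [e3]
    have h3 : l1 N ≤ l2 N ^ 2 * x := by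
      rw [div_le_iff₀ (by positivity)] at hxl; linarith
    have h4 : l2 N ^ 3 * (x / 2) ≤ l2 N ^ 3 * Real.log (z1 a N) :=
      mul_le_mul_of_nonneg_left hl1 (by positivity)
    have h5 : 6 * (l2 N ^ 2 * x) ≤ l2 N * (l2 N ^ 2 * x) :=
      mul_le_mul_of_nonneg_right (by linarith) (by linarith)
    nlinarith
  linarith

end Numb

open Numb in
theorem numb : NUMB := by
  intro a
  obtain ⟨C₁, h1⟩ := mer1
  obtain ⟨C₂, h0, h2⟩ := mer2
  have hE := (Real.tendsto_exp_div_pow_atTop (a + 2)).comp t1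
  filter_upwards [t1.eventually_ge_atTop (3 * 2 ^ 39), t2.eventually_ge_atTop (|C₁| * (a + 5)),
    t2.eventually_ge_atTop (4 * (2 * a + 15)), t3.eventually_ge_atTop C₂,
    t3.eventually_ge_atTop 96, hE.eventually_ge_atTop 3, eventually_gt_atTop 0]
    with N hL hu hu' hv hv' hN3 hN0
  have ha : (0 : ℝ) ≤ a := Nat.cast_nonneg a
  have hS := sum_le a N C₁ C₂ h1 h0 h2 (by linarith) hu hu' hv
  have hL0 : 0 < l1 N := by linarith
  have hu0 : 0 < l2 N := by linarith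
  have hN : (1 : ℝ) ≤ N := by exact_mod_cast hN0
  have eL : Real.exp (l1 N) = N := Real.exp_log (by linarith)
  have eu : Real.exp (l2 N) = l1 N := Real.exp_log hL0
  have ev : Real.exp (l3 N) = l2 N := Real.exp_log hu0
  have es : √(l2 N) = Real.exp (l3 N / 2) := by rw [Real.exp_half, ev]
  have hK : l1 N ^ (2 * a + 10) ≤ KK a N := Nat.le_ceil _
  have hK1 : (1 : ℝ) ≤ KK a N := (one_le_pow₀ (by linarith)).trans hK
  refine ⟨by exact_mod_cast hK1, Real.one_le_sqrt.2 (by linarith), ?_⟩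
  set S := ∑ p ∈ pr 0 (z0 a N) ∪ pr (z1 a N) (2 * N ^ 2), (1 : ℝ) / p
  set Q := l1 N ^ (a + 2) with hQ
  have hQ0 : 0 < Q := by positivity
  have hp : l1 N ^ (a + 5) = Q * l1 N ^ 3 := by rw [hQ]; ring
  have hsK : Q * l1 N ^ 3 ≤ √(KK a N) := by
    refine Real.le_sqrt_of_sq_le (le_trans (le_of_eq ?_) hK)
    rw [← hp]; ring
  have hst : Q * l1 N ^ 3 ≤ √(l2 N) ^ tt a N := by
    rw [← hp, es, ← Real.exp_nat_mul, ← eu, ← Real.exp_nat_mul, Real.exp_le_exp]
    have : 2 * (a + 5) * l2 N / l3 N ≤ tt a N := Nat.le_ceil _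
    rw [div_le_iff₀ (by linarith)] at this
    push_cast
    linarith
  have hs : 12 * l3 N ≤ √(l2 N) := by
    have := Real.pow_div_factorial_le_exp (l3 N / 2) (by linarith) 2
    rw [← es] at this
    norm_num [Nat.factorial] at this
    nlinarith
  have hEx : Real.exp (2 * √(l2 N) * S) ≤ l1 N := by
    rw [← eu, Real.exp_le_exp]
    have := Real.mul_self_sqrt hu0.le
    nlinarith [Real.sqrt_nonneg (l2 N)]
  have hW : 1 + Real.log ((2 * N ^ 2 : ℕ) : ℝ) ≤ 4 * l1 N := by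
    push_cast
    rw [Real.log_mul (by norm_num) (by positivity), Real.log_pow]
    push_cast
    unfold l1 at hL ⊢
    linarith [Real.log_two_lt_d9]
  have hW0 : 0 ≤ 1 + Real.log ((2 * N ^ 2 : ℕ) : ℝ) := by
    linarith [Real.log_natCast_nonneg (2 * N ^ 2)]
  set W := 1 + Real.log ((2 * N ^ 2 : ℕ) : ℝ)
  have b1 : 2 ^ 32 * W / √(KK a N) ≤ 2 ^ 32 * (4 * l1 N) / (Q * l1 N ^ 3) := by gcongr
  have b2 : Real.exp (2 * √(l2 N) * S) / √(l2 N) ^ tt a N ≤ l1 N / (Q * l1 N ^ 3) := by gcongr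
  have b3 : 3 * Q ≤ (N : ℝ) ^ 2 := by
    simp only [Function.comp, eL] at hN3
    rw [le_div_iff₀ hQ0] at hN3
    nlinarith
  have b4 : (1 : ℝ) ≤ (N : ℝ) ^ 2 / Q / 3 := by
    rw [le_div_iff₀ (by norm_num), le_div_iff₀ hQ0]; linarith
  calc _ ≤ (N : ℝ) ^ 2 / Q / 3 + 4 * (((2 * N ^ 2 : ℕ) : ℝ) * (4 * l1 N) *
        (2 ^ 32 * (4 * l1 N) / (Q * l1 N ^ 3) + l1 N / (Q * l1 N ^ 3))) := by gcongr
    _ = (N : ℝ) ^ 2 / Q * (1 / 3 + (2 ^ 39 + 32) / l1 N) := by push_cast; field_simp; ring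
    _ ≤ (N : ℝ) ^ 2 / Q * 1 := by
        refine mul_le_mul_of_nonneg_left ?_ (by positivity)
        have : (2 ^ 39 + 32) / l1 N ≤ 2 / 3 := by rw [div_le_iff₀ hL0]; linarith
        linarith
    _ = _ := mul_one _

end Pool.Agent.MP_6c3157_co.LG
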